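import Pool.Agent.H86.CM.AnalysisDefs

/-! MODULE ANALYSIS: estimates for sums of i.i.d. nonnegative weights. -/

open MeasureTheory

namespace Pool.Agent.H86.CM

instance instProbConvPow (μ : Measure ℝ) [IsProbabilityMeasure μ] (k : ℕ) :
    IsProbabilityMeasure (convPow μ k) := by
  induction k with
  | zero => unfold convPow; infer_instance
  | succ k ih =>
    unfold convPow
    exact Measure.isProbabilityMeasure_map (by fun_prop)

section basic

set_option linter.unusedSectionVars false

variable (μ : Measure ℝ) [IsProbabilityMeasure μ]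

lemma ana_cdfPow_nonneg (k : ℕ) (t : ℝ) : 0 ≤ cdfPow μ k t := measureReal_nonneg

lemma ana_cdfPow_le_one (k : ℕ) (t : ℝ) : cdfPow μ k t ≤ 1 := by
  unfold cdfPow
  exact measureReal_le_one

lemma ana_cdfPow_mono (k : ℕ) : Monotone (cdfPow μ k) := by
  intro s t hst
  unfold cdfPow
  exact measureReal_mono (Set.Iic_subset_Iic.mpr hst)

lemma ana_cdfPow_measurable (k : ℕ) : Measurable (cdfPow μ k) :=
  (ana_cdfPow_mono μ k).measurable

lemma ana_cdfPow_zero (t : ℝ) : cdfPow μ 0 t = if 0 ≤ t then 1 else 0 := by
  unfold cdfPow convPow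
  by_cases h : 0 ≤ t
  · simp [h, Measure.real, Measure.dirac_apply' _ measurableSet_Iic]
  · simp [h, Measure.real, Measure.dirac_apply' _ measurableSet_Iic]

lemma ana_cdfPow_succ (k : ℕ) (t : ℝ) :
    cdfPow μ (k + 1) t = ∫ x, cdfPow μ k (t - x) ∂μ := by
  have hm : MeasurableSet ((fun p : ℝ × ℝ => p.1 + p.2) ⁻¹' Set.Iic t) := by
    apply measurableSet_preimage _ measurableSet_Iic
    fun_prop
  have h1 : convPow μ (k + 1) (Set.Iic t) = ∫⁻ x, convPow μ k (Set.Iic (t - x)) ∂μ := by
    rw [convPow, Measure.map_apply (by fun_prop) measurableSet_Iic, Measure.prod_apply hm]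
    congr 1
    ext x
    congr 1
    ext y
    simp only [Set.mem_preimage, Set.mem_Iic]
    constructor <;> intro h <;> linarith
  unfold cdfPow
  rw [Measure.real, h1]
  rw [integral_eq_lintegral_of_nonneg_ae]
  · congr 1
    apply lintegral_congr
    intro x
    rw [Measure.real, ENNReal.ofReal_toReal (measure_ne_top _ _)]
  · exact Filter.Eventually.of_forall fun x => measureReal_nonneg
  · have : Measurable (fun x => cdfPow μ k (t - x)) :=
      (ana_cdfPow_measurable μ k).comp (by fun_prop)
    exact this.aestronglyMeasurable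

lemma ana_pos (hpos : μ (Set.Iic 0) = 0) : ∀ᵐ x ∂μ, 0 < x := by
  rw [ae_iff]
  convert hpos using 2
  ext x
  simp

lemma ana_convPow_nonneg (hpos : μ (Set.Iic 0) = 0) (k : ℕ) : ∀ᵐ x ∂(convPow μ k), 0 ≤ x := by
  induction k with
  | zero =>
    unfold convPow
    rw [ae_dirac_iff measurableSet_Ici]
  | succ k ih =>
    unfold convPow
    rw [ae_map_iff (by fun_prop) measurableSet_Ici]
    have h1 : ∀ᵐ p ∂(μ.prod (convPow μ k)), 0 < p.1 :=
      (Measure.quasiMeasurePreserving_fst).ae (ana_pos μ hpos)
    have h2 : ∀ᵐ p ∂(μ.prod (convPow μ k)), 0 ≤ p.2 :=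
      (Measure.quasiMeasurePreserving_snd).ae ih
    filter_upwards [h1, h2] with p hp1 hp2
    linarith

lemma ana_cdfPow_neg (hpos : μ (Set.Iic 0) = 0) (k : ℕ) (t : ℝ) (ht : t < 0) :
    cdfPow μ k t = 0 := by
  unfold cdfPow
  rw [measureReal_eq_zero_iff]
  have h := ana_convPow_nonneg μ hpos k
  rw [ae_iff] at h
  refine measure_mono_null ?_ h
  intro x hx
  simp only [Set.mem_Iic] at hx
  show ¬ (0 ≤ x)
  linarith

lemma ana_exp_int (hpos : μ (Set.Iic 0) = 0) (s : ℝ) (hs : 0 ≤ s) (k : ℕ) :
    Integrable (fun x => Real.exp (-(s * x))) (convPow μ k) := by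
  refine Integrable.mono' (integrable_const (1 : ℝ)) (by fun_prop) ?_
  filter_upwards [ana_convPow_nonneg μ hpos k] with x hx
  rw [Real.norm_eq_abs, abs_of_pos (Real.exp_pos _), Real.exp_le_one_iff]
  have := mul_nonneg hs hx
  linarith

lemma ana_exp_int' (hpos : μ (Set.Iic 0) = 0) (s : ℝ) (hs : 0 ≤ s) :
    Integrable (fun x => Real.exp (-(s * x))) μ := by
  refine Integrable.mono' (integrable_const (1 : ℝ)) (by fun_prop) ?_
  filter_upwards [ana_pos μ hpos] with x hx
  rw [Real.norm_eq_abs, abs_of_pos (Real.exp_pos _), Real.exp_le_one_iff]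
  have := mul_nonneg hs hx.le
  linarith

lemma ana_exp_pow (s : ℝ) (k : ℕ) :
    ∫ x, Real.exp (-(s * x)) ∂(convPow μ k) = (∫ x, Real.exp (-(s * x)) ∂μ) ^ k := by
  induction k with
  | zero => simp [convPow]
  | succ k ih =>
    rw [convPow, integral_map (by fun_prop) (by fun_prop)]
    have : (fun p : ℝ × ℝ => Real.exp (-(s * (p.1 + p.2)))) =
        fun p : ℝ × ℝ => Real.exp (-(s * p.1)) * Real.exp (-(s * p.2)) := by
      funext p
      rw [← Real.exp_add]
      congr 1
      ring
    rw [this, integral_prod_mul (fun x => Real.exp (-(s * x))) (fun x => Real.exp (-(s * x))), ih,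
      pow_succ, mul_comm]

/-- Chernoff bound. -/
lemma ana_chernoff (hpos : μ (Set.Iic 0) = 0) (s : ℝ) (hs : 0 ≤ s) (k : ℕ) (t : ℝ) :
    cdfPow μ k t ≤ Real.exp (s * t) * (∫ x, Real.exp (-(s * x)) ∂μ) ^ k := by
  rw [← ana_exp_pow, ← integral_const_mul]
  unfold cdfPow
  rw [← integral_indicator_one measurableSet_Iic]
  apply integral_mono
  · exact (integrable_const (1 : ℝ)).indicator measurableSet_Iic
  · exact (ana_exp_int μ hpos s hs k).const_mul _
  · intro x
    by_cases hx : x ∈ Set.Iic t
    · simp only [Set.indicator_of_mem hx, Pi.one_apply]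
      rw [← Real.exp_add]
      apply Real.one_le_exp
      have : 0 ≤ s * (t - x) := mul_nonneg hs (by simpa using hx)
      linarith
    · simp only [Set.indicator_of_notMem hx]
      positivity

lemma ana_cdf_shift_int (k : ℕ) (t : ℝ) (ν : Measure ℝ) [IsProbabilityMeasure ν] :
    Integrable (fun x => cdfPow μ k (t - x)) ν := by
  refine Integrable.mono' (integrable_const (1 : ℝ)) ?_ ?_
  · exact ((ana_cdfPow_measurable μ k).comp (by fun_prop : Measurable fun x : ℝ => t - x)).aestronglyMeasurable
  · refine Filter.Eventually.of_forall fun x => ?_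
    rw [Real.norm_eq_abs, abs_of_nonneg (ana_cdfPow_nonneg μ k _)]
    exact ana_cdfPow_le_one μ k _

lemma ana_sum_rec (ν : ℝ) (t : ℝ) (N : ℕ) :
    ∑ k ∈ Finset.range (N + 1), ν ^ k * cdfPow μ k t =
      ν * (∫ x, ∑ k ∈ Finset.range N, ν ^ k * cdfPow μ k (t - x) ∂μ) + cdfPow μ 0 t := by
  rw [Finset.sum_range_succ', pow_zero, one_mul]
  congr 1
  rw [integral_finsetSum]
  · rw [Finset.mul_sum]
    apply Finset.sum_congr rfl
    intro k _
    rw [ana_cdfPow_succ, integral_const_mul, pow_succ]
    ring
  · intro k _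
    exact (ana_cdf_shift_int μ k t μ).const_mul _

end basic

/-- The Laplace transform at `2 α` beats the branching. -/
theorem laplace_two (μ : Measure ℝ) [IsProbabilityMeasure μ] (hpos : μ (Set.Iic 0) = 0)
    (ν α : ℝ) (hν : 1 < ν) (hα : 0 < α)
    (hmal : ν * ∫ x, Real.exp (-(α * x)) ∂μ = 1) :
    ν * ∫ x, Real.exp (-(2 * α * x)) ∂μ < 1 := by
  rw [← hmal]
  apply mul_lt_mul_of_pos_left _ (by linarith)
  have h1 := ana_exp_int' μ hpos (2 * α) (by linarith)
  have h2 := ana_exp_int' μ hpos α hα.le
  rw [← sub_pos, ← integral_sub h2 h1]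
  rw [integral_pos_iff_support_of_nonneg_ae]
  · have : ∀ᵐ x ∂μ, x ∈ Function.support
        (fun x => Real.exp (-(α * x)) - Real.exp (-(2 * α * x))) := by
      filter_upwards [ana_pos μ hpos] with x hx
      simp only [Function.mem_support, ne_eq]
      have : Real.exp (-(2 * α * x)) < Real.exp (-(α * x)) := by
        rw [Real.exp_lt_exp]
        nlinarith [mul_pos hα hx]
      linarith
    have h3 := prob_compl_eq_zero_iff₀ (μ := μ) (s := Function.support
        (fun x => Real.exp (-(α * x)) - Real.exp (-(2 * α * x))))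
        (measurableSet_support (by fun_prop)).nullMeasurableSet
    have h4 : μ (Function.support
        (fun x => Real.exp (-(α * x)) - Real.exp (-(2 * α * x))))ᶜ = 0 := by
      rw [ae_iff] at this
      exact this
    rw [h3.mp h4]
    norm_num
  · filter_upwards [ana_pos μ hpos] with x hx
    simp only [Pi.zero_apply]
    have : Real.exp (-(2 * α * x)) < Real.exp (-(α * x)) := by
      rw [Real.exp_lt_exp]
      nlinarith [mul_pos hα hx]
    linarith
  · exact h2.sub h1


/-- a continuity point with prescribed mass -/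
lemma ana_exists_threshold (μ : Measure ℝ) [IsProbabilityMeasure μ] (hpos : μ (Set.Iic 0) = 0)
    (hat : ∀ x, μ {x} = 0) (v : ℝ) (hv0 : 0 < v) (hv1 : v < 1) :
    ∃ t : ℝ, 0 ≤ t ∧ μ.real (Set.Iic t) = v := by
  have : NullSingletonClass μ := ⟨hat⟩
  have hcont : Continuous fun b : ℝ => ∫ x in (0 : ℝ)..b, (1 : ℝ) ∂μ :=
    intervalIntegral.continuous_primitive (fun a b => intervalIntegrable_const) 0
  have heq : ∀ b : ℝ, 0 ≤ b → ∫ x in (0 : ℝ)..b, (1 : ℝ) ∂μ = μ.real (Set.Iic b) := by
    intro b hb
    rw [intervalIntegral.integral_of_le hb]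
    simp only [integral_const, smul_eq_mul, mul_one, MeasurableSet.univ, measureReal_restrict_apply,
      Set.univ_inter]
    have h0 : μ.real (Set.Iic 0) = 0 := by
      rw [Measure.real, hpos]; rfl
    have hd : Set.Iic b = Set.Iic 0 ∪ Set.Ioc 0 b := (Set.Iic_union_Ioc_eq_Iic hb).symm
    rw [hd, measureReal_union]
    · rw [h0, zero_add]
    · rw [Set.disjoint_left]
      intro x hx hx2
      simp only [Set.mem_Iic, Set.mem_Ioc] at hx hx2
      linarith
    · exact measurableSet_Ioc
  have htend : Filter.Tendsto (fun b : ℝ => μ.real (Set.Iic b)) Filter.atTop (nhds 1) := by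
    have := tendsto_measure_Iic_atTop μ
    rw [measure_univ] at this
    have h2 := (ENNReal.tendsto_toReal ENNReal.one_ne_top).comp this
    simpa [Measure.real, Function.comp_def] using h2
  obtain ⟨b, hb⟩ := ((htend.eventually (lt_mem_nhds hv1)).and (Filter.eventually_ge_atTop 0)).exists
  have h1 : (fun b : ℝ => ∫ x in (0 : ℝ)..b, (1 : ℝ) ∂μ) 0 ≤ v := by
    simp [hv0.le]
  have h2 : v ≤ (fun b : ℝ => ∫ x in (0 : ℝ)..b, (1 : ℝ) ∂μ) b := by
    show v ≤ ∫ x in (0 : ℝ)..b, (1 : ℝ) ∂μ
    rw [heq b hb.2]
    exact hb.1.le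
  obtain ⟨t, ht, hvt⟩ := intermediate_value_Icc hb.2 hcont.continuousOn ⟨h1, h2⟩
  refine ⟨t, ht.1, ?_⟩
  rw [← heq t ht.1]
  exact hvt

/-- A1: upper bound of the renewal type. -/
theorem cdfPow_sum_upper (μ : Measure ℝ) [IsProbabilityMeasure μ] (hpos : μ (Set.Iic 0) = 0)
    (hat : ∀ x, μ {x} = 0) (ν α : ℝ) (hν : 1 < ν) (hα : 0 < α)
    (hmal : ν * ∫ x, Real.exp (-(α * x)) ∂μ = 1) :
    ∃ C : ℝ, 0 < C ∧ ∀ (t : ℝ) (N : ℕ),
      ∑ k ∈ Finset.range N, ν ^ k * cdfPow μ k t ≤ C * Real.exp (α * t) := by
  obtain ⟨v, hv1, hv2⟩ : ∃ v : ℝ, 1 / ν < v ∧ v < 1 := exists_between (by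
    rw [div_lt_one (by linarith)]; exact hν)
  have hv0 : 0 < v := lt_trans (by positivity) hv1
  obtain ⟨t1, ht1, hv⟩ := ana_exists_threshold μ hpos hat v hv0 hv2
  have hνv : 0 < ν * v - 1 := by
    rw [div_lt_iff₀ (by linarith)] at hv1
    linarith
  set D : ℝ := 1 / (ν * v - 1) with hD
  have hDpos : 0 < D := by positivity
  have hDeq : D * (ν * v - 1) = 1 := by
    rw [hD]; field_simp
  have hintα := ana_exp_int' μ hpos α hα.le
  set w : ℝ := ∫ x in Set.Ioi t1, Real.exp (-(α * x)) ∂μ with hw
  have hwpos : 0 < w := by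
    rw [hw, integral_pos_iff_support_of_nonneg (fun x => (Real.exp_pos _).le) hintα.restrict]
    have : Function.support (fun x => Real.exp (-(α * x))) = Set.univ := by
      ext x
      simp [Real.exp_ne_zero]
    rw [this, Measure.restrict_apply_univ]
    have h3 : μ.real (Set.Ioi t1) = 1 - v := by
      rw [← Set.compl_Iic, probReal_compl_eq_one_sub measurableSet_Iic, hv]
    have h4 : μ.real (Set.Ioi t1) ≠ 0 := by rw [h3]; linarith
    rw [pos_iff_ne_zero]
    intro h
    apply h4
    rw [Measure.real, h]; rfl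
  set C : ℝ := (1 + D) / (ν * w) + (1 + D) with hC
  have hC1 : 1 + D ≤ C * (ν * w) := by
    have : (1 + D) / (ν * w) * (ν * w) = 1 + D := by
      field_simp
    rw [hC, add_mul, this]
    have : 0 ≤ (1 + D) * (ν * w) := by positivity
    linarith
  have hC2 : 1 + D ≤ C := by
    have : 0 ≤ (1 + D) / (ν * w) := by positivity
    rw [hC]; linarith
  have hCpos : 0 < C := by linarith
  -- the supersolution bound
  have key : ∀ (N : ℕ) (t : ℝ), 0 ≤ t →
      ∑ k ∈ Finset.range N, ν ^ k * cdfPow μ k t ≤ C * Real.exp (α * t) - D := by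
    intro N
    induction N with
    | zero =>
      intro t ht
      simp only [Finset.range_zero, Finset.sum_empty]
      have : 1 ≤ Real.exp (α * t) := Real.one_le_exp (by positivity)
      nlinarith
    | succ N ih =>
      intro t ht
      rw [ana_sum_rec]
      have hneg : ∀ s : ℝ, s < 0 → ∑ k ∈ Finset.range N, ν ^ k * cdfPow μ k s = 0 := by
        intro s hs
        apply Finset.sum_eq_zero
        intro k _
        rw [ana_cdfPow_neg μ hpos k s hs, mul_zero]
      have hle : ∫ x, ∑ k ∈ Finset.range N, ν ^ k * cdfPow μ k (t - x) ∂μ ≤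
          ∫ x, (Set.Iic t).indicator (fun x => C * Real.exp (α * (t - x)) - D) x ∂μ := by
        apply integral_mono
        · apply integrable_finsetSum
          intro k _
          exact (ana_cdf_shift_int μ k t μ).const_mul _
        · apply Integrable.indicator _ measurableSet_Iic
          apply Integrable.sub _ (integrable_const D)
          have : (fun x => C * Real.exp (α * (t - x))) =
              fun x => (C * Real.exp (α * t)) * Real.exp (-(α * x)) := by
            funext x
            rw [mul_assoc, ← Real.exp_add]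
            congr 2
            ring
          rw [this]
          exact hintα.const_mul _
        · intro x
          by_cases hx : x ∈ Set.Iic t
          · rw [Set.indicator_of_mem hx]
            exact ih (t - x) (by simpa using hx)
          · rw [Set.indicator_of_notMem hx]
            simp only [Set.mem_Iic, not_le] at hx
            exact (hneg (t - x) (by linarith)).le
      have hval : ∫ x, (Set.Iic t).indicator (fun x => C * Real.exp (α * (t - x)) - D) x ∂μ =
          C * Real.exp (α * t) * (∫ x in Set.Iic t, Real.exp (-(α * x)) ∂μ)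
            - D * μ.real (Set.Iic t) := by
        rw [integral_indicator measurableSet_Iic, integral_sub]
        · rw [integral_const, ← integral_const_mul]
          congr 1
          · congr 1
            funext x
            rw [mul_assoc, ← Real.exp_add]
            congr 2
            ring
          · rw [measureReal_restrict_apply MeasurableSet.univ, Set.univ_inter, smul_eq_mul,
              mul_comm]
        · have : (fun x => C * Real.exp (α * (t - x))) =
              fun x => (C * Real.exp (α * t)) * Real.exp (-(α * x)) := by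
            funext x
            rw [mul_assoc, ← Real.exp_add]
            congr 2
            ring
          rw [this]
          exact (hintα.const_mul _).restrict
        · exact integrable_const D
      have hsplit : (∫ x in Set.Iic t, Real.exp (-(α * x)) ∂μ) +
          (∫ x in Set.Ioi t, Real.exp (-(α * x)) ∂μ) = ∫ x, Real.exp (-(α * x)) ∂μ := by
        rw [← Set.compl_Iic]
        exact integral_add_compl measurableSet_Iic hintα
      set a := ∫ x in Set.Iic t, Real.exp (-(α * x)) ∂μ
      set b := ∫ x in Set.Ioi t, Real.exp (-(α * x)) ∂μ with hb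
      have hb0 : 0 ≤ b := by
        rw [hb]
        exact integral_nonneg fun x => (Real.exp_pos _).le
      have hmain : 1 + D ≤ ν * D * μ.real (Set.Iic t) + C * Real.exp (α * t) * (ν * b) := by
        by_cases htt : t1 ≤ t
        · have h1 : v ≤ μ.real (Set.Iic t) := by
            rw [← hv]
            exact measureReal_mono (Set.Iic_subset_Iic.mpr htt)
          have h2 : 0 ≤ C * Real.exp (α * t) * (ν * b) := by positivity
          have h3 : ν * D * v ≤ ν * D * μ.real (Set.Iic t) := by
            apply mul_le_mul_of_nonneg_left h1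
            positivity
          nlinarith
        · push Not at htt
          have h1 : w ≤ b := by
            rw [hw, hb]
            apply setIntegral_mono_set hintα.restrict
            · exact Filter.Eventually.of_forall fun x => (Real.exp_pos _).le
            · exact (Set.Ioi_subset_Ioi htt.le).eventuallyLE
          have h2 : 1 ≤ Real.exp (α * t) := Real.one_le_exp (by positivity)
          have h3 : 0 ≤ ν * D * μ.real (Set.Iic t) := by positivity
          have h4 : C * (ν * w) ≤ C * Real.exp (α * t) * (ν * b) := by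
            apply mul_le_mul
            · nlinarith
            · exact mul_le_mul_of_nonneg_left h1 (by linarith)
            · positivity
            · positivity
          linarith
      have h0 : cdfPow μ 0 t ≤ 1 := ana_cdfPow_le_one μ 0 t
      rw [hval] at hle
      have hνle : ν * (∫ x, ∑ k ∈ Finset.range N, ν ^ k * cdfPow μ k (t - x) ∂μ) ≤
          ν * (C * Real.exp (α * t) * a - D * μ.real (Set.Iic t)) :=
        mul_le_mul_of_nonneg_left hle (by linarith)
      have hνab : ν * a = 1 - ν * b := by
        rw [← hmal, ← hsplit]; ring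
      have : ν * (C * Real.exp (α * t) * a - D * μ.real (Set.Iic t)) =
          C * Real.exp (α * t) * (ν * a) - ν * D * μ.real (Set.Iic t) := by ring
      rw [this, hνab] at hνle
      nlinarith
  refine ⟨C, hCpos, ?_⟩
  intro t N
  by_cases ht : 0 ≤ t
  · have := key N t ht
    linarith
  · push Not at ht
    have : ∑ k ∈ Finset.range N, ν ^ k * cdfPow μ k t = 0 := by
      apply Finset.sum_eq_zero
      intro k _
      rw [ana_cdfPow_neg μ hpos k t ht, mul_zero]
    rw [this]
    positivity


/-- A5: long sums are unlikely to be small. -/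
theorem cdfPow_long (μ : Measure ℝ) [IsProbabilityMeasure μ] (hpos : μ (Set.Iic 0) = 0)
    (ν : ℝ) (hν : 1 < ν) :
    ∃ A : ℝ, 0 < A ∧ ∀ (t : ℝ) (k : ℕ), 0 ≤ t → A * (t + 1) ≤ k →
      ν ^ k * cdfPow μ k t ≤ Real.exp (-t) := by
  have hlim : Filter.Tendsto (fun n : ℕ => ∫ x, Real.exp (-((n : ℝ) * x)) ∂μ) Filter.atTop
      (nhds (∫ _, (0 : ℝ) ∂μ)) := by
    apply tendsto_integral_of_dominated_convergence (fun _ => (1 : ℝ))
    · intro n
      fun_prop
    · exact integrable_const _
    · intro n
      filter_upwards [ana_pos μ hpos] with x hx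
      rw [Real.norm_eq_abs, abs_of_pos (Real.exp_pos _), Real.exp_le_one_iff]
      have : (0 : ℝ) ≤ n * x := by positivity
      linarith
    · filter_upwards [ana_pos μ hpos] with x hx
      have h1 : Filter.Tendsto (fun n : ℕ => -((n : ℝ) * x)) Filter.atTop Filter.atBot := by
        apply Filter.tendsto_neg_atTop_atBot.comp
        exact (tendsto_natCast_atTop_atTop).atTop_mul_const hx
      exact Real.tendsto_exp_atBot.comp h1
  rw [integral_zero] at hlim
  have hpos' : 0 < Real.exp (-1) / ν := by positivity
  obtain ⟨n, hn⟩ := (hlim.eventually (gt_mem_nhds hpos')).exists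
  refine ⟨(n : ℝ) + 1, by positivity, ?_⟩
  intro t k ht hk
  have h1 := ana_chernoff μ hpos n (Nat.cast_nonneg n) k t
  have h0 : 0 ≤ ∫ x, Real.exp (-((n : ℝ) * x)) ∂μ := integral_nonneg fun x => (Real.exp_pos _).le
  have h2 : ν * (∫ x, Real.exp (-((n : ℝ) * x)) ∂μ) ≤ Real.exp (-1) := by
    have := mul_le_mul_of_nonneg_left hn.le (by linarith : (0 : ℝ) ≤ ν)
    rwa [mul_div_cancel₀ _ (by linarith : ν ≠ 0)] at this
  calc ν ^ k * cdfPow μ k t ≤ ν ^ k * (Real.exp (n * t) * (∫ x, Real.exp (-((n : ℝ) * x)) ∂μ) ^ k) :=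
        mul_le_mul_of_nonneg_left h1 (by positivity)
    _ = Real.exp (n * t) * (ν * (∫ x, Real.exp (-((n : ℝ) * x)) ∂μ)) ^ k := by
        rw [mul_pow]; ring
    _ ≤ Real.exp (n * t) * (Real.exp (-1)) ^ k := by
        apply mul_le_mul_of_nonneg_left _ (Real.exp_pos _).le
        exact pow_le_pow_left₀ (mul_nonneg (by linarith) h0) h2 k
    _ = Real.exp (n * t - k) := by
        rw [← Real.exp_nat_mul, ← Real.exp_add]
        congr 1
        ring
    _ ≤ Real.exp (-t) := by
        rw [Real.exp_le_exp]
        nlinarith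

lemma ana_int_nonneg' (μ : Measure ℝ) (f : ℝ → ℝ) (hf : ∀ x, 0 ≤ f x) : 0 ≤ ∫ x, f x ∂μ :=
  integral_nonneg hf

/-- A2: lower bound of the renewal type. -/
theorem cdfPow_sum_lower (μ : Measure ℝ) [IsProbabilityMeasure μ] (hpos : μ (Set.Iic 0) = 0)
    (hat : ∀ x, μ {x} = 0) (ν α : ℝ) (hν : 1 < ν) (hα : 0 < α)
    (hmal : ν * ∫ x, Real.exp (-(α * x)) ∂μ = 1) :
    ∃ c A : ℝ, 0 < c ∧ 0 < A ∧ ∀ (t : ℝ) (N : ℕ), 0 ≤ t → A * (t + 1) ≤ N →
      c * Real.exp (α * t) ≤ ∑ k ∈ Finset.range N, ν ^ k * cdfPow μ k t := by
  have hL2 := laplace_two μ hpos ν α hν hα hmal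
  set q : ℝ := ν * ∫ x, Real.exp (-(2 * α * x)) ∂μ with hq
  have hintα := ana_exp_int' μ hpos α hα.le
  have hint2 := ana_exp_int' μ hpos (2 * α) (by linarith)
  have hq0 : 0 < q := by
    rw [hq]
    apply mul_pos (by linarith)
    rw [integral_pos_iff_support_of_nonneg (fun x => (Real.exp_pos _).le) hint2]
    have : Function.support (fun x => Real.exp (-(2 * α * x))) = Set.univ := by
      ext x
      simp [Real.exp_ne_zero]
    rw [this, measure_univ]
    norm_num
  -- key inequality by induction
  have key : ∀ (N : ℕ) (t : ℝ), 0 ≤ t →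
      Real.exp (α * t) ≤ ν * (∑ k ∈ Finset.range N, ν ^ k * cdfPow μ k t)
        + Real.exp (2 * α * t) * q ^ N := by
    intro N
    induction N with
    | zero =>
      intro t ht
      simp only [Finset.range_zero, Finset.sum_empty, mul_zero, pow_zero, mul_one, zero_add]
      rw [Real.exp_le_exp]
      nlinarith
    | succ N ih =>
      intro t ht
      rw [ana_sum_rec]
      have h0 : cdfPow μ 0 t = 1 := by rw [ana_cdfPow_zero, if_pos ht]
      rw [h0]
      -- integrate the induction hypothesis over x ≤ t
      have hsum_nonneg : ∀ s : ℝ, 0 ≤ ∑ k ∈ Finset.range N, ν ^ k * cdfPow μ k s := by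
        intro s
        apply Finset.sum_nonneg
        intro k _
        exact mul_nonneg (by positivity) (ana_cdfPow_nonneg μ k s)
      have hle : ∫ x, (Set.Iic t).indicator (fun x => Real.exp (α * (t - x))) x ∂μ ≤
          ∫ x, (ν * (∑ k ∈ Finset.range N, ν ^ k * cdfPow μ k (t - x))
            + Real.exp (2 * α * (t - x)) * q ^ N) ∂μ := by
        apply integral_mono
        · apply Integrable.indicator _ measurableSet_Iic
          have : (fun x => Real.exp (α * (t - x))) =
              fun x => (Real.exp (α * t)) * Real.exp (-(α * x)) := by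
            funext x
            rw [← Real.exp_add]
            congr 1
            ring
          rw [this]
          exact hintα.const_mul _
        · apply Integrable.add
          · apply Integrable.const_mul
            apply integrable_finsetSum
            intro k _
            exact (ana_cdf_shift_int μ k t μ).const_mul _
          · have : (fun x => Real.exp (2 * α * (t - x)) * q ^ N) =
              fun x => (Real.exp (2 * α * t) * q ^ N) * Real.exp (-(2 * α * x)) := by
              funext x
              have : Real.exp (2 * α * (t - x)) = Real.exp (2 * α * t) * Real.exp (-(2 * α * x)) := by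
                rw [← Real.exp_add]
                congr 1
                ring
              rw [this]; ring
            rw [this]
            exact hint2.const_mul _
        · intro x
          by_cases hx : x ∈ Set.Iic t
          · rw [Set.indicator_of_mem hx]
            exact ih (t - x) (by simpa using hx)
          · rw [Set.indicator_of_notMem hx]
            have h1 := hsum_nonneg (t - x)
            show 0 ≤ ν * (∑ k ∈ Finset.range N, ν ^ k * cdfPow μ k (t - x))
              + Real.exp (2 * α * (t - x)) * q ^ N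
            positivity
      have hval1 : ∫ x, (Set.Iic t).indicator (fun x => Real.exp (α * (t - x))) x ∂μ =
          Real.exp (α * t) * (∫ x in Set.Iic t, Real.exp (-(α * x)) ∂μ) := by
        rw [integral_indicator measurableSet_Iic, ← integral_const_mul]
        congr 1
        funext x
        rw [← Real.exp_add]
        congr 1
        ring
      have hval2 : ∫ x, (ν * (∑ k ∈ Finset.range N, ν ^ k * cdfPow μ k (t - x))
            + Real.exp (2 * α * (t - x)) * q ^ N) ∂μ =
          ν * (∫ x, ∑ k ∈ Finset.range N, ν ^ k * cdfPow μ k (t - x) ∂μ) +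
            (Real.exp (2 * α * t) * q ^ N) * ∫ x, Real.exp (-(2 * α * x)) ∂μ := by
        rw [integral_add, integral_const_mul]
        · congr 1
          rw [← integral_const_mul]
          congr 1
          funext x
          have : Real.exp (2 * α * (t - x)) = Real.exp (2 * α * t) * Real.exp (-(2 * α * x)) := by
            rw [← Real.exp_add]
            congr 1
            ring
          rw [this]; ring
        · apply Integrable.const_mul
          apply integrable_finsetSum
          intro k _
          exact (ana_cdf_shift_int μ k t μ).const_mul _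
        · have : (fun x => Real.exp (2 * α * (t - x)) * q ^ N) =
              fun x => (Real.exp (2 * α * t) * q ^ N) * Real.exp (-(2 * α * x)) := by
            funext x
            have : Real.exp (2 * α * (t - x)) = Real.exp (2 * α * t) * Real.exp (-(2 * α * x)) := by
              rw [← Real.exp_add]
              congr 1
              ring
            rw [this]; ring
          rw [this]
          exact hint2.const_mul _
      rw [hval1, hval2] at hle
      have hsplit : (∫ x in Set.Iic t, Real.exp (-(α * x)) ∂μ) +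
          (∫ x in Set.Ioi t, Real.exp (-(α * x)) ∂μ) = ∫ x, Real.exp (-(α * x)) ∂μ := by
        rw [← Set.compl_Iic]
        exact integral_add_compl measurableSet_Iic hintα
      have hb : ∫ x in Set.Ioi t, Real.exp (-(α * x)) ∂μ ≤ Real.exp (-(α * t)) := by
        have : ∫ x in Set.Ioi t, Real.exp (-(α * x)) ∂μ ≤
            ∫ x in Set.Ioi t, Real.exp (-(α * t)) ∂μ := by
          apply setIntegral_mono_on hintα.integrableOn (integrable_const _).integrableOn
            measurableSet_Ioi
          intro x hx
          rw [Real.exp_le_exp]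
          simp only [Set.mem_Ioi] at hx
          nlinarith
        refine this.trans ?_
        rw [setIntegral_const, smul_eq_mul]
        have h1 : μ.real (Set.Ioi t) ≤ 1 := measureReal_le_one
        have h2 := Real.exp_pos (-(α * t))
        nlinarith
      set a := ∫ x in Set.Iic t, Real.exp (-(α * x)) ∂μ
      set b := ∫ x in Set.Ioi t, Real.exp (-(α * x)) ∂μ
      have hνab : ν * a = 1 - ν * b := by
        rw [← hmal, ← hsplit]; ring
      have hexp : Real.exp (α * t) * b ≤ 1 := by
        calc Real.exp (α * t) * b ≤ Real.exp (α * t) * Real.exp (-(α * t)) :=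
              mul_le_mul_of_nonneg_left hb (Real.exp_pos _).le
          _ = 1 := by rw [← Real.exp_add]; simp
      have h3 : ν * (Real.exp (α * t) * a) ≤ ν * (ν * (∫ x, ∑ k ∈ Finset.range N, ν ^ k * cdfPow μ k (t - x) ∂μ)) +
            (Real.exp (2 * α * t) * q ^ N) * q := by
        have := mul_le_mul_of_nonneg_left hle (by linarith : (0 : ℝ) ≤ ν)
        rw [hq]
        rw [hq] at this
        linarith
      have h4 : ν * (Real.exp (α * t) * a) = Real.exp (α * t) - ν * (Real.exp (α * t) * b) := by
        have : ν * (Real.exp (α * t) * a) = Real.exp (α * t) * (ν * a) := by ring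
        rw [this, hνab]; ring
      rw [h4] at h3
      have h5 : ν * (Real.exp (α * t) * b) ≤ ν := by nlinarith
      rw [pow_succ]
      linarith
  -- choose A
  have hlog : 0 < -Real.log q := by
    have := Real.log_neg hq0 hL2
    linarith
  refine ⟨1 / (2 * ν), (α + Real.log 2) / (-Real.log q), by positivity, ?_, ?_⟩
  · apply div_pos _ hlog
    have := Real.log_pos (by norm_num : (1 : ℝ) < 2)
    linarith
  intro t N ht hN
  have h1 := key N t ht
  have h2 : Real.exp (2 * α * t) * q ^ N ≤ Real.exp (α * t) * (1 / 2) := by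
    have h3 : q ^ N = Real.exp (N * Real.log q) := by
      rw [Real.exp_nat_mul, Real.exp_log hq0]
    have h4 : (1 / 2 : ℝ) = Real.exp (-Real.log 2) := by
      rw [Real.exp_neg, Real.exp_log (by norm_num)]
      norm_num
    rw [h3, h4, ← Real.exp_add, ← Real.exp_add, Real.exp_le_exp]
    have h5 : (α + Real.log 2) * (t + 1) ≤ N * (-Real.log q) := by
      have := mul_le_mul_of_nonneg_right hN hlog.le
      calc (α + Real.log 2) * (t + 1)
          = (α + Real.log 2) / (-Real.log q) * (t + 1) * (-Real.log q) := by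
            rw [div_mul_eq_mul_div, div_mul_cancel₀ _ hlog.ne']
        _ ≤ _ := this
    have h6 := Real.log_pos (by norm_num : (1 : ℝ) < 2)
    nlinarith [mul_nonneg h6.le ht]
  have h7 : 1 / (2 * ν) * Real.exp (α * t) = (Real.exp (α * t) * (1 / 2)) / ν := by
    field_simp
  rw [h7, div_le_iff₀ (by linarith)]
  linarith


lemma ana_geom_le (q : ℝ) (hq0 : 0 ≤ q) (hq1 : q < 1) (N : ℕ) :
    ∑ j ∈ Finset.range N, q ^ j ≤ 1 / (1 - q) := by
  have h := Summable.sum_le_tsum (Finset.range N) (fun i _ => pow_nonneg hq0 i)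
    (summable_geometric_of_lt_one hq0 hq1)
  rw [tsum_geometric_of_lt_one hq0 hq1] at h
  rwa [one_div]

/-- A3: the tight sum for a path with an attached path of the same colour. -/
theorem tight_sum (μ : Measure ℝ) [IsProbabilityMeasure μ] (hpos : μ (Set.Iic 0) = 0)
    (hat : ∀ x, μ {x} = 0) (ν α β : ℝ) (hν : 1 < ν) (hα : 0 < α)
    (hmal : ν * ∫ x, Real.exp (-(α * x)) ∂μ = 1) (hβ : 1 ≤ β)
    (hβ2 : β * (ν * ∫ x, Real.exp (-(2 * α * x)) ∂μ) < 1) :
    ∃ C : ℝ, 0 < C ∧ ∀ (T : ℝ) (N : ℕ),
      ∑ j ∈ Finset.range N, ∑ l ∈ Finset.range N, ∑ i ∈ Finset.range N, ∑ m ∈ Finset.range N,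
        ν ^ (j + l + i + m) * β ^ (j + l) *
          ∫ x, cdfPow μ i (T - x) * cdfPow μ m (T - x) ∂(convPow μ (j + l)) ≤
      C * Real.exp (2 * α * T) := by
  obtain ⟨C1, hC1, hA1⟩ := cdfPow_sum_upper μ hpos hat ν α hν hα hmal
  set L : ℝ := ∫ x, Real.exp (-(2 * α * x)) ∂μ with hL
  have hL0 : 0 ≤ L := integral_nonneg fun x => (Real.exp_pos _).le
  set q : ℝ := β * (ν * L) with hq
  have hq0 : 0 ≤ q := by
    rw [hq]
    have : 0 ≤ ν * L := mul_nonneg (by linarith) hL0
    exact mul_nonneg (by linarith) this
  have h1q : 0 < 1 - q := by linarith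
  refine ⟨C1 ^ 2 * (1 / (1 - q)) ^ 2, by positivity, ?_⟩
  intro T N
  have hjl : ∀ n : ℕ, ∑ i ∈ Finset.range N, ∑ m ∈ Finset.range N,
        ν ^ (n + i + m) * β ^ n *
          ∫ x, cdfPow μ i (T - x) * cdfPow μ m (T - x) ∂(convPow μ n) ≤
        q ^ n * (C1 ^ 2 * Real.exp (2 * α * T)) := by
    intro n
    have h1 : ∑ i ∈ Finset.range N, ∑ m ∈ Finset.range N,
        ν ^ (n + i + m) * β ^ n *
          ∫ x, cdfPow μ i (T - x) * cdfPow μ m (T - x) ∂(convPow μ n) =
        ν ^ n * β ^ n * ∫ x, (∑ i ∈ Finset.range N, ν ^ i * cdfPow μ i (T - x)) *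
          (∑ m ∈ Finset.range N, ν ^ m * cdfPow μ m (T - x)) ∂(convPow μ n) := by
      have h2 : ∀ x, (∑ i ∈ Finset.range N, ν ^ i * cdfPow μ i (T - x)) *
          (∑ m ∈ Finset.range N, ν ^ m * cdfPow μ m (T - x)) =
          ∑ i ∈ Finset.range N, ∑ m ∈ Finset.range N,
            (ν ^ i * ν ^ m) * (cdfPow μ i (T - x) * cdfPow μ m (T - x)) := by
        intro x
        rw [Finset.sum_mul_sum]
        apply Finset.sum_congr rfl
        intro i _
        apply Finset.sum_congr rfl
        intro m _
        ring
      have hint : ∀ i m : ℕ, Integrable (fun x => cdfPow μ i (T - x) * cdfPow μ m (T - x))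
          (convPow μ n) := by
        intro i m
        refine Integrable.mono' (integrable_const (1 : ℝ)) ?_ ?_
        · exact (((ana_cdfPow_measurable μ i).comp (by fun_prop : Measurable fun x : ℝ => T - x)).mul
            ((ana_cdfPow_measurable μ m).comp
              (by fun_prop : Measurable fun x : ℝ => T - x))).aestronglyMeasurable
        · refine Filter.Eventually.of_forall fun x => ?_
          rw [Real.norm_eq_abs, abs_of_nonneg
            (mul_nonneg (ana_cdfPow_nonneg μ i _) (ana_cdfPow_nonneg μ m _))]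
          exact mul_le_one₀ (ana_cdfPow_le_one μ i _) (ana_cdfPow_nonneg μ m _)
            (ana_cdfPow_le_one μ m _)
      simp_rw [h2]
      rw [integral_finsetSum]
      · rw [Finset.mul_sum]
        apply Finset.sum_congr rfl
        intro i _
        rw [integral_finsetSum]
        · rw [Finset.mul_sum]
          apply Finset.sum_congr rfl
          intro m _
          rw [integral_const_mul, pow_add, pow_add]
          ring
        · intro m _
          exact (hint i m).const_mul _
      · intro i _
        apply integrable_finsetSum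
        intro m _
        exact (hint i m).const_mul _
    rw [h1]
    have h3 : ∫ x, (∑ i ∈ Finset.range N, ν ^ i * cdfPow μ i (T - x)) *
          (∑ m ∈ Finset.range N, ν ^ m * cdfPow μ m (T - x)) ∂(convPow μ n) ≤
        ∫ x, (C1 ^ 2 * Real.exp (2 * α * T)) * Real.exp (-(2 * α * x)) ∂(convPow μ n) := by
      apply integral_mono_of_nonneg
      · refine Filter.Eventually.of_forall fun x => ?_
        apply mul_nonneg
        · apply Finset.sum_nonneg
          intro k _
          exact mul_nonneg (by positivity) (ana_cdfPow_nonneg μ k _)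
        · apply Finset.sum_nonneg
          intro k _
          exact mul_nonneg (by positivity) (ana_cdfPow_nonneg μ k _)
      · exact (ana_exp_int μ hpos (2 * α) (by linarith) n).const_mul _
      · refine Filter.Eventually.of_forall fun x => ?_
        have h4 := hA1 (T - x) N
        have h5 : 0 ≤ ∑ k ∈ Finset.range N, ν ^ k * cdfPow μ k (T - x) := by
          apply Finset.sum_nonneg
          intro k _
          exact mul_nonneg (by positivity) (ana_cdfPow_nonneg μ k _)
        have h6 := mul_le_mul h4 h4 h5 (by positivity)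
        refine h6.trans (le_of_eq ?_)
        have : Real.exp (α * (T - x)) * Real.exp (α * (T - x)) =
            Real.exp (2 * α * T) * Real.exp (-(2 * α * x)) := by
          rw [← Real.exp_add, ← Real.exp_add]
          congr 1
          ring
        calc C1 * Real.exp (α * (T - x)) * (C1 * Real.exp (α * (T - x)))
            = C1 ^ 2 * (Real.exp (α * (T - x)) * Real.exp (α * (T - x))) := by ring
          _ = _ := by rw [this]; ring
    rw [integral_const_mul, ana_exp_pow, ← hL] at h3
    calc ν ^ n * β ^ n * ∫ x, (∑ i ∈ Finset.range N, ν ^ i * cdfPow μ i (T - x)) *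
          (∑ m ∈ Finset.range N, ν ^ m * cdfPow μ m (T - x)) ∂(convPow μ n)
        ≤ ν ^ n * β ^ n * (C1 ^ 2 * Real.exp (2 * α * T) * L ^ n) :=
          mul_le_mul_of_nonneg_left h3 (by positivity)
      _ = q ^ n * (C1 ^ 2 * Real.exp (2 * α * T)) := by
          rw [hq, mul_pow, mul_pow]; ring
  calc ∑ j ∈ Finset.range N, ∑ l ∈ Finset.range N, ∑ i ∈ Finset.range N, ∑ m ∈ Finset.range N,
        ν ^ (j + l + i + m) * β ^ (j + l) *
          ∫ x, cdfPow μ i (T - x) * cdfPow μ m (T - x) ∂(convPow μ (j + l))
      ≤ ∑ j ∈ Finset.range N, ∑ l ∈ Finset.range N,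
          q ^ (j + l) * (C1 ^ 2 * Real.exp (2 * α * T)) := by
        apply Finset.sum_le_sum
        intro j _
        apply Finset.sum_le_sum
        intro l _
        exact hjl (j + l)
    _ = (∑ j ∈ Finset.range N, q ^ j) * (∑ l ∈ Finset.range N, q ^ l) *
          (C1 ^ 2 * Real.exp (2 * α * T)) := by
        rw [Finset.sum_mul_sum, Finset.sum_mul]
        apply Finset.sum_congr rfl
        intro j _
        rw [Finset.sum_mul]
        apply Finset.sum_congr rfl
        intro l _
        rw [pow_add]
    _ ≤ (1 / (1 - q)) * (1 / (1 - q)) * (C1 ^ 2 * Real.exp (2 * α * T)) := by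
        apply mul_le_mul_of_nonneg_right _ (by positivity)
        have hg := ana_geom_le q hq0 hβ2 N
        exact mul_le_mul hg hg (Finset.sum_nonneg fun i _ => pow_nonneg hq0 i) (by positivity)
    _ = _ := by ring

/-- A4: the tight sum for a path with an attached path of the other colour. -/
theorem tight_sum_other (μ μ' : Measure ℝ) [IsProbabilityMeasure μ] [IsProbabilityMeasure μ']
    (hpos : μ (Set.Iic 0) = 0) (hat : ∀ x, μ {x} = 0)
    (hpos' : μ' (Set.Iic 0) = 0) (hat' : ∀ x, μ' {x} = 0)
    (ν α β : ℝ) (hν : 1 < ν) (hα : 0 < α)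
    (hmal : ν * ∫ x, Real.exp (-(α * x)) ∂μ = 1)
    (hmal' : ν * ∫ x, Real.exp (-(α * x)) ∂μ' = 1) (hβ : 1 ≤ β)
    (hβ2 : β * (ν * ∫ x, Real.exp (-(2 * α * x)) ∂μ) < 1) :
    ∃ C : ℝ, 0 < C ∧ ∀ (T t0 : ℝ) (N : ℕ), 0 ≤ T → 0 ≤ t0 →
      ∑ j ∈ Finset.range N, ∑ l ∈ Finset.range N, ∑ m ∈ Finset.range N,
        ν ^ (j + l + m) * β ^ l *
          ∫ z, ∫ x in Set.Iic (T - z), cdfPow μ' m (t0 + x) ∂(convPow μ j) ∂(convPow μ l) ≤
      C * Real.exp (α * t0) * Real.exp (2 * α * T) := by
  obtain ⟨C1, hC1, hA1⟩ := cdfPow_sum_upper μ hpos hat ν α hν hα hmal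
  obtain ⟨C2, hC2, hA2⟩ := cdfPow_sum_upper μ' hpos' hat' ν α hν hα hmal'
  set L : ℝ := ∫ x, Real.exp (-(2 * α * x)) ∂μ with hL
  have hL0 : 0 ≤ L := integral_nonneg fun x => (Real.exp_pos _).le
  set q : ℝ := β * (ν * L) with hq
  have hq0 : 0 ≤ q := by
    rw [hq]
    have : 0 ≤ ν * L := mul_nonneg (by linarith) hL0
    exact mul_nonneg (by linarith) this
  have h1q : 0 < 1 - q := by linarith
  have hβ0 : 0 ≤ β := by linarith
  have hν0 : 0 ≤ ν := by linarith
  refine ⟨C1 * C2 * (1 / (1 - q)), by positivity, ?_⟩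
  intro T t0 N hT ht0
  -- the inner function
  have hmeasG : ∀ (j m : ℕ), Measurable
      (fun z => ∫ x in Set.Iic (T - z), cdfPow μ' m (t0 + x) ∂(convPow μ j)) := by
    intro j m
    have hanti : Antitone
        (fun z => ∫ x in Set.Iic (T - z), cdfPow μ' m (t0 + x) ∂(convPow μ j)) := by
      intro z z' hz
      apply setIntegral_mono_set
      · apply Integrable.integrableOn
        refine Integrable.mono' (integrable_const (1 : ℝ)) ?_ ?_
        · exact ((ana_cdfPow_measurable μ' m).comp
            (by fun_prop : Measurable fun x : ℝ => t0 + x)).aestronglyMeasurable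
        · refine Filter.Eventually.of_forall fun x => ?_
          rw [Real.norm_eq_abs, abs_of_nonneg (ana_cdfPow_nonneg μ' m _)]
          exact ana_cdfPow_le_one μ' m _
      · exact Filter.Eventually.of_forall fun x => ana_cdfPow_nonneg μ' m _
      · exact (Set.Iic_subset_Iic.mpr (by linarith)).eventuallyLE
    exact hanti.measurable
  have hcint : ∀ (j m : ℕ), Integrable (fun x => cdfPow μ' m (t0 + x)) (convPow μ j) := by
    intro j m
    refine Integrable.mono' (integrable_const (1 : ℝ)) ?_ ?_
    · exact ((ana_cdfPow_measurable μ' m).comp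
        (by fun_prop : Measurable fun x : ℝ => t0 + x)).aestronglyMeasurable
    · refine Filter.Eventually.of_forall fun x => ?_
      rw [Real.norm_eq_abs, abs_of_nonneg (ana_cdfPow_nonneg μ' m _)]
      exact ana_cdfPow_le_one μ' m _
  have hGnonneg : ∀ (j m : ℕ) (z : ℝ),
      0 ≤ ∫ x in Set.Iic (T - z), cdfPow μ' m (t0 + x) ∂(convPow μ j) := by
    intro j m z
    exact integral_nonneg fun x => ana_cdfPow_nonneg μ' m _
  have hGint : ∀ (j m l : ℕ), Integrable
      (fun z => ∫ x in Set.Iic (T - z), cdfPow μ' m (t0 + x) ∂(convPow μ j)) (convPow μ l) := by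
    intro j m l
    refine Integrable.mono' (integrable_const (1 : ℝ)) (hmeasG j m).aestronglyMeasurable ?_
    refine Filter.Eventually.of_forall fun z => ?_
    rw [Real.norm_eq_abs, abs_of_nonneg (hGnonneg j m z)]
    calc ∫ x in Set.Iic (T - z), cdfPow μ' m (t0 + x) ∂(convPow μ j)
        ≤ ∫ x, cdfPow μ' m (t0 + x) ∂(convPow μ j) :=
          setIntegral_le_integral (hcint j m)
            (Filter.Eventually.of_forall fun x => ana_cdfPow_nonneg μ' m _)
      _ ≤ ∫ x, (1 : ℝ) ∂(convPow μ j) :=
          integral_mono (hcint j m) (integrable_const _) fun x => ana_cdfPow_le_one μ' m _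
      _ = 1 := by simp
  -- pointwise bound in z of the double sum
  have hz : ∀ z : ℝ, ∑ j ∈ Finset.range N, ∑ m ∈ Finset.range N,
      ν ^ (j + m) * ∫ x in Set.Iic (T - z), cdfPow μ' m (t0 + x) ∂(convPow μ j) ≤
      C1 * C2 * Real.exp (α * t0) * Real.exp (2 * α * T) * Real.exp (-(2 * α * z)) := by
    intro z
    have hj : ∀ j : ℕ, ∑ m ∈ Finset.range N,
        ν ^ (j + m) * ∫ x in Set.Iic (T - z), cdfPow μ' m (t0 + x) ∂(convPow μ j) ≤
        C2 * Real.exp (α * t0) * Real.exp (α * (T - z)) * (ν ^ j * cdfPow μ j (T - z)) := by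
      intro j
      have h1 : ∑ m ∈ Finset.range N,
          ν ^ (j + m) * ∫ x in Set.Iic (T - z), cdfPow μ' m (t0 + x) ∂(convPow μ j) =
          ν ^ j * ∫ x in Set.Iic (T - z), ∑ m ∈ Finset.range N,
            ν ^ m * cdfPow μ' m (t0 + x) ∂(convPow μ j) := by
        rw [integral_finsetSum]
        · rw [Finset.mul_sum]
          apply Finset.sum_congr rfl
          intro m _
          rw [integral_const_mul, pow_add]
          ring
        · intro m _
          exact ((hcint j m).const_mul _).restrict
      rw [h1]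
      have h2 : ∫ x in Set.Iic (T - z), ∑ m ∈ Finset.range N,
            ν ^ m * cdfPow μ' m (t0 + x) ∂(convPow μ j) ≤
          ∫ x in Set.Iic (T - z), C2 * Real.exp (α * t0) * Real.exp (α * (T - z))
            ∂(convPow μ j) := by
        apply setIntegral_mono_on
        · apply Integrable.integrableOn
          apply integrable_finsetSum
          intro m _
          exact (hcint j m).const_mul _
        · exact (integrable_const _).integrableOn
        · exact measurableSet_Iic
        · intro x hx
          refine (hA2 (t0 + x) N).trans ?_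
          rw [mul_assoc, ← Real.exp_add]
          apply mul_le_mul_of_nonneg_left _ hC2.le
          rw [Real.exp_le_exp]
          simp only [Set.mem_Iic] at hx
          nlinarith
      rw [setIntegral_const, smul_eq_mul] at h2
      calc ν ^ j * ∫ x in Set.Iic (T - z), ∑ m ∈ Finset.range N,
            ν ^ m * cdfPow μ' m (t0 + x) ∂(convPow μ j)
          ≤ ν ^ j * ((convPow μ j).real (Set.Iic (T - z)) *
            (C2 * Real.exp (α * t0) * Real.exp (α * (T - z)))) :=
            mul_le_mul_of_nonneg_left h2 (by positivity)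
        _ = _ := by unfold cdfPow; ring
    calc ∑ j ∈ Finset.range N, ∑ m ∈ Finset.range N,
        ν ^ (j + m) * ∫ x in Set.Iic (T - z), cdfPow μ' m (t0 + x) ∂(convPow μ j)
        ≤ ∑ j ∈ Finset.range N,
          C2 * Real.exp (α * t0) * Real.exp (α * (T - z)) * (ν ^ j * cdfPow μ j (T - z)) :=
          Finset.sum_le_sum fun j _ => hj j
      _ = C2 * Real.exp (α * t0) * Real.exp (α * (T - z)) *
          ∑ j ∈ Finset.range N, (ν ^ j * cdfPow μ j (T - z)) := by
          rw [Finset.mul_sum]
      _ ≤ C2 * Real.exp (α * t0) * Real.exp (α * (T - z)) * (C1 * Real.exp (α * (T - z))) :=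
          mul_le_mul_of_nonneg_left (hA1 (T - z) N) (by positivity)
      _ = _ := by
          have : Real.exp (α * (T - z)) * Real.exp (α * (T - z)) =
              Real.exp (2 * α * T) * Real.exp (-(2 * α * z)) := by
            rw [← Real.exp_add, ← Real.exp_add]
            congr 1
            ring
          calc C2 * Real.exp (α * t0) * Real.exp (α * (T - z)) * (C1 * Real.exp (α * (T - z)))
              = C1 * C2 * Real.exp (α * t0) *
                (Real.exp (α * (T - z)) * Real.exp (α * (T - z))) := by ring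
            _ = _ := by rw [this]; ring
  -- integrate in z
  have hl : ∀ l : ℕ, ∑ j ∈ Finset.range N, ∑ m ∈ Finset.range N,
      ν ^ (j + l + m) * β ^ l *
        ∫ z, ∫ x in Set.Iic (T - z), cdfPow μ' m (t0 + x) ∂(convPow μ j) ∂(convPow μ l) ≤
      q ^ l * (C1 * C2 * Real.exp (α * t0) * Real.exp (2 * α * T)) := by
    intro l
    have h1 : ∑ j ∈ Finset.range N, ∑ m ∈ Finset.range N,
        ν ^ (j + l + m) * β ^ l *
          ∫ z, ∫ x in Set.Iic (T - z), cdfPow μ' m (t0 + x) ∂(convPow μ j) ∂(convPow μ l) =
        ν ^ l * β ^ l * ∫ z, ∑ j ∈ Finset.range N, ∑ m ∈ Finset.range N,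
          ν ^ (j + m) * ∫ x in Set.Iic (T - z), cdfPow μ' m (t0 + x) ∂(convPow μ j)
            ∂(convPow μ l) := by
      rw [integral_finsetSum]
      · rw [Finset.mul_sum]
        apply Finset.sum_congr rfl
        intro j _
        rw [integral_finsetSum]
        · rw [Finset.mul_sum]
          apply Finset.sum_congr rfl
          intro m _
          rw [integral_const_mul, pow_add, pow_add, pow_add]
          ring
        · intro m _
          exact (hGint j m l).const_mul _
      · intro j _
        apply integrable_finsetSum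
        intro m _
        exact (hGint j m l).const_mul _
    rw [h1]
    have h2 : ∫ z, ∑ j ∈ Finset.range N, ∑ m ∈ Finset.range N,
          ν ^ (j + m) * ∫ x in Set.Iic (T - z), cdfPow μ' m (t0 + x) ∂(convPow μ j)
            ∂(convPow μ l) ≤
        ∫ z, C1 * C2 * Real.exp (α * t0) * Real.exp (2 * α * T) * Real.exp (-(2 * α * z))
          ∂(convPow μ l) := by
      apply integral_mono
      · apply integrable_finsetSum
        intro j _
        apply integrable_finsetSum
        intro m _
        exact (hGint j m l).const_mul _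
      · exact (ana_exp_int μ hpos (2 * α) (by linarith) l).const_mul _
      · exact hz
    rw [integral_const_mul, ana_exp_pow, ← hL] at h2
    calc _ ≤ ν ^ l * β ^ l *
          (C1 * C2 * Real.exp (α * t0) * Real.exp (2 * α * T) * L ^ l) :=
          mul_le_mul_of_nonneg_left h2 (by positivity)
      _ = _ := by rw [hq, mul_pow, mul_pow]; ring
  calc ∑ j ∈ Finset.range N, ∑ l ∈ Finset.range N, ∑ m ∈ Finset.range N,
        ν ^ (j + l + m) * β ^ l *
          ∫ z, ∫ x in Set.Iic (T - z), cdfPow μ' m (t0 + x) ∂(convPow μ j) ∂(convPow μ l)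
      = ∑ l ∈ Finset.range N, ∑ j ∈ Finset.range N, ∑ m ∈ Finset.range N,
        ν ^ (j + l + m) * β ^ l *
          ∫ z, ∫ x in Set.Iic (T - z), cdfPow μ' m (t0 + x) ∂(convPow μ j) ∂(convPow μ l) :=
        Finset.sum_comm
    _ ≤ ∑ l ∈ Finset.range N,
          q ^ l * (C1 * C2 * Real.exp (α * t0) * Real.exp (2 * α * T)) :=
        Finset.sum_le_sum fun l _ => hl l
    _ = (∑ l ∈ Finset.range N, q ^ l) *
          (C1 * C2 * Real.exp (α * t0) * Real.exp (2 * α * T)) := by
        rw [Finset.sum_mul]
    _ ≤ (1 / (1 - q)) * (C1 * C2 * Real.exp (α * t0) * Real.exp (2 * α * T)) :=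
        mul_le_mul_of_nonneg_right (ana_geom_le q hq0 hβ2 N) (by positivity)
    _ = _ := by ring


/-- The law of the sum of the weights over a set of indices. -/
lemma ana_sum_law {ι : Type} [Fintype ι] [DecidableEq ι] (I : ι → Measure ℝ)
    [∀ i, IsProbabilityMeasure (I i)] (μ : Measure ℝ) [IsProbabilityMeasure μ] (E : Finset ι)
    (h : ∀ i ∈ E, I i = μ) :
    (Measure.pi I).map (fun w => ∑ i ∈ E, w i) = convPow μ E.card := by
  have hind : ProbabilityTheory.iIndepFun (fun (i : ι) (w : ι → ℝ) => w i) (Measure.pi I) :=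
    ProbabilityTheory.iIndepFun_pi (X := fun _ x => x) (fun i => aemeasurable_id)
  induction E using Finset.induction_on with
  | empty =>
    simp only [Finset.sum_empty, Finset.card_empty, convPow]
    rw [Measure.map_const, measure_univ, one_smul]
  | insert a E ha ih =>
    have ih' := ih (fun i hi => h i (Finset.mem_insert_of_mem hi))
    have h1 := hind.indepFun_finsetSum_of_notMem (fun i => measurable_pi_apply i) ha
    have h4 : (∑ j ∈ E, fun (w : ι → ℝ) => w j) = fun w => ∑ i ∈ E, w i := by
      funext w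
      simp
    rw [h4] at h1
    have h2 := h1.symm.map_prod_eq_prod_map_map (measurable_pi_apply a).aemeasurable
      (by
        apply Measurable.aemeasurable
        apply Finset.measurable_sum
        intro i _
        exact measurable_pi_apply i)
    have h3 : (Measure.pi I).map (fun w : ι → ℝ => w a) = μ := by
      rw [← h a (Finset.mem_insert_self a E)]
      exact (measurePreserving_eval I a).map_eq
    rw [h3, ih'] at h2
    rw [Finset.card_insert_of_notMem ha, convPow, ← h2, Measure.map_map (by fun_prop) (by fun_prop)]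
    congr 1
    funext w
    simp [Finset.sum_insert ha]

/-- The joint law of the sums of the weights over three disjoint sets of indices. -/
theorem sum3_law {ι : Type} [Fintype ι] [DecidableEq ι] (I : ι → Measure ℝ)
    [∀ i, IsProbabilityMeasure (I i)] (μ₁ μ₂ μ₃ : Measure ℝ) [IsProbabilityMeasure μ₁]
    [IsProbabilityMeasure μ₂] [IsProbabilityMeasure μ₃] (E₁ E₂ E₃ : Finset ι)
    (h12 : Disjoint E₁ E₂) (h13 : Disjoint E₁ E₃) (h23 : Disjoint E₂ E₃)
    (h1 : ∀ i ∈ E₁, I i = μ₁) (h2 : ∀ i ∈ E₂, I i = μ₂) (h3 : ∀ i ∈ E₃, I i = μ₃) :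
    (Measure.pi I).map (fun w => (∑ i ∈ E₁, w i, ∑ i ∈ E₂, w i, ∑ i ∈ E₃, w i)) =
      (convPow μ₁ E₁.card).prod ((convPow μ₂ E₂.card).prod (convPow μ₃ E₃.card)) := by
  have hind : ProbabilityTheory.iIndepFun (fun (i : ι) (w : ι → ℝ) => w i) (Measure.pi I) :=
    ProbabilityTheory.iIndepFun_pi (X := fun _ x => x) (fun i => aemeasurable_id)
  have hm : ∀ E : Finset ι, Measurable (fun w : ι → ℝ => ∑ i ∈ E, w i) := by
    intro E
    apply Finset.measurable_sum
    intro i _
    exact measurable_pi_apply i
  -- independence of the last two sums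
  have i23 : ProbabilityTheory.IndepFun (fun w : ι → ℝ => ∑ i ∈ E₂, w i)
      (fun w : ι → ℝ => ∑ i ∈ E₃, w i) (Measure.pi I) := by
    have := hind.indepFun_finset E₂ E₃ h23 (fun i => measurable_pi_apply i)
    have h' := this.comp (φ := fun v : E₂ → ℝ => ∑ i, v i) (ψ := fun v : E₃ → ℝ => ∑ i, v i)
      (by fun_prop) (by fun_prop)
    have e2 : (fun w : ι → ℝ => ∑ i ∈ E₂, w i) =
        (fun v : E₂ → ℝ => ∑ i, v i) ∘ (fun (a : ι → ℝ) (i : E₂) => a i) := by
      funext w
      simp only [Function.comp]
      exact (Finset.sum_coe_sort E₂ w).symm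
    have e3 : (fun w : ι → ℝ => ∑ i ∈ E₃, w i) =
        (fun v : E₃ → ℝ => ∑ i, v i) ∘ (fun (a : ι → ℝ) (i : E₃) => a i) := by
      funext w
      simp only [Function.comp]
      exact (Finset.sum_coe_sort E₃ w).symm
    rw [e2, e3]
    exact h'
  have i123 : ProbabilityTheory.IndepFun (fun w : ι → ℝ => ∑ i ∈ E₁, w i)
      (fun w : ι → ℝ => (∑ i ∈ E₂, w i, ∑ i ∈ E₃, w i)) (Measure.pi I) := by
    have hd : Disjoint E₁ (E₂ ∪ E₃) := by
      rw [Finset.disjoint_union_right]
      exact ⟨h12, h13⟩
    have := hind.indepFun_finset E₁ (E₂ ∪ E₃) hd (fun i => measurable_pi_apply i)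
    have h' := this.comp (φ := fun v : E₁ → ℝ => ∑ i, v i)
      (ψ := fun v : (E₂ ∪ E₃ : Finset ι) → ℝ =>
        (∑ i : (E₂ ∪ E₃ : Finset ι), (if (i : ι) ∈ E₂ then v i else 0),
          ∑ i : (E₂ ∪ E₃ : Finset ι), (if (i : ι) ∈ E₃ then v i else 0)))
      (by fun_prop) (by
        apply Measurable.prodMk
        · apply Finset.measurable_sum
          intro i _
          by_cases hi : (i : ι) ∈ E₂
          · simp only [hi, if_true]; exact measurable_pi_apply i
          · simp only [hi, if_false]; exact measurable_const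
        · apply Finset.measurable_sum
          intro i _
          by_cases hi : (i : ι) ∈ E₃
          · simp only [hi, if_true]; exact measurable_pi_apply i
          · simp only [hi, if_false]; exact measurable_const)
    have e1 : (fun w : ι → ℝ => ∑ i ∈ E₁, w i) =
        (fun v : E₁ → ℝ => ∑ i, v i) ∘ (fun (a : ι → ℝ) (i : E₁) => a i) := by
      funext w
      simp only [Function.comp]
      exact (Finset.sum_coe_sort E₁ w).symm
    have e23 : (fun w : ι → ℝ => (∑ i ∈ E₂, w i, ∑ i ∈ E₃, w i)) =
        (fun v : (E₂ ∪ E₃ : Finset ι) → ℝ =>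
        (∑ i : (E₂ ∪ E₃ : Finset ι), (if (i : ι) ∈ E₂ then v i else 0),
          ∑ i : (E₂ ∪ E₃ : Finset ι), (if (i : ι) ∈ E₃ then v i else 0))) ∘
          (fun (a : ι → ℝ) (i : (E₂ ∪ E₃ : Finset ι)) => a i) := by
      funext w
      simp only [Function.comp]
      congr 1
      · rw [Finset.sum_coe_sort (E₂ ∪ E₃) (fun i => if i ∈ E₂ then w i else 0),
          Finset.sum_ite_mem, Finset.union_inter_cancel_left]
      · rw [Finset.sum_coe_sort (E₂ ∪ E₃) (fun i => if i ∈ E₃ then w i else 0),
          Finset.sum_ite_mem, Finset.union_inter_cancel_right]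
    rw [e1, e23]
    exact h'
  rw [i123.map_prod_eq_prod_map_map (hm E₁).aemeasurable ((hm E₂).prodMk (hm E₃)).aemeasurable,
    i23.map_prod_eq_prod_map_map (hm E₂).aemeasurable (hm E₃).aemeasurable,
    ana_sum_law I μ₁ E₁ h1, ana_sum_law I μ₂ E₂ h2, ana_sum_law I μ₃ E₃ h3]

end Pool.Agent.H86.CM
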