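import Mathlib

/-!
# Sums of independent weights: definitions
-/

open MeasureTheory

namespace Pool.Agent.H86.CM

/-- The law of the sum of `k` independent random variables with law `μ`. -/
noncomputable def convPow (μ : Measure ℝ) : ℕ → Measure ℝ
  | 0 => Measure.dirac 0
  | k + 1 => (μ.prod (convPow μ k)).map fun p => p.1 + p.2

/-- The probability that a sum of `k` independent variables with law `μ` is at most `t`. -/
noncomputable def cdfPow (μ : Measure ℝ) (k : ℕ) (t : ℝ) : ℝ := (convPow μ k).real (Set.Iic t)

end Pool.Agent.H86.CM
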