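import Pool.Agent.H86.CM.MatchDefs

/-! MODULE COMP: deterministic facts about the competition. -/

namespace Pool.Agent.H86.CM

variable {n : ℕ} {d : Fin n → ℕ}

/-! ### Walks -/

theorem comp_walk_append (σ : Pairing (HE d)) : ∀ (a b : List (HE d)) (u v : Fin n),
    IsWalk σ u (a ++ b) v ↔ ∃ x, IsWalk σ u a x ∧ IsWalk σ x b v := by
  intro a
  induction a with
  | nil =>
    intro b u v
    simp [IsWalk]
  | cons h a ih =>
    intro b u v
    simp only [List.cons_append, IsWalk, ih]
    constructor
    · rintro ⟨h1, x, h2, h3⟩; exact ⟨x, ⟨h1, h2⟩, h3⟩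
    · rintro ⟨x, ⟨h1, h2⟩, h3⟩; exact ⟨h1, x, h2, h3⟩

theorem comp_walk_unique (σ : Pairing (HE d)) : ∀ (a : List (HE d)) (u x y : Fin n),
    IsWalk σ u a x → IsWalk σ u a y → x = y := by
  intro a
  induction a with
  | nil =>
    intro u x y h1 h2
    simp only [IsWalk] at h1 h2
    rw [← h1, h2]
  | cons h a ih =>
    intro u x y h1 h2
    exact ih _ _ _ h1.2 h2.2

theorem comp_walkVerts_append (σ : Pairing (HE d)) (a b : List (HE d)) :
    walkVerts σ (a ++ b) = walkVerts σ a ++ walkVerts σ b := by
  simp [walkVerts]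

theorem comp_walkLen_append (σ : Pairing (HE d)) (w : Weights d) (c : Bool) (a b : List (HE d)) :
    walkLen σ w c (a ++ b) = walkLen σ w c a + walkLen σ w c b := by
  simp [walkLen]

theorem comp_walkLen_nonneg (σ : Pairing (HE d)) (w : Weights d) (hw : ∀ e, 0 ≤ w e) (c : Bool)
    (a : List (HE d)) : 0 ≤ walkLen σ w c a := by
  unfold walkLen
  apply List.sum_nonneg
  intro x hx
  obtain ⟨h, _, rfl⟩ := List.mem_map.1 hx
  exact hw _

theorem comp_walkLen_prefix (σ : Pairing (HE d)) (w : Weights d) (hw : ∀ e, 0 ≤ w e) (c : Bool)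
    {a b : List (HE d)} (h : a <+: b) : walkLen σ w c a ≤ walkLen σ w c b := by
  obtain ⟨r, rfl⟩ := h
  rw [comp_walkLen_append]
  linarith [comp_walkLen_nonneg σ w hw c r]

/-- Cut a walk at its first vertex in `S`. -/
theorem comp_cut (σ : Pairing (HE d)) (S : Fin n → Prop) : ∀ (b : List (HE d)) (u y : Fin n),
    IsWalk σ u b y → S y → ∃ b1 b2 x, b = b1 ++ b2 ∧ IsWalk σ u b1 x ∧ S x ∧
      ∀ z ∈ (u :: walkVerts σ b1).dropLast, ¬ S z := by
  intro b
  induction b with
  | nil =>
    intro u y hw hy
    simp only [IsWalk] at hw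
    subst hw
    exact ⟨[], [], u, rfl, rfl, hy, by simp [walkVerts]⟩
  | cons h b ih =>
    intro u y hw hy
    by_cases hu : S u
    · exact ⟨[], h :: b, u, rfl, rfl, hu, by simp [walkVerts]⟩
    · obtain ⟨b1, b2, x, e, h1, h2, h3⟩ := ih _ y hw.2 hy
      refine ⟨h :: b1, b2, x, by rw [e]; rfl, ⟨hw.1, h1⟩, h2, ?_⟩
      intro z hz
      have e2 : (u :: walkVerts σ (h :: b1)).dropLast
          = u :: ((σ.1 h).1 :: walkVerts σ b1).dropLast := by
        simp [walkVerts, List.dropLast]
      rw [e2, List.mem_cons] at hz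
      rcases hz with rfl | hz
      · exact hu
      · exact h3 z hz

/-- A vertex of a walk is the end of a nonempty initial piece. -/
theorem comp_mem_walkVerts (σ : Pairing (HE d)) : ∀ (a : List (HE d)) (u v x : Fin n),
    IsWalk σ u a v → x ∈ walkVerts σ a → ∃ a1 a2, a = a1 ++ a2 ∧ a1 ≠ [] ∧ IsWalk σ u a1 x := by
  intro a
  induction a with
  | nil =>
    intro u v x _ hx
    simp [walkVerts] at hx
  | cons h a ih =>
    intro u v x hw hx
    simp only [walkVerts, List.map_cons, List.mem_cons] at hx
    rcases hx with rfl | hx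
    · exact ⟨[h], a, rfl, by simp, hw.1, rfl⟩
    · obtain ⟨a1, a2, e, _, h2⟩ := ih _ v x hw.2 hx
      exact ⟨h :: a1, a2, by rw [e]; rfl, by simp, hw.1, h2⟩

/-! ### The painting -/

/-- Painting after `k` steps. -/
noncomputable def comp_P (σ : Pairing (HE d)) (w : Weights d) (s : Sources n) (k : ℕ) :
    Painting n := (paintStep σ w)^[k] (initPaint s)

theorem comp_P_succ (σ : Pairing (HE d)) (w : Weights d) (s : Sources n) (k : ℕ) :
    comp_P σ w s (k + 1) = paintStep σ w (comp_P σ w s k) := by
  unfold comp_P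
  rw [Function.iterate_succ_apply']

theorem comp_mem_frontier (σ : Pairing (HE d)) (p : Painting n) (h : HE d) :
    h ∈ frontier σ p ↔ p h.1 ≠ none ∧ p (σ.1 h).1 = none := by
  classical
  simp [frontier]

/-- Description of a step. -/
theorem comp_step (σ : Pairing (HE d)) (w : Weights d) (p : Painting n) :
    (frontier σ p = ∅ ∧ paintStep σ w p = p) ∨
    ∃ h ∈ frontier σ p, (∀ h' ∈ frontier σ p, arrival σ w p h ≤ arrival σ w p h') ∧
      paintStep σ w p = Function.update p (σ.1 h).1 (some (colourOf p h, arrival σ w p h)) := by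
  classical
  by_cases hne : (frontier σ p).Nonempty
  · right
    have hs := Classical.choose_spec (Finset.exists_min_image (frontier σ p) (arrival σ w p) hne)
    refine ⟨_, hs.1, hs.2, ?_⟩
    unfold paintStep
    rw [dif_pos hne]
  · left
    rw [Finset.not_nonempty_iff_eq_empty] at hne
    refine ⟨hne, ?_⟩
    unfold paintStep
    rw [dif_neg (by rw [hne]; simp)]

theorem comp_arrival (σ : Pairing (HE d)) (w : Weights d) (p : Painting n) (h : HE d) (c : Bool)
    (t : ℝ) (hp : p h.1 = some (c, t)) : arrival σ w p h = t + w (c, s(h, σ.1 h)) := by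
  unfold arrival
  rw [hp]

theorem comp_colourOf (p : Painting n) (h : HE d) (c : Bool) (t : ℝ)
    (hp : p h.1 = some (c, t)) : colourOf p h = c := by
  unfold colourOf
  rw [hp]

/-- The invariant. -/
structure comp_Inv (σ : Pairing (HE d)) (w : Weights d) (s : Sources n) (p : Painting n) :
    Prop where
  src : ∀ c, p (s.1 c) = some (c, 0)
  walk : ∀ v c t, p v = some (c, t) → ∃ a : List (HE d), IsWalk σ (s.1 c) a v ∧
    walkLen σ w c a = t ∧ (s.1 c :: walkVerts σ a).Nodup ∧
      ∀ x ∈ walkVerts σ a, ∃ t', p x = some (c, t')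

/-- The invariant on the times (nonnegative weights). -/
structure comp_Inv2 (σ : Pairing (HE d)) (w : Weights d) (p : Painting n) : Prop where
  nb : ∀ (h : HE d) c t c' t', p h.1 = some (c, t) → p (σ.1 h).1 = some (c', t') →
    t' ≤ t + w (c, s(h, σ.1 h))
  fr : ∀ h ∈ frontier σ p, ∀ v c t, p v = some (c, t) → t ≤ arrival σ w p h

theorem comp_inv_init (σ : Pairing (HE d)) (w : Weights d) (s : Sources n) :
    comp_Inv σ w s (initPaint s) := by
  have h1 : ∀ c, initPaint s (s.1 c) = some (c, 0) := by
    intro c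
    cases c
    · simp [initPaint, s.2.symm]
    · simp [initPaint]
  refine ⟨h1, ?_⟩
  intro v c t hv
  refine ⟨[], ?_⟩
  unfold initPaint at hv
  split_ifs at hv with h2 h3
  · simp only [Option.some.injEq, Prod.mk.injEq] at hv
    obtain ⟨rfl, rfl⟩ := hv
    exact ⟨h2.symm, by simp [walkLen], by simp [walkVerts], by simp [walkVerts]⟩
  · simp only [Option.some.injEq, Prod.mk.injEq] at hv
    obtain ⟨rfl, rfl⟩ := hv
    exact ⟨h3.symm, by simp [walkLen], by simp [walkVerts], by simp [walkVerts]⟩

theorem comp_init_time (s : Sources n) (v : Fin n) (c : Bool) (t : ℝ)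
    (h : initPaint s v = some (c, t)) : t = 0 := by
  unfold initPaint at h
  split_ifs at h with h2 h3
  · simp only [Option.some.injEq, Prod.mk.injEq] at h
    exact h.2.symm
  · simp only [Option.some.injEq, Prod.mk.injEq] at h
    exact h.2.symm

theorem comp_inv2_init (σ : Pairing (HE d)) (w : Weights d) (hw : ∀ e, 0 ≤ w e) (s : Sources n) :
    comp_Inv2 σ w (initPaint s) := by
  constructor
  · intro h c t c' t' h1 h2
    rw [comp_init_time s _ _ _ h1, comp_init_time s _ _ _ h2]
    linarith [hw (c, s(h, σ.1 h))]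
  · intro h hh v c t hv
    rw [comp_mem_frontier] at hh
    obtain ⟨⟨c', t'⟩, hct⟩ := Option.ne_none_iff_exists'.1 hh.1
    rw [comp_arrival σ w _ h c' t' hct, comp_init_time s _ _ _ hv, comp_init_time s _ _ _ hct]
    linarith [hw (c', s(h, σ.1 h))]

theorem comp_step_mono (σ : Pairing (HE d)) (w : Weights d) (p : Painting n) (v : Fin n)
    (x : Bool × ℝ) (hv : p v = some x) : paintStep σ w p v = some x := by
  rcases comp_step σ w p with ⟨_, h⟩ | ⟨h, hh, _, he⟩
  · rw [h, hv]
  · rw [he, Function.update_of_ne, hv]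
    rintro rfl
    rw [comp_mem_frontier] at hh
    rw [hh.2] at hv
    simp at hv

theorem comp_inv_step (σ : Pairing (HE d)) (w : Weights d) (s : Sources n) (p : Painting n)
    (hp : comp_Inv σ w s p) : comp_Inv σ w s (paintStep σ w p) := by
  refine ⟨fun c => comp_step_mono σ w p _ _ (hp.src c), ?_⟩
  intro v c t hv
  have hmono : ∀ x c t, p x = some (c, t) → paintStep σ w p x = some (c, t) :=
    fun x c t h => comp_step_mono σ w p x (c, t) h
  by_cases hold : p v = some (c, t)
  · obtain ⟨a, h1, h2, h3, h4⟩ := hp.walk v c t hold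
    exact ⟨a, h1, h2, h3, fun x hx => (h4 x hx).imp fun t' ht' => hmono _ _ _ ht'⟩
  rcases comp_step σ w p with ⟨_, h⟩ | ⟨h, hh, _, he⟩
  · rw [h] at hv; exact absurd hv hold
  by_cases hvx : v = (σ.1 h).1
  · rw [he, hvx, Function.update_self] at hv
    rw [comp_mem_frontier] at hh
    obtain ⟨⟨c', t'⟩, hct⟩ := Option.ne_none_iff_exists'.1 hh.1
    rw [comp_arrival σ w _ h c' t' hct, comp_colourOf _ h c' t' hct] at hv
    simp only [Option.some.injEq, Prod.mk.injEq] at hv
    obtain ⟨rfl, rfl⟩ := hv
    obtain ⟨a, h1, h2, h3, h4⟩ := hp.walk h.1 c' t' hct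
    refine ⟨a ++ [h], ?_, ?_, ?_, ?_⟩
    · rw [comp_walk_append]
      exact ⟨h.1, h1, rfl, hvx.symm⟩
    · rw [comp_walkLen_append, h2]
      simp [walkLen]
    · rw [comp_walkVerts_append, ← List.cons_append, List.nodup_append]
      refine ⟨h3, by simp [walkVerts], ?_⟩
      intro x hx y hy
      simp only [walkVerts, List.map_cons, List.map_nil, List.mem_singleton] at hy
      rw [hy]
      rintro rfl
      rw [List.mem_cons] at hx
      rcases hx with hx | hx
      · have := hp.src c'
        rw [← hx, hh.2] at this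
        simp at this
      · obtain ⟨t', ht'⟩ := h4 _ hx
        rw [hh.2] at ht'
        simp at ht'
    · intro x hx
      rw [comp_walkVerts_append, List.mem_append] at hx
      rcases hx with hx | hx
      · obtain ⟨t'', ht''⟩ := h4 x hx
        exact ⟨t'', hmono _ _ _ ht''⟩
      · simp only [walkVerts, List.map_cons, List.map_nil, List.mem_singleton] at hx
        refine ⟨t' + w (c', s(h, σ.1 h)), ?_⟩
        rw [he, hx, Function.update_self, comp_arrival σ w _ h c' t' hct,
          comp_colourOf _ h c' t' hct]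
  · rw [he, Function.update_of_ne hvx] at hv
    exact absurd hv hold

theorem comp_inv2_step (σ : Pairing (HE d)) (w : Weights d) (hw : ∀ e, 0 ≤ w e) (p : Painting n)
    (hp : comp_Inv2 σ w p) : comp_Inv2 σ w (paintStep σ w p) := by
  rcases comp_step σ w p with ⟨_, h⟩ | ⟨h0, hh, hmin, he⟩
  · rw [h]; exact hp
  have hh' := (comp_mem_frontier σ p h0).1 hh
  obtain ⟨⟨c0, t0⟩, hct⟩ := Option.ne_none_iff_exists'.1 hh'.1
  set v0 := (σ.1 h0).1 with hv0
  set T := arrival σ w p h0 with hT
  set p' := paintStep σ w p with hp'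
  have hnew : p' v0 = some (colourOf p h0, T) := by rw [he, Function.update_self]
  have hold : ∀ v, v ≠ v0 → p' v = p v := by
    intro v hv; rw [he, Function.update_of_ne hv]
  have htime : ∀ v c t, p' v = some (c, t) → t ≤ T := by
    intro v c t hv
    by_cases hvv : v = v0
    · rw [hvv, hnew] at hv
      simp only [Option.some.injEq, Prod.mk.injEq] at hv
      exact hv.2.symm.le
    · rw [hold v hvv] at hv
      exact hp.fr h0 hh v c t hv
  constructor
  · intro h c t c' t' h1 h2
    by_cases ha : h.1 = v0
    · rw [ha, hnew] at h1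
      simp only [Option.some.injEq, Prod.mk.injEq] at h1
      have := htime _ _ _ h2
      linarith [hw (c, s(h, σ.1 h)), h1.2]
    · rw [hold _ ha] at h1
      by_cases hb : (σ.1 h).1 = v0
      · have hf : h ∈ frontier σ p := by
          rw [comp_mem_frontier]
          exact ⟨by rw [h1]; simp, by rw [hb]; exact hh'.2⟩
        have := hmin h hf
        rw [comp_arrival σ w p h c t h1] at this
        rw [hb, hnew] at h2
        simp only [Option.some.injEq, Prod.mk.injEq] at h2
        rw [← h2.2]
        exact this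
      · rw [hold _ hb] at h2
        exact hp.nb h c t c' t' h1 h2
  · intro h hf v c t hv
    rw [comp_mem_frontier] at hf
    have h1 := htime v c t hv
    refine h1.trans ?_
    by_cases ha : h.1 = v0
    · have := hnew
      rw [← ha] at this
      rw [comp_arrival σ w p' h _ _ this]
      linarith [hw (colourOf p h0, s(h, σ.1 h))]
    · have hb : (σ.1 h).1 ≠ v0 := by
        intro hb
        rw [hb, hnew] at hf
        simp at hf
      have hf' : h ∈ frontier σ p := by
        rw [comp_mem_frontier, ← hold _ ha, ← hold _ hb]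
        exact hf
      have h2 := hmin h hf'
      obtain ⟨⟨c1, t1⟩, hct1⟩ := Option.ne_none_iff_exists'.1 hf.1
      have hct1' : p h.1 = some (c1, t1) := by rw [← hold _ ha]; exact hct1
      rw [comp_arrival σ w p' h c1 t1 hct1]
      rw [comp_arrival σ w p h c1 t1 hct1'] at h2
      exact h2

theorem comp_inv (σ : Pairing (HE d)) (w : Weights d) (s : Sources n) (k : ℕ) :
    comp_Inv σ w s (comp_P σ w s k) := by
  induction k with
  | zero => exact comp_inv_init σ w s
  | succ k ih => rw [comp_P_succ]; exact comp_inv_step σ w s _ ih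

theorem comp_inv2 (σ : Pairing (HE d)) (w : Weights d) (hw : ∀ e, 0 ≤ w e) (s : Sources n) (k : ℕ) :
    comp_Inv2 σ w (comp_P σ w s k) := by
  induction k with
  | zero => exact comp_inv2_init σ w hw s
  | succ k ih => rw [comp_P_succ]; exact comp_inv2_step σ w hw _ ih

open Classical in
/-- After `n` steps the frontier is empty. -/
theorem comp_frontier_final (σ : Pairing (HE d)) (w : Weights d) (s : Sources n) :
    frontier σ (finalPaint σ w s) = ∅ := by
  have key : ∀ k, frontier σ (comp_P σ w s k) = ∅ ∨
      k < (Finset.univ.filter fun v : Fin n => comp_P σ w s k v ≠ none).card := by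
    intro k
    induction k with
    | zero =>
      right
      apply Finset.card_pos.2
      refine ⟨s.1 true, ?_⟩
      rw [Finset.mem_filter]
      refine ⟨Finset.mem_univ _, ?_⟩
      have := (comp_inv σ w s 0).src true
      rw [this]; simp
    | succ k ih =>
      rw [comp_P_succ]
      rcases comp_step σ w (comp_P σ w s k) with ⟨h1, h2⟩ | ⟨h0, hh, hmin, he⟩
      · left; rw [h2, h1]
      · right
        have hlt : k < (Finset.univ.filter fun v : Fin n => comp_P σ w s k v ≠ none).card := by
          rcases ih with ih | ih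
          · rw [ih] at hh; simp at hh
          · exact ih
        have hss : (Finset.univ.filter fun v : Fin n => comp_P σ w s k v ≠ none) ⊂
            (Finset.univ.filter fun v : Fin n => paintStep σ w (comp_P σ w s k) v ≠ none) := by
          rw [Finset.ssubset_iff_of_subset]
          · refine ⟨(σ.1 h0).1, ?_, ?_⟩
            · rw [Finset.mem_filter, he, Function.update_self]
              simp
            · rw [Finset.mem_filter]
              rw [comp_mem_frontier] at hh
              simp [hh.2]
          · intro v hv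
            rw [Finset.mem_filter] at hv ⊢
            refine ⟨Finset.mem_univ _, ?_⟩
            obtain ⟨x, hx⟩ := Option.ne_none_iff_exists'.1 hv.2
            rw [comp_step_mono σ w _ v x hx]
            simp
        have := Finset.card_lt_card hss
        omega
  rcases key n with h | h
  · exact h
  · exfalso
    have : (Finset.univ.filter fun v : Fin n => comp_P σ w s n v ≠ none).card ≤ n := by
      have := Finset.card_le_univ (Finset.univ.filter fun v : Fin n => comp_P σ w s n v ≠ none)
      simpa using this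
    omega

/-- The source of colour `c` keeps its colour. -/
theorem final_source (σ : Pairing (HE d)) (w : Weights d) (s : Sources n) (hn : 2 ≤ n) (c : Bool) :
    finalPaint σ w s (s.1 c) = some (c, 0) := (comp_inv σ w s n).src c

/-- A neighbour of a painted vertex is painted no later than the arrival of that colour. -/
theorem final_neighbour (σ : Pairing (HE d)) (w : Weights d) (s : Sources n)
    (hw : ∀ e, 0 ≤ w e) (h : HE d) (c : Bool) (t : ℝ)
    (ht : finalPaint σ w s h.1 = some (c, t)) :
    ∃ c' t', finalPaint σ w s (σ.1 h).1 = some (c', t') ∧ t' ≤ t + w (c, s(h, σ.1 h)) := by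
  have hne : finalPaint σ w s (σ.1 h).1 ≠ none := by
    intro h0
    have : h ∈ frontier σ (finalPaint σ w s) := by
      rw [comp_mem_frontier]
      exact ⟨by rw [ht]; simp, h0⟩
    rw [comp_frontier_final] at this
    simp at this
  obtain ⟨⟨c', t'⟩, hct⟩ := Option.ne_none_iff_exists'.1 hne
  exact ⟨c', t', hct, (comp_inv2 σ w hw s n).nb h c t c' t' ht hct⟩

/-- A painted vertex is reached by a walk of its own colour from the source of that colour, of
total weight its painting time; the walk can be taken without repeated vertices. -/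
theorem final_walk (σ : Pairing (HE d)) (w : Weights d) (s : Sources n) (v : Fin n) (c : Bool)
    (t : ℝ) (hv : finalPaint σ w s v = some (c, t)) :
    ∃ a : List (HE d), IsWalk σ (s.1 c) a v ∧ walkLen σ w c a = t ∧
      (s.1 c :: walkVerts σ a).Nodup ∧
      ∀ x ∈ walkVerts σ a, ∃ t', finalPaint σ w s x = some (c, t') :=
  (comp_inv σ w s n).walk v c t hv

/-- Main deterministic lemma.  `W` is a set of vertices all reached inside `W` within time `t0`
by the colour `c`, which the other colour cannot reach by time `t0`; `a` is a simple path of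
half-edges that starts in `W` and continues outside `W`, and the other colour cannot reach its
vertices (outside `W` and outside the path) before colour `c` following `W` and the path.
Then the last vertex of the path is painted with colour `c`. -/
theorem painted_of_path (σ : Pairing (HE d)) (w : Weights d) (s : Sources n)
    (hw : ∀ e, 0 ≤ w e) (c : Bool) (W : Finset (Fin n)) (t0 : ℝ)
    (hsW : s.1 c ∈ W)
    (hW : ∀ v ∈ W, ∃ a : List (HE d), IsWalk σ (s.1 c) a v ∧
      (∀ x ∈ walkVerts σ a, x ∈ W) ∧ walkLen σ w c a ≤ t0)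
    (hred0 : ∀ (b : List (HE d)) (v : Fin n), v ∈ W → IsWalk σ (s.1 !c) b v →
      (s.1 (!c) :: walkVerts σ b).Nodup →
      (∀ x ∈ (s.1 (!c) :: walkVerts σ b).dropLast, x ∉ W) → t0 < walkLen σ w (!c) b)
    (u v : Fin n) (hu : u ∈ W) (a : List (HE d)) (ha : IsWalk σ u a v) (hane : a ≠ [])
    (hand : (walkVerts σ a).Nodup) (haW : ∀ x ∈ walkVerts σ a, x ∉ W)
    (hred : ∀ (a1 a2 b : List (HE d)) (x : Fin n), a = a1 ++ a2 → a1 ≠ [] →
      IsWalk σ u a1 x → IsWalk σ (s.1 !c) b x →
      (s.1 (!c) :: walkVerts σ b).Nodup →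
      (∀ y ∈ (s.1 (!c) :: walkVerts σ b).dropLast, y ∉ W ∧ y ∉ walkVerts σ a) →
      t0 + walkLen σ w c a1 < walkLen σ w (!c) b) :
    ∃ t, finalPaint σ w s v = some (c, t) := by
  -- prefixes of simple walks
  have hpre : ∀ (x : Fin n) (b b1 b2 : List (HE d)), b = b1 ++ b2 →
      (x :: walkVerts σ b).Nodup → (x :: walkVerts σ b1).Nodup := by
    intro x b b1 b2 e h
    rw [e, comp_walkVerts_append, ← List.cons_append] at h
    exact (List.nodup_append.1 h).1
  have hsub : ∀ (x : Fin n) (b b1 b2 : List (HE d)), b = b1 ++ b2 →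
      ∀ y ∈ x :: walkVerts σ b1, y ∈ x :: walkVerts σ b := by
    intro x b b1 b2 e y hy
    rw [e, comp_walkVerts_append, ← List.cons_append]
    exact List.mem_append_left _ hy
  -- no vertex of `W` is painted with the other colour by time `t0`
  have hno : ∀ x ∈ W, ∀ t, finalPaint σ w s x = some (!c, t) → t ≤ t0 → False := by
    intro x hx t hxt htt
    obtain ⟨b, h1, h2, h3, h4⟩ := final_walk σ w s x (!c) t hxt
    obtain ⟨b1, b2, y, e, g1, g2, g3⟩ := comp_cut σ (fun z => z ∈ W) b _ x h1 hx
    have := hred0 b1 y g2 g1 (hpre _ _ _ _ e h3) g3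
    have h5 := comp_walkLen_prefix σ w hw (!c) (a := b1) (b := b) ⟨b2, e.symm⟩
    linarith
  have hcc : ∀ c' : Bool, c' = c ∨ c' = !c := by
    intro c'; cases c' <;> cases c <;> simp
  -- vertices of `W` are painted `c` by time `t0`
  have hWp : ∀ x ∈ W, ∃ t, finalPaint σ w s x = some (c, t) ∧ t ≤ t0 := by
    intro x hx
    obtain ⟨a', h1, h2, h3⟩ := hW x hx
    have key : ∀ (k : ℕ) (a1 a2 : List (HE d)) (y : Fin n), a1.length = k → a' = a1 ++ a2 →
        IsWalk σ (s.1 c) a1 y →
        ∃ t, finalPaint σ w s y = some (c, t) ∧ t ≤ walkLen σ w c a1 := by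
      intro k
      induction k with
      | zero =>
        intro a1 a2 y hk e hy
        have : a1 = [] := List.length_eq_zero_iff.1 hk
        subst this
        have hy' : s.1 c = y := hy
        refine ⟨0, ?_, by simp [walkLen]⟩
        rw [← hy']
        exact (comp_inv σ w s n).src c
      | succ k ih =>
        intro a1 a2 y hk e hy
        have hne : a1 ≠ [] := by rintro rfl; simp at hk
        obtain ⟨a0, h, rfl⟩ := List.eq_nil_or_concat' a1 |>.resolve_left hne
        rw [comp_walk_append] at hy
        obtain ⟨x0, hx0, hh1, hh2⟩ := hy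
        obtain ⟨t, ht1, ht2⟩ := ih a0 (h :: a2) x0 (by simpa using hk) (by rw [e]; simp) hx0
        rw [← hh1] at ht1
        obtain ⟨c', t', g1, g2⟩ := final_neighbour σ w s hw h c t ht1
        have hyv : (σ.1 h).1 = y := hh2
        rw [hyv] at g1
        have hlen : walkLen σ w c (a0 ++ [h]) = walkLen σ w c a0 + w (c, s(h, σ.1 h)) := by
          rw [comp_walkLen_append]; simp [walkLen]
        have hyW : y ∈ W := by
          apply h2
          rw [e, comp_walkVerts_append, comp_walkVerts_append]
          simp [walkVerts, hyv]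
        have hle := comp_walkLen_prefix σ w hw c (a := a0 ++ [h]) (b := a') ⟨a2, e.symm⟩
        rcases hcc c' with rfl | rfl
        · exact ⟨t', g1, by rw [hlen]; linarith⟩
        · exact absurd (hno y hyW t' g1 (by linarith)) (fun h => h)
    obtain ⟨t, ht1, ht2⟩ := key a'.length a' [] x rfl (by simp) h1
    exact ⟨t, ht1, ht2.trans h3⟩
  -- along the path
  have key : ∀ (k : ℕ) (a1 a2 : List (HE d)) (y : Fin n), a1.length = k → a = a1 ++ a2 →
      IsWalk σ u a1 y →
      ∃ t, finalPaint σ w s y = some (c, t) ∧ t ≤ t0 + walkLen σ w c a1 := by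
    intro k
    induction k using Nat.strong_induction_on with
    | _ k ih =>
      intro a1 a2 y hk e hy
      rcases List.eq_nil_or_concat' a1 with rfl | ⟨a0, h, rfl⟩
      · have hy' : u = y := hy
        obtain ⟨t, ht1, ht2⟩ := hWp u hu
        exact ⟨t, hy' ▸ ht1, by simpa [walkLen] using ht2⟩
      have hy0 := hy
      rw [comp_walk_append] at hy
      obtain ⟨x0, hx0, hh1, hh2⟩ := hy
      obtain ⟨t, ht1, ht2⟩ := ih a0.length (by rw [← hk]; simp) a0 (h :: a2) x0 rfl
        (by rw [e]; simp) hx0
      rw [← hh1] at ht1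
      obtain ⟨c', t', g1, g2⟩ := final_neighbour σ w s hw h c t ht1
      have hyv : (σ.1 h).1 = y := hh2
      rw [hyv] at g1
      have hlen : walkLen σ w c (a0 ++ [h]) = walkLen σ w c a0 + w (c, s(h, σ.1 h)) := by
        rw [comp_walkLen_append]; simp [walkLen]
      rcases hcc c' with rfl | rfl
      · exact ⟨t', g1, by rw [hlen]; linarith⟩
      exfalso
      obtain ⟨b, f1, f2, f3, f4⟩ := final_walk σ w s y (!c) t' g1
      have hya : y ∈ walkVerts σ a := by
        rw [e, comp_walkVerts_append, comp_walkVerts_append]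
        simp [walkVerts, hyv]
      obtain ⟨b1, b2, x', e', k1, k2, k3⟩ :=
        comp_cut σ (fun z => z ∈ walkVerts σ a) b _ y f1 hya
      -- all vertices of `b` are painted with the other colour
      have hbp : ∀ z ∈ s.1 (!c) :: walkVerts σ b, ∃ t, finalPaint σ w s z = some (!c, t) := by
        intro z hz
        rw [List.mem_cons] at hz
        rcases hz with rfl | hz
        · exact ⟨0, (comp_inv σ w s n).src (!c)⟩
        · exact f4 z hz
      have hx'b : x' ∈ s.1 (!c) :: walkVerts σ b1 := by
        rcases List.eq_nil_or_concat' b1 with rfl | ⟨b0, g, rfl⟩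
        · have : s.1 (!c) = x' := k1
          rw [← this]; simp
        · rw [comp_walk_append] at k1
          obtain ⟨_, _, _, k13⟩ := k1
          have : (σ.1 g).1 = x' := k13
          rw [comp_walkVerts_append]
          simp [walkVerts, this]
      obtain ⟨tx, htx⟩ := hbp x' (hsub _ _ _ _ e' x' hx'b)
      obtain ⟨a1', a2', e'', n1, w1⟩ := comp_mem_walkVerts σ a u v x' ha k2
      have hlenle : (a0 ++ [h]).length ≤ a1'.length := by
        by_contra hlt
        push Not at hlt
        obtain ⟨t2, ht2', _⟩ := ih a1'.length (by omega) a1' a2' x' rfl e'' w1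
        rw [htx] at ht2'
        simp at ht2'
      have hprefix : (a0 ++ [h]) <+: a1' :=
        List.prefix_of_prefix_length_le ⟨a2, e.symm⟩ ⟨a2', e''.symm⟩ hlenle
      have hl1 := comp_walkLen_prefix σ w hw c hprefix
      have hl2 := comp_walkLen_prefix σ w hw (!c) (a := b1) (b := b) ⟨b2, e'.symm⟩
      have := hred a1' a2' b1 x' e'' n1 w1 k1 (hpre _ _ _ _ e' f3) (by
        intro z hz
        refine ⟨?_, k3 z hz⟩
        intro hzW
        obtain ⟨t3, ht3, _⟩ := hWp z hzW
        obtain ⟨t4, ht4⟩ := hbp z (hsub _ _ _ _ e' z (List.dropLast_subset _ hz))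
        rw [ht3] at ht4
        simp at ht4)
      linarith
  obtain ⟨t, ht, _⟩ := key a.length a [] v rfl (by simp) ha
  exact ⟨t, ht⟩

end Pool.Agent.H86.CM
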