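import Pool.Agent.H86.CM.CoreDefs
import Pool.Agent.H86.CM.Comp

/-! MODULE COREDET: a good configuration without interference leads to a painted target. -/

namespace Pool.Agent.H86.CM

section cdt

variable {n : ℕ} {d : Fin n → ℕ}

theorem cdt_start (σ : Pairing (HE d)) : ∀ (b : List (HE d)) (u v : Fin n), IsWalk σ u b v →
    ∀ (i : ℕ) (hi : i < b.length),
      (u :: walkVerts σ b)[i]'(by simp [walkVerts]; omega) = (b[i]).1 := by
  intro b
  induction b with
  | nil => intro u v _ i hi; simp at hi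
  | cons h b ih =>
    intro u v hw i hi
    obtain ⟨h1, h2⟩ := hw
    cases i with
    | zero => simpa using h1.symm
    | succ i =>
      have := ih _ v h2 i (by simpa using hi)
      simpa [walkVerts] using this

theorem cdt_end (σ : Pairing (HE d)) (b : List (HE d)) (u : Fin n) (i : ℕ) (hi : i < b.length) :
    (u :: walkVerts σ b)[i + 1]'(by simp [walkVerts]; omega) = (σ.1 b[i]).1 := by
  simp [walkVerts]

/-- The start vertices of the steps of a walk. -/
theorem cdt_mem_start (σ : Pairing (HE d)) (b : List (HE d)) (u v : Fin n) (hw : IsWalk σ u b v)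
    (x : HE d) (hx : x ∈ b) : x.1 ∈ (u :: walkVerts σ b).dropLast := by
  obtain ⟨i, hi, rfl⟩ := List.getElem_of_mem hx
  have h1 := cdt_start σ b u v hw i hi
  have h2 : i < (u :: walkVerts σ b).dropLast.length := by simp [walkVerts]; omega
  have h3 : (u :: walkVerts σ b).dropLast[i] = (b[i]).1 := by
    rw [List.getElem_dropLast]; exact h1
  rw [← h3]
  exact List.getElem_mem h2

theorem cdt_simple (σ : Pairing (HE d)) (b : List (HE d)) (u v : Fin n) (hw : IsWalk σ u b v)
    (hnd : (u :: walkVerts σ b).Nodup) : b.Nodup ∧ ∀ x ∈ b, σ.1 x ∉ b := by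
  have hl : (u :: walkVerts σ b).length = b.length + 1 := by simp [walkVerts]
  refine ⟨?_, ?_⟩
  · have h1 : (walkVerts σ b).Nodup := (List.nodup_cons.1 hnd).2
    exact List.Nodup.of_map _ h1
  · intro x hx hy
    obtain ⟨i, hi, hix⟩ := List.getElem_of_mem hx
    obtain ⟨j, hj, hjy⟩ := List.getElem_of_mem hy
    have e1 := cdt_end σ b u i hi
    have e2 := cdt_start σ b u v hw j hj
    have e3 := cdt_end σ b u j hj
    have e4 := cdt_start σ b u v hw i hi
    rw [hix] at e1 e4
    rw [hjy] at e2 e3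
    rw [σ.2.1] at e3
    have h1 : i + 1 = j := (hnd.getElem_inj_iff).1 (e1.trans e2.symm)
    have h2 : j + 1 = i := (hnd.getElem_inj_iff).1 (e3.trans e4.symm)
    omega

theorem cdt_chain (σ : Pairing (HE d)) (b : List (HE d)) (u v : Fin n) (hw : IsWalk σ u b v)
    (hnd : (u :: walkVerts σ b).Nodup) :
    ∀ c x y e, b = c ++ x :: y :: e → (σ.1 x).1 = y.1 ∧ σ.1 x ≠ y := by
  intro c x y e he
  refine ⟨?_, ?_⟩
  · rw [he, comp_walk_append] at hw
    obtain ⟨z, _, h1, h2, _⟩ := hw
    exact h2.symm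
  · rintro rfl
    exact (cdt_simple σ b u v hw hnd).2 x (by rw [he]; simp) (by rw [he]; simp)

theorem cdt_cLen (σ : Pairing (HE d)) (w : Weights d) (c : Bool) (a : List (HE d)) :
    cLen w c (cfg σ a) = walkLen σ w c a := by
  simp [cLen, walkLen, cfg, Function.comp_def]

theorem cdt_last (σ : Pairing (HE d)) (b : List (HE d)) (u v : Fin n) (hw : IsWalk σ u b v)
    (c : List (HE d)) (x : HE d) (h : b = c ++ [x]) : (σ.1 x).1 = v := by
  rw [h, comp_walk_append] at hw
  obtain ⟨z, _, _, h2⟩ := hw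
  exact h2

theorem cdt_isWalk (σ : Pairing (HE d)) : ∀ (e : List (HE d)) (x : HE d),
    (∀ c x' y e', x :: e = c ++ x' :: y :: e' → (σ.1 x').1 = y.1) →
    ∃ c z, x :: e = c ++ [z] ∧ IsWalk σ x.1 (x :: e) (σ.1 z).1 := by
  intro e
  induction e with
  | nil => intro x _; exact ⟨[], x, rfl, rfl, rfl⟩
  | cons y e ih =>
    intro x h
    obtain ⟨c, z, h1, h2⟩ := ih y fun c x' y' e' he => h (x :: c) x' y' e' (by rw [he]; rfl)
    refine ⟨x :: c, z, by rw [h1]; rfl, rfl, ?_⟩
    have := h [] x y e rfl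
    rw [this]
    exact h2

/-- A simple walk that avoids `W` before its end is a chain compatible with `A`. -/
theorem cdt_ends (σ : Pairing (HE d)) {A : List (HE d × HE d)} {W : Finset (Fin n)}
    (hA : Contains σ A) (hAW : ∀ h ∈ ends A, h.1 ∈ W)
    (b : List (HE d)) (u v : Fin n) (hw : IsWalk σ u b v)
    (hnd : (u :: walkVerts σ b).Nodup) (hout : ∀ x ∈ (u :: walkVerts σ b).dropLast, x ∉ W) :
    (ends (cfg σ b)).Nodup ∧ (ends A).Disjoint (ends (cfg σ b)) := by
  obtain ⟨h1, h2⟩ := cdt_simple σ b u v hw hnd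
  refine ⟨ends_cfg_nodup h1 h2, ends_A_cfg_disjoint ?_⟩
  intro x hx
  have h3 : x ∉ ends A := fun h => hout _ (cdt_mem_start σ b u v hw x hx) (hAW _ h)
  exact ⟨h3, fun h => h3 ((mem_ends_symm σ hA).1 h)⟩

/-- Long walks. -/
theorem cdt_long (σ : Pairing (HE d)) (w : Weights d) (hw : ∀ e, 0 ≤ w e)
    {A : List (HE d × HE d)} {W : Finset (Fin n)} (hAn : (ends A).Nodup)
    (hA : Contains σ A) (hAW : ∀ h ∈ ends A, h.1 ∈ W) (KR : ℕ) (c : Bool) (T : ℝ)
    (b : List (HE d)) (o v : Fin n) (hwk : IsWalk σ o b v)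
    (hnd : (o :: walkVerts σ b).Nodup) (hout : ∀ x ∈ (o :: walkVerts σ b).dropLast, x ∉ W)
    (hlen : KR < b.length) (hlong : (σ, w) ∉ longEv A o KR c T) :
    T < walkLen σ w (!c) b := by
  by_contra hcon
  push Not at hcon
  apply hlong
  set b' := b.take (KR + 1) with hb'
  have hsplit : b = b' ++ b.drop (KR + 1) := (List.take_append_drop _ _).symm
  have hlb : b'.length = KR + 1 := by rw [hb', List.length_take]; omega
  have hwk' := hwk
  rw [hsplit, comp_walk_append] at hwk'
  obtain ⟨z, hz, _⟩ := hwk'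
  have hb'ne : b' ≠ [] := by
    intro h; rw [h] at hlb; simp at hlb
  have hprefix : (o :: walkVerts σ b') <+: (o :: walkVerts σ b) := by
    refine ⟨walkVerts σ (b.drop (KR + 1)), ?_⟩
    conv_rhs => rw [hsplit]
    rw [comp_walkVerts_append]
    rfl
  have hnd' : (o :: walkVerts σ b').Nodup := hprefix.sublist.nodup hnd
  have hout' : ∀ x ∈ (o :: walkVerts σ b').dropLast, x ∉ W := by
    intro x hx
    apply hout
    rw [List.mem_iff_getElem] at hx ⊢
    obtain ⟨i, hi, rfl⟩ := hx
    have hl1 : (o :: walkVerts σ b').length = KR + 2 := by simp [walkVerts, hlb]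
    have hl2 : (o :: walkVerts σ b).length = b.length + 1 := by simp [walkVerts]
    have hi' : i < KR + 1 := by
      rw [List.length_dropLast, hl1] at hi
      omega
    refine ⟨i, by rw [List.length_dropLast, hl2]; omega, ?_⟩
    rw [List.getElem_dropLast, List.getElem_dropLast]
    exact (hprefix.getElem (by rw [hl1]; omega)).symm
  obtain ⟨m, hm, hlm⟩ := cfg_mem_chains σ b' hb'ne (cdt_chain σ b' o z hz hnd') (hes d o)
    Finset.univ
    (by
      intro x e he
      rw [mem_hes]
      rw [he] at hz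
      exact hz.1)
    (fun _ _ _ => Finset.mem_univ _)
  have hmK : m = KR := by omega
  subst hmK
  obtain ⟨h1, h2⟩ := cdt_ends σ hA hAW b' o z hz hnd' hout'
  refine ⟨cfg σ b', hm, ?_, contains_cfg σ b', ?_⟩
  · rw [ends_append, List.nodup_append']
    exact ⟨hAn, h1, h2⟩
  · rw [cdt_cLen]
    exact (comp_walkLen_prefix σ w hw (!c) (a := b') (b := b) ⟨_, hsplit.symm⟩).trans hcon

end cdt

theorem core_det {n : ℕ} {d : Fin n → ℕ} (s : Sources n) (c : Bool)
    (A : List (HE d × HE d)) (W : Finset (Fin n)) (X : Finset (HE d)) (Tg : Finset (Fin n))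
    (b0 β : ℝ) (KK KR : ℕ) (t0 T : ℝ) (hs : Scene d A W X Tg (s.1 !c))
    (σ : Pairing (HE d)) (w : Weights d) (hw : ∀ e, 0 ≤ w e) (hA : Contains σ A)
    (hsW : s.1 c ∈ W)
    (hW : ∀ v ∈ W, ∃ a : List (HE d), IsWalk σ (s.1 c) a v ∧
      (∀ x ∈ walkVerts σ a, x ∈ W) ∧ walkLen σ w c a ≤ t0)
    (ht0 : 0 ≤ t0) (hT : 0 ≤ T) (B : List (HE d × HE d))
    (hB : B ∈ goodB d W X Tg (s.1 !c) b0 β KK) (hcB : Contains σ B) (hlen : cLen w c B ≤ T)
    (hbad : (σ, w) ∉ badEv A (s.1 !c) KR c t0 B)
    (hlong : (σ, w) ∉ longEv A (s.1 !c) KR c (t0 + T))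
    (htree : (σ, w) ∉ treeEv A W (s.1 !c) KR c t0) :
    ∃ v ∈ Tg, ∃ t, finalPaint σ w s v = some (c, t) := by
  have hSW := goodB_SW hs hB hcB
  set a := B.map Prod.fst with ha
  have hBa : B = cfg σ a := eq_cfg σ B hcB
  obtain ⟨x0, e0, hx0⟩ := List.exists_cons_of_ne_nil hSW.ne
  have hwalk := cdt_isWalk σ e0 x0 (by
    intro c x' y e' he
    exact hSW.walk c x' y e' (by rw [hx0]; exact he))
  obtain ⟨cl, zl, hcl, hwl⟩ := hwalk
  rw [← hx0] at hcl hwl
  have hTg : (σ.1 zl).1 ∈ Tg := hSW.last cl zl hcl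
  have hov : ∀ h ∈ a, (σ.1 h).1 ≠ s.1 !c := by
    intro h hh
    obtain ⟨p, hp, rfl⟩ := List.mem_map.1 hh
    rw [hcB p hp]
    exact (goodB_out hs hB hp).2
  have hlena : walkLen σ w c a ≤ T := by
    rw [← cdt_cLen, ← hBa]; exact hlen
  refine ⟨(σ.1 zl).1, hTg, painted_of_path σ w s hw c W t0 hsW hW ?_ x0.1 _
    (hSW.head x0 e0 hx0) a hwl hSW.ne hSW.nodup ?_ ?_⟩
  · -- the other colour does not reach `W` early
    intro b v hv hb hnd hout
    have hbne : b ≠ [] := by
      rintro rfl
      have : s.1 (!c) = v := hb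
      exact hs.oW (this ▸ hv)
    obtain ⟨m, hm, hlm⟩ := cfg_mem_chains σ b hbne (cdt_chain σ b _ v hb hnd) (hes d (s.1 !c))
      (hesS d W)
      (by
        intro x e he
        rw [mem_hes]
        rw [he] at hb
        exact hb.1)
      (by
        intro c' x he
        rw [mem_hesS, cdt_last σ b _ v hb c' x he]
        exact hv)
    by_cases hmK : m < KR
    · by_contra hcon
      push Not at hcon
      apply htree
      obtain ⟨h1, h2⟩ := cdt_ends σ hA hs.endsW b _ v hb hnd hout
      refine ⟨m, Finset.mem_range.2 hmK, cfg σ b, hm, ?_, contains_cfg σ b, ?_⟩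
      · rw [ends_append, List.nodup_append']
        exact ⟨hs.nodup, h1, h2⟩
      · rw [cdt_cLen]; exact hcon
    · have := cdt_long σ w hw hs.nodup hA hs.endsW KR c (t0 + T) b _ v hb hnd hout (by omega) hlong
      linarith
  · intro x hx
    obtain ⟨h, hh, rfl⟩ := List.mem_map.1 hx
    exact hSW.notW h hh
  · -- the other colour does not reach the path early
    intro a1 a2 b x haa ha1 hwa1 hb hnd hout
    have hx : x ∈ walkVerts σ a := by
      obtain ⟨c1, z1, h1⟩ := exists_last ha1
      have h2 := cdt_last σ a1 _ x hwa1 c1 z1 h1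
      rw [← h2]
      exact List.mem_map.2 ⟨z1, by rw [haa, h1]; simp, rfl⟩
    have hbne : b ≠ [] := by
      rintro rfl
      have h1 : s.1 (!c) = x := hb
      obtain ⟨h, hh, h2⟩ := List.mem_map.1 hx
      exact hov h hh (h2.trans h1.symm)
    have hl1 : 1 ≤ a1.length := List.length_pos_iff.2 ha1
    have hla : a.length = B.length := by rw [ha, List.length_map]
    have hl2 : a1.length ≤ B.length := by
      rw [← hla, haa, List.length_append]; omega
    have hlt : a1.length - 1 < B.length := by omega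
    have hend : ∀ p ∈ B[a1.length - 1]?, x = p.2.1 := by
      intro p hp
      rw [List.getElem?_eq_getElem hlt] at hp
      simp only [Option.mem_def, Option.some.injEq] at hp
      obtain ⟨c1, z1, h1⟩ := exists_last ha1
      have h2 := cdt_last σ a1 _ x hwa1 c1 z1 h1
      have h3 : a1.length - 1 = c1.length := by rw [h1]; simp
      have h4 : p = (z1, σ.1 z1) := by
        rw [← hp]
        have : B = cfg σ c1 ++ (z1, σ.1 z1) :: cfg σ a2 := by
          rw [hBa, haa, h1]; simp [cfg]
        simp only [this, h3]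
        rw [List.getElem_append_right (by simp [cfg])]
        simp [cfg]
      rw [h4]
      exact h2.symm
    obtain ⟨m, hm, hlm⟩ := cfg_mem_chains σ b hbne (cdt_chain σ b _ x hb hnd) (hes d (s.1 !c))
      (endAt B a1.length)
      (by
        intro x e he
        rw [mem_hes]
        rw [he] at hb
        exact hb.1)
      (by
        intro c' y he
        unfold endAt
        simp only [Finset.mem_filter, Finset.mem_univ, true_and]
        intro p hp
        rw [cdt_last σ b _ x hb c' y he]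
        exact hend p hp)
    have hout1 : ∀ y ∈ (s.1 (!c) :: walkVerts σ b).dropLast, y ∉ W := fun y hy => (hout y hy).1
    by_cases hmK : m < KR
    · by_contra hcon
      push Not at hcon
      apply hbad
      obtain ⟨h1, h2⟩ := cdt_ends σ hA hs.endsW b _ x hb hnd hout1
      have h3 : (ends (cfg σ a)).Nodup := hSW.sub_nodup (List.Sublist.refl _)
      have h4 : (ends A).Disjoint (ends (cfg σ a)) :=
        ends_A_cfg_disjoint fun y hy => hSW.not_mem_A hs hA hy
      have h5 : (ends (cfg σ a)).Disjoint (ends (cfg σ b)) := by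
        refine ends_cfg_disjoint ?_
        intro y hy
        have hy' := hout _ (cdt_mem_start σ b _ x hb y hy)
        refine ⟨?_, ?_⟩
        · intro hya
          rcases mem_split_pred hya with ⟨e, he⟩ | ⟨c', p, e, he⟩
          · exact hy'.1 (hSW.head y e he)
          · apply hy'.2
            rw [← hSW.walk c' p y e he]
            exact List.mem_map.2 ⟨p, by rw [he]; simp, rfl⟩
        · intro hya
          apply hy'.2
          exact List.mem_map.2 ⟨σ.1 y, hya, by rw [σ.2.1]⟩
      refine ⟨a1.length, Finset.mem_Icc.2 ⟨hl1, hl2⟩, m, Finset.mem_range.2 hmK, cfg σ b, hm, ?_,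
        contains_cfg σ b, ?_⟩
      · rw [ends_append, ends_append, hBa, List.nodup_append', List.nodup_append']
        refine ⟨⟨hs.nodup, h3, h4⟩, h1, ?_⟩
        rw [List.disjoint_append_left]
        exact ⟨h2, h5⟩
      · have h6 : B.take a1.length = cfg σ a1 := by
          rw [hBa, haa, cfg_append, List.take_left' (cfg_length σ a1)]
        rw [h6]
        change cLen w (!c) (cfg σ b) ≤ t0 + cLen w c (cfg σ a1)
        rw [cdt_cLen, cdt_cLen]
        exact hcon
    · have h1 := cdt_long σ w hw hs.nodup hA hs.endsW KR c (t0 + T) b _ x hb hnd hout1 (by omega)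
        hlong
      have h2 := comp_walkLen_prefix σ w hw c (a := a1) (b := a) ⟨a2, haa.symm⟩
      linarith

end Pool.Agent.H86.CM
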