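import Pool.Agent.H86.CM.CoreDefs

/-!
# Combinatorics of the exploration
-/

namespace Pool.Agent.H86.CM

variable {n : ℕ} {d : Fin n → ℕ}

theorem exa_mem_hesL {v : Fin n} {x : HE d} : x ∈ hesL d v ↔ x.1 = v := by
  unfold hesL
  rw [List.mem_map]
  constructor
  · rintro ⟨i, _, rfl⟩
    rfl
  · intro h
    subst h
    exact ⟨x.2, List.mem_finRange _, rfl⟩

theorem exa_hesL_nodup (v : Fin n) : (hesL d v).Nodup := by
  unfold hesL
  refine List.Nodup.map ?_ (List.nodup_finRange _)
  intro i j h
  simpa using h

theorem exa_hesL_length (v : Fin n) : (hesL d v).length = d v := by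
  simp [hesL]

theorem exa_next {S : ExS d} {x : HE d} {rest : List (HE d)} (h : S.act = x :: rest) (g : HE d) :
    exNext S g = ⟨(x, g) :: S.A, rest ++ (hesL d g.1).erase g, g.1 :: S.vis⟩ := by
  unfold exNext
  rw [h]

theorem ex_facts (u o : Fin n) (γ : List (HE d)) (h : nice u o γ) :
    (ends (exRun u γ).A).Nodup ∧ (exRun u γ).A.length = γ.length ∧ (exRun u γ).act.Nodup ∧
    (∀ x, x ∈ (exRun u γ).act ↔ x.1 ∈ (exRun u γ).vis ∧ x ∉ ends (exRun u γ).A) ∧
    (∀ x ∈ ends (exRun u γ).A, x.1 ∈ (exRun u γ).vis) ∧ u ∈ (exRun u γ).vis ∧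
    o ∉ (exRun u γ).vis ∧ (exRun u γ).vis.length = γ.length + 1 ∧ (exRun u γ).vis.Nodup ∧
    (exRun u γ).act.length + 2 * γ.length = d u + (γ.map fun g => d g.1).sum := by
  induction γ with
  | nil =>
    have hA : (exRun u ([] : List (HE d))).A = [] := rfl
    have hact : (exRun u ([] : List (HE d))).act = hesL d u := rfl
    have hvis : (exRun u ([] : List (HE d))).vis = [u] := rfl
    have hends : ends ([] : List (HE d × HE d)) = [] := rfl
    rw [hA, hact, hvis, hends]
    refine ⟨List.nodup_nil, rfl, exa_hesL_nodup u, ?_, ?_, by simp, ?_, rfl, by simp, ?_⟩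
    · intro x
      rw [exa_mem_hesL]
      simp
    · intro x hx
      simp at hx
    · simp only [List.mem_singleton]
      exact fun h' => h h'.symm
    · simp [exa_hesL_length]
  | cons g γ ih =>
    obtain ⟨h0, hne, hgv, hgo⟩ := h
    obtain ⟨i1, i2, i3, i4, i5, i6, i7, i8, i9, i10⟩ := ih h0
    obtain ⟨x, rest, hact⟩ := List.exists_cons_of_ne_nil hne
    have hrun : exRun u (g :: γ) = ⟨(x, g) :: (exRun u γ).A,
        rest ++ (hesL d g.1).erase g, g.1 :: (exRun u γ).vis⟩ := exa_next hact g
    rw [hrun]
    simp only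
    have hxact : x ∈ (exRun u γ).act := by rw [hact]; exact List.mem_cons_self
    obtain ⟨hxv, hxA⟩ := (i4 x).1 hxact
    have hgA : g ∉ ends (exRun u γ).A := fun hg => hgv (i5 g hg)
    have hxg : x ≠ g := fun hxg => hgv (hxg ▸ hxv)
    have hnd : x ∉ rest ∧ rest.Nodup := by
      rw [hact] at i3
      exact List.nodup_cons.1 i3
    have hrest : ∀ y ∈ rest, y.1 ∈ (exRun u γ).vis ∧ y ∉ ends (exRun u γ).A := by
      intro y hy
      refine (i4 y).1 ?_
      rw [hact]
      exact List.mem_cons_of_mem _ hy
    have herase : ∀ y, y ∈ (hesL d g.1).erase g ↔ y ≠ g ∧ y.1 = g.1 := by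
      intro y
      rw [(exa_hesL_nodup g.1).mem_erase_iff, exa_mem_hesL]
    refine ⟨?_, ?_, ?_, ?_, ?_, ?_, ?_, ?_, ?_, ?_⟩
    · rw [ends_cons, List.nodup_cons, List.nodup_cons]
      refine ⟨?_, hgA, i1⟩
      rw [List.mem_cons]
      rintro (hx | hx)
      · exact hxg hx
      · exact hxA hx
    · rw [List.length_cons, List.length_cons, i2]
    · rw [List.nodup_append']
      refine ⟨hnd.2, (exa_hesL_nodup g.1).erase g, ?_⟩
      intro y hy hy'
      have h1 := (hrest y hy).1
      have h2 := ((herase y).1 hy').2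
      rw [h2] at h1
      exact hgv h1
    · intro y
      rw [List.mem_append, herase, ends_cons, List.mem_cons, List.mem_cons, List.mem_cons]
      constructor
      · rintro (hy | ⟨hy1, hy2⟩)
        · refine ⟨Or.inr (hrest y hy).1, ?_⟩
          rintro (h1 | h1 | h1)
          · simp only at h1
            exact hnd.1 (h1 ▸ hy)
          · simp only at h1
            exact hgv (h1 ▸ (hrest y hy).1)
          · exact (hrest y hy).2 h1
        · refine ⟨Or.inl hy2, ?_⟩
          rintro (h1 | h1 | h1)
          · simp only at h1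
            rw [h1] at hy2
            exact hgv (hy2 ▸ hxv)
          · exact hy1 h1
          · exact hgv (hy2 ▸ i5 y h1)
      · rintro ⟨hy1 | hy1, hy2⟩
        · right
          exact ⟨fun hy => hy2 (Or.inr (Or.inl hy)), hy1⟩
        · left
          have h1 : y ∈ (exRun u γ).act := (i4 y).2 ⟨hy1, fun hy => hy2 (Or.inr (Or.inr hy))⟩
          rw [hact, List.mem_cons] at h1
          rcases h1 with h1 | h1
          · exact absurd (Or.inl h1) hy2
          · exact h1
    · intro y hy
      rw [ends_cons, List.mem_cons, List.mem_cons] at hy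
      rcases hy with hy | hy | hy
      · rw [hy]
        exact List.mem_cons_of_mem _ hxv
      · rw [hy]
        exact List.mem_cons_self
      · exact List.mem_cons_of_mem _ (i5 y hy)
    · exact List.mem_cons_of_mem _ i6
    · rw [List.mem_cons]
      rintro (ho | ho)
      · exact hgo ho.symm
      · exact i7 ho
    · rw [List.length_cons, List.length_cons, i8]
    · exact List.nodup_cons.2 ⟨hgv, i9⟩
    · have hgm : g ∈ hesL d g.1 := exa_mem_hesL.2 rfl
      have h1 : ((hesL d g.1).erase g).length = d g.1 - 1 := by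
        rw [List.length_erase_of_mem hgm, exa_hesL_length]
      have h2 : 0 < d g.1 := lt_of_le_of_lt (Nat.zero_le _) g.2.2
      rw [hact, List.length_cons] at i10
      rw [List.length_append, h1, List.length_cons, List.map_cons, List.sum_cons]
      omega

theorem exa_contains_cons {σ : Pairing (HE d)} {p : HE d × HE d} {A : List (HE d × HE d)}
    (h : Contains σ (p :: A)) : σ.1 p.1 = p.2 ∧ Contains σ A :=
  ⟨h p List.mem_cons_self, fun q hq => h q (List.mem_cons_of_mem _ hq)⟩

/-- A pairing contains at most one nice history of each length. -/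
theorem ex_unique (u o : Fin n) (γ γ' : List (HE d)) (h : nice u o γ) (h' : nice u o γ')
    (hl : γ.length = γ'.length) (σ : Pairing (HE d)) (hc : Contains σ (exRun u γ).A)
    (hc' : Contains σ (exRun u γ').A) : γ = γ' := by
  induction γ generalizing γ' with
  | nil =>
    symm
    rw [← List.length_eq_zero_iff, ← hl]
    rfl
  | cons g γ ih =>
    cases γ' with
    | nil => simp at hl
    | cons g' γ' =>
      obtain ⟨h0, hne, hgv, hgo⟩ := h
      obtain ⟨h0', hne', hgv', hgo'⟩ := h'
      obtain ⟨x, rest, hact⟩ := List.exists_cons_of_ne_nil hne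
      obtain ⟨x', rest', hact'⟩ := List.exists_cons_of_ne_nil hne'
      have hrun : exRun u (g :: γ) = ⟨(x, g) :: (exRun u γ).A,
        rest ++ (hesL d g.1).erase g, g.1 :: (exRun u γ).vis⟩ := exa_next hact g
      have hrun' : exRun u (g' :: γ') = ⟨(x', g') :: (exRun u γ').A,
        rest' ++ (hesL d g'.1).erase g', g'.1 :: (exRun u γ').vis⟩ := exa_next hact' g'
      rw [hrun] at hc
      rw [hrun'] at hc'
      obtain ⟨c1, c2⟩ := exa_contains_cons hc
      obtain ⟨c1', c2'⟩ := exa_contains_cons hc'
      have hl0 : γ.length = γ'.length := by simpa using hl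
      have he := ih γ' h0 h0' hl0 c2 c2'
      subst he
      rw [hact, List.cons.injEq] at hact'
      simp only at c1 c1'
      rw [← hact'.1, c1] at c1'
      rw [c1']

/-- The exploration of `σ` is nice for `m` steps or it fails at an earlier step. -/
theorem ex_cases (u o : Fin n) (huo : u ≠ o) (σ : Pairing (HE d)) (m : ℕ) :
    (∃ γ : List (HE d), γ.length = m ∧ nice u o γ ∧ Contains σ (exRun u γ).A) ∨
    ∃ γ : List (HE d), γ.length < m ∧ nice u o γ ∧ Contains σ (exRun u γ).A ∧
      ((exRun u γ).act = [] ∨ ∃ x rest, (exRun u γ).act = x :: rest ∧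
        ((σ.1 x).1 ∈ (exRun u γ).vis ∨ (σ.1 x).1 = o)) := by
  induction m with
  | zero =>
    left
    refine ⟨[], rfl, huo, ?_⟩
    intro p hp
    change p ∈ ([] : List (HE d × HE d)) at hp
    simp at hp
  | succ m ih =>
    rcases ih with ⟨γ, hl, hn, hc⟩ | ⟨γ, hl, hn, hc, hf⟩
    · rcases hact : (exRun u γ).act with _ | ⟨x, rest⟩
      · right
        exact ⟨γ, by omega, hn, hc, Or.inl hact⟩
      · by_cases hb : (σ.1 x).1 ∈ (exRun u γ).vis ∨ (σ.1 x).1 = o
        · right
          exact ⟨γ, by omega, hn, hc, Or.inr ⟨x, rest, hact, hb⟩⟩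
        · left
          rw [not_or] at hb
          refine ⟨σ.1 x :: γ, by rw [List.length_cons, hl], ⟨hn, ?_, hb.1, hb.2⟩, ?_⟩
          · rw [hact]
            simp
          · have hrun : exRun u (σ.1 x :: γ) = ⟨(x, σ.1 x) :: (exRun u γ).A,
              rest ++ (hesL d (σ.1 x).1).erase (σ.1 x), (σ.1 x).1 :: (exRun u γ).vis⟩ :=
              exa_next hact _
            rw [hrun]
            intro p hp
            rw [List.mem_cons] at hp
            rcases hp with hp | hp
            · rw [hp]
            · exact hc p hp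
    · right
      exact ⟨γ, by omega, hn, hc, hf⟩

theorem exa_walk_snoc (σ : Pairing (HE d)) : ∀ (a : List (HE d)) (u : Fin n) (x : HE d),
    IsWalk σ u a x.1 → IsWalk σ u (a ++ [x]) (σ.1 x).1 := by
  intro a
  induction a with
  | nil =>
    intro u x h
    exact ⟨h.symm, rfl⟩
  | cons y a ih =>
    intro u x h
    exact ⟨h.1, ih _ x h.2⟩

/-- Every visited vertex is reached from `u` along revealed pairs. -/
theorem ex_tree (u o : Fin n) (γ : List (HE d)) (h : nice u o γ) (σ : Pairing (HE d))
    (hc : Contains σ (exRun u γ).A) (v : Fin n) (hv : v ∈ (exRun u γ).vis) :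
    ∃ a : List (HE d), IsWalk σ u a v ∧ (∀ x ∈ walkVerts σ a, x ∈ (exRun u γ).vis) ∧
      a.length ≤ γ.length ∧ ∀ x ∈ a, (x, σ.1 x) ∈ (exRun u γ).A := by
  induction γ generalizing v with
  | nil =>
    change v ∈ [u] at hv
    rw [List.mem_singleton] at hv
    refine ⟨[], hv.symm, ?_, le_refl _, ?_⟩
    · intro x hx
      simp [walkVerts] at hx
    · intro x hx
      simp at hx
  | cons g γ ih =>
    have hfull := h
    obtain ⟨h0, hne, hgv, hgo⟩ := h
    obtain ⟨x, rest, hact⟩ := List.exists_cons_of_ne_nil hne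
    have hrun : exRun u (g :: γ) = ⟨(x, g) :: (exRun u γ).A,
        rest ++ (hesL d g.1).erase g, g.1 :: (exRun u γ).vis⟩ := exa_next hact g
    obtain ⟨i1, i2, i3, i4, i5, i6, i7, i8, i9, i10⟩ := ex_facts u o γ h0
    rw [hrun] at hc hv ⊢
    simp only at hv ⊢
    obtain ⟨c1, c2⟩ := exa_contains_cons hc
    simp only at c1
    rw [List.mem_cons] at hv
    rcases hv with hv | hv
    · have hxact : x ∈ (exRun u γ).act := by rw [hact]; exact List.mem_cons_self
      obtain ⟨hxv, hxA⟩ := (i4 x).1 hxact
      obtain ⟨a, a1, a2, a3, a4⟩ := ih h0 c2 x.1 hxv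
      refine ⟨a ++ [x], ?_, ?_, ?_, ?_⟩
      · have := exa_walk_snoc σ a u x a1
        rw [c1] at this
        rw [hv]
        exact this
      · intro y hy
        simp only [walkVerts, List.map_append, List.map_cons, List.map_nil, List.mem_append,
          List.mem_singleton] at hy
        rcases hy with hy | hy
        · exact List.mem_cons_of_mem _ (a2 y hy)
        · rw [hy, c1]
          exact List.mem_cons_self
      · rw [List.length_append, List.length_cons, List.length_cons, List.length_nil]
        omega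
      · intro y hy
        rw [List.mem_append, List.mem_singleton] at hy
        rcases hy with hy | hy
        · exact List.mem_cons_of_mem _ (a4 y hy)
        · rw [hy, c1]
          exact List.mem_cons_self
    · obtain ⟨a, a1, a2, a3, a4⟩ := ih h0 c2 v hv
      refine ⟨a, a1, fun y hy => List.mem_cons_of_mem _ (a2 y hy), ?_,
        fun y hy => List.mem_cons_of_mem _ (a4 y hy)⟩
      rw [List.length_cons]
      omega

/-- If no half-edge is active then the component of `u` is the set of visited vertices. -/
theorem ex_dead (u o : Fin n) (γ : List (HE d)) (h : nice u o γ) (σ : Pairing (HE d))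
    (hc : Contains σ (exRun u γ).A) (hact : (exRun u γ).act = []) :
    compSize σ u ≤ γ.length + 1 := by
  classical
  obtain ⟨i1, i2, i3, i4, i5, i6, i7, i8, i9, i10⟩ := ex_facts u o γ h
  have hclosed : ∀ x : HE d, x.1 ∈ (exRun u γ).vis → (σ.1 x).1 ∈ (exRun u γ).vis := by
    intro x hx
    have h1 : x ∈ ends (exRun u γ).A := by
      by_contra h2
      have := (i4 x).2 ⟨hx, h2⟩
      rw [hact] at this
      simp at this
    exact i5 _ ((mem_ends_symm σ hc).2 h1)
  have hconn : ∀ v, Connected σ u v → v ∈ (exRun u γ).vis := by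
    intro v hv
    induction hv with
    | refl => exact i6
    | tail _ hbc ih =>
      obtain ⟨x, hx1, hx2⟩ := hbc
      rw [← hx2]
      exact hclosed x (hx1 ▸ ih)
  unfold compSize
  rw [← i8]
  calc _ ≤ (exRun u γ).vis.toFinset.card := by
        refine Finset.card_le_card ?_
        intro v hv
        rw [Finset.mem_filter] at hv
        rw [List.mem_toFinset]
        exact hconn v hv.2
    _ ≤ (exRun u γ).vis.length := List.toFinset_card_le _

end Pool.Agent.H86.CM
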