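import Pool.Agent.H86.CM.Law

/-! MODULE RED: expected interference of the other colour. -/

open MeasureTheory ProbabilityTheory

namespace Pool.Agent.H86.CM

variable {n : ℕ} {d : Fin n → ℕ} {A : List (HE d × HE d)} {W : Finset (Fin n)}
  {X : Finset (HE d)} {Tg : Finset (Fin n)} {o : Fin n}

/-! ### Measurability -/

theorem red_meas_contains (Q : List (HE d × HE d)) :
    MeasurableSet {ω : Pairing (HE d) × Weights d | Contains ω.1 Q} := by
  have h : MeasurableSet {σ : Pairing (HE d) | Contains σ Q} := law_meas_set _ _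
  exact measurable_fst h

theorem measurable_badEv (KR : ℕ) (c : Bool) (t0 : ℝ) (B : List (HE d × HE d)) :
    MeasurableSet (badEv A o KR c t0 B) := by
  have e : badEv A o KR c t0 B =
      ⋃ j ∈ Finset.Icc 1 B.length, ⋃ m ∈ Finset.range KR,
        ⋃ Q ∈ chains (hes d o) (endAt B j) m,
        {ω : Pairing (HE d) × Weights d | (ends (A ++ B ++ Q)).Nodup ∧ Contains ω.1 Q ∧
          cLen ω.2 (!c) Q ≤ t0 + cLen ω.2 c (B.take j)} := by
    ext ω
    simp only [badEv, Set.mem_iUnion, exists_prop]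
    rfl
  rw [e]
  refine Finset.measurableSet_biUnion _ fun j _ => ?_
  refine Finset.measurableSet_biUnion _ fun m _ => ?_
  refine Finset.measurableSet_biUnion _ fun Q _ => ?_
  by_cases h : (ends (A ++ B ++ Q)).Nodup
  · have e2 : {ω : Pairing (HE d) × Weights d | (ends (A ++ B ++ Q)).Nodup ∧ Contains ω.1 Q ∧
          cLen ω.2 (!c) Q ≤ t0 + cLen ω.2 c (B.take j)} =
        {ω : Pairing (HE d) × Weights d | Contains ω.1 Q} ∩
        {ω | cLen ω.2 (!c) Q ≤ t0 + cLen ω.2 c (B.take j)} := by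
      ext ω
      exact ⟨fun hx => ⟨hx.2.1, hx.2.2⟩, fun hx => ⟨h, hx.1, hx.2⟩⟩
    rw [e2]
    refine (red_meas_contains Q).inter ?_
    refine measurableSet_le ?_ ?_
    · exact (measurable_cLen (!c) Q).comp measurable_snd
    · exact ((measurable_cLen c (B.take j)).comp measurable_snd).const_add t0
  · have e2 : {ω : Pairing (HE d) × Weights d | (ends (A ++ B ++ Q)).Nodup ∧ Contains ω.1 Q ∧
          cLen ω.2 (!c) Q ≤ t0 + cLen ω.2 c (B.take j)} = ∅ := by
      ext ω
      exact ⟨fun hx => absurd hx.1 h, fun hx => absurd hx (Set.notMem_empty _)⟩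
    rw [e2]
    exact MeasurableSet.empty

/-! ### Counting -/

theorem red_card_hesS (S : Finset (Fin n)) : (hesS d S).card = ∑ v ∈ S, d v := by
  have h : hesS d S = S.biUnion fun v => hes d v := by
    ext x
    simp [hesS, mem_hes]
  rw [h, Finset.card_biUnion]
  · exact Finset.sum_congr rfl fun v _ => card_hes v
  · intro v _ w _ hvw
    rw [Function.onFun, Finset.disjoint_left]
    intro x hx hx'
    rw [mem_hes] at hx hx'
    exact hvw (hx.symm.trans hx')

theorem red_card_endAt {b0 β : ℝ} {KK k : ℕ} {B : List (HE d × HE d)}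
    (hB : B ∈ goodB d W X Tg o b0 β KK) (hdeg : ∀ v ∈ Tg, d v = k) (hkb : (k : ℝ) ≤ b0)
    {j : ℕ} (h1 : 1 ≤ j) (h2 : j ≤ B.length) :
    ((endAt B j).card : ℝ) ≤ b0 * β ^ (B.length - j) := by
  rcases Nat.lt_or_ge j B.length with h3 | h3
  · have h4 := (card_atS hB h1 h3).2
    have h5 : endAt B j = atS B j := by
      obtain ⟨x, τ, y, rfl, hx, hy, hτ, hg⟩ := mem_goodB.1 hB
      set B := mk x τ y with hBd
      have hsplit : B = (B.take (j - 1)) ++ B[j - 1] :: B[j] :: B.drop (j + 1) := by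
        have e1 : B = B.take (j - 1) ++ B.drop (j - 1) := (List.take_append_drop _ _).symm
        have e2 : B.drop (j - 1) = B[j - 1] :: B.drop (j - 1 + 1) :=
          List.drop_eq_getElem_cons (by omega)
        have e3 : B.drop (j - 1 + 1) = B[j] :: B.drop (j + 1) := by
          have : j - 1 + 1 = j := by omega
          rw [this]
          exact List.drop_eq_getElem_cons h3
        rw [e3] at e2
        rw [e2] at e1
        exact e1
      obtain ⟨c', e', h3', h4', h5'⟩ := mk_consec (x := x) (τ := τ) (y := y) (hBd.symm.trans hsplit)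
      have h7 := (mem_trs.1 (hg.tr ((B[j - 1]).2, (B[j]).1)
        ((congrArg (fun l => ((B[j - 1]).2, (B[j]).1) ∈ l) h3').mpr (by simp)))).1
      simp only at h7
      ext h
      have e4 : B[j - 1]? = some (B[j - 1]) := List.getElem?_eq_getElem (by omega)
      have e5 : B[j]? = some (B[j]) := List.getElem?_eq_getElem h3
      simp only [endAt, atS, Finset.mem_filter, Finset.mem_univ, true_and, e4, e5,
        Option.mem_def, Option.some.injEq, forall_eq', h7]
    rw [h5]
    exact h4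
  · have hj : j = B.length := le_antisymm h2 h3
    obtain ⟨x, τ, y, rfl, hx, hy, hτ, hg⟩ := mem_goodB.1 hB
    have h5 : endAt (mk x τ y) j = hes d y.1 := by
      have hlen := mk_length x τ y
      have hjl : j - 1 < (mk x τ y).length := by omega
      have e1 : ((mk x τ y)[j - 1]).2 = y := by
        have e2 := mk_map_snd x τ y
        have e3 : ((mk x τ y).map Prod.snd)[j - 1]'(by simpa using hjl) = y := by
          have e4 : j - 1 = (τ.map Prod.fst).length := by
            rw [List.length_map]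
            omega
          simp only [e2]
          rw [List.getElem_append_right (by omega)]
          simp
        simpa using e3
      ext h
      have e4 : (mk x τ y)[j - 1]? = some ((mk x τ y)[j - 1]) := List.getElem?_eq_getElem hjl
      simp only [endAt, Finset.mem_filter, Finset.mem_univ, true_and, e4,
        Option.mem_def, Option.some.injEq, forall_eq', e1, mem_hes]
    rw [h5, card_hes, hdeg _ hy, hj, Nat.sub_self, pow_zero, mul_one]
    exact hkb

theorem red_card_goodB_len {b0 β : ℝ} {KK : ℕ} (k : ℕ) (hdeg : ∀ v ∈ Tg, d v = k)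
    (G : ℕ → ℝ) (hG : ∀ i, 0 ≤ G i) :
    ∑ B ∈ goodB d W X Tg o b0 β KK, G B.length ≤
      ∑ a ∈ Finset.range KK, (X.card : ℝ) * (trs d).card ^ a * (Tg.card * k) * G (a + 1) := by
  have hsub : goodB d W X Tg o b0 β KK ⊆
      (Finset.range KK).biUnion fun m => chains X (hesS d Tg) m := by
    classical
    exact Finset.filter_subset _ _
  refine (Finset.sum_le_sum_of_subset_of_nonneg hsub fun B _ _ => hG _).trans ?_
  rw [Finset.sum_biUnion]
  · refine Finset.sum_le_sum fun a _ => ?_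
    have h1 : ∑ B ∈ chains X (hesS d Tg) a, G B.length =
        ∑ B ∈ chains X (hesS d Tg) a, G (a + 1) :=
      Finset.sum_congr rfl fun B hB => by rw [length_of_mem_chains hB]
    rw [h1, Finset.sum_const, nsmul_eq_mul]
    refine mul_le_mul_of_nonneg_right ?_ (hG _)
    have h2 := card_chains_le X (hesS d Tg) a
    have h3 : (hesS d Tg).card = Tg.card * k := by
      rw [red_card_hesS, Finset.sum_congr rfl hdeg, Finset.sum_const, smul_eq_mul]
    rw [h3] at h2
    exact_mod_cast h2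
  · intro a _ b _ hab
    rw [Function.onFun, Finset.disjoint_left]
    intro B hB hB'
    have := length_of_mem_chains hB
    have := length_of_mem_chains hB'
    omega

/-! ### Integrals -/

/-- The integral in the bound. -/
noncomputable def redI (I : Bool → Measure ℝ) (c : Bool) (T t0 : ℝ) (j l m : ℕ) : ℝ :=
  ∫ z, ∫ x in Set.Iic (T - z), cdfPow (I (!c)) m (t0 + x) ∂(convPow (I c) j) ∂(convPow (I c) l)

theorem redI_nonneg (I : Bool → Measure ℝ) (c : Bool) (T t0 : ℝ) (j l m : ℕ) :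
    0 ≤ redI I c T t0 j l m := by
  refine integral_nonneg fun z => ?_
  refine integral_nonneg fun x => ?_
  exact measureReal_nonneg

theorem red_sum (f : ℕ → ℕ → ℝ) (hf : ∀ j l, 0 ≤ f j l) (KK N : ℕ) (hN : KK < N) :
    ∑ a ∈ Finset.range KK, ∑ j ∈ Finset.Icc 1 (a + 1), f j (a + 1 - j) ≤
      ∑ j ∈ Finset.range N, ∑ l ∈ Finset.range N, f j l := by
  rw [Finset.sum_sigma', ← Finset.sum_product']
  have hinj : Set.InjOn (fun x : (Σ _ : ℕ, ℕ) => (x.2, x.1 + 1 - x.2))
      ((Finset.range KK).sigma fun a => Finset.Icc 1 (a + 1) : Finset (Σ _ : ℕ, ℕ)) := by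
    rintro ⟨a, j⟩ hx ⟨a', j'⟩ hy h
    simp only [Finset.coe_sigma, Set.mem_sigma_iff, Finset.mem_coe, Finset.mem_range,
      Finset.mem_Icc] at hx hy
    simp only [Prod.mk.injEq] at h
    obtain ⟨h1, h2⟩ := h
    subst h1
    have : a = a' := by omega
    subst this
    rfl
  have h1 := Finset.sum_image (f := fun y : ℕ × ℕ => f y.1 y.2) hinj
  simp only at h1
  rw [← h1]
  refine Finset.sum_le_sum_of_subset_of_nonneg ?_ fun y _ _ => hf _ _
  intro y hy
  rw [Finset.mem_image] at hy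
  obtain ⟨⟨a, j⟩, hx, rfl⟩ := hy
  simp only [Finset.mem_sigma, Finset.mem_range, Finset.mem_Icc] at hx
  simp only [Finset.mem_product, Finset.mem_range]
  omega

/-! ### The bounds -/

theorem bad_bound (I : Bool → Measure ℝ) [∀ c, IsProbabilityMeasure (I c)]
    (ν α β b0 ε Ct : ℝ) (k KK KR : ℕ) (c : Bool) (T t0 : ℝ) (hν : 1 < ν) (hβ : 1 ≤ β)
    (hb0 : (k : ℝ) ≤ b0) (hε : 0 ≤ ε) (hε1 : ε ≤ 1) (hk : 1 ≤ k) (hT : 0 ≤ T) (ht0 : 0 ≤ t0)
    (hs : Scene d A W X Tg o) (hdeg : ∀ v ∈ Tg, d v = k) (hN : Nums ν d A.length (KK + KR) ε)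
    (hCt : ∀ (T t0 : ℝ) (N : ℕ), 0 ≤ T → 0 ≤ t0 →
      ∑ j ∈ Finset.range N, ∑ l ∈ Finset.range N, ∑ m ∈ Finset.range N,
        ν ^ (j + l + m) * β ^ l *
          ∫ z, ∫ x in Set.Iic (T - z), cdfPow (I (!c)) m (t0 + x) ∂(convPow (I c) j)
            ∂(convPow (I c) l) ≤
      Ct * Real.exp (α * t0) * Real.exp (2 * α * T)) :
    ∑ B ∈ goodB d W X Tg o b0 β KK, (PA d I A).real (okEv c T B ∩ badEv A o KR c t0 B) ≤
      4 * k * b0 / ν ^ 2 * Ct * (X.card * Tg.card) * d o * Real.exp (α * t0) *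
        (Real.exp (α * T) / Fintype.card (HE d)) ^ 2 := by
  have hprob := PA_prob I hN.even A hs.nodup
  set ℓ : ℝ := (Fintype.card (HE d) : ℝ) with hℓ
  have hℓ1 : 1 ≤ ℓ := by rw [hℓ]; exact_mod_cast hN.pos
  have hℓ0 : 0 < ℓ := by linarith
  have hν0 : 0 < ν := by linarith
  have hβ0 : 0 < β := by linarith
  have hb00 : 0 ≤ b0 := le_trans (Nat.cast_nonneg k) hb0
  set D2 : ℝ := ((trs d).card : ℝ) with hD2
  have hD20 : 0 ≤ D2 := Nat.cast_nonneg _
  -- the bound for one configuration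
  let G : ℕ → ℝ := fun L => ∑ j ∈ Finset.Icc 1 L, ∑ m ∈ Finset.range KR,
    ((d o : ℝ) * D2 ^ m * (b0 * β ^ (L - j))) *
      (2 * (1 / ℓ) ^ (L + (m + 1)) * redI I c T t0 j (L - j) (m + 1))
  have hG : ∀ L, 0 ≤ G L := by
    intro L
    refine Finset.sum_nonneg fun j _ => Finset.sum_nonneg fun m _ => ?_
    have := redI_nonneg I c T t0 j (L - j) (m + 1)
    positivity
  have hone : ∀ B ∈ goodB d W X Tg o b0 β KK,
      (PA d I A).real (okEv c T B ∩ badEv A o KR c t0 B) ≤ G B.length := by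
    intro B hB
    have hBlen : B.length ≤ KK := by
      obtain ⟨x, τ, y, rfl, _, _, hτ, _⟩ := mem_goodB.1 hB
      rw [mk_length]
      omega
    let E : ℕ → ℕ → List (HE d × HE d) → Set (Pairing (HE d) × Weights d) := fun j m Q =>
      {ω | (ends (A ++ B ++ Q)).Nodup ∧ Contains ω.1 (B ++ Q) ∧
        ω.2 ∈ {w : Weights d | cLen w c (B.take j) + cLen w c (B.drop j) ≤ T ∧
          cLen w (!c) Q ≤ t0 + cLen w c (B.take j)}}
    have hsub : okEv c T B ∩ badEv A o KR c t0 B ⊆
        ⋃ j ∈ Finset.Icc 1 B.length, ⋃ m ∈ Finset.range KR,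
          ⋃ Q ∈ chains (hes d o) (endAt B j) m, E j m Q := by
      rintro ω ⟨⟨h1, h2⟩, j, hj, m, hm, Q, hQ, h3, h4, h5⟩
      simp only [Set.mem_iUnion, exists_prop]
      refine ⟨j, hj, m, hm, Q, hQ, h3, ?_, ?_, h5⟩
      · exact (contains_append ω.1 B Q).2 ⟨h1, h4⟩
      · have h6 : cLen ω.2 c (B.take j) + cLen ω.2 c (B.drop j) = cLen ω.2 c B := by
          unfold cLen
          rw [← List.sum_append, ← List.map_append, List.take_append_drop]
        rw [h6]
        exact h2
    refine (measureReal_mono hsub (measure_ne_top _ _)).trans ?_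
    refine (measureReal_biUnion_finset_le _ _).trans ?_
    refine Finset.sum_le_sum fun j hj => ?_
    rw [Finset.mem_Icc] at hj
    refine (measureReal_biUnion_finset_le _ _).trans ?_
    refine Finset.sum_le_sum fun m hm => ?_
    rw [Finset.mem_range] at hm
    refine (measureReal_biUnion_finset_le _ _).trans ?_
    have hQ : ∀ Q ∈ chains (hes d o) (endAt B j) m, (PA d I A).real (E j m Q) ≤
        2 * (1 / ℓ) ^ (B.length + (m + 1)) * redI I c T t0 j (B.length - j) (m + 1) := by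
      intro Q hQ
      have hQl := length_of_mem_chains hQ
      by_cases hnd : (ends (A ++ B ++ Q)).Nodup
      · have e1 : E j m Q = {ω : Pairing (HE d) × Weights d | Contains ω.1 (B ++ Q) ∧
            ω.2 ∈ {w : Weights d | cLen w c (B.take j) + cLen w c (B.drop j) ≤ T ∧
              cLen w (!c) Q ≤ t0 + cLen w c (B.take j)}} := by
          ext ω
          exact ⟨fun hx => hx.2, fun hx => ⟨hnd, hx⟩⟩
        have hnd2 : (ends (A ++ (B ++ Q))).Nodup := by rwa [← List.append_assoc]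
        rw [e1, PA_rect I hN.even A (B ++ Q) hnd2]
        have hndBQ : (ends B ++ ends Q).Nodup := by
          rw [ends_append] at hnd2
          have := (List.nodup_append.1 hnd2).2.1
          rwa [ends_append] at this
        have hndB := (List.nodup_append.1 hndBQ).1
        have hndQ := (List.nodup_append.1 hndBQ).2.1
        have hndB' : (ends (B.take j ++ B.drop j)).Nodup := by
          rw [List.take_append_drop]
          exact hndB
        rw [wLaw_red I c (B.take j) (B.drop j) Q hndB' hndQ T t0]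
        have hl1 : (B.take j).length = j := by
          rw [List.length_take]
          omega
        have hl2 : (B.drop j).length = B.length - j := by rw [List.length_drop]
        rw [hl1, hl2, hQl]
        have hkap := hN.kap_up (B ++ Q).length (by rw [List.length_append]; omega)
        rw [List.length_append, hQl] at hkap ⊢
        have h0 := redI_nonneg I c T t0 j (B.length - j) (m + 1)
        refine mul_le_mul_of_nonneg_right ?_ h0
        refine hkap.trans ?_
        have h1 : 0 ≤ (1 / ℓ) ^ (B.length + (m + 1)) := by positivity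
        nlinarith
      · have e1 : E j m Q = ∅ := by
          ext ω
          exact ⟨fun hx => absurd hx.1 hnd, fun hx => absurd hx (Set.notMem_empty _)⟩
        rw [e1, measureReal_empty]
        have := redI_nonneg I c T t0 j (B.length - j) (m + 1)
        positivity
    refine (Finset.sum_le_card_nsmul _ _ _ hQ).trans ?_
    rw [nsmul_eq_mul]
    have h0 := redI_nonneg I c T t0 j (B.length - j) (m + 1)
    refine mul_le_mul_of_nonneg_right ?_ (by positivity)
    have h1 := card_chains_le (hes d o) (endAt B j) m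
    have h2 : ((chains (hes d o) (endAt B j) m).card : ℝ) ≤
        (hes d o).card * (trs d).card ^ m * (endAt B j).card := by exact_mod_cast h1
    rw [card_hes] at h2
    refine h2.trans ?_
    have h3 := red_card_endAt hB hdeg hb0 hj.1 hj.2
    exact mul_le_mul_of_nonneg_left h3 (by positivity)
  refine (Finset.sum_le_sum hone).trans ?_
  refine (red_card_goodB_len k hdeg G hG).trans ?_
  -- the sum
  set K0 : ℝ := 4 * k * b0 * (X.card * Tg.card) * d o / (ν ^ 2 * ℓ ^ 2) with hK0
  have hK00 : 0 ≤ K0 := by positivity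
  let F : ℕ → ℕ → ℝ := fun j l => ∑ m ∈ Finset.range KR,
    ν ^ (j + l + (m + 1)) * β ^ l * redI I c T t0 j l (m + 1)
  have hF : ∀ j l, 0 ≤ F j l := by
    intro j l
    refine Finset.sum_nonneg fun m _ => ?_
    have := redI_nonneg I c T t0 j l (m + 1)
    positivity
  have hterm : ∀ a ∈ Finset.range KK,
      (X.card : ℝ) * (trs d).card ^ a * (Tg.card * k) * G (a + 1) ≤
        K0 * ∑ j ∈ Finset.Icc 1 (a + 1), F j (a + 1 - j) := by
    intro a ha
    rw [Finset.mem_range] at ha
    simp only [G, F]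
    rw [Finset.mul_sum, Finset.mul_sum]
    refine Finset.sum_le_sum fun j hj => ?_
    rw [Finset.mem_Icc] at hj
    rw [Finset.mul_sum, Finset.mul_sum]
    refine Finset.sum_le_sum fun m hm => ?_
    rw [Finset.mem_range] at hm
    have h0 := redI_nonneg I c T t0 j (a + 1 - j) (m + 1)
    have h1 := hN.tr_up (a + m) (by omega)
    have h2 : D2 ^ a * D2 ^ m ≤ 2 * (ν * ℓ) ^ (a + m) := by
      rw [← pow_add]
      exact h1
    have h3 : (X.card : ℝ) * D2 ^ a * (Tg.card * k) *
        ((d o : ℝ) * D2 ^ m * (b0 * β ^ (a + 1 - j)) *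
          (2 * (1 / ℓ) ^ (a + 1 + (m + 1)) * redI I c T t0 j (a + 1 - j) (m + 1))) =
        (D2 ^ a * D2 ^ m) * ((X.card : ℝ) * (Tg.card * k) * d o * b0 * β ^ (a + 1 - j) *
          (2 * (1 / ℓ) ^ (a + 1 + (m + 1)) * redI I c T t0 j (a + 1 - j) (m + 1))) := by ring
    rw [h3]
    refine (mul_le_mul_of_nonneg_right h2 (by positivity)).trans (le_of_eq ?_)
    have h4 : j + (a + 1 - j) + (m + 1) = (a + m) + 2 := by omega
    have h5 : a + 1 + (m + 1) = (a + m) + 2 := by omega
    rw [h4, h5, hK0, mul_pow, pow_add ν, one_div, inv_pow, pow_add ℓ]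
    field_simp
    ring
  refine (Finset.sum_le_sum hterm).trans ?_
  rw [← Finset.mul_sum]
  set N := KK + KR + 1 with hNdef
  have hsum1 := red_sum F hF KK N (by omega)
  have hsum2 : ∑ j ∈ Finset.range N, ∑ l ∈ Finset.range N, F j l ≤
      ∑ j ∈ Finset.range N, ∑ l ∈ Finset.range N, ∑ m ∈ Finset.range N,
        ν ^ (j + l + m) * β ^ l * redI I c T t0 j l m := by
    refine Finset.sum_le_sum fun j _ => Finset.sum_le_sum fun l _ => ?_
    have hnn : ∀ m, 0 ≤ ν ^ (j + l + m) * β ^ l * redI I c T t0 j l m := fun m => by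
      have := redI_nonneg I c T t0 j l m
      positivity
    have h1 : F j l = ∑ m ∈ (Finset.range KR).image (fun m => m + 1),
        ν ^ (j + l + m) * β ^ l * redI I c T t0 j l m := by
      rw [Finset.sum_image (by intro x _ y _ h; simpa using h)]
    rw [h1]
    refine Finset.sum_le_sum_of_subset_of_nonneg ?_ fun m _ _ => hnn m
    intro m hm
    rw [Finset.mem_image] at hm
    obtain ⟨m', hm', rfl⟩ := hm
    rw [Finset.mem_range] at hm' ⊢
    omega
  have hsum3 := hCt T t0 N hT ht0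
  have hfin := (hsum1.trans hsum2).trans hsum3
  refine (mul_le_mul_of_nonneg_left hfin hK00).trans (le_of_eq ?_)
  have hexp : Real.exp (2 * α * T) = Real.exp (α * T) ^ 2 := by
    rw [← Real.exp_nat_mul]
    congr 1
    push_cast
    ring
  rw [hexp, hK0, div_pow]
  field_simp

theorem red_one (I : Bool → Measure ℝ) [∀ c, IsProbabilityMeasure (I c)]
    (ν ε : ℝ) (Nm : ℕ) (c : Bool) (T : ℝ) (hε1 : ε ≤ 1)
    (hN : Nums ν d A.length Nm ε) (Q : List (HE d × HE d)) (hQ : Q.length ≤ Nm)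
    (hnd : (ends (A ++ Q)).Nodup) :
    (PA d I A).real {ω | Contains ω.1 Q ∧ cLen ω.2 (!c) Q ≤ T} ≤
      2 * (1 / (Fintype.card (HE d) : ℝ)) ^ Q.length * cdfPow (I (!c)) Q.length T := by
  have h1 := PA_rect I hN.even A Q hnd {w | cLen w (!c) Q ≤ T}
  have hndQ : (ends Q).Nodup := by
    rw [ends_append] at hnd
    exact (List.nodup_append.1 hnd).2.1
  rw [wLaw_one I (!c) Q hndQ T] at h1
  have h2 : {ω : Pairing (HE d) × Weights d | Contains ω.1 Q ∧ cLen ω.2 (!c) Q ≤ T} =
      {ω | Contains ω.1 Q ∧ ω.2 ∈ {w : Weights d | cLen w (!c) Q ≤ T}} := rfl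
  rw [h2, h1]
  have h3 : 0 ≤ cdfPow (I (!c)) Q.length T := measureReal_nonneg
  refine mul_le_mul_of_nonneg_right ?_ h3
  refine (hN.kap_up _ hQ).trans ?_
  have h4 : 0 ≤ (1 / (Fintype.card (HE d) : ℝ)) ^ Q.length := by positivity
  nlinarith

/-- Union bound for chains starting at `o`. -/
theorem red_union (I : Bool → Measure ℝ) [∀ c, IsProbabilityMeasure (I c)]
    (ν ε : ℝ) (Nm m : ℕ) (c : Bool) (T : ℝ) (hν : 1 < ν) (hε1 : ε ≤ 1)
    (hs : Scene d A W X Tg o) (hN : Nums ν d A.length Nm ε) (hm : m + 1 ≤ Nm)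
    (E : Finset (HE d)) :
    (PA d I A).real {ω | ∃ Q ∈ chains (hes d o) E m,
        (ends (A ++ Q)).Nodup ∧ Contains ω.1 Q ∧ cLen ω.2 (!c) Q ≤ T} ≤
      4 * d o * (E.card : ℝ) / Fintype.card (HE d) *
        (ν ^ (m + 1) * cdfPow (I (!c)) (m + 1) T) := by
  have hprob := PA_prob I hN.even A hs.nodup
  set ℓ : ℝ := (Fintype.card (HE d) : ℝ) with hℓ
  have hℓ1 : 1 ≤ ℓ := by rw [hℓ]; exact_mod_cast hN.pos
  have hℓ0 : 0 < ℓ := by linarith
  have hν0 : 0 < ν := by linarith
  have hcdf : 0 ≤ cdfPow (I (!c)) (m + 1) T := measureReal_nonneg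
  have hsub : {ω : Pairing (HE d) × Weights d | ∃ Q ∈ chains (hes d o) E m,
        (ends (A ++ Q)).Nodup ∧ Contains ω.1 Q ∧ cLen ω.2 (!c) Q ≤ T} ⊆
      ⋃ Q ∈ chains (hes d o) E m, {ω : Pairing (HE d) × Weights d |
        (ends (A ++ Q)).Nodup ∧ Contains ω.1 Q ∧ cLen ω.2 (!c) Q ≤ T} := by
    rintro ω ⟨Q, hQ, h⟩
    simp only [Set.mem_iUnion, exists_prop]
    exact ⟨Q, hQ, h⟩
  refine (measureReal_mono hsub (measure_ne_top _ _)).trans ?_
  refine (measureReal_biUnion_finset_le _ _).trans ?_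
  have hQ : ∀ Q ∈ chains (hes d o) E m, (PA d I A).real {ω : Pairing (HE d) × Weights d |
        (ends (A ++ Q)).Nodup ∧ Contains ω.1 Q ∧ cLen ω.2 (!c) Q ≤ T} ≤
      2 * (1 / ℓ) ^ (m + 1) * cdfPow (I (!c)) (m + 1) T := by
    intro Q hQ
    have hQl := length_of_mem_chains hQ
    by_cases hnd : (ends (A ++ Q)).Nodup
    · have h1 := red_one I ν ε Nm c T hε1 hN Q (by omega) hnd
      rw [hQl] at h1
      refine le_trans (le_of_eq ?_) h1
      congr 1
      ext ω
      exact ⟨fun hx => hx.2, fun hx => ⟨hnd, hx⟩⟩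
    · have e1 : {ω : Pairing (HE d) × Weights d |
        (ends (A ++ Q)).Nodup ∧ Contains ω.1 Q ∧ cLen ω.2 (!c) Q ≤ T} = ∅ := by
        ext ω
        exact ⟨fun hx => absurd hx.1 hnd, fun hx => absurd hx (Set.notMem_empty _)⟩
      rw [e1, measureReal_empty]
      positivity
  refine (Finset.sum_le_card_nsmul _ _ _ hQ).trans ?_
  rw [nsmul_eq_mul]
  have h1 := card_chains_le (hes d o) E m
  have h2 : ((chains (hes d o) E m).card : ℝ) ≤ (hes d o).card * (trs d).card ^ m * E.card := by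
    exact_mod_cast h1
  rw [card_hes] at h2
  have h3 := hN.tr_up m (by omega)
  have h4 : ((chains (hes d o) E m).card : ℝ) ≤ d o * (2 * (ν * ℓ) ^ m) * E.card := by
    refine h2.trans ?_
    have : (0 : ℝ) ≤ d o := Nat.cast_nonneg _
    have : (0 : ℝ) ≤ E.card := Nat.cast_nonneg _
    gcongr
  have h5 : 0 ≤ 2 * (1 / ℓ) ^ (m + 1) * cdfPow (I (!c)) (m + 1) T := by positivity
  refine (mul_le_mul_of_nonneg_right h4 h5).trans ?_
  have h6 : d o * (2 * (ν * ℓ) ^ m) * E.card *
      (2 * (1 / ℓ) ^ (m + 1) * cdfPow (I (!c)) (m + 1) T) =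
      4 * d o * (E.card : ℝ) / ℓ * (ν ^ m * cdfPow (I (!c)) (m + 1) T) := by
    rw [mul_pow, one_div, inv_pow, pow_succ ℓ]
    field_simp
    ring
  rw [h6]
  refine mul_le_mul_of_nonneg_left ?_ (by positivity)
  refine mul_le_mul_of_nonneg_right ?_ hcdf
  exact pow_le_pow_right₀ hν.le (Nat.le_succ m)

theorem long_bound (I : Bool → Measure ℝ) [∀ c, IsProbabilityMeasure (I c)]
    (ν ε : ℝ) (KR : ℕ) (c : Bool) (T : ℝ) (hν : 1 < ν) (hε : 0 ≤ ε) (hε1 : ε ≤ 1)
    (hs : Scene d A W X Tg o) (hN : Nums ν d A.length (KR + 1) ε) :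
    (PA d I A).real (longEv A o KR c T) ≤
      4 * d o * (ν ^ (KR + 1) * cdfPow (I (!c)) (KR + 1) T) := by
  have h1 := red_union I ν ε (KR + 1) KR c T hν hε1 hs hN le_rfl Finset.univ
  refine h1.trans (le_of_eq ?_)
  have hℓ1 : (1 : ℝ) ≤ Fintype.card (HE d) := by exact_mod_cast hN.pos
  have hℓ0 : (Fintype.card (HE d) : ℝ) ≠ 0 := by positivity
  rw [Finset.card_univ, mul_div_assoc, div_self hℓ0, mul_one]

theorem tree_bound (I : Bool → Measure ℝ) [∀ c, IsProbabilityMeasure (I c)]
    (ν α ε CA : ℝ) (KR : ℕ) (c : Bool) (t0 : ℝ) (hν : 1 < ν) (hε : 0 ≤ ε) (hε1 : ε ≤ 1)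
    (hs : Scene d A W X Tg o) (hN : Nums ν d A.length (KR + 1) ε)
    (hCA : ∀ (t : ℝ) (N : ℕ), ∑ k ∈ Finset.range N, ν ^ k * cdfPow (I (!c)) k t ≤
      CA * Real.exp (α * t)) :
    (PA d I A).real (treeEv A W o KR c t0) ≤
      4 * d o * (∑ v ∈ W, d v : ℝ) / Fintype.card (HE d) * CA * Real.exp (α * t0) := by
  have hprob := PA_prob I hN.even A hs.nodup
  have hsub : treeEv A W o KR c t0 ⊆ ⋃ m ∈ Finset.range KR,
      {ω : Pairing (HE d) × Weights d | ∃ Q ∈ chains (hes d o) (hesS d W) m,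
        (ends (A ++ Q)).Nodup ∧ Contains ω.1 Q ∧ cLen ω.2 (!c) Q ≤ t0} := by
    rintro ω ⟨m, hm, h⟩
    simp only [Set.mem_iUnion, exists_prop]
    exact ⟨m, hm, h⟩
  refine (measureReal_mono hsub (measure_ne_top _ _)).trans ?_
  refine (measureReal_biUnion_finset_le _ _).trans ?_
  have h1 : ∀ m ∈ Finset.range KR,
      (PA d I A).real {ω : Pairing (HE d) × Weights d | ∃ Q ∈ chains (hes d o) (hesS d W) m,
        (ends (A ++ Q)).Nodup ∧ Contains ω.1 Q ∧ cLen ω.2 (!c) Q ≤ t0} ≤
      4 * d o * ((hesS d W).card : ℝ) / Fintype.card (HE d) *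
        (ν ^ (m + 1) * cdfPow (I (!c)) (m + 1) t0) := by
    intro m hm
    rw [Finset.mem_range] at hm
    exact red_union I ν ε (KR + 1) m c t0 hν hε1 hs hN (by omega) _
  refine (Finset.sum_le_sum h1).trans ?_
  rw [← Finset.mul_sum]
  have h2 : ((hesS d W).card : ℝ) = ∑ v ∈ W, (d v : ℝ) := by
    rw [red_card_hesS]
    push_cast
    rfl
  rw [h2]
  have h3 : ∑ m ∈ Finset.range KR, ν ^ (m + 1) * cdfPow (I (!c)) (m + 1) t0 ≤
      CA * Real.exp (α * t0) := by
    have h4 := hCA t0 (KR + 1)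
    rw [Finset.sum_range_succ'] at h4
    have h5 : 0 ≤ ν ^ 0 * cdfPow (I (!c)) 0 t0 :=
      mul_nonneg (by positivity) measureReal_nonneg
    linarith
  have h6 : 0 ≤ 4 * d o * (∑ v ∈ W, d v : ℝ) / Fintype.card (HE d) := by positivity
  refine (mul_le_mul_of_nonneg_left h3 h6).trans (le_of_eq ?_)
  ring

end Pool.Agent.H86.CM
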