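import Pool.Agent.H86.CM.CoreDefs

/-! MODULE TARGET: from fixed targets to the number of vertices of a colour. -/

open MeasureTheory ProbabilityTheory

namespace Pool.Agent.H86.CM

/-- The conclusion for fixed sets of targets. -/
def CoreTarget (I : Bool → Measure ℝ) (ν C θ η p : ℝ) (k : ℕ) : Prop :=
  ∀ ε : ℝ, 0 < ε → ∃ M : ℕ, ∀ (m : ℕ) (x : ℝ), 0 ≤ x → ∃ L N : ℕ, ∀ n : ℕ, N ≤ n →
    ∀ (d : Fin n → ℕ) (mL : ℕ), Reg ν C θ η p k mL d → ∀ (s : Sources n) (c : Bool),
    ∀ γ ∈ goodHist d (s.1 c) (s.1 (!c)) m M, ∀ Tg : Finset (Fin n), Tg.card = L →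
      (∀ v ∈ Tg, d v = k) → (∀ v ∈ Tg, v ∉ (exRun (s.1 c) γ).vis) → s.1 (!c) ∉ Tg →
      PA d I (exRun (s.1 c) γ).A {ω | (∀ q ∈ (exRun (s.1 c) γ).A, ω.2 (c, s(q.1, q.2)) ≤ x) ∧
        ∀ v ∈ Tg, ¬ ∃ t, finalPaint ω.1 ω.2 s v = some (c, t)} ≤
      ENNReal.ofReal (ε * (1 + d (s.1 !c)))

/-- The conclusion for the number of vertices of a colour. -/
def CoreCond (I : Bool → Measure ℝ) (ν C θ η p : ℝ) (k : ℕ) : Prop :=
  ∀ ε : ℝ, 0 < ε → ∃ M : ℕ, ∀ (m : ℕ) (x : ℝ), 0 ≤ x → ∃ (δ : ℝ) (N : ℕ), 0 < δ ∧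
    ∀ n : ℕ, N ≤ n → ∀ (d : Fin n → ℕ) (mL : ℕ), Reg ν C θ η p k mL d →
    ∀ (s : Sources n) (c : Bool), ∀ γ ∈ goodHist d (s.1 c) (s.1 (!c)) m M,
      PA d I (exRun (s.1 c) γ).A {ω | (∀ q ∈ (exRun (s.1 c) γ).A, ω.2 (c, s(q.1, q.2)) ≤ x) ∧
        (numColour ω.1 ω.2 s c : ℝ) < δ * n} ≤
      ENNReal.ofReal (ε * (1 + d (s.1 !c)))

/-- The number of visited vertices is at most the number of steps plus one. -/
theorem tgt_vis_length {n : ℕ} {d : Fin n → ℕ} (u : Fin n) (γ : List (HE d)) :
    (exRun u γ).vis.length ≤ γ.length + 1 := by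
  induction γ with
  | nil => simp [exRun]
  | cons g γ ih =>
    show (exNext (exRun u γ) g).vis.length ≤ (g :: γ).length + 1
    unfold exNext
    split
    · simp only [List.length_cons]; omega
    · simp only [List.length_cons]; omega

/-- A lower bound for a binomial coefficient with smaller upper index. -/
theorem tgt_choose (K L : ℕ) : ∀ z : ℕ, z ≤ K →
    K.choose (L + 1) ≤ (K - z).choose (L + 1) + z * (K - 1).choose L := by
  intro z
  induction z with
  | zero => intro _; simp
  | succ z ih =>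
    intro hz
    have h1 := ih (by omega)
    obtain ⟨r, hr⟩ : ∃ r, K - z = r + 1 := ⟨K - z - 1, by omega⟩
    have h2 : K - (z + 1) = r := by omega
    rw [hr, Nat.choose_succ_succ] at h1
    rw [h2]
    have h3 : r.choose L ≤ (K - 1).choose L := Nat.choose_le_choose L (by omega)
    nlinarith

/-- If `2 z L ≤ K` then at least half of the `L`-subsets of a set with `K` elements avoid `z`
given elements. -/
theorem tgt_choose_half (K L z : ℕ) (hz : z ≤ K) (h : 2 * z * L ≤ K) :
    K.choose L ≤ 2 * (K - z).choose L := by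
  cases L with
  | zero => simp
  | succ L =>
    rcases Nat.eq_zero_or_pos z with h0 | h0
    · subst h0; simp; omega
    have hK : 0 < K := lt_of_lt_of_le h0 hz
    have h1 := tgt_choose K L z hz
    have h2 : K * (K - 1).choose L = K.choose (L + 1) * (L + 1) := by
      obtain ⟨r, rfl⟩ : ∃ r, K = r + 1 := ⟨K - 1, by omega⟩
      simpa using Nat.add_one_mul_choose_eq r L
    -- 2 z (K-1 choose L) ≤ K choose (L+1)
    have h3 : 2 * (z * (K - 1).choose L) ≤ K.choose (L + 1) := by
      have h4 : K * (2 * (z * (K - 1).choose L)) ≤ K * K.choose (L + 1) := by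
        calc K * (2 * (z * (K - 1).choose L)) = 2 * z * (K * (K - 1).choose L) := by ring
          _ = 2 * z * (K.choose (L + 1) * (L + 1)) := by rw [h2]
          _ = (2 * z * (L + 1)) * K.choose (L + 1) := by ring
          _ ≤ K * K.choose (L + 1) := Nat.mul_le_mul_right _ h
      exact Nat.le_of_mul_le_mul_left h4 hK
    omega

/-- An averaging argument without measurability. -/
theorem tgt_average {Ω ι : Type} [MeasurableSpace Ω] (P : Measure Ω) (T : Finset ι)
    (hT : T.Nonempty) (E : Set Ω) (F : ι → Set Ω) (b : ENNReal) (hF : ∀ i ∈ T, P (F i) ≤ b)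
    (S : Ω → Finset ι) (hS : ∀ ω ∈ E, S ω ⊆ T ∧ T.card ≤ 2 * (S ω).card ∧ ∀ i ∈ S ω, ω ∈ F i) :
    P E ≤ 2 * b := by
  classical
  set f : Ω → ENNReal := fun ω =>
    2 * ∑ i ∈ T, (toMeasurable P (F i)).indicator (fun _ => (1 : ENNReal)) ω with hf
  have hfm : Measurable f := by
    refine Measurable.const_mul ?_ 2
    refine Finset.measurable_sum _ fun i _ => ?_
    exact measurable_const.indicator (measurableSet_toMeasurable P (F i))
  have h1 : E ⊆ {ω | (T.card : ENNReal) ≤ f ω} := by
    intro ω hω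
    obtain ⟨a, b', c⟩ := hS ω hω
    show (T.card : ENNReal) ≤ f ω
    have h2 : ((S ω).card : ENNReal) ≤
        ∑ i ∈ T, (toMeasurable P (F i)).indicator (fun _ => (1 : ENNReal)) ω := by
      calc ((S ω).card : ENNReal) = ∑ i ∈ S ω, (1 : ENNReal) := by simp
        _ = ∑ i ∈ S ω, (toMeasurable P (F i)).indicator (fun _ => (1 : ENNReal)) ω := by
            refine Finset.sum_congr rfl fun i hi => ?_
            rw [Set.indicator_of_mem (subset_toMeasurable P (F i) (c i hi))]
        _ ≤ _ := Finset.sum_le_sum_of_subset a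
    calc (T.card : ENNReal) ≤ ((2 * (S ω).card : ℕ) : ENNReal) := by exact_mod_cast b'
      _ = 2 * ((S ω).card : ENNReal) := by push_cast; ring
      _ ≤ f ω := by
          show _ ≤ 2 * ∑ i ∈ T, (toMeasurable P (F i)).indicator (fun _ => (1 : ENNReal)) ω
          exact mul_le_mul_right h2 2
  have h3 : (T.card : ENNReal) * P E ≤ (T.card : ENNReal) * (2 * b) := by
    calc (T.card : ENNReal) * P E ≤ (T.card : ENNReal) * P {ω | (T.card : ENNReal) ≤ f ω} :=
          mul_le_mul_right (measure_mono h1) _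
      _ ≤ ∫⁻ ω, f ω ∂P := mul_meas_ge_le_lintegral hfm _
      _ = 2 * ∑ i ∈ T, P (F i) := by
          rw [hf, lintegral_const_mul]
          · congr 1
            rw [lintegral_finsetSum]
            · refine Finset.sum_congr rfl fun i _ => ?_
              rw [lintegral_indicator (measurableSet_toMeasurable P (F i)), lintegral_const,
                Measure.restrict_apply_univ, one_mul, measure_toMeasurable]
            · intro i _
              exact measurable_const.indicator (measurableSet_toMeasurable P (F i))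
          · refine Finset.measurable_sum _ fun i _ => ?_
            exact measurable_const.indicator (measurableSet_toMeasurable P (F i))
      _ ≤ 2 * ∑ i ∈ T, b := by
          refine mul_le_mul_right (Finset.sum_le_sum fun i hi => hF i hi) 2
      _ = (T.card : ENNReal) * (2 * b) := by
          rw [Finset.sum_const, nsmul_eq_mul]; ring
  have hc : (T.card : ENNReal) ≠ 0 := by
    have := Finset.card_pos.2 hT
    exact_mod_cast this.ne'
  exact (ENNReal.mul_le_mul_iff_right hc (ENNReal.natCast_ne_top _)).1 h3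

theorem core_cond_of_target (I : Bool → Measure ℝ) [∀ c, IsProbabilityMeasure (I c)]
    (ν C θ η p : ℝ) (k : ℕ) (hν : 1 < ν) (hC : 0 < C) (hθ : 0 < θ) (hη : 0 < η) (hp : 0 < p)
    (h : CoreTarget I ν C θ η p k) : CoreCond I ν C θ η p k := by
  classical
  intro ε hε
  obtain ⟨M, hM⟩ := h (ε / 4) (by positivity)
  refine ⟨M, fun m x hx => ?_⟩
  obtain ⟨L, N0, hLN⟩ := hM m x hx
  obtain ⟨N1, hN1⟩ := exists_nat_ge ((2 * (m + 2) + 2 * L + 2 : ℝ) / p)
  refine ⟨p / (4 * (L + 1)), max N0 N1, by positivity, ?_⟩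
  intro n hn d mL hReg s c γ hγ
  have hn0 : N0 ≤ n := le_trans (le_max_left _ _) hn
  have hn1 : N1 ≤ n := le_trans (le_max_right _ _) hn
  have hpn : (2 * (m + 2) + 2 * L + 2 : ℝ) ≤ p * n := by
    have h1 : (2 * (m + 2) + 2 * L + 2 : ℝ) / p ≤ n := le_trans hN1 (by exact_mod_cast hn1)
    rw [div_le_iff₀ hp] at h1
    linarith
  set u := s.1 c with hu
  set o := s.1 (!c) with ho
  set vis := (exRun u γ).vis with hvis
  have hlen : γ.length = m := by
    have h1 := hγ
    unfold goodHist at h1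
    rw [Finset.mem_filter, mem_listsOf] at h1
    exact h1.1.1
  set K1 : Finset (Fin n) := Finset.univ.filter fun v => d v = k with hK1
  set K0 : Finset (Fin n) := K1 \ (vis.toFinset ∪ {o}) with hK0
  have hK1c : p * n ≤ (K1.card : ℝ) := hReg.many
  have hK0c : (K1.card : ℝ) - (m + 2) ≤ (K0.card : ℝ) := by
    have h1 : K1.card ≤ K0.card + (vis.toFinset ∪ {o}).card := by
      have h0 := Finset.le_card_sdiff (vis.toFinset ∪ {o}) K1
      rw [← hK0] at h0
      omega
    have h2 : (vis.toFinset ∪ {o}).card ≤ m + 2 := by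
      have h3 := Finset.card_union_le vis.toFinset {o}
      have h4 := List.toFinset_card_le vis
      have h5 := tgt_vis_length u γ
      rw [Finset.card_singleton] at h3
      rw [hlen, ← hvis] at h5
      omega
    have h6 : (K1.card : ℝ) ≤ K0.card + (m + 2) := by exact_mod_cast (by omega)
    linarith
  have hK0h : p * n / 2 ≤ (K0.card : ℝ) := by
    have : (0 : ℝ) ≤ L := Nat.cast_nonneg L
    linarith
  have hKL : L ≤ K0.card := by
    have h1 : (L : ℝ) ≤ K0.card := by
      have : (0 : ℝ) ≤ m := Nat.cast_nonneg m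
      linarith
    exact_mod_cast h1
  refine le_trans (tgt_average (PA d I (exRun u γ).A) (Finset.powersetCard L K0)
    (Finset.powersetCard_nonempty.2 hKL) _
    (fun Tg => {ω | (∀ q ∈ (exRun u γ).A, ω.2 (c, s(q.1, q.2)) ≤ x) ∧
        ∀ v ∈ Tg, ¬ ∃ t, finalPaint ω.1 ω.2 s v = some (c, t)})
    (ENNReal.ofReal (ε / 4 * (1 + d o))) ?_
    (fun ω => Finset.powersetCard L
      (K0 \ (Finset.univ.filter fun v => ∃ t, finalPaint ω.1 ω.2 s v = some (c, t)))) ?_) ?_
  · intro Tg hTg
    rw [Finset.mem_powersetCard] at hTg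
    have hsub : ∀ v ∈ Tg, d v = k ∧ v ∉ vis ∧ v ≠ o := by
      intro v hv
      have h1 := hTg.1 hv
      rw [hK0, hK1] at h1
      simp only [Finset.mem_sdiff, Finset.mem_filter, Finset.mem_univ, true_and,
        Finset.mem_union, List.mem_toFinset, Finset.mem_singleton, not_or] at h1
      exact ⟨h1.1, h1.2.1, h1.2.2⟩
    exact hLN n hn0 d mL hReg s c γ hγ Tg hTg.2 (fun v hv => (hsub v hv).1)
      (fun v hv => (hsub v hv).2.1) (fun hv => (hsub _ hv).2.2 rfl)
  · intro ω hω
    obtain ⟨hω1, hω2⟩ := hω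
    set Z : Finset (Fin n) :=
      Finset.univ.filter fun v => ∃ t, finalPaint ω.1 ω.2 s v = some (c, t) with hZ
    have hZc : (Z.card : ℝ) < p / (4 * (L + 1)) * n := by
      have h1 : numColour ω.1 ω.2 s c = Z.card := by
        unfold numColour
        rw [hZ]
      rw [← h1]
      exact hω2
    refine ⟨Finset.powersetCard_mono Finset.sdiff_subset, ?_, ?_⟩
    · rw [Finset.card_powersetCard, Finset.card_powersetCard]
      have h1 : (K0 \ Z).card = K0.card - (Z ∩ K0).card := Finset.card_sdiff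
      rw [h1]
      have h2 : (Z ∩ K0).card ≤ Z.card := Finset.card_le_card Finset.inter_subset_left
      refine tgt_choose_half _ _ _ (Finset.card_le_card Finset.inter_subset_right) ?_
      have h3 : (2 * (Z.card : ℝ) * L) ≤ K0.card := by
        have hL0 : (0 : ℝ) ≤ L := Nat.cast_nonneg L
        have h4 : (Z.card : ℝ) * (4 * (L + 1)) ≤ p * n := by
          have h5 : p / (4 * (L + 1)) * n * (4 * ((L : ℝ) + 1)) = p * n := by
            field_simp
          calc (Z.card : ℝ) * (4 * (L + 1)) ≤ p / (4 * (L + 1)) * n * (4 * ((L : ℝ) + 1)) :=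
                mul_le_mul_of_nonneg_right hZc.le (by positivity)
            _ = p * n := h5
        have h6 : (0 : ℝ) ≤ Z.card := Nat.cast_nonneg _
        nlinarith
      have h4 : 2 * Z.card * L ≤ K0.card := by exact_mod_cast h3
      calc 2 * (Z ∩ K0).card * L ≤ 2 * Z.card * L := by
            exact Nat.mul_le_mul_right _ (Nat.mul_le_mul_left _ h2)
        _ ≤ K0.card := h4
    · intro Tg hTg
      rw [Finset.mem_powersetCard] at hTg
      refine ⟨hω1, fun v hv hv' => ?_⟩
      have h1 := hTg.1 hv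
      rw [Finset.mem_sdiff] at h1
      refine h1.2 ?_
      rw [hZ, Finset.mem_filter]
      exact ⟨Finset.mem_univ _, hv'⟩
  · have h1 : (0 : ℝ) ≤ d o := Nat.cast_nonneg _
    have h2 : (2 : ENNReal) = ENNReal.ofReal 2 := by simp
    rw [h2, ← ENNReal.ofReal_mul (by norm_num)]
    refine ENNReal.ofReal_le_ofReal ?_
    nlinarith

end Pool.Agent.H86.CM
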