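import Pool.Agent.H86.CM.Second
import Pool.Agent.H86.CM.Red
import Pool.Agent.H86.CM.Target
import Pool.Agent.H86.CM.ExA
import Pool.Agent.H86.CM.CoreDet

/-!
# Assembly: the union bound for fixed targets
-/

open MeasureTheory ProbabilityTheory

namespace Pool.Agent.H86.CM

variable {n : ℕ} {d : Fin n → ℕ}

theorem asm_scene (u o : Fin n) (γ : List (HE d)) (h : nice u o γ) (X : Finset (HE d))
    (hX : ∀ x ∈ X, x ∈ (exRun u γ).act) (Tg : Finset (Fin n))
    (hTg : ∀ v ∈ Tg, v ∉ (exRun u γ).vis) (ho : o ∉ Tg) :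
    Scene d (exRun u γ).A (exRun u γ).vis.toFinset X Tg o := by
  obtain ⟨h1, h2, h3, h4, h5, h6, h7, h8, h9, h10⟩ := ex_facts u o γ h
  refine ⟨h1, ?_, ?_, ?_, ?_, ?_, ho⟩
  · intro x hx
    exact List.mem_toFinset.2 (h5 x hx)
  · intro x hx
    exact List.mem_toFinset.2 ((h4 x).1 (hX x hx)).1
  · intro x hx
    exact ((h4 x).1 (hX x hx)).2
  · rw [Finset.disjoint_left]
    intro v hv hv'
    exact hTg v hv' (List.mem_toFinset.1 hv)
  · intro hv
    exact h7 (List.mem_toFinset.1 hv)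

theorem walkLen_le (σ : Pairing (HE d)) (w : Weights d) (c : Bool) (x : ℝ) (a : List (HE d))
    (h : ∀ g ∈ a, w (c, s(g, σ.1 g)) ≤ x) : walkLen σ w c a ≤ a.length * x := by
  induction a with
  | nil => simp [walkLen]
  | cons g a ih =>
    have h1 := ih fun g' hg' => h g' (by simp [hg'])
    have h2 := h g (by simp)
    unfold walkLen at h1 ⊢
    simp only [List.map_cons, List.sum_cons, List.length_cons, Nat.cast_add, Nat.cast_one]
    linarith

/-- The event for fixed targets is covered by five events. -/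
theorem core_incl (s : Sources n) (c : Bool) (γ : List (HE d)) (m : ℕ) (x : ℝ) (hx : 0 ≤ x)
    (hγ : nice (s.1 c) (s.1 (!c)) γ) (hlen : γ.length = m) (X : Finset (HE d))
    (hX : ∀ x ∈ X, x ∈ (exRun (s.1 c) γ).act) (Tg : Finset (Fin n))
    (hTg : ∀ v ∈ Tg, v ∉ (exRun (s.1 c) γ).vis) (ho : s.1 (!c) ∉ Tg)
    (b0 β : ℝ) (KK KR : ℕ) (T : ℝ) (hT : 0 ≤ T) (M1 : ℝ)
    (A : List (HE d × HE d)) (hA : A = (exRun (s.1 c) γ).A)
    (W : Finset (Fin n)) (hW : W = (exRun (s.1 c) γ).vis.toFinset)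
    (GB : Finset (List (HE d × HE d))) (hGB : GB = goodB d W X Tg (s.1 !c) b0 β KK) :
    {ω : Pairing (HE d) × Weights d | (∀ q ∈ A, ω.2 (c, s(q.1, q.2)) ≤ x) ∧
        ∀ v ∈ Tg, ¬ ∃ t, finalPaint ω.1 ω.2 s v = some (c, t)} ⊆
      {ω | ¬ (Contains ω.1 A ∧ ∀ e, 0 ≤ ω.2 e)} ∪
      ({ω | ∑ B ∈ GB, (sEv A X Tg KK c T B).indicator (fun _ => (1 : ℝ)) ω ≤ M1 / 2} ∪
      ({ω | M1 / 2 ≤ ∑ B ∈ GB,
        (okEv c T B ∩ badEv A (s.1 !c) KR c (m * x) B).indicator (fun _ => (1 : ℝ)) ω} ∪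
      (longEv A (s.1 !c) KR c (m * x + T) ∪ treeEv A W (s.1 !c) KR c (m * x)))) := by
  have hscene := asm_scene (s.1 c) (s.1 (!c)) γ hγ X hX Tg hTg ho
  rw [← hA, ← hW] at hscene
  rintro ω ⟨hω1, hω2⟩
  by_contra hcon
  simp only [Set.mem_union, not_or, Set.mem_ofPred_eq, not_not, not_le] at hcon
  obtain ⟨⟨hc, hw⟩, hS, hZ, hlong, htree⟩ := hcon
  -- a good configuration counted in the first sum and not in the second one
  have hex : ∃ B ∈ GB, ω ∈ sEv A X Tg KK c T B ∧ ω ∉ badEv A (s.1 !c) KR c (m * x) B := by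
    by_contra hno
    have hle : ∑ B ∈ GB, (sEv A X Tg KK c T B).indicator (fun _ => (1 : ℝ)) ω ≤
        ∑ B ∈ GB, (okEv c T B ∩ badEv A (s.1 !c) KR c (m * x) B).indicator
          (fun _ => (1 : ℝ)) ω := by
      refine Finset.sum_le_sum fun B hB => ?_
      by_cases h1 : ω ∈ sEv A X Tg KK c T B
      · have h2 : ω ∈ badEv A (s.1 !c) KR c (m * x) B := by
          by_contra h3
          exact hno ⟨B, hB, h1, h3⟩
        have h4 : ω ∈ okEv c T B ∩ badEv A (s.1 !c) KR c (m * x) B := ⟨h1.1, h2⟩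
        rw [Set.indicator_of_mem h1, Set.indicator_of_mem h4]
      · rw [Set.indicator_of_notMem h1]
        exact Set.indicator_nonneg (fun _ _ => zero_le_one) _
    linarith
  obtain ⟨B, hB, h1, h2⟩ := hex
  obtain ⟨σ, w⟩ := ω
  have hfin := core_det s c A W X Tg b0 β KK KR (m * x) T hscene σ w hw hc ?_ ?_
    (by positivity) hT B (hGB ▸ hB) h1.1.1 h1.1.2 h2 hlong htree
  · obtain ⟨v, hv, hp⟩ := hfin
    exact hω2 v hv hp
  · rw [hW, List.mem_toFinset]
    exact (ex_facts _ _ γ hγ).2.2.2.2.2.1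
  · intro v hv
    rw [hW, List.mem_toFinset] at hv
    obtain ⟨a, ha1, ha2, ha3, ha4⟩ := ex_tree (s.1 c) (s.1 (!c)) γ hγ σ (hA ▸ hc) v hv
    refine ⟨a, ha1, ?_, ?_⟩
    · intro y hy
      rw [hW, List.mem_toFinset]
      exact ha2 y hy
    · have h3 : walkLen σ w c a ≤ a.length * x := by
        refine walkLen_le σ w c x a fun g hg => ?_
        exact hω1 (g, σ.1 g) (hA ▸ ha4 g hg)
      refine h3.trans ?_
      have : (a.length : ℝ) ≤ m := by
        rw [← hlen]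
        exact_mod_cast ha3
      exact mul_le_mul_of_nonneg_right this hx

end Pool.Agent.H86.CM
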