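import Pool.Agent.H86.CM.AsmA

/-!
# Assembly: the bound for fixed targets under numerical hypotheses
-/

open MeasureTheory ProbabilityTheory

namespace Pool.Agent.H86.CM

variable {n : ℕ} {d : Fin n → ℕ}

/-- The numerical part of the estimate. -/
theorem asm_numeric (ε ε1 ℓ Λ M1 c1 C2 C3 C5 X L P F V do' : ℝ) (hε : 0 < ε) (hℓ : 0 < ℓ)
    (hΛ : 0 < Λ) (hc1 : 0 < c1) (hX : 0 < X) (hL : 0 < L) (hdo : 0 ≤ do')
    (hM1 : X * L * c1 * Λ ≤ M1) (hC2 : 0 ≤ C2) (hC3 : 0 ≤ C3) (hC5 : 0 ≤ C5) (hP : 0 ≤ P)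
    (H1 : 4 * ε1 ≤ ε / 8) (H2 : 4 / (X * L * c1 * Λ) ≤ ε / 8)
    (H3 : 4 * C2 * (X + L + 1) / (X * L * c1 ^ 2) ≤ ε / 8)
    (H4 : 8 * C3 * P * Λ / (c1 * ℓ) ≤ ε / 8)
    (H5 : 2 * C5 * Λ / c1 ≤ ε / 8) (H6 : F ≤ ε / 8) (H7 : V ≤ ε / 8) :
    4 * ((ε1 * M1 ^ 2 + M1 + C2 * (X * L * (X + L + 1)) * Λ ^ 2) +
        2 * M1 * (C3 * (X * L) * P * Λ ^ 2 / ℓ)) / M1 ^ 2 +
      (2 * (C5 * (X * L) * do' * Λ ^ 2) / M1 + (do' * F + do' * V)) ≤ ε * (1 + do') := by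
  have hM0 : 0 < X * L * c1 * Λ := by positivity
  have hM : 0 < M1 := lt_of_lt_of_le hM0 hM1
  have e1 : 4 * ((ε1 * M1 ^ 2 + M1 + C2 * (X * L * (X + L + 1)) * Λ ^ 2) +
        2 * M1 * (C3 * (X * L) * P * Λ ^ 2 / ℓ)) / M1 ^ 2 =
      4 * ε1 + 4 / M1 + 4 * C2 * (X * L * (X + L + 1)) * Λ ^ 2 / M1 ^ 2 +
        8 * C3 * (X * L) * P * Λ ^ 2 / ℓ / M1 := by
    field_simp
    ring
  have h2 : 4 / M1 ≤ ε / 8 := le_trans (by gcongr) H2
  have h3 : 4 * C2 * (X * L * (X + L + 1)) * Λ ^ 2 / M1 ^ 2 ≤ ε / 8 := by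
    refine le_trans ?_ H3
    have : 4 * C2 * (X + L + 1) / (X * L * c1 ^ 2) =
        4 * C2 * (X * L * (X + L + 1)) * Λ ^ 2 / (X * L * c1 * Λ) ^ 2 := by
      field_simp
    rw [this]
    gcongr
  have h4 : 8 * C3 * (X * L) * P * Λ ^ 2 / ℓ / M1 ≤ ε / 8 := by
    refine le_trans ?_ H4
    have : 8 * C3 * P * Λ / (c1 * ℓ) =
        8 * C3 * (X * L) * P * Λ ^ 2 / ℓ / (X * L * c1 * Λ) := by
      field_simp
    rw [this]
    gcongr
  have h5 : 2 * (C5 * (X * L) * do' * Λ ^ 2) / M1 ≤ do' * (ε / 8) := by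
    have h6 : 2 * (C5 * (X * L) * do' * Λ ^ 2) / M1 ≤
        2 * (C5 * (X * L) * do' * Λ ^ 2) / (X * L * c1 * Λ) := by gcongr
    refine h6.trans ?_
    have : 2 * (C5 * (X * L) * do' * Λ ^ 2) / (X * L * c1 * Λ) = do' * (2 * C5 * Λ / c1) := by
      field_simp
    rw [this]
    exact mul_le_mul_of_nonneg_left H5 hdo
  have h6 : do' * F ≤ do' * (ε / 8) := mul_le_mul_of_nonneg_left H6 hdo
  have h7 : do' * V ≤ do' * (ε / 8) := mul_le_mul_of_nonneg_left H7 hdo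
  rw [e1]
  nlinarith [mul_nonneg hdo hε.le]

theorem core_bound (I : Bool → Measure ℝ) [∀ c, IsProbabilityMeasure (I c)]
    (hI : ∀ c, I c (Set.Iio 0) = 0)
    (s : Sources n) (c : Bool) (γ : List (HE d)) (m M L k KK : ℕ) (x : ℝ) (hx : 0 ≤ x)
    (hγ : γ ∈ goodHist d (s.1 c) (s.1 (!c)) m M) (Tg : Finset (Fin n))
    (hTgc : Tg.card = L) (hTgk : ∀ v ∈ Tg, d v = k)
    (hTg : ∀ v ∈ Tg, v ∉ (exRun (s.1 c) γ).vis) (ho : s.1 (!c) ∉ Tg)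
    (ν α β b0 ε ε1 T CA Ct Ct' c1 : ℝ) (hT : 0 ≤ T) (hν : 1 < ν) (hβ : 1 ≤ β)
    (hb0 : (k : ℝ) ≤ b0) (hk : 1 ≤ k) (hM : 1 ≤ M) (hL : 1 ≤ L) (hKK : 1 ≤ KK)
    (hε : 0 < ε) (hε0 : 0 ≤ ε1) (hε1 : ε1 ≤ 1) (hc1 : 0 < c1)
    (hN : Nums ν d m (3 * KK) ε1)
    (hCA : ∀ (c : Bool) (t : ℝ) (N : ℕ), ∑ k ∈ Finset.range N, ν ^ k * cdfPow (I c) k t ≤
      CA * Real.exp (α * t))
    (hCt : ∀ (c : Bool) (T : ℝ) (N : ℕ),
      ∑ j ∈ Finset.range N, ∑ l ∈ Finset.range N, ∑ i ∈ Finset.range N, ∑ m ∈ Finset.range N,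
        ν ^ (j + l + i + m) * β ^ (j + l) *
          ∫ x, cdfPow (I c) i (T - x) * cdfPow (I c) m (T - x) ∂(convPow (I c) (j + l)) ≤
      Ct * Real.exp (2 * α * T))
    (hCt' : ∀ (c : Bool) (T t0 : ℝ) (N : ℕ), 0 ≤ T → 0 ≤ t0 →
      ∑ j ∈ Finset.range N, ∑ l ∈ Finset.range N, ∑ m ∈ Finset.range N,
        ν ^ (j + l + m) * β ^ l *
          ∫ z, ∫ x in Set.Iic (T - z), cdfPow (I (!c)) m (t0 + x) ∂(convPow (I c) j)
            ∂(convPow (I c) l) ≤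
      Ct' * Real.exp (α * t0) * Real.exp (2 * α * T))
    (hCt0 : 0 ≤ Ct) (hCt0' : 0 ≤ Ct') (hCA0 : 0 ≤ CA)
    (hfirst : ∀ X : Finset (HE d), X.card = M → (∀ x ∈ X, x ∈ (exRun (s.1 c) γ).act) →
      (M : ℝ) * L * c1 * (Real.exp (α * T) / Fintype.card (HE d)) ≤
        ∑ B ∈ goodB d (exRun (s.1 c) γ).vis.toFinset X Tg (s.1 !c) b0 β KK,
          (PA d I (exRun (s.1 c) γ).A).real (okEv c T B))
    (H1 : 4 * ε1 ≤ ε / 8)
    (H2 : 4 / ((M : ℝ) * L * c1 * (Real.exp (α * T) / Fintype.card (HE d))) ≤ ε / 8)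
    (H3 : 4 * (4 * k ^ 2 * b0 ^ 2 / ν ^ 2 * Ct) * ((M : ℝ) + L + 1) / (M * L * c1 ^ 2) ≤ ε / 8)
    (H4 : 8 * (4 * k / ν ^ 3 * CA ^ 2) * ((M + L * k + KK * (b0 * β ^ KK)) ^ 4 * KK) *
      (Real.exp (α * T) / Fintype.card (HE d)) / (c1 * Fintype.card (HE d)) ≤ ε / 8)
    (H5 : 2 * (4 * k * b0 / ν ^ 2 * Ct' * Real.exp (α * (m * x))) *
      (Real.exp (α * T) / Fintype.card (HE d)) / c1 ≤ ε / 8)
    (H6 : 4 * (ν ^ (KK + 1) * cdfPow (I (!c)) (KK + 1) (m * x + T)) ≤ ε / 8)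
    (H7 : 4 * (∑ v ∈ (exRun (s.1 c) γ).vis.toFinset, d v : ℝ) / Fintype.card (HE d) * CA *
      Real.exp (α * (m * x)) ≤ ε / 8) :
    PA d I (exRun (s.1 c) γ).A {ω | (∀ q ∈ (exRun (s.1 c) γ).A, ω.2 (c, s(q.1, q.2)) ≤ x) ∧
        ∀ v ∈ Tg, ¬ ∃ t, finalPaint ω.1 ω.2 s v = some (c, t)} ≤
      ENNReal.ofReal (ε * (1 + d (s.1 !c))) := by
  unfold goodHist at hγ
  simp only [Finset.mem_filter, mem_listsOf] at hγ
  obtain ⟨⟨hlen, -⟩, hnice, hact⟩ := hγ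
  obtain ⟨f1, f2, f3, f4, f5, f6, f7, f8, f9, f10⟩ := ex_facts _ _ γ hnice
  set A := (exRun (s.1 c) γ).A with hA
  set W := (exRun (s.1 c) γ).vis.toFinset with hW
  obtain ⟨X, hXc, hX⟩ : ∃ X : Finset (HE d), X.card = M ∧
      ∀ x ∈ X, x ∈ (exRun (s.1 c) γ).act := by
    refine ⟨((exRun (s.1 c) γ).act.take M).toFinset, ?_, ?_⟩
    · rw [List.toFinset_card_of_nodup ((List.take_sublist M _).nodup f3), List.length_take]
      exact min_eq_left hact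
    · intro x hx
      exact (List.take_sublist M _).subset (List.mem_toFinset.1 hx)
  have hs : Scene d A W X Tg (s.1 !c) := asm_scene _ _ γ hnice X hX Tg hTg ho
  have hM1 := hfirst X hXc hX
  set GB := goodB d W X Tg (s.1 !c) b0 β KK with hGB
  set M1 := ∑ B ∈ GB, (PA d I A).real (okEv c T B) with hM1d
  have hprob : IsProbabilityMeasure (PA d I A) := PA_prob I hN.even A f1
  have hℓ : (0 : ℝ) < Fintype.card (HE d) := by exact_mod_cast hN.pos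
  set ℓ : ℝ := ((Fintype.card (HE d) : ℕ) : ℝ) with hℓd
  set Λ := Real.exp (α * T) / ℓ with hΛd
  have hΛ : 0 < Λ := div_pos (Real.exp_pos _) hℓ
  have hMr : (0 : ℝ) < M := by exact_mod_cast hM
  have hLr : (0 : ℝ) < L := by exact_mod_cast hL
  have hkr : (1 : ℝ) ≤ k := by exact_mod_cast hk
  have hb01 : 1 ≤ b0 := hkr.trans hb0
  have hM0 : 0 < (M : ℝ) * L * c1 * Λ := by positivity
  have hM1pos : 0 < M1 := lt_of_lt_of_le hM0 hM1
  have hAlen : A.length = m := by rw [f2, hlen]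
  have hN1 : Nums ν d A.length (3 * KK) ε1 := by rw [hAlen]; exact hN
  have hmono : ∀ N', N' ≤ 3 * KK → Nums ν d A.length N' ε1 := fun N' h =>
    ⟨fun N h' => hN1.kap_up N (h'.trans h), fun N h' => hN1.kap_low N (h'.trans h),
      fun N h' => hN1.tr_up N (h'.trans h), hN1.pos, hN1.even⟩
  -- the ingredients
  have i1 := dbl_bound (A := A) (W := W) (X := X) (Tg := Tg) (o := s.1 !c) I ν α β b0 ε1 CA k KK c
    T hν hβ hb01 hε0 hε1 hk hs hTgk hN1 (hCA c)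
  have i2 := second_bound (A := A) (W := W) (X := X) (Tg := Tg) (o := s.1 !c) I ν α β b0 ε1 Ct k KK
    c T hν hβ hb01 hε0 hε1 hk hs hTgk hN1 (hCt c) M1 hM1d.symm
  have i3 := bad_bound (A := A) (W := W) (X := X) (Tg := Tg) (o := s.1 !c) I ν α β b0 ε1 Ct' k KK
    KK c T (m * x) hν hβ hb0 hε0 hε1 hk hT (by positivity) hs hTgk (hmono _ (by omega)) (hCt' c)
  have i4 := long_bound (A := A) (W := W) (X := X) (Tg := Tg) (o := s.1 !c) I ν ε1 KK c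
    (m * x + T) hν hε0 hε1 hs (hmono _ (by omega))
  have i5 := tree_bound (A := A) (W := W) (X := X) (Tg := Tg) (o := s.1 !c) I ν α ε1 CA KK c
    (m * x) hν hε0 hε1 hs (hmono _ (by omega)) (hCA !c)
  rw [hXc, hTgc] at i1 i2 i3
  rw [← hℓd] at i1 i2 i3 i5
  rw [← hΛd] at i1 i2 i3
  rw [← hGB] at i1 i2 i3
  have hSR : ∀ B ∈ GB, sEv A X Tg KK c T B ⊆ okEv c T B := fun B _ ω hω => hω.1
  have hae : (PA d I A).real {ω | ¬ (Contains ω.1 A ∧ ∀ e, 0 ≤ ω.2 e)} = 0 := by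
    rw [measureReal_def, PA_ae I hI hN.even A f1]
    rfl
  have hdiff : ∑ B ∈ GB, (PA d I A).real (okEv c T B \ sEv A X Tg KK c T B) ≤
      (4 * k / ν ^ 3 * CA ^ 2) * (M * L) * ((M + L * k + KK * (b0 * β ^ KK)) ^ 4 * KK) *
        Λ ^ 2 / ℓ := by
    have h1 : ∑ B ∈ GB, (PA d I A).real (okEv c T B \ sEv A X Tg KK c T B) ≤
        ∑ B ∈ GB, (PA d I A).real (okEv c T B ∩ dblEv A X Tg KK c T B) := by
      refine Finset.sum_le_sum fun B _ => ?_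
      have h2 : okEv c T B \ sEv A X Tg KK c T B ⊆
          {ω | ¬ (Contains ω.1 A ∧ ∀ e, 0 ≤ ω.2 e)} ∪ (okEv c T B ∩ dblEv A X Tg KK c T B) := by
        rintro ω ⟨h3, h4⟩
        by_cases h5 : Contains ω.1 A ∧ ∀ e, 0 ≤ ω.2 e
        · right
          refine ⟨h3, ?_⟩
          by_contra h6
          exact h4 ⟨h3, h6, h5.1, h5.2⟩
        · left
          exact h5
      calc (PA d I A).real (okEv c T B \ sEv A X Tg KK c T B)
          ≤ (PA d I A).real ({ω | ¬ (Contains ω.1 A ∧ ∀ e, 0 ≤ ω.2 e)} ∪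
            (okEv c T B ∩ dblEv A X Tg KK c T B)) := measureReal_mono h2
        _ ≤ _ := measureReal_union_le _ _
        _ = _ := by rw [hae, zero_add]
    refine h1.trans (i1.trans (le_of_eq ?_))
    ring
  have hsec := count_lower (PA d I A) GB (okEv c T) (sEv A X Tg KK c T)
    (fun B _ => measurable_okEv c T B) (fun B _ => measurable_sEv KK c T B) hSR M1 _
    (ε1 * M1 ^ 2 + M1 + (4 * k ^ 2 * b0 ^ 2 / ν ^ 2 * Ct) * ((M : ℝ) * L * (M + L + 1)) * Λ ^ 2)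
    hM1pos hM1d.symm hdiff (i2.trans (le_of_eq (by ring)))
  have hbad := count_upper (PA d I A) GB
    (fun B => okEv c T B ∩ badEv A (s.1 !c) KK c (m * x) B)
    (fun B _ => (measurable_okEv c T B).inter (measurable_badEv KK c _ B)) M1 _ hM1pos i3
  have hincl := core_incl s c γ m x hx hnice hlen X hX Tg hTg ho b0 β KK KK T hT M1 A hA W hW GB
    hGB
  have hfinal : (PA d I A).real {ω : Pairing (HE d) × Weights d |
      (∀ q ∈ A, ω.2 (c, s(q.1, q.2)) ≤ x) ∧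
        ∀ v ∈ Tg, ¬ ∃ t, finalPaint ω.1 ω.2 s v = some (c, t)} ≤ ε * (1 + d (s.1 !c)) := by
    refine (measureReal_mono hincl).trans ?_
    refine (measureReal_union_le _ _).trans ?_
    rw [hae, zero_add]
    refine (measureReal_union_le _ _).trans ?_
    refine (add_le_add hsec ((measureReal_union_le _ _).trans
      (add_le_add hbad ((measureReal_union_le _ _).trans (add_le_add i4 i5))))).trans ?_
    have hnum := asm_numeric ε ε1 ℓ Λ M1 c1 (4 * k ^ 2 * b0 ^ 2 / ν ^ 2 * Ct)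
      (4 * k / ν ^ 3 * CA ^ 2) (4 * k * b0 / ν ^ 2 * Ct' * Real.exp (α * (m * x))) M L
      ((M + L * k + KK * (b0 * β ^ KK)) ^ 4 * KK)
      (4 * (ν ^ (KK + 1) * cdfPow (I (!c)) (KK + 1) (m * x + T)))
      (4 * (∑ v ∈ W, d v : ℝ) / ℓ * CA * Real.exp (α * (m * x))) (d (s.1 !c)) hε hℓ hΛ hc1 hMr
      hLr (Nat.cast_nonneg _) hM1 (by positivity) (by positivity) (by positivity) (by positivity)
      H1 H2 H3 H4 H5 H6 H7
    refine le_trans (le_of_eq ?_) hnum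
    ring
  calc _ = ENNReal.ofReal ((PA d I A).real {ω : Pairing (HE d) × Weights d |
      (∀ q ∈ A, ω.2 (c, s(q.1, q.2)) ≤ x) ∧
        ∀ v ∈ Tg, ¬ ∃ t, finalPaint ω.1 ω.2 s v = some (c, t)}) := by
        rw [ofReal_measureReal]
    _ ≤ _ := ENNReal.ofReal_le_ofReal hfinal

end Pool.Agent.H86.CM
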