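import Mathlib

/-!
# Asymptotic estimates for the parameters
-/

open Filter Topology Asymptotics

namespace Pool.Agent.H86.CM

/-- The maximal length of the walks considered. -/
noncomputable def kkFun (A α : ℝ) (n : ℕ) : ℕ := ⌈A * (Real.log n / α + 2)⌉₊ + 1

theorem kk_ge (A α : ℝ) (n : ℕ) : A * (Real.log n / α + 2) ≤ kkFun A α n := by
  unfold kkFun
  push_cast
  have := Nat.le_ceil (A * (Real.log n / α + 2))
  linarith

theorem kk_le (A α : ℝ) (hA : 0 < A) (hα : 0 < α) (n : ℕ) :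
    (kkFun A α n : ℝ) ≤ A * (Real.log n / α + 2) + 2 := by
  unfold kkFun
  push_cast
  have h0 : 0 ≤ A * (Real.log n / α + 2) := by
    have := Real.log_natCast_nonneg n
    positivity
  have := Nat.ceil_lt_add_one h0
  linarith

theorem kk_isLittleO (A α s : ℝ) (hA : 0 < A) (hα : 0 < α) (hs : 0 < s) :
    (fun n : ℕ => (kkFun A α n : ℝ)) =o[atTop] fun n : ℕ => (n : ℝ) ^ s := by
  have h1 : (fun n : ℕ => (kkFun A α n : ℝ)) =O[atTop] fun n : ℕ => Real.log n + 1 := by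
    refine IsBigO.of_bound (A / α + 2 * A + 2) ?_
    filter_upwards [eventually_ge_atTop 1] with n hn
    have h2 := kk_le A α hA hα n
    have h3 := Real.log_natCast_nonneg n
    rw [Real.norm_of_nonneg (Nat.cast_nonneg _), Real.norm_of_nonneg (by positivity)]
    have h4 : A * (Real.log n / α + 2) + 2 = A / α * Real.log n + (2 * A + 2) := by
      field_simp
      ring
    rw [h4] at h2
    have h5 : 0 ≤ A / α := by positivity
    nlinarith [mul_nonneg h5 h3, mul_nonneg hA.le h3]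
  refine h1.trans_isLittleO ?_
  refine IsLittleO.add ?_ ?_
  · exact (isLittleO_log_rpow_atTop hs).comp_tendsto tendsto_natCast_atTop_atTop
  · rw [isLittleO_const_left]
    right
    have : Tendsto (fun n : ℕ => (n : ℝ) ^ s) atTop atTop :=
      (tendsto_rpow_atTop hs).comp tendsto_natCast_atTop_atTop
    refine this.congr fun n => ?_
    simp only [Function.comp]
    rw [Real.norm_of_nonneg (by positivity)]

theorem beta_isBigO (A α b : ℝ) (hA : 0 < A) (hα : 0 < α) (hb : 0 ≤ b)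
    (hb1 : b * A / α ≤ 1 / 16) :
    (fun n : ℕ => Real.exp b ^ (kkFun A α n)) =O[atTop] fun n : ℕ => (n : ℝ) ^ (1 / 16 : ℝ) := by
  refine IsBigO.of_bound (Real.exp (b * (2 * A + 2))) ?_
  filter_upwards [eventually_ge_atTop 1] with n hn
  have hn' : (1 : ℝ) ≤ n := by exact_mod_cast hn
  have h2 := kk_le A α hA hα n
  have h3 : 0 ≤ Real.log n := Real.log_nonneg hn'
  rw [Real.norm_of_nonneg (by positivity), Real.norm_of_nonneg (by positivity), ← Real.exp_nat_mul,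
    Real.rpow_def_of_pos (by linarith), ← Real.exp_add]
  refine Real.exp_le_exp.2 ?_
  have h4 : (kkFun A α n : ℝ) * b ≤ (A * (Real.log n / α + 2) + 2) * b :=
    mul_le_mul_of_nonneg_right h2 hb
  have h5 : (A * (Real.log n / α + 2) + 2) * b =
      b * A / α * Real.log n + b * (2 * A + 2) := by
    field_simp
    ring
  rw [h5] at h4
  have h6 : b * A / α * Real.log n ≤ 1 / 16 * Real.log n := mul_le_mul_of_nonneg_right hb1 h3
  linarith

theorem isBigO_const_rpow (a s : ℝ) (hs : 0 ≤ s) :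
    (fun _ : ℕ => a) =O[atTop] fun n : ℕ => (n : ℝ) ^ s := by
  refine IsBigO.of_bound |a| ?_
  filter_upwards [eventually_ge_atTop 1] with n hn
  have hn' : (1 : ℝ) ≤ n := by exact_mod_cast hn
  rw [Real.norm_eq_abs, Real.norm_of_nonneg (by positivity)]
  have := Real.one_le_rpow hn' hs
  nlinarith [abs_nonneg a]

theorem rpow_mul_rpow_isBigO (s t u : ℝ) (h : s + t ≤ u) :
    (fun n : ℕ => (n : ℝ) ^ s * (n : ℝ) ^ t) =O[atTop] fun n : ℕ => (n : ℝ) ^ u := by
  refine IsBigO.of_bound 1 ?_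
  filter_upwards [eventually_ge_atTop 1] with n hn
  have hn' : (1 : ℝ) ≤ n := by exact_mod_cast hn
  rw [Real.norm_of_nonneg (by positivity), Real.norm_of_nonneg (by positivity), one_mul,
    ← Real.rpow_add (by linarith)]
  exact Real.rpow_le_rpow_of_exponent_le hn' h

theorem mul_isBigO_rpow {f g : ℕ → ℝ} {s t u : ℝ}
    (hf : f =O[atTop] fun n : ℕ => (n : ℝ) ^ s) (hg : g =O[atTop] fun n : ℕ => (n : ℝ) ^ t)
    (h : s + t ≤ u) : (fun n => f n * g n) =O[atTop] fun n : ℕ => (n : ℝ) ^ u :=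
  (hf.mul hg).trans (rpow_mul_rpow_isBigO s t u h)

theorem eventually_le_of_isBigO {f : ℕ → ℝ} {s ε : ℝ}
    (hf : f =O[atTop] fun n : ℕ => (n : ℝ) ^ s) (hs : s < 0) (hε : 0 < ε) :
    ∀ᶠ n : ℕ in atTop, f n ≤ ε := by
  have h1 : Tendsto (fun n : ℕ => (n : ℝ) ^ s) atTop (𝓝 0) := by
    have := (tendsto_rpow_neg_atTop (y := -s) (by linarith)).comp
      (tendsto_natCast_atTop_atTop (R := ℝ))
    refine this.congr fun n => ?_
    simp
  have h2 := hf.trans_tendsto h1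
  filter_upwards [h2.eventually (gt_mem_nhds hε)] with n hn
  exact hn.le

section

variable (A α b : ℝ) (hA : 0 < A) (hα : 0 < α) (hb : 0 ≤ b) (hb1 : b * A / α ≤ 1 / 16)

include hA hα

theorem asm_ev3 (m : ℕ) (ε1 C : ℝ) (hε : 0 < ε1) (hC : 0 < C) :
    ∀ᶠ n : ℕ in atTop, 8 * ((3 * kkFun A α n : ℕ) + 1 : ℝ) * (m + (3 * kkFun A α n : ℕ) + 1) ≤
      ε1 * (n / C) := by
  have h1 : (fun n : ℕ => (kkFun A α n : ℝ)) =O[atTop] fun n : ℕ => (n : ℝ) ^ (1 / 4 : ℝ) :=
    (kk_isLittleO A α _ hA hα (by norm_num)).isBigO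
  have h2 : (fun n : ℕ => (8 * ((3 * kkFun A α n : ℕ) + 1 : ℝ) *
      (m + (3 * kkFun A α n : ℕ) + 1)) * (n : ℝ) ^ (-1 : ℝ)) =O[atTop]
      fun n : ℕ => (n : ℝ) ^ (-(1 / 2) : ℝ) := by
    refine mul_isBigO_rpow (s := 1 / 2) (t := -1) ?_ (isBigO_refl _ _) (by norm_num)
    refine mul_isBigO_rpow (s := 1 / 4) (t := 1 / 4) ?_ ?_ (by norm_num)
    · refine IsBigO.const_mul_left ?_ 8
      push_cast
      refine IsBigO.add ?_ (isBigO_const_rpow 1 _ (by norm_num))
      exact h1.const_mul_left 3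
    · push_cast
      refine IsBigO.add (IsBigO.add (isBigO_const_rpow _ _ (by norm_num)) ?_)
        (isBigO_const_rpow 1 _ (by norm_num))
      exact h1.const_mul_left 3
  filter_upwards [eventually_le_of_isBigO h2 (by norm_num) (ε := ε1 / C) (by positivity),
    eventually_ge_atTop 1] with n hn hn1
  have hn' : (0 : ℝ) < n := by exact_mod_cast hn1
  rw [Real.rpow_neg_one] at hn
  have := mul_le_mul_of_nonneg_right hn hn'.le
  rw [mul_assoc, inv_mul_cancel₀ hn'.ne', mul_one] at this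
  refine this.trans (le_of_eq ?_)
  ring

theorem asm_ev4 (η : ℝ) (hη : 0 < η) (ε : ℝ) (hε : 0 < ε) :
    ∀ᶠ n : ℕ in atTop, (kkFun A α n : ℝ) * (n : ℝ) ^ (-η) ≤ ε := by
  have h1 : (fun n : ℕ => (kkFun A α n : ℝ)) =O[atTop] fun n : ℕ => (n : ℝ) ^ (η / 2) :=
    (kk_isLittleO A α _ hA hα (by positivity)).isBigO
  have h2 := mul_isBigO_rpow (u := -(η / 2)) h1
    (isBigO_refl (fun n : ℕ => (n : ℝ) ^ (-η)) atTop) (by linarith)
  exact eventually_le_of_isBigO h2 (by linarith) hε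

include hb hb1

theorem asm_ev5 (b0 a ν C : ℝ) (hν : 0 < ν) (ε : ℝ) (hε : 0 < ε) :
    ∀ᶠ n : ℕ in atTop, (kkFun A α n : ℝ) * ((a + kkFun A α n) *
      (b0 * Real.exp b ^ kkFun A α n) ^ 2 / (ν * (n / C))) ≤ ε := by
  have h1 : (fun n : ℕ => (kkFun A α n : ℝ)) =O[atTop] fun n : ℕ => (n : ℝ) ^ (1 / 16 : ℝ) :=
    (kk_isLittleO A α _ hA hα (by norm_num)).isBigO
  have h2 := beta_isBigO A α b hA hα hb hb1
  have h3 : (fun n : ℕ => (b0 * Real.exp b ^ kkFun A α n) ^ 2) =O[atTop]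
      fun n : ℕ => (n : ℝ) ^ (1 / 8 : ℝ) := by
    have h4 := h2.const_mul_left b0
    have h5 := mul_isBigO_rpow (u := 1 / 8) h4 h4 (by norm_num)
    refine h5.congr_left fun n => ?_
    ring
  have h4 : (fun n : ℕ => a + (kkFun A α n : ℝ)) =O[atTop] fun n : ℕ => (n : ℝ) ^ (1 / 16 : ℝ) :=
    (isBigO_const_rpow a _ (by norm_num)).add h1
  have h5 := mul_isBigO_rpow (u := 1 / 4) h1 (mul_isBigO_rpow (u := 3 / 16) h4 h3 (by norm_num))
    (by norm_num)
  have h6 := mul_isBigO_rpow (u := -(3 / 4)) (h5.const_mul_left (C / ν))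
    (isBigO_refl (fun n : ℕ => (n : ℝ) ^ (-1 : ℝ)) atTop) (by norm_num)
  filter_upwards [eventually_le_of_isBigO h6 (by norm_num) hε, eventually_ge_atTop 1] with n hn hn1
  refine le_trans (le_of_eq ?_) hn
  have hn' : (n : ℝ) ≠ 0 := by
    have : (0 : ℝ) < n := by exact_mod_cast hn1
    exact this.ne'
  rw [Real.rpow_neg_one]
  by_cases hC : C = 0
  · subst hC
    simp
  · field_simp

theorem asm_ev6 (b0 a C3 C c1 : ℝ) (ε : ℝ) (hε : 0 < ε) :
    ∀ᶠ n : ℕ in atTop, C3 * ((a + kkFun A α n * (b0 * Real.exp b ^ kkFun A α n)) ^ 4 *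
      kkFun A α n) * C / (c1 * (n / C)) ≤ ε := by
  have h1 : (fun n : ℕ => (kkFun A α n : ℝ)) =O[atTop] fun n : ℕ => (n : ℝ) ^ (1 / 16 : ℝ) :=
    (kk_isLittleO A α _ hA hα (by norm_num)).isBigO
  have h2 := beta_isBigO A α b hA hα hb hb1
  have h3 : (fun n : ℕ => a + (kkFun A α n : ℝ) * (b0 * Real.exp b ^ kkFun A α n)) =O[atTop]
      fun n : ℕ => (n : ℝ) ^ (1 / 8 : ℝ) :=
    (isBigO_const_rpow a _ (by norm_num)).add
      (mul_isBigO_rpow h1 (h2.const_mul_left b0) (by norm_num))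
  have h4 : (fun n : ℕ => (a + (kkFun A α n : ℝ) * (b0 * Real.exp b ^ kkFun A α n)) ^ 4)
      =O[atTop] fun n : ℕ => (n : ℝ) ^ (1 / 2 : ℝ) := by
    have h5 := mul_isBigO_rpow (u := 1 / 4) h3 h3 (by norm_num)
    have h6 := mul_isBigO_rpow (u := 1 / 2) h5 h5 (by norm_num)
    refine h6.congr_left fun n => ?_
    ring
  have h5 := mul_isBigO_rpow (u := 9 / 16) h4 h1 (by norm_num)
  have h6 := mul_isBigO_rpow (u := -(7 / 16)) (h5.const_mul_left (C3 * C * C / c1))
    (isBigO_refl (fun n : ℕ => (n : ℝ) ^ (-1 : ℝ)) atTop) (by norm_num)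
  filter_upwards [eventually_le_of_isBigO h6 (by norm_num) hε, eventually_ge_atTop 1] with n hn hn1
  refine le_trans (le_of_eq ?_) hn
  have hn' : (n : ℝ) ≠ 0 := by
    have : (0 : ℝ) < n := by exact_mod_cast hn1
    exact this.ne'
  rw [Real.rpow_neg_one]
  by_cases hC : C = 0
  · subst hC
    simp
  · by_cases hc : c1 = 0
    · subst hc
      simp
    · field_simp

end

theorem asm_ev8 (θ C a : ℝ) (hθ : 0 < θ) (hC : 0 < C) (ε : ℝ) (hε : 0 < ε) :
    ∀ᶠ n : ℕ in atTop, a * (C * n) ^ (1 / (2 + θ)) / (n / C) ≤ ε := by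
  have h1 : (fun n : ℕ => (n : ℝ) ^ (1 / (2 + θ))) =O[atTop] fun n : ℕ => (n : ℝ) ^ (1 / 2 : ℝ) := by
    refine IsBigO.of_bound 1 ?_
    filter_upwards [eventually_ge_atTop 1] with n hn
    have hn' : (1 : ℝ) ≤ n := by exact_mod_cast hn
    rw [Real.norm_of_nonneg (by positivity), Real.norm_of_nonneg (by positivity), one_mul]
    refine Real.rpow_le_rpow_of_exponent_le hn' ?_
    rw [div_le_div_iff₀ (by positivity) (by norm_num)]
    linarith
  have h2 := mul_isBigO_rpow (u := -(1 / 2)) (h1.const_mul_left (a * C ^ (1 / (2 + θ)) * C))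
    (isBigO_refl (fun n : ℕ => (n : ℝ) ^ (-1 : ℝ)) atTop) (by norm_num)
  filter_upwards [eventually_le_of_isBigO h2 (by norm_num) hε, eventually_ge_atTop 1] with n hn hn1
  refine le_trans (le_of_eq ?_) hn
  have hn' : (0 : ℝ) < n := by exact_mod_cast hn1
  rw [Real.rpow_neg_one, Real.mul_rpow hC.le hn'.le]
  field_simp

theorem asm_ev7 (α K ε : ℝ) (hα : 0 < α) (hε : 0 < ε) :
    ∀ᶠ n : ℕ in atTop, 4 * Real.exp (-(Real.log n / α - K)) ≤ ε := by
  have h1 : Tendsto (fun n : ℕ => Real.log n / α - K) atTop atTop := by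
    have h2 : Tendsto (fun n : ℕ => Real.log n) atTop atTop :=
      Real.tendsto_log_atTop.comp tendsto_natCast_atTop_atTop
    exact tendsto_atTop_add_const_right _ _ (h2.atTop_div_const hα)
  have h2 := (Real.tendsto_exp_neg_atTop_nhds_zero.comp h1).const_mul 4
  rw [mul_zero] at h2
  filter_upwards [h2.eventually (gt_mem_nhds hε)] with n hn
  exact hn.le

theorem asm_ev1 (α K : ℝ) (hα : 0 < α) : ∀ᶠ n : ℕ in atTop, 0 ≤ Real.log n / α - K := by
  have h2 : Tendsto (fun n : ℕ => Real.log n) atTop atTop :=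
    Real.tendsto_log_atTop.comp tendsto_natCast_atTop_atTop
  have h1 : Tendsto (fun n : ℕ => Real.log n / α - K) atTop atTop :=
    tendsto_atTop_add_const_right _ _ (h2.atTop_div_const hα)
  exact h1.eventually_ge_atTop 0

theorem asm_ev2 (a K : ℝ) (ha : 0 < a) : ∀ᶠ n : ℕ in atTop, K ≤ a * n :=
  (tendsto_natCast_atTop_atTop.const_mul_atTop ha).eventually_ge_atTop K

end Pool.Agent.H86.CM
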