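import Pool.Agent.H86.CM.CoreDefs

/-! MODULE COUNT: a lower bound for the number of good lists of transits. -/

namespace Pool.Agent.H86.CM

section Gen

variable {n : ℕ} {d : Fin n → ℕ}

/-- Lists of length `m` whose entries lie in `S i, S (i+1), …`, at distinct vertices outside
`U`. -/
def cntF (S : ℕ → Finset (HE d × HE d)) : ℕ → ℕ → Finset (Fin n) → Finset (List (HE d × HE d))
  | 0, _, _ => {[]}
  | m + 1, i, U => ((S i).filter fun p => p.1.1 ∉ U).biUnion fun p =>
      (cntF S m (i + 1) (insert p.1.1 U)).image (List.cons p)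

theorem cnt_mem {S : ℕ → Finset (HE d × HE d)} {m i : ℕ} {U : Finset (Fin n)}
    {l : List (HE d × HE d)} (h : l ∈ cntF S m i U) :
    l.length = m ∧ (∀ p ∈ l, p.1.1 ∉ U) ∧ (l.map fun p => p.1.1).Nodup ∧
      ∀ c p e, l = c ++ p :: e → p ∈ S (i + c.length) := by
  induction m generalizing i U l with
  | zero =>
    simp only [cntF, Finset.mem_singleton] at h
    subst h
    refine ⟨rfl, by simp, by simp, ?_⟩
    intro c p e h
    simp at h
  | succ m ih =>
    simp only [cntF, Finset.mem_biUnion, Finset.mem_filter, Finset.mem_image] at h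
    obtain ⟨p, ⟨hp, hpU⟩, l', hl', rfl⟩ := h
    obtain ⟨h1, h2, h3, h4⟩ := ih hl'
    refine ⟨by simp [h1], ?_, ?_, ?_⟩
    · intro q hq
      rcases List.mem_cons.1 hq with rfl | hq
      · exact hpU
      · intro hU
        exact h2 q hq (Finset.mem_insert_of_mem hU)
    · rw [List.map_cons, List.nodup_cons]
      refine ⟨?_, h3⟩
      intro hq
      rw [List.mem_map] at hq
      obtain ⟨q, hq, hqp⟩ := hq
      exact h2 q hq (by rw [hqp]; exact Finset.mem_insert_self _ _)
    · intro c q e hc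
      cases c with
      | nil =>
        simp only [List.nil_append, List.cons.injEq] at hc
        rw [← hc.1]
        simpa using hp
      | cons c0 c =>
        simp only [List.cons_append, List.cons.injEq] at hc
        have := h4 c q e hc.2
        simp only [List.length_cons]
        rw [show i + (c.length + 1) = i + 1 + c.length by ring]
        exact this

theorem cnt_card (S : ℕ → Finset (HE d × HE d)) (B : ℕ)
    (hB : ∀ i v, ((S i).filter fun p => p.1.1 = v).card ≤ B) (y : ℕ → ℝ)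
    (hy : ∀ i, 0 ≤ y i) (M : ℕ) (m i : ℕ) (U : Finset (Fin n)) (hU : U.card + m ≤ M)
    (hS : ∀ k < m, y (i + k) ≤ ((S (i + k)).card : ℝ) - M * B) :
    ∏ k ∈ Finset.range m, y (i + k) ≤ ((cntF S m i U).card : ℝ) := by
  induction m generalizing i U with
  | zero => simp [cntF]
  | succ m ih =>
    have hcard : (cntF S (m + 1) i U).card =
        ∑ p ∈ (S i).filter fun p => p.1.1 ∉ U, (cntF S m (i + 1) (insert p.1.1 U)).card := by
      rw [cntF, Finset.card_biUnion]
      · refine Finset.sum_congr rfl fun p _ => ?_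
        exact Finset.card_image_of_injective _ (List.cons_injective)
      · intro p _ q _ hpq
        rw [Function.onFun, Finset.disjoint_left]
        intro l hl hl'
        simp only [Finset.mem_image] at hl hl'
        obtain ⟨l1, _, rfl⟩ := hl
        obtain ⟨l2, _, h2⟩ := hl'
        simp only [List.cons.injEq] at h2
        exact hpq h2.1.symm
    rw [hcard]
    push_cast
    have h1 : ∀ p ∈ (S i).filter fun p => p.1.1 ∉ U,
        ∏ k ∈ Finset.range m, y (i + 1 + k) ≤ ((cntF S m (i + 1) (insert p.1.1 U)).card : ℝ) := by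
      intro p _
      refine ih (i + 1) (insert p.1.1 U) ?_ ?_
      · have := Finset.card_insert_le p.1.1 U
        omega
      · intro k hk
        have := hS (k + 1) (by omega)
        rw [show i + 1 + k = i + (k + 1) by ring]
        exact this
    have h2 := Finset.sum_le_sum h1
    refine le_trans ?_ h2
    rw [Finset.sum_const, nsmul_eq_mul, Finset.prod_range_succ']
    have h3 : ∏ k ∈ Finset.range m, y (i + (k + 1)) = ∏ k ∈ Finset.range m, y (i + 1 + k) := by
      refine Finset.prod_congr rfl fun k _ => ?_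
      rw [show i + 1 + k = i + (k + 1) by ring]
    rw [h3, mul_comm]
    refine mul_le_mul_of_nonneg_right ?_ (Finset.prod_nonneg fun k _ => hy _)
    have h4 := hS 0 (by omega)
    simp only [add_zero] at h4 ⊢
    refine h4.trans ?_
    -- the number of removed pairs
    have h5 : (S i).card ≤ ((S i).filter fun p => p.1.1 ∉ U).card + U.card * B := by
      have h6 := Finset.card_filter_add_card_filter_not (s := S i) (fun p => p.1.1 ∉ U)
      have h7 : ((S i).filter fun p => ¬ p.1.1 ∉ U).card ≤ U.card * B := by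
        have h8 : ((S i).filter fun p => ¬ p.1.1 ∉ U) ⊆
            U.biUnion fun v => (S i).filter fun p => p.1.1 = v := by
          intro p hp
          simp only [Finset.mem_filter, not_not, Finset.mem_biUnion] at hp ⊢
          exact ⟨p.1.1, hp.2, hp.1, rfl⟩
        refine (Finset.card_le_card h8).trans ?_
        refine Finset.card_biUnion_le.trans ?_
        refine (Finset.sum_le_card_nsmul _ _ B fun v _ => hB i v).trans ?_
        simp
      omega
    have h9 : ((S i).card : ℝ) ≤ (((S i).filter fun p => p.1.1 ∉ U).card : ℝ) + U.card * B := by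
      exact_mod_cast h5
    have h10 : (U.card : ℝ) * B ≤ M * B := by
      have : (U.card : ℝ) ≤ M := by exact_mod_cast (by omega : U.card ≤ M)
      exact mul_le_mul_of_nonneg_right this (Nat.cast_nonneg _)
    linarith

open Classical in
theorem cnt_trs_filter (Q : Fin n → Prop) :
    ((trs d).filter fun p => Q p.1.1).card = ∑ v ∈ Finset.univ.filter Q, d v * (d v - 1) := by
  have h1 : ((trs d).filter fun p => Q p.1.1) =
      (Finset.univ.filter Q).biUnion fun v => (hes d v).offDiag := by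
    ext p
    simp only [Finset.mem_filter, mem_trs, Finset.mem_biUnion, Finset.mem_univ, true_and,
      Finset.mem_offDiag, mem_hes]
    constructor
    · rintro ⟨⟨h1, h2⟩, h3⟩
      exact ⟨p.1.1, h3, rfl, h1.symm, h2⟩
    · rintro ⟨v, h0, h1, h2, h3⟩
      exact ⟨⟨by rw [h1, h2], h3⟩, by rw [h1]; exact h0⟩
  rw [h1, Finset.card_biUnion]
  · refine Finset.sum_congr rfl fun v _ => ?_
    rw [Finset.offDiag_card, card_hes, Nat.mul_sub, mul_one]
  · intro v _ w _ hvw
    rw [Function.onFun, Finset.disjoint_left]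
    intro p hp hp'
    rw [Finset.mem_offDiag, mem_hes] at hp hp'
    exact hvw (hp.1.symm.trans hp'.1)

theorem cnt_cast_sub (k : ℕ) : ((k * (k - 1) : ℕ) : ℝ) = (k : ℝ) * ((k : ℝ) - 1) := by
  cases k with
  | zero => simp
  | succ k => push_cast; simp

theorem cnt_sub_le (k : ℕ) : ((k * (k - 1) : ℕ) : ℝ) ≤ (k : ℝ) ^ 2 := by
  rw [cnt_cast_sub]
  have : (0 : ℝ) ≤ k := Nat.cast_nonneg k
  nlinarith

open Classical in
/-- The number of transits at vertices of large degree. -/
theorem cnt_tail (θ b M : ℝ) (hθ : 0 < θ) (hb : 0 < b)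
    (hM : ∑ v, (d v : ℝ) ^ (2 + θ) ≤ M) :
    ((((trs d).filter fun p => b < (d p.1.1 : ℝ)).card : ℕ) : ℝ) ≤ b ^ (-θ) * M := by
  rw [cnt_trs_filter (fun v => b < (d v : ℝ))]
  push_cast
  have h1 : ∀ v ∈ Finset.univ.filter fun v => b < (d v : ℝ),
      ((d v : ℝ) * ((d v - 1 : ℕ) : ℝ)) ≤ b ^ (-θ) * (d v : ℝ) ^ (2 + θ) := by
    intro v hv
    rw [Finset.mem_filter] at hv
    have hv := hv.2
    have hd : (0 : ℝ) < d v := hb.trans hv
    have h2 : (d v : ℝ) * ((d v - 1 : ℕ) : ℝ) ≤ (d v : ℝ) ^ 2 := by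
      have := cnt_sub_le (d v)
      push_cast at this
      exact this
    refine h2.trans ?_
    have h3 : (d v : ℝ) ^ (2 + θ) = (d v : ℝ) ^ 2 * (d v : ℝ) ^ θ := by
      rw [Real.rpow_add hd]
      norm_num
    rw [h3]
    have h4 : 1 ≤ b ^ (-θ) * (d v : ℝ) ^ θ := by
      rw [Real.rpow_neg hb.le]
      rw [inv_mul_eq_div, le_div_iff₀ (Real.rpow_pos_of_pos hb θ), one_mul]
      exact Real.rpow_le_rpow hb.le hv.le hθ.le
    have h5 : (0 : ℝ) ≤ (d v : ℝ) ^ 2 := by positivity
    nlinarith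
  refine (Finset.sum_le_sum h1).trans ?_
  rw [← Finset.mul_sum]
  refine mul_le_mul_of_nonneg_left ?_ (Real.rpow_nonneg hb.le _)
  refine le_trans ?_ hM
  refine Finset.sum_le_sum_of_subset_of_nonneg (Finset.filter_subset _ _) ?_
  intro v _ _
  exact Real.rpow_nonneg (Nat.cast_nonneg _) _

open Classical in
/-- The number of transits at small vertices of a given set. -/
theorem cnt_few (b : ℝ) (V : Finset (Fin n)) :
    ((((trs d).filter fun p => p.1.1 ∈ V ∧ (d p.1.1 : ℝ) ≤ b).card : ℕ) : ℝ) ≤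
      V.card * b ^ 2 := by
  have h0 : ((trs d).filter fun p => p.1.1 ∈ V ∧ (d p.1.1 : ℝ) ≤ b).card =
      ∑ v ∈ Finset.univ.filter fun v => v ∈ V ∧ (d v : ℝ) ≤ b, d v * (d v - 1) := by
    convert cnt_trs_filter (d := d) (fun v => v ∈ V ∧ (d v : ℝ) ≤ b)
  rw [h0, Nat.cast_sum]
  have h1 : ∀ v ∈ Finset.univ.filter fun v => v ∈ V ∧ (d v : ℝ) ≤ b,
      ((d v * (d v - 1) : ℕ) : ℝ) ≤ b ^ 2 := by
    intro v hv
    rw [Finset.mem_filter] at hv
    refine (cnt_sub_le (d v)).trans ?_
    exact pow_le_pow_left₀ (Nat.cast_nonneg _) hv.2.2 2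
  refine (Finset.sum_le_card_nsmul _ _ _ h1).trans ?_
  rw [nsmul_eq_mul]
  refine mul_le_mul_of_nonneg_right ?_ (sq_nonneg b)
  have : (Finset.univ.filter fun v => v ∈ V ∧ (d v : ℝ) ≤ b).card ≤ V.card := by
    refine Finset.card_le_card ?_
    intro v hv
    rw [Finset.mem_filter] at hv
    exact hv.2.1
  exact_mod_cast this

/-- Geometric series bound. -/
theorem cnt_geom (q : ℝ) (h0 : 0 < q) (h1 : q < 1) (m : ℕ) :
    ∑ k ∈ Finset.range m, q ^ (k + 1) ≤ q / (1 - q) := by
  have h2 : ∑ k ∈ Finset.range m, q ^ (k + 1) = q * ∑ k ∈ Finset.range m, q ^ k := by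
    rw [Finset.mul_sum]
    refine Finset.sum_congr rfl fun k _ => ?_
    rw [pow_succ, mul_comm]
  rw [h2, div_eq_mul_inv]
  refine mul_le_mul_of_nonneg_left ?_ h0.le
  have h3 : Summable fun k : ℕ => q ^ k := summable_geometric_of_lt_one h0.le h1
  rw [← tsum_geometric_of_lt_one h0.le h1]
  exact h3.sum_le_tsum _ (fun k _ => pow_nonneg h0.le k)

theorem cnt_prod (x : ℕ → ℝ) (hx : ∀ k, 0 ≤ x k) (m : ℕ)
    (h : ∑ k ∈ Finset.range m, x k ≤ 1) :
    1 - ∑ k ∈ Finset.range m, x k ≤ ∏ k ∈ Finset.range m, (1 - x k) := by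
  induction m with
  | zero => simp
  | succ m ih =>
    rw [Finset.sum_range_succ] at h ⊢
    rw [Finset.prod_range_succ]
    have h1 : 0 ≤ ∑ k ∈ Finset.range m, x k := Finset.sum_nonneg fun k _ => hx k
    have h2 := ih (by have := hx m; linarith)
    have h3 : 0 ≤ 1 - x m := by linarith
    have h4 := mul_le_mul_of_nonneg_right h2 h3
    have h5 : 0 ≤ (∑ k ∈ Finset.range m, x k) * x m := mul_nonneg h1 (hx m)
    nlinarith

end Gen

open Classical in
/-- For a regular degree sequence (with `b0` large, depending only on `ν, C, θ, β`), there are at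
least `(ν ℓ) ^ m / 2` good lists of `m` transits. -/
theorem goodT_count (ν C θ η p β : ℝ) (hν : 1 < ν) (hC : 0 < C) (hθ : 0 < θ) (hη : 0 < η)
    (hβ : 1 < β) : ∃ b1 : ℝ, 1 ≤ b1 ∧ ∀ b0 : ℝ, b1 ≤ b0 → ∀ (k mL m n : ℕ) (d : Fin n → ℕ)
    (W Tg : Finset (Fin n)) (o : Fin n), Reg ν C θ η p k mL d →
    (m : ℝ) * ((n : ℝ) ^ (-η) +
      ((W.card : ℝ) + Tg.card + 1 + m) * (b0 * β ^ (m + 1)) ^ 2 /
        (ν * (Fintype.card (HE d) : ℝ))) ≤ 1 / 4 →
    (ν * (Fintype.card (HE d) : ℝ)) ^ m / 2 ≤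
      (((listsOf (trs d) m).filter fun τ => GoodT W Tg o b0 β τ).card : ℝ) := by
  -- the constant
  set q : ℝ := β ^ (-θ) with hq
  have hβ0 : 0 < β := by linarith
  have hq0 : 0 < q := Real.rpow_pos_of_pos hβ0 _
  have hq1 : q < 1 := Real.rpow_lt_one_of_one_lt_of_neg hβ (by linarith)
  have hK : 0 < q / (1 - q) := div_pos hq0 (by linarith)
  set K : ℝ := 8 * C ^ 2 * (q / (1 - q)) with hKdef
  have hK0 : 0 < K := by positivity
  refine ⟨max 1 (K ^ (1 / θ)), le_max_left _ _, ?_⟩
  intro b0 hb0 k mL m n d W Tg o hreg hsmall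
  have hb1 : 1 ≤ b0 := (le_max_left _ _).trans hb0
  have hb00 : 0 < b0 := by linarith
  have hbK : C ^ 2 * b0 ^ (-θ) * (2 * (q / (1 - q))) ≤ 1 / 4 := by
    have h1 : K ≤ b0 ^ θ := by
      have h2 : K ^ (1 / θ) ≤ b0 := (le_max_right _ _).trans hb0
      have h3 := Real.rpow_le_rpow (Real.rpow_nonneg hK0.le _) h2 hθ.le
      rwa [← Real.rpow_mul hK0.le, one_div_mul_cancel hθ.ne', Real.rpow_one] at h3
    have h4 : 0 < b0 ^ θ := Real.rpow_pos_of_pos hb00 _
    rw [Real.rpow_neg hb00.le]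
    have h5 : C ^ 2 * (b0 ^ θ)⁻¹ * (2 * (q / (1 - q))) = K / 4 / b0 ^ θ := by
      rw [hKdef]
      field_simp
      ring
    rw [h5, div_le_iff₀ h4]
    linarith
  -- the number of half-edges
  set ℓ : ℝ := (Fintype.card (HE d) : ℝ) with hℓ
  have hℓs : ℓ = ∑ v, (d v : ℝ) := by
    rw [hℓ, card_HE]
    push_cast
    rfl
  have hn : 0 < (n : ℝ) := by
    have : 0 < n := lt_of_le_of_lt (Nat.zero_le _) o.2
    exact_mod_cast this
  have hℓ0 : 0 < ℓ := by
    have h1 := hreg.lower
    rw [← hℓs] at h1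
    have h2 : 0 < C * ℓ := lt_of_lt_of_le hn h1
    exact (mul_pos_iff_of_pos_left hC).1 h2
  have hνℓ : 0 < ν * ℓ := by positivity
  -- the sets of transits
  set bm : ℝ := b0 * β ^ (m + 1) with hbm
  have hbm0 : 0 < bm := by positivity
  set V : Finset (Fin n) := W ∪ Tg ∪ {o} with hV
  have hVc : (V.card : ℝ) ≤ W.card + Tg.card + 1 := by
    have h1 : V.card ≤ W.card + Tg.card + 1 := by
      refine (Finset.card_union_le _ _).trans ?_
      have := Finset.card_union_le W Tg
      simp only [Finset.card_singleton]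
      omega
    exact_mod_cast h1
  let b : ℕ → ℝ := fun t => b0 * min (β ^ (t + 1)) (β ^ (m - t))
  have hbpos : ∀ t, 0 < b t := fun t => by
    simp only [b]
    have := pow_pos hβ0 (t + 1)
    have := pow_pos hβ0 (m - t)
    positivity
  have hble : ∀ t, b t ≤ bm := by
    intro t
    simp only [b, hbm]
    refine mul_le_mul_of_nonneg_left ?_ hb00.le
    refine (min_le_right _ _).trans ?_
    exact pow_le_pow_right₀ hβ.le (by omega)
  let S : ℕ → Finset (HE d × HE d) := fun t =>
    (trs d).filter fun p => p.1.1 ∉ V ∧ (d p.1.1 : ℝ) ≤ b t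
  have hsub : cntF S m 0 ∅ ⊆ (listsOf (trs d) m).filter fun τ => GoodT W Tg o b0 β τ := by
    intro l hl
    obtain ⟨h1, _, h3, h4⟩ := cnt_mem hl
    have h5 : ∀ p ∈ l, p ∈ trs d ∧ p.1.1 ∉ V := by
      intro p hp
      obtain ⟨c, e, rfl⟩ := List.append_of_mem hp
      have := h4 c p e rfl
      simp only [S, Finset.mem_filter] at this
      exact ⟨this.1, this.2.1⟩
    rw [Finset.mem_filter, mem_listsOf]
    refine ⟨⟨h1, fun p hp => (h5 p hp).1⟩, ⟨fun p hp => (h5 p hp).1, h3, ?_, ?_⟩⟩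
    · intro p hp
      have := (h5 p hp).2
      simp only [hV, Finset.mem_union, Finset.mem_singleton, not_or] at this
      exact ⟨this.1.1, this.1.2, this.2⟩
    · intro c p e hce
      have h6 := h4 c p e hce
      simp only [S, Finset.mem_filter, zero_add] at h6
      have h7 := h6.2.2
      simp only [b] at h7
      have h8 : m - c.length = e.length + 1 := by
        rw [← h1, hce]
        simp only [List.length_append, List.length_cons]
        omega
      constructor
      · refine h7.trans ?_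
        exact mul_le_mul_of_nonneg_left (min_le_left _ _) hb00.le
      · refine h7.trans ?_
        rw [← h8]
        exact mul_le_mul_of_nonneg_left (min_le_right _ _) hb00.le
  refine le_trans ?_ (by exact_mod_cast Finset.card_le_card hsub :
    ((cntF S m 0 ∅).card : ℝ) ≤ _)
  -- natural number bound for the number of transits at a vertex
  set Bn : ℕ := ⌊bm ^ 2⌋₊ with hBn
  have hBnle : (Bn : ℝ) ≤ bm ^ 2 := Nat.floor_le (sq_nonneg _)
  have hBn' : ∀ i v, ((S i).filter fun p => p.1.1 = v).card ≤ Bn := by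
    intro i v
    rw [hBn]
    refine Nat.le_floor ?_
    have h1 : ((S i).filter fun p => p.1.1 = v) ⊆
        (trs d).filter fun p => p.1.1 ∈ ({v} : Finset (Fin n)) ∧ (d p.1.1 : ℝ) ≤ bm := by
      intro p hp
      simp only [S, Finset.mem_filter, Finset.mem_singleton] at hp ⊢
      exact ⟨hp.1.1, hp.2, hp.1.2.2.trans (hble i)⟩
    have h2 := cnt_few (d := d) bm {v}
    rw [Finset.card_singleton, Nat.cast_one, one_mul] at h2
    refine le_trans ?_ h2
    exact_mod_cast Finset.card_le_card h1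
  -- lower bound for the sizes
  set E : ℝ := (n : ℝ) ^ (-η) + ((W.card : ℝ) + Tg.card + 1 + m) * bm ^ 2 / (ν * ℓ) with hE
  have hE0 : 0 ≤ E := by
    have : 0 ≤ (n : ℝ) ^ (-η) := Real.rpow_nonneg hn.le _
    positivity
  let x : ℕ → ℝ := fun t => E + C ^ 2 * (b t) ^ (-θ)
  have hx0 : ∀ t, 0 ≤ x t := by
    intro t
    have : 0 ≤ (b t) ^ (-θ) := Real.rpow_nonneg (hbpos t).le _
    simp only [x]
    positivity
  have hsize : ∀ t, ν * ℓ * (1 - x t) ≤ ((S t).card : ℝ) - m * Bn := by
    intro t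
    have h1 : (trs d).card ≤ (S t).card +
        ((trs d).filter fun p => p.1.1 ∈ V ∧ (d p.1.1 : ℝ) ≤ bm).card +
        ((trs d).filter fun p => b t < (d p.1.1 : ℝ)).card := by
      have h2 : trs d ⊆ (S t ∪ ((trs d).filter fun p => p.1.1 ∈ V ∧ (d p.1.1 : ℝ) ≤ bm)) ∪
          ((trs d).filter fun p => b t < (d p.1.1 : ℝ)) := by
        intro p hp
        simp only [S, Finset.mem_union, Finset.mem_filter]
        by_cases h3 : b t < (d p.1.1 : ℝ)
        · exact Or.inr ⟨hp, h3⟩
        · left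
          have h3 := not_lt.1 h3
          by_cases h4 : p.1.1 ∈ V
          · exact Or.inr ⟨hp, h4, h3.trans (hble t)⟩
          · exact Or.inl ⟨hp, h4, h3⟩
      refine (Finset.card_le_card h2).trans ?_
      refine (Finset.card_union_le _ _).trans ?_
      have := Finset.card_union_le (S t)
        ((trs d).filter fun p => p.1.1 ∈ V ∧ (d p.1.1 : ℝ) ≤ bm)
      omega
    have h1' : ((trs d).card : ℝ) ≤ ((S t).card : ℝ) +
        (((trs d).filter fun p => p.1.1 ∈ V ∧ (d p.1.1 : ℝ) ≤ bm).card : ℝ) +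
        (((trs d).filter fun p => b t < (d p.1.1 : ℝ)).card : ℝ) := by
      exact_mod_cast h1
    have h2 := cnt_few (d := d) bm V
    have h3 := cnt_tail (d := d) θ (b t) (C * n) hθ (hbpos t) hreg.moment
    have h4 : ((trs d).card : ℝ) = ∑ v, (d v : ℝ) * ((d v : ℝ) - 1) := by
      rw [card_trs]
      rw [Nat.cast_sum]
      exact Finset.sum_congr rfl fun v _ => cnt_cast_sub (d v)
    have h5 := hreg.second
    rw [← h4, ← hℓs] at h5
    have h5' : ν * ℓ - ℓ * (n : ℝ) ^ (-η) ≤ ((trs d).card : ℝ) := by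
      have := (abs_le.1 h5).1
      linarith
    have h6 : (V.card : ℝ) * bm ^ 2 ≤ ((W.card : ℝ) + Tg.card + 1) * bm ^ 2 :=
      mul_le_mul_of_nonneg_right hVc (sq_nonneg _)
    have h7 : (m : ℝ) * Bn ≤ m * bm ^ 2 := mul_le_mul_of_nonneg_left hBnle (Nat.cast_nonneg _)
    have h8 : (b t) ^ (-θ) * (C * n) ≤ ν * ℓ * (C ^ 2 * (b t) ^ (-θ)) := by
      have h9 := hreg.lower
      rw [← hℓs] at h9
      have h10 : 0 ≤ (b t) ^ (-θ) := Real.rpow_nonneg (hbpos t).le _
      have h11 : (b t) ^ (-θ) * (C * n) ≤ (b t) ^ (-θ) * (C * (C * ℓ)) :=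
        mul_le_mul_of_nonneg_left (mul_le_mul_of_nonneg_left h9 hC.le) h10
      refine h11.trans ?_
      have h12 : 0 ≤ (b t) ^ (-θ) * (C * (C * ℓ)) := by positivity
      have h13 : ν * ℓ * (C ^ 2 * (b t) ^ (-θ)) = ν * ((b t) ^ (-θ) * (C * (C * ℓ))) := by ring
      rw [h13]
      nlinarith
    have h14 : ℓ * (n : ℝ) ^ (-η) ≤ ν * ℓ * (n : ℝ) ^ (-η) := by
      have h15 : 0 ≤ ℓ * (n : ℝ) ^ (-η) := mul_nonneg hℓ0.le (Real.rpow_nonneg hn.le _)
      nlinarith
    have h16 : ν * ℓ * (1 - x t) = ν * ℓ - ν * ℓ * (n : ℝ) ^ (-η) -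
        ((W.card : ℝ) + Tg.card + 1 + m) * bm ^ 2 - ν * ℓ * (C ^ 2 * (b t) ^ (-θ)) := by
      simp only [x, hE]
      have h17 : ν * ℓ * (((W.card : ℝ) + Tg.card + 1 + m) * bm ^ 2 / (ν * ℓ)) =
          ((W.card : ℝ) + Tg.card + 1 + m) * bm ^ 2 := by
        field_simp
      have h18 : ν * ℓ * (1 - ((n : ℝ) ^ (-η) +
          ((W.card : ℝ) + Tg.card + 1 + m) * bm ^ 2 / (ν * ℓ) + C ^ 2 * (b t) ^ (-θ))) =
          ν * ℓ - ν * ℓ * (n : ℝ) ^ (-η) -
          ν * ℓ * (((W.card : ℝ) + Tg.card + 1 + m) * bm ^ 2 / (ν * ℓ)) -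
          ν * ℓ * (C ^ 2 * (b t) ^ (-θ)) := by ring
      rw [h18, h17]
    rw [h16]
    nlinarith
  -- the sum of the errors
  have hxsum : ∑ t ∈ Finset.range m, x t ≤ 1 / 2 := by
    have h1 : ∀ t ∈ Finset.range m, (b t) ^ (-θ) ≤ b0 ^ (-θ) * (q ^ (t + 1) + q ^ (m - t)) := by
      intro t _
      simp only [b]
      rw [Real.mul_rpow hb00.le (le_min (pow_pos hβ0 _).le (pow_pos hβ0 _).le)]
      refine mul_le_mul_of_nonneg_left ?_ (Real.rpow_nonneg hb00.le _)
      have h2 : ∀ j : ℕ, (β ^ j) ^ (-θ) = q ^ j := by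
        intro j
        rw [hq, ← Real.rpow_natCast β j, ← Real.rpow_mul hβ0.le, mul_comm, Real.rpow_mul hβ0.le,
          Real.rpow_natCast]
      rcases min_choice (β ^ (t + 1)) (β ^ (m - t)) with h3 | h3
      · rw [h3, h2]
        have := pow_pos hq0 (m - t)
        linarith
      · rw [h3, h2]
        have := pow_pos hq0 (t + 1)
        linarith
    have h2 : ∑ t ∈ Finset.range m, (b t) ^ (-θ) ≤ b0 ^ (-θ) * (2 * (q / (1 - q))) := by
      refine (Finset.sum_le_sum h1).trans ?_
      rw [← Finset.mul_sum]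
      refine mul_le_mul_of_nonneg_left ?_ (Real.rpow_nonneg hb00.le _)
      rw [Finset.sum_add_distrib]
      have h3 := cnt_geom q hq0 hq1 m
      have h4 : ∑ t ∈ Finset.range m, q ^ (m - t) = ∑ t ∈ Finset.range m, q ^ (t + 1) := by
        rw [← Finset.sum_range_reflect]
        refine Finset.sum_congr rfl fun t ht => ?_
        rw [Finset.mem_range] at ht
        congr 1
        omega
      rw [h4]
      linarith
    have h5 : ∑ t ∈ Finset.range m, x t = m * E + C ^ 2 * ∑ t ∈ Finset.range m, (b t) ^ (-θ) := by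
      simp only [x]
      rw [Finset.sum_add_distrib, Finset.sum_const, Finset.card_range, nsmul_eq_mul,
        Finset.mul_sum]
    rw [h5]
    have h6 : C ^ 2 * ∑ t ∈ Finset.range m, (b t) ^ (-θ) ≤
        C ^ 2 * (b0 ^ (-θ) * (2 * (q / (1 - q)))) :=
      mul_le_mul_of_nonneg_left h2 (by positivity)
    have h7 : C ^ 2 * (b0 ^ (-θ) * (2 * (q / (1 - q)))) =
        C ^ 2 * b0 ^ (-θ) * (2 * (q / (1 - q))) := by ring
    rw [h7] at h6
    linarith
  -- truncation of the errors to have nonnegative factors everywhere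
  let y : ℕ → ℝ := fun t => if t < m then ν * ℓ * (1 - x t) else 0
  have hy0 : ∀ t, 0 ≤ y t := by
    intro t
    simp only [y]
    split_ifs with ht
    · have h1 : x t ≤ ∑ s ∈ Finset.range m, x s :=
        Finset.single_le_sum (fun s _ => hx0 s) (Finset.mem_range.2 ht)
      have h2 : 0 ≤ 1 - x t := by linarith
      positivity
    · exact le_refl _
  have hmain := cnt_card S Bn hBn' y hy0 m m 0 ∅ (by simp) (by
    intro t ht
    simp only [zero_add, y, if_pos ht]
    exact hsize t)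
  refine le_trans ?_ hmain
  have h1 : ∏ t ∈ Finset.range m, y (0 + t) = (ν * ℓ) ^ m * ∏ t ∈ Finset.range m, (1 - x t) := by
    have h2 : ∏ t ∈ Finset.range m, y (0 + t) = ∏ t ∈ Finset.range m, (ν * ℓ * (1 - x t)) := by
      refine Finset.prod_congr rfl fun t ht => ?_
      rw [Finset.mem_range] at ht
      simp only [zero_add, y, if_pos ht]
    rw [h2, Finset.prod_mul_distrib, Finset.prod_const, Finset.card_range]
  rw [h1]
  have h2 := cnt_prod x hx0 m (by linarith)
  have h3 : 1 / 2 ≤ ∏ t ∈ Finset.range m, (1 - x t) := by linarith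
  have h4 : 0 ≤ (ν * ℓ) ^ m := pow_nonneg hνℓ.le m
  have h5 := mul_le_mul_of_nonneg_left h3 h4
  linarith

end Pool.Agent.H86.CM
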