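import Pool.Agent.H86.CM.AsmB
import Pool.Agent.H86.CM.AsmC
import Pool.Agent.H86.CM.Count

/-!
# Assembly: the conditional estimate for fixed targets
-/

open MeasureTheory ProbabilityTheory Filter Topology

namespace Pool.Agent.H86.CM

variable {n : ℕ} {d : Fin n → ℕ}

/-- Consequences of regularity for the number of half-edges. -/
theorem reg_card {ν C θ η p : ℝ} {k mL : ℕ} (hC : 0 < C) (h : Reg ν C θ η p k mL d) :
    (n : ℝ) / C ≤ Fintype.card (HE d) ∧ (Fintype.card (HE d) : ℝ) ≤ C * n ∧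
      Even (Fintype.card (HE d)) := by
  have h1 : (Fintype.card (HE d) : ℝ) = ∑ v, (d v : ℝ) := by
    rw [card_HE]
    push_cast
    rfl
  refine ⟨?_, ?_, ?_⟩
  · rw [h1, div_le_iff₀ hC, mul_comm]
    exact h.lower
  · rw [h1]
    exact h.upper
  · rw [card_HE]
    exact h.even

/-- The maximal degree. -/
theorem reg_max {ν C θ η p : ℝ} {k mL : ℕ} (hθ : 0 < θ) (h : Reg ν C θ η p k mL d) (v : Fin n) :
    (d v : ℝ) ≤ (C * n) ^ (1 / (2 + θ)) := by
  have h1 : (d v : ℝ) ^ (2 + θ) ≤ C * n := by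
    refine le_trans ?_ h.moment
    exact Finset.single_le_sum (f := fun v => (d v : ℝ) ^ (2 + θ)) (fun v _ => by positivity)
      (Finset.mem_univ v)
  have h2 : (d v : ℝ) = ((d v : ℝ) ^ (2 + θ)) ^ (1 / (2 + θ)) := by
    rw [← Real.rpow_mul (Nat.cast_nonneg _), mul_one_div_cancel (by positivity), Real.rpow_one]
  rw [h2]
  exact Real.rpow_le_rpow (by positivity) h1 (by positivity)

theorem reg_trs {ν C θ η p : ℝ} {k mL : ℕ} (hν : 1 < ν) (h : Reg ν C θ η p k mL d) :
    ((trs d).card : ℝ) ≤ ν * Fintype.card (HE d) * (1 + (n : ℝ) ^ (-η)) := by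
  have h1 : (Fintype.card (HE d) : ℝ) = ∑ v, (d v : ℝ) := by
    rw [card_HE]
    push_cast
    rfl
  have h2 : ((trs d).card : ℝ) = ∑ v, (d v : ℝ) * ((d v : ℝ) - 1) := by
    rw [card_trs]
    push_cast
    refine Finset.sum_congr rfl fun v _ => ?_
    rcases Nat.eq_zero_or_pos (d v) with h0 | h0
    · simp [h0]
    · rw [Nat.cast_sub h0]
      simp
  have h3 := h.second
  rw [← h2, ← h1, abs_le] at h3
  have h4 : (0 : ℝ) ≤ Fintype.card (HE d) := Nat.cast_nonneg _
  have h5 : (0 : ℝ) ≤ (n : ℝ) ^ (-η) := by positivity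
  nlinarith [h3.2, mul_nonneg h4 h5, mul_nonneg (mul_nonneg h4 h5) (sub_nonneg.2 hν.le)]

theorem asm_nums {ν C θ η p ε1 : ℝ} {k mL : ℕ} (m Nm : ℕ) (hν : 1 < ν) (hC : 0 < C)
    (hε : 0 < ε1) (hε1 : ε1 ≤ 1) (h : Reg ν C θ η p k mL d)
    (h3 : 8 * ((Nm : ℝ) + 1) * (m + Nm + 1) ≤ ε1 * (n / C))
    (h4 : (Nm : ℝ) * (n : ℝ) ^ (-η) ≤ 1 / 2) : Nums ν d m Nm ε1 := by
  obtain ⟨c1, c2, c3⟩ := reg_card hC h
  have h5 : 8 * ((Nm : ℝ) + 1) * (m + Nm + 1) ≤ ε1 * Fintype.card (HE d) :=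
    h3.trans (mul_le_mul_of_nonneg_left c1 hε.le)
  have hNm : (0 : ℝ) ≤ Nm := Nat.cast_nonneg _
  have hm : (0 : ℝ) ≤ m := Nat.cast_nonneg _
  have hpos : (0 : ℝ) < Fintype.card (HE d) := by
    by_contra hcon
    rw [not_lt] at hcon
    have h0 : (Fintype.card (HE d) : ℝ) = 0 := le_antisymm hcon (Nat.cast_nonneg _)
    rw [h0, mul_zero] at h5
    nlinarith [mul_nonneg hNm hm, mul_nonneg hNm hNm]
  refine ⟨?_, ?_, ?_, ?_, c3⟩
  · intro N hN
    refine kap_upper _ ε1 m N hε hε1 (le_trans ?_ h5)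
    have : (N : ℝ) ≤ Nm := by exact_mod_cast hN
    gcongr
  · intro N hN
    refine kap_lower _ m N ?_
    have h6 : (N : ℝ) ≤ Nm := by exact_mod_cast hN
    have h7 : ε1 * (Fintype.card (HE d) : ℝ) ≤ 1 * Fintype.card (HE d) := by gcongr
    nlinarith [mul_nonneg hNm hm, mul_nonneg hNm hNm]
  · intro N hN
    have h6 : (N : ℝ) ≤ Nm := by exact_mod_cast hN
    have h7 := reg_trs hν h
    have h8 : (0 : ℝ) ≤ (n : ℝ) ^ (-η) := by positivity
    calc ((trs d).card : ℝ) ^ N ≤ (ν * Fintype.card (HE d) * (1 + (n : ℝ) ^ (-η))) ^ N := by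
          gcongr
      _ = (ν * Fintype.card (HE d)) ^ N * (1 + (n : ℝ) ^ (-η)) ^ N := by rw [mul_pow]
      _ ≤ (ν * Fintype.card (HE d)) ^ N * 2 := by
          gcongr
          calc (1 + (n : ℝ) ^ (-η)) ^ N ≤ (Real.exp ((n : ℝ) ^ (-η))) ^ N := by
                gcongr
                rw [add_comm]
                exact Real.add_one_le_exp _
            _ = Real.exp (N * (n : ℝ) ^ (-η)) := by rw [← Real.exp_nat_mul]
            _ ≤ Real.exp (1 / 2) := by
                refine Real.exp_le_exp.2 (le_trans ?_ h4)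
                gcongr
            _ ≤ 2 := by
                have h9 := Real.exp_one_lt_d9
                have h10 : Real.exp (1 / 2) ^ 2 = Real.exp 1 := by
                  rw [← Real.exp_nat_mul]
                  norm_num
                have h11 := Real.exp_pos (1 / 2 : ℝ)
                nlinarith
      _ = 2 * (ν * Fintype.card (HE d)) ^ N := by ring
  · exact_mod_cast hpos

/-- Constants of the renewal-type estimates, uniform in the colour. -/
theorem asm_consts (I : Bool → Measure ℝ) [∀ c, IsProbabilityMeasure (I c)] (ν α : ℝ)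
    (hν : 1 < ν) (hat : ∀ c x, I c {x} = 0) (hneg : ∀ c, I c (Set.Iio 0) = 0)
    (hmal : ∀ c, IsMalthusian ν (I c) α) :
    ∃ CA cA A b Ct Ct' : ℝ, 0 < CA ∧ 0 < cA ∧ 1 ≤ A ∧ 0 < b ∧ b * A / α ≤ 1 / 16 ∧
      0 < Ct ∧ 0 < Ct' ∧
      (∀ (c : Bool) (t : ℝ) (N : ℕ), ∑ k ∈ Finset.range N, ν ^ k * cdfPow (I c) k t ≤
        CA * Real.exp (α * t)) ∧
      (∀ (c : Bool) (t : ℝ) (N : ℕ), 0 ≤ t → A * (t + 1) ≤ N →
        cA * Real.exp (α * t) ≤ ∑ k ∈ Finset.range N, ν ^ k * cdfPow (I c) k t) ∧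
      (∀ (c : Bool) (t : ℝ) (k : ℕ), 0 ≤ t → A * (t + 1) ≤ k →
        ν ^ k * cdfPow (I c) k t ≤ Real.exp (-t)) ∧
      (∀ (c : Bool) (T : ℝ) (N : ℕ),
        ∑ j ∈ Finset.range N, ∑ l ∈ Finset.range N, ∑ i ∈ Finset.range N,
          ∑ m ∈ Finset.range N,
          ν ^ (j + l + i + m) * Real.exp b ^ (j + l) *
            ∫ x, cdfPow (I c) i (T - x) * cdfPow (I c) m (T - x) ∂(convPow (I c) (j + l)) ≤
        Ct * Real.exp (2 * α * T)) ∧
      (∀ (c : Bool) (T t0 : ℝ) (N : ℕ), 0 ≤ T → 0 ≤ t0 →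
        ∑ j ∈ Finset.range N, ∑ l ∈ Finset.range N, ∑ m ∈ Finset.range N,
          ν ^ (j + l + m) * Real.exp b ^ l *
            ∫ z, ∫ x in Set.Iic (T - z), cdfPow (I (!c)) m (t0 + x) ∂(convPow (I c) j)
              ∂(convPow (I c) l) ≤
        Ct' * Real.exp (α * t0) * Real.exp (2 * α * T)) := by
  have hα : 0 < α := (hmal true).1
  have hpos : ∀ c, I c (Set.Iic 0) = 0 := by
    intro c
    have h1 : Set.Iic (0 : ℝ) = Set.Iio 0 ∪ {0} := by
      ext x
      simp [le_iff_lt_or_eq]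
    rw [h1]
    refine le_antisymm ((measure_union_le _ _).trans ?_) bot_le
    rw [hneg c, hat c 0]
    simp
  have hm : ∀ c, ν * ∫ x, Real.exp (-(α * x)) ∂(I c) = 1 := fun c => (hmal c).2
  choose CA hCA0 hCA using fun c => cdfPow_sum_upper (I c) (hpos c) (hat c) ν α hν hα (hm c)
  choose cA AA hcA0 hAA0 hcA using fun c => cdfPow_sum_lower (I c) (hpos c) (hat c) ν α hν hα (hm c)
  choose AL hAL0 hAL using fun c => cdfPow_long (I c) (hpos c) ν hν
  have hlap := fun c => laplace_two (I c) (hpos c) ν α hν hα (hm c)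
  set A : ℝ := 1 + AA true + AA false + AL true + AL false with hA
  have hA1 : 1 ≤ A := by
    have := hAA0 true
    have := hAA0 false
    have := hAL0 true
    have := hAL0 false
    linarith
  have hAAle : ∀ c, AA c ≤ A := by
    intro c
    have := hAA0 true
    have := hAA0 false
    have := hAL0 true
    have := hAL0 false
    cases c <;> linarith
  have hALle : ∀ c, AL c ≤ A := by
    intro c
    have := hAA0 true
    have := hAA0 false
    have := hAL0 true
    have := hAL0 false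
    cases c <;> linarith
  -- the growth factor
  obtain ⟨b, hb0, hb1, hb2⟩ : ∃ b : ℝ, 0 < b ∧ b * A / α ≤ 1 / 16 ∧
      ∀ c, Real.exp b * (ν * ∫ x, Real.exp (-(2 * α * x)) ∂(I c)) < 1 := by
    have h1 : ∀ c, ∀ᶠ b : ℝ in 𝓝[>] 0,
        Real.exp b * (ν * ∫ x, Real.exp (-(2 * α * x)) ∂(I c)) < 1 := by
      intro c
      have h2 : Tendsto (fun b : ℝ => Real.exp b * (ν * ∫ x, Real.exp (-(2 * α * x)) ∂(I c)))
          (𝓝[>] 0) (𝓝 (Real.exp 0 * (ν * ∫ x, Real.exp (-(2 * α * x)) ∂(I c)))) :=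
        ((Real.continuous_exp.tendsto 0).mono_left nhdsWithin_le_nhds).mul_const _
      refine h2.eventually (gt_mem_nhds ?_)
      rw [Real.exp_zero, one_mul]
      exact hlap c
    have h3 : ∀ᶠ b : ℝ in 𝓝[>] 0, b * A / α ≤ 1 / 16 := by
      have h4 : Tendsto (fun b : ℝ => b * A / α) (𝓝[>] 0) (𝓝 (0 * A / α)) :=
        ((tendsto_id.mono_left nhdsWithin_le_nhds).mul_const A).div_const α
      have h5 := h4.eventually (gt_mem_nhds (show 0 * A / α < 1 / 16 by simp))
      exact h5.mono fun b hb => hb.le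
    have h6 : ∀ᶠ b : ℝ in 𝓝[>] 0, 0 < b := self_mem_nhdsWithin
    obtain ⟨b, hb⟩ := ((h1 true).and ((h1 false).and (h3.and h6))).exists
    refine ⟨b, hb.2.2.2, hb.2.2.1, ?_⟩
    intro c
    cases c
    · exact hb.2.1
    · exact hb.1
  have hβ : 1 ≤ Real.exp b := Real.one_le_exp hb0.le
  choose Ct hCt0 hCt using fun c => tight_sum (I c) (hpos c) (hat c) ν α (Real.exp b) hν hα (hm c)
    hβ (hb2 c)
  choose Ct' hCt0' hCt' using fun c => tight_sum_other (I c) (I (!c)) (hpos c) (hat c) (hpos _)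
    (hat _) ν α (Real.exp b) hν hα (hm c) (hm _) hβ (hb2 c)
  refine ⟨CA true + CA false, min (cA true) (cA false), A, b, Ct true + Ct false,
    Ct' true + Ct' false, add_pos (hCA0 _) (hCA0 _), lt_min (hcA0 _) (hcA0 _), hA1, hb0, hb1,
    add_pos (hCt0 _) (hCt0 _), add_pos (hCt0' _) (hCt0' _), ?_, ?_, ?_, ?_, ?_⟩
  · intro c t N
    refine (hCA c t N).trans ?_
    refine mul_le_mul_of_nonneg_right ?_ (Real.exp_pos _).le
    have := hCA0 true
    have := hCA0 false
    cases c <;> linarith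
  · intro c t N ht hN
    refine le_trans ?_ (hcA c t N ht (le_trans ?_ hN))
    · refine mul_le_mul_of_nonneg_right ?_ (Real.exp_pos _).le
      cases c
      · exact min_le_right _ _
      · exact min_le_left _ _
    · exact mul_le_mul_of_nonneg_right (hAAle c) (by linarith)
  · intro c t N ht hN
    refine hAL c t N ht (le_trans ?_ hN)
    exact mul_le_mul_of_nonneg_right (hALle c) (by linarith)
  · intro c T N
    refine (hCt c T N).trans ?_
    refine mul_le_mul_of_nonneg_right ?_ (Real.exp_pos _).le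
    have := hCt0 true
    have := hCt0 false
    cases c <;> linarith
  · intro c T t0 N hT ht0
    refine (hCt' c T t0 N hT ht0).trans ?_
    refine mul_le_mul_of_nonneg_right ?_ (Real.exp_pos _).le
    refine mul_le_mul_of_nonneg_right ?_ (Real.exp_pos _).le
    have := hCt0' true
    have := hCt0' false
    cases c <;> linarith

end Pool.Agent.H86.CM
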