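import Pool.Agent.H86.CM.AsmD

/-!
# The conditional estimate for fixed targets
-/

open MeasureTheory ProbabilityTheory Filter Topology

namespace Pool.Agent.H86.CM

variable {n : ℕ} {d : Fin n → ℕ}

theorem cdfPow_le_one (μ : Measure ℝ) [IsProbabilityMeasure μ] (k : ℕ) (t : ℝ) :
    cdfPow μ k t ≤ 1 := by
  unfold cdfPow
  exact measureReal_le_one

theorem cdfPow_nonneg (μ : Measure ℝ) (k : ℕ) (t : ℝ) : 0 ≤ cdfPow μ k t := by
  unfold cdfPow
  exact measureReal_nonneg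

open Classical in
/-- First moment lower bound in the final form. -/
theorem asm_first (I : Bool → Measure ℝ) [∀ c, IsProbabilityMeasure (I c)]
    (ν C θ η p α b b0 cA A ε1 T : ℝ) (k mL m M L KK : ℕ) (hν : 1 < ν) (hC : 0 < C)
    (hε1 : 0 ≤ ε1) (hcA0 : 0 < cA) (hb : 0 ≤ b) (hb00 : 0 ≤ b0)
    (hreg : Reg ν C θ η p k mL d) (c : Bool) (u o : Fin n) (γ : List (HE d))
    (hγ : nice u o γ) (hlen : γ.length = m) (Tg : Finset (Fin n)) (hTgc : Tg.card = L)
    (hTgk : ∀ v ∈ Tg, d v = k) (hTg : ∀ v ∈ Tg, v ∉ (exRun u γ).vis) (ho : o ∉ Tg)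
    (hN : Nums ν d m (3 * KK) ε1) (hT : 0 ≤ T)
    (hcA : ∀ (t : ℝ) (N : ℕ), 0 ≤ t → A * (t + 1) ≤ N →
        cA * Real.exp (α * t) ≤ ∑ k ∈ Finset.range N, ν ^ k * cdfPow (I c) k t)
    (hAT : A * (T + 1) ≤ KK) (h2 : 2 ≤ cA * Real.exp (α * T))
    (hcount : ∀ (m' : ℕ) (W : Finset (Fin n)),
      (m' : ℝ) * ((n : ℝ) ^ (-η) +
      ((W.card : ℝ) + Tg.card + 1 + m') * (b0 * Real.exp b ^ (m' + 1)) ^ 2 /
        (ν * (Fintype.card (HE d) : ℝ))) ≤ 1 / 4 →
      (ν * (Fintype.card (HE d) : ℝ)) ^ m' / 2 ≤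
      (((listsOf (trs d) m').filter fun τ => GoodT W Tg o b0 (Real.exp b) τ).card : ℝ))
    (h4 : (KK : ℝ) * (n : ℝ) ^ (-η) ≤ 1 / 8)
    (h5 : (KK : ℝ) * (((m + L + 2 : ℝ) + KK) * (b0 * Real.exp b ^ KK) ^ 2 / (ν * (n / C))) ≤ 1 / 8)
    (hn : 1 ≤ n)
    (X : Finset (HE d)) (hXc : X.card = M) (hX : ∀ x ∈ X, x ∈ (exRun u γ).act) :
    (M : ℝ) * L * (k * cA / (4 * ν)) * (Real.exp (α * T) / Fintype.card (HE d)) ≤
      ∑ B ∈ goodB d (exRun u γ).vis.toFinset X Tg o b0 (Real.exp b) KK,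
          (PA d I (exRun u γ).A).real (okEv c T B) := by
  obtain ⟨f1, f2, f3, f4, f5, f6, f7, f8, f9, f10⟩ := ex_facts _ _ γ hγ
  have hs := asm_scene _ _ γ hγ X hX Tg hTg ho
  obtain ⟨r1, r2, r3⟩ := reg_card hC hreg
  have hℓ : (0 : ℝ) < Fintype.card (HE d) := by exact_mod_cast hN.pos
  have hn' : (0 : ℝ) < n := by exact_mod_cast hn
  have hWc : ((exRun u γ).vis.toFinset.card : ℝ) = m + 1 := by
    rw [List.toFinset_card_of_nodup f9, f8, hlen]
    push_cast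
    rfl
  have hfb := first_bound (A := (exRun u γ).A) (W := (exRun u γ).vis.toFinset) (X := X) (Tg := Tg)
    (o := o) I ν (Real.exp b) b0 ε1 k KK c T hν hε1 hs hTgk (by rw [f2, hlen]; exact hN) ?_
  swap
  · intro m' hm'
    refine hcount m' _ ?_
    have hm1 : (m' : ℝ) ≤ KK := by exact_mod_cast hm'.le
    have hm2 : Real.exp b ^ (m' + 1) ≤ Real.exp b ^ KK :=
      pow_le_pow_right₀ (Real.one_le_exp hb) hm'
    rw [hWc, hTgc]
    have hX1 : ((m : ℝ) + 1 + L + 1 + m') * (b0 * Real.exp b ^ (m' + 1)) ^ 2 /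
        (ν * (Fintype.card (HE d) : ℝ)) ≤
        ((m + L + 2 : ℝ) + KK) * (b0 * Real.exp b ^ KK) ^ 2 / (ν * (n / C)) := by
      have e1 : ((m : ℝ) + 1 + L + 1 + m') ≤ (m + L + 2 : ℝ) + KK := by linarith
      gcongr
    calc (m' : ℝ) * ((n : ℝ) ^ (-η) + ((m : ℝ) + 1 + L + 1 + m') *
          (b0 * Real.exp b ^ (m' + 1)) ^ 2 / (ν * (Fintype.card (HE d) : ℝ)))
        ≤ (KK : ℝ) * ((n : ℝ) ^ (-η) +
          ((m + L + 2 : ℝ) + KK) * (b0 * Real.exp b ^ KK) ^ 2 / (ν * (n / C))) := by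
          gcongr
      _ ≤ 1 / 4 := by
          rw [mul_add]
          linarith
  · refine le_trans ?_ hfb
    rw [hXc, hTgc]
    have hsum : cA / 2 * Real.exp (α * T) ≤
        ∑ m ∈ Finset.range KK, ν ^ (m + 1) * cdfPow (I c) (m + 1) T := by
      have h6 := hcA T (KK + 1) hT (by push_cast; linarith)
      rw [Finset.sum_range_succ'] at h6
      have h7 := cdfPow_le_one (I c) 0 T
      simp only [pow_zero, one_mul] at h6
      linarith
    have hfac : 0 ≤ (M : ℝ) * L * (k / (2 * ν * (Fintype.card (HE d) : ℝ))) := by positivity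
    calc (M : ℝ) * L * (k * cA / (4 * ν)) * (Real.exp (α * T) / Fintype.card (HE d))
        = (M : ℝ) * L * (k / (2 * ν * (Fintype.card (HE d) : ℝ))) *
          (cA / 2 * Real.exp (α * T)) := by
          field_simp
          ring
      _ ≤ _ := mul_le_mul_of_nonneg_left hsum hfac

theorem core_target (I : Bool → Measure ℝ) [∀ c, IsProbabilityMeasure (I c)]
    (ν C θ η p α : ℝ) (k : ℕ) (hν : 1 < ν) (hC : 0 < C) (hθ : 0 < θ) (hη : 0 < η)
    (hk : 1 ≤ k) (hat : ∀ c x, I c {x} = 0) (hneg : ∀ c, I c (Set.Iio 0) = 0)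
    (hmal : ∀ c, IsMalthusian ν (I c) α) : CoreTarget I ν C θ η p k := by
  obtain ⟨CA, cA, A, b, Ct, Ct', hCA0, hcA0, hA1, hb, hbA, hCt0, hCt0', hCA, hcA, hAL, hCt,
    hCt'⟩ := asm_consts I ν α hν hat hneg hmal
  have hα : 0 < α := (hmal true).1
  have hν0 : 0 < ν := by linarith
  have hβ : 1 < Real.exp b := by
    rw [← Real.exp_zero]
    exact Real.exp_lt_exp.2 hb
  obtain ⟨b1, hb11, hb1⟩ := goodT_count ν C θ η p (Real.exp b) hν hC hθ hη hβ
  have hkr : (1 : ℝ) ≤ k := by exact_mod_cast hk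
  set b0 : ℝ := max b1 k with hb0d
  have hb0k : (k : ℝ) ≤ b0 := le_max_right _ _
  have hb0b : b1 ≤ b0 := le_max_left _ _
  have hb0 : 1 ≤ b0 := hkr.trans hb0k
  set c1 : ℝ := k * cA / (4 * ν) with hc1d
  have hc1 : 0 < c1 := by positivity
  intro ε hε
  set ε1 : ℝ := min (ε / 32) 1 with hε1d
  have hε10 : 0 < ε1 := lt_min (by positivity) one_pos
  have hε11 : ε1 ≤ 1 := min_le_right _ _
  have hε12 : ε1 ≤ ε / 32 := min_le_left _ _
  set C2 : ℝ := 4 * k ^ 2 * b0 ^ 2 / ν ^ 2 * Ct with hC2d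
  have hC20 : 0 < C2 := by positivity
  obtain ⟨M, hM1, hM⟩ : ∃ M : ℕ, 1 ≤ M ∧ 12 * C2 / (c1 ^ 2 * M) ≤ ε / 8 := by
    obtain ⟨M, hM⟩ := exists_nat_ge (12 * C2 / c1 ^ 2 * (8 / ε) + 1)
    have hpos : 0 < 12 * C2 / c1 ^ 2 * (8 / ε) := by positivity
    have hM0 : (1 : ℝ) ≤ M := by linarith
    refine ⟨M, by exact_mod_cast hM0, ?_⟩
    have h1 : 12 * C2 / c1 ^ 2 * (8 / ε) ≤ M := by linarith
    have h2 : 12 * C2 / (c1 ^ 2 * M) = (12 * C2 / c1 ^ 2 * (8 / ε)) * (ε / 8) / M := by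
      field_simp
    rw [h2, div_le_iff₀ (by linarith)]
    rw [mul_comm]
    exact mul_le_mul_of_nonneg_left h1 (by positivity)
  refine ⟨M, ?_⟩
  intro m x hx
  set t0 : ℝ := m * x with ht0d
  have ht0 : 0 ≤ t0 := by positivity
  set C5 : ℝ := 4 * k * b0 / ν ^ 2 * Ct' * Real.exp (α * t0) with hC5d
  have hC50 : 0 < C5 := by positivity
  obtain ⟨K, hK0, hK⟩ : ∃ K : ℝ, 0 ≤ K ∧ 2 * C5 * (C * Real.exp (-(α * K))) / c1 ≤ ε / 8 := by
    have h1 : Tendsto (fun K : ℝ => 2 * C5 * (C * Real.exp (-(α * K))) / c1) atTop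
        (𝓝 (2 * C5 * (C * 0) / c1)) := by
      refine Tendsto.div_const (Tendsto.const_mul _ (Tendsto.const_mul _ ?_)) _
      exact Real.tendsto_exp_neg_atTop_nhds_zero.comp (tendsto_id.const_mul_atTop hα)
    have h2 := h1.eventually (gt_mem_nhds (show 2 * C5 * (C * 0) / c1 < ε / 8 by
      simp only [mul_zero, zero_div]; positivity))
    obtain ⟨K, hK1, hK2⟩ := (h2.and (eventually_ge_atTop 0)).exists
    exact ⟨K, hK2, hK1.le⟩
  set S : ℝ := K + t0 with hSd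
  have hS0 : 0 ≤ S := by positivity
  have hΛ0 : 0 < Real.exp (-(α * S)) / C := by positivity
  obtain ⟨L, hL1, hLM, hL⟩ : ∃ L : ℕ, 1 ≤ L ∧ M ≤ L ∧
      4 / (L * c1 * (Real.exp (-(α * S)) / C)) ≤ ε / 8 := by
    obtain ⟨L, hL⟩ := exists_nat_ge (4 / (c1 * (Real.exp (-(α * S)) / C)) * (8 / ε) + 1 + M)
    have hpos : 0 < 4 / (c1 * (Real.exp (-(α * S)) / C)) * (8 / ε) := by positivity
    have hMr : (0 : ℝ) ≤ M := Nat.cast_nonneg _
    have hL0 : (1 : ℝ) ≤ L := by linarith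
    have hL2 : (M : ℝ) ≤ L := by linarith
    refine ⟨L, by exact_mod_cast hL0, by exact_mod_cast hL2, ?_⟩
    have h1 : 4 / (c1 * (Real.exp (-(α * S)) / C)) * (8 / ε) ≤ L := by linarith
    have h2 : 4 / (L * c1 * (Real.exp (-(α * S)) / C)) =
        (4 / (c1 * (Real.exp (-(α * S)) / C)) * (8 / ε)) * (ε / 8) / L := by
      field_simp
    rw [h2, div_le_iff₀ (by linarith)]
    rw [mul_comm]
    exact mul_le_mul_of_nonneg_left h1 (by positivity)
  have hA0 : 0 < A := by linarith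
  have ev := (asm_ev1 α S hα).and ((asm_ev2 (cA * Real.exp (-(α * S))) 2 (by positivity)).and
    ((asm_ev3 A α hA0 hα m ε1 C hε10 hC).and ((asm_ev4 A α hA0 hα η hη (1 / 8) (by norm_num)).and
    ((asm_ev5 A α b hA0 hα hb.le hbA b0 (m + L + 2) ν C hν0 (1 / 8) (by norm_num)).and
    ((asm_ev6 A α b hA0 hα hb.le hbA b0 (M + L * k) (8 * (4 * k / ν ^ 3 * CA ^ 2)) C c1 (ε / 8)
      (by positivity)).and ((asm_ev7 α K (ε / 8) hα (by positivity)).and
    ((asm_ev8 θ C (4 * (m + 1) * CA * Real.exp (α * t0)) hθ hC (ε / 8) (by positivity)).and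
    (eventually_ge_atTop 1))))))))
  obtain ⟨N, hN⟩ := eventually_atTop.1 ev
  refine ⟨L, N, ?_⟩
  intro n hn d mL hreg s c γ hγ Tg hTgc hTgk hTg ho
  obtain ⟨e1, e2, e3, e4, e5, e6, e7, e8, e9⟩ := hN n hn
  set KK := kkFun A α n with hKKd
  set T : ℝ := Real.log n / α - S with hTd
  have hn' : (0 : ℝ) < n := by exact_mod_cast e9
  obtain ⟨r1, r2, r3⟩ := reg_card hC hreg
  have hnums : Nums ν d m (3 * KK) ε1 := by
    refine asm_nums m (3 * KK) hν hC hε10 hε11 hreg e3 ?_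
    push_cast
    linarith
  have hℓ : (0 : ℝ) < Fintype.card (HE d) := by exact_mod_cast hnums.pos
  have hexp : Real.exp (α * T) = n * Real.exp (-(α * S)) := by
    rw [hTd, mul_sub, mul_div_cancel₀ _ hα.ne', sub_eq_add_neg, Real.exp_add,
      Real.exp_log hn']
  have hΛup : Real.exp (α * T) / Fintype.card (HE d) ≤ C * Real.exp (-(α * S)) := by
    rw [hexp, div_le_iff₀ hℓ]
    have : (n : ℝ) ≤ C * Fintype.card (HE d) := by
      rw [div_le_iff₀ hC] at r1
      linarith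
    calc (n : ℝ) * Real.exp (-(α * S)) ≤ C * Fintype.card (HE d) * Real.exp (-(α * S)) := by
          gcongr
      _ = _ := by ring
  have hΛlow : Real.exp (-(α * S)) / C ≤ Real.exp (α * T) / Fintype.card (HE d) := by
    rw [hexp, div_le_div_iff₀ hC hℓ]
    calc Real.exp (-(α * S)) * Fintype.card (HE d) ≤ Real.exp (-(α * S)) * (C * n) := by gcongr
      _ = _ := by ring
  have hΛpos : 0 < Real.exp (α * T) / (Fintype.card (HE d) : ℝ) := by positivity
  have hMr : (1 : ℝ) ≤ M := by exact_mod_cast hM1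
  have hLr : (1 : ℝ) ≤ L := by exact_mod_cast hL1
  have hLMr : (M : ℝ) ≤ L := by exact_mod_cast hLM
  have hmem := hγ
  unfold goodHist at hmem
  simp only [Finset.mem_filter, mem_listsOf] at hmem
  obtain ⟨⟨hlen, -⟩, hnice, -⟩ := hmem
  obtain ⟨f1, f2, f3, f4, f5, f6, f7, f8, f9, f10⟩ := ex_facts _ _ γ hnice
  have hkk := kk_ge A α n
  rw [← hKKd] at hkk
  have hlog : 0 ≤ Real.log n / α := by
    have := Real.log_natCast_nonneg n
    positivity
  refine core_bound I hneg s c γ m M L k KK x hx hγ Tg hTgc hTgk hTg ho ν α (Real.exp b) b0 ε ε1 T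
    CA Ct Ct' c1 e1 hν hβ.le hb0k hk hM1 hL1 (by rw [hKKd]; unfold kkFun; omega) hε hε10.le hε11
    hc1 hnums hCA hCt hCt' hCt0.le hCt0'.le hCA0.le ?_ ?_ ?_ ?_ ?_ ?_ ?_ ?_
  · -- first moment
    intro X hXc hX
    refine asm_first I ν C θ η p α b b0 cA A ε1 T k mL m M L KK hν hC hε10.le hcA0 hb.le
      (by linarith) hreg c (s.1 c) (s.1 !c) γ hnice hlen Tg hTgc hTgk hTg ho hnums e1 (hcA c) ?_ ?_
      (fun m' W => hb1 b0 hb0b k mL m' n d W Tg (s.1 !c) hreg) e4 e5 e9 X hXc hX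
    · refine le_trans ?_ hkk
      refine mul_le_mul_of_nonneg_left ?_ hA0.le
      rw [hTd]
      linarith
    · rw [hexp]
      linarith
  · linarith
  · refine le_trans ?_ hL
    have h1 : (L : ℝ) * c1 * (Real.exp (-(α * S)) / C) ≤
        M * L * c1 * (Real.exp (α * T) / Fintype.card (HE d)) := by
      calc (L : ℝ) * c1 * (Real.exp (-(α * S)) / C)
          ≤ L * c1 * (Real.exp (α * T) / Fintype.card (HE d)) := by gcongr
        _ = 1 * (L * c1 * (Real.exp (α * T) / Fintype.card (HE d))) := by ring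
        _ ≤ M * (L * c1 * (Real.exp (α * T) / Fintype.card (HE d))) := by gcongr
        _ = _ := by ring
    gcongr
  · refine le_trans ?_ hM
    rw [div_le_div_iff₀ (by positivity) (by positivity)]
    have h1 : (M : ℝ) + L + 1 ≤ 3 * L := by linarith
    calc 4 * C2 * ((M : ℝ) + L + 1) * (c1 ^ 2 * M) ≤ 4 * C2 * (3 * L) * (c1 ^ 2 * M) := by gcongr
      _ = 12 * C2 * (M * L * c1 ^ 2) := by ring
  · refine le_trans ?_ e6
    have h1 : Real.exp (α * T) / Fintype.card (HE d) ≤ C := by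
      refine hΛup.trans ?_
      have : Real.exp (-(α * S)) ≤ 1 := by
        rw [Real.exp_le_one_iff]
        have : 0 ≤ α * S := by positivity
        linarith
      nlinarith
    have h2 : c1 * (n / C) ≤ c1 * Fintype.card (HE d) := mul_le_mul_of_nonneg_left r1 hc1.le
    gcongr
  · refine le_trans ?_ hK
    have h1 : Real.exp (α * T) / Fintype.card (HE d) ≤ C * Real.exp (-(α * K)) := by
      refine hΛup.trans ?_
      refine mul_le_mul_of_nonneg_left (Real.exp_le_exp.2 ?_) hC.le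
      have : 0 ≤ α * t0 := by positivity
      rw [hSd, mul_add]
      linarith
    gcongr
  · refine le_trans ?_ e7
    have h1 : (m : ℝ) * x + T = Real.log n / α - K := by
      rw [hTd, hSd, ← ht0d]
      ring
    have h2 : (0 : ℝ) ≤ m * x + T := by
      rw [← ht0d]
      linarith
    have h3 := hAL (!c) (m * x + T) (KK + 1) h2 (by
      push_cast
      have : A * (m * x + T + 1) ≤ A * (Real.log n / α + 2) :=
        mul_le_mul_of_nonneg_left (by rw [h1]; linarith) hA0.le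
      linarith)
    rw [← h1]
    linarith
  · refine le_trans ?_ e8
    have h1 : (∑ v ∈ (exRun (s.1 c) γ).vis.toFinset, d v : ℝ) ≤
        (m + 1) * (C * n) ^ (1 / (2 + θ)) := by
      calc (∑ v ∈ (exRun (s.1 c) γ).vis.toFinset, d v : ℝ)
          ≤ ∑ v ∈ (exRun (s.1 c) γ).vis.toFinset, (C * n) ^ (1 / (2 + θ)) :=
            Finset.sum_le_sum fun v _ => reg_max hθ hreg v
        _ = _ := by
            rw [Finset.sum_const, List.toFinset_card_of_nodup f9, f8, hlen, nsmul_eq_mul]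
            push_cast
            rfl
    have h3 : 4 * (∑ v ∈ (exRun (s.1 c) γ).vis.toFinset, d v : ℝ) / Fintype.card (HE d) * CA *
        Real.exp (α * (m * x)) ≤
        4 * ((m + 1) * (C * n) ^ (1 / (2 + θ))) / (n / C) * CA * Real.exp (α * t0) := by
      rw [← ht0d]
      gcongr
    refine h3.trans (le_of_eq ?_)
    ring

end Pool.Agent.H86.CM
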