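import Pool.Agent.H86.CM.Walks

/-!
# Chains of half-edges: configurations of walks and their number
-/

namespace Pool.Agent.H86.CM

section ListsOf

variable {α : Type} [DecidableEq α]

/-- The lists of length `m` with entries in `s`. -/
def listsOf (s : Finset α) (m : ℕ) : Finset (List α) :=
  (Fintype.piFinset fun _ : Fin m => s).image List.ofFn

theorem mem_listsOf {s : Finset α} {m : ℕ} {l : List α} :
    l ∈ listsOf s m ↔ l.length = m ∧ ∀ x ∈ l, x ∈ s := by
  unfold listsOf
  simp only [Finset.mem_image, Fintype.mem_piFinset]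
  constructor
  · rintro ⟨f, hf, rfl⟩
    refine ⟨List.length_ofFn, ?_⟩
    intro x hx
    rw [List.mem_ofFn] at hx
    obtain ⟨i, rfl⟩ := hx
    exact hf i
  · rintro ⟨hl, hx⟩
    subst hl
    exact ⟨fun i => l.get i, fun i => hx _ (List.get_mem l i), List.ofFn_get l⟩

theorem card_listsOf (s : Finset α) (m : ℕ) : (listsOf s m).card = s.card ^ m := by
  unfold listsOf
  rw [Finset.card_image_of_injective _ List.ofFn_injective]
  simp

end ListsOf

variable {n : ℕ} {d : Fin n → ℕ}

/-- The configuration with first half-edge `x`, transits `τ` and last half-edge `y`. -/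
def mk : HE d → List (HE d × HE d) → HE d → List (HE d × HE d)
  | x, [], y => [(x, y)]
  | x, p :: τ, y => (x, p.1) :: mk p.2 τ y

/-- The ordered pairs of distinct half-edges at one vertex. -/
def trs (d : Fin n → ℕ) : Finset (HE d × HE d) :=
  Finset.univ.filter fun p => p.1.1 = p.2.1 ∧ p.1 ≠ p.2

theorem mem_trs {p : HE d × HE d} : p ∈ trs d ↔ p.1.1 = p.2.1 ∧ p.1 ≠ p.2 := by
  simp [trs]

theorem mk_length (x : HE d) (τ : List (HE d × HE d)) (y : HE d) :
    (mk x τ y).length = τ.length + 1 := by
  induction τ generalizing x with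
  | nil => rfl
  | cons p τ ih => simp [mk, ih]

theorem mk_ne_nil (x : HE d) (τ : List (HE d × HE d)) (y : HE d) : mk x τ y ≠ [] := by
  cases τ <;> simp [mk]

theorem mk_append (x : HE d) (c e : List (HE d × HE d)) (p : HE d × HE d) (y : HE d) :
    mk x (c ++ p :: e) y = mk x c p.1 ++ mk p.2 e y := by
  induction c generalizing x with
  | nil => simp [mk]
  | cons q c ih => simp [mk, ih]

theorem mk_map_fst (x : HE d) (τ : List (HE d × HE d)) (y : HE d) :
    (mk x τ y).map Prod.fst = x :: τ.map Prod.snd := by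
  induction τ generalizing x with
  | nil => rfl
  | cons p τ ih => simp [mk, ih]

theorem mk_map_snd (x : HE d) (τ : List (HE d × HE d)) (y : HE d) :
    (mk x τ y).map Prod.snd = τ.map Prod.fst ++ [y] := by
  induction τ generalizing x with
  | nil => rfl
  | cons p τ ih => simp [mk, ih]

theorem mk_split (x : HE d) (τ : List (HE d × HE d)) (y : HE d) (B1 B2 : List (HE d × HE d))
    (h : mk x τ y = B1 ++ B2) (h1 : B1 ≠ []) (h2 : B2 ≠ []) :
    ∃ c p e, τ = c ++ p :: e ∧ B1 = mk x c p.1 ∧ B2 = mk p.2 e y := by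
  induction τ generalizing x B1 with
  | nil =>
    obtain ⟨q, B1, rfl⟩ := List.exists_cons_of_ne_nil h1
    simp only [mk, List.cons_append, List.cons.injEq] at h
    have := h.2.symm
    rw [List.append_eq_nil_iff] at this
    exact absurd this.2 h2
  | cons p τ ih =>
    obtain ⟨q, B1, rfl⟩ := List.exists_cons_of_ne_nil h1
    simp only [mk, List.cons_append, List.cons.injEq] at h
    by_cases hB1 : B1 = []
    · subst hB1
      refine ⟨[], p, τ, rfl, ?_, ?_⟩
      · simp [mk, h.1]
      · simpa using h.2.symm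
    · obtain ⟨c, p', e, h3, h4, h5⟩ := ih p.2 B1 h.2 hB1
      exact ⟨p :: c, p', e, by simp [h3], by simp [mk, ← h.1, h4], h5⟩

theorem mk_inj {x x' : HE d} {τ τ' : List (HE d × HE d)} {y y' : HE d}
    (h : mk x τ y = mk x' τ' y') : x = x' ∧ τ = τ' ∧ y = y' := by
  have h1 := congrArg (List.map Prod.fst) h
  have h2 := congrArg (List.map Prod.snd) h
  rw [mk_map_fst, mk_map_fst] at h1
  rw [mk_map_snd, mk_map_snd] at h2
  simp only [List.cons.injEq] at h1
  have h3 := List.append_inj' h2 rfl
  simp only [List.cons.injEq, and_true] at h3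
  refine ⟨h1.1, ?_, h3.2⟩
  have hl : τ.length = τ'.length := by
    have := congrArg List.length h1.2
    simpa using this
  refine List.ext_getElem hl ?_
  intro i hi hi'
  have e1 : (τ.map Prod.fst)[i]'(by simpa using hi) = (τ'.map Prod.fst)[i]'(by simpa using hi') := by
    simp only [h3.1]
  have e2 : (τ.map Prod.snd)[i]'(by simpa using hi) = (τ'.map Prod.snd)[i]'(by simpa using hi') := by
    simp only [h1.2]
  simp only [List.getElem_map] at e1 e2
  exact Prod.ext e1 e2

/-- The configurations of `m + 1` pairs from `S` to `E`. -/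
def chains (S E : Finset (HE d)) (m : ℕ) : Finset (List (HE d × HE d)) :=
  ((S ×ˢ listsOf (trs d) m) ×ˢ E).image fun q => mk q.1.1 q.1.2 q.2

theorem mem_chains {S E : Finset (HE d)} {m : ℕ} {B : List (HE d × HE d)} :
    B ∈ chains S E m ↔ ∃ x τ y, B = mk x τ y ∧ x ∈ S ∧ y ∈ E ∧ τ.length = m ∧
      ∀ p ∈ τ, p ∈ trs d := by
  unfold chains
  simp only [Finset.mem_image, Finset.mem_product, mem_listsOf]
  constructor
  · rintro ⟨q, ⟨⟨h1, h2, h3⟩, h4⟩, rfl⟩
    exact ⟨q.1.1, q.1.2, q.2, rfl, h1, h4, h2, h3⟩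
  · rintro ⟨x, τ, y, rfl, h1, h2, h3, h4⟩
    exact ⟨((x, τ), y), ⟨⟨h1, h3, h4⟩, h2⟩, rfl⟩

theorem card_chains_le (S E : Finset (HE d)) (m : ℕ) :
    (chains S E m).card ≤ S.card * (trs d).card ^ m * E.card := by
  refine Finset.card_image_le.trans ?_
  rw [Finset.card_product, Finset.card_product, card_listsOf]

theorem length_of_mem_chains {S E : Finset (HE d)} {m : ℕ} {B : List (HE d × HE d)}
    (h : B ∈ chains S E m) : B.length = m + 1 := by
  obtain ⟨x, τ, y, rfl, _, _, h3, _⟩ := mem_chains.1 h
  rw [mk_length, h3]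

/-- The list of pairs of a walk. -/
def cfg (σ : Pairing (HE d)) (a : List (HE d)) : List (HE d × HE d) :=
  a.map fun h => (h, σ.1 h)

theorem cfg_append (σ : Pairing (HE d)) (a b : List (HE d)) :
    cfg σ (a ++ b) = cfg σ a ++ cfg σ b := by simp [cfg]

theorem cfg_length (σ : Pairing (HE d)) (a : List (HE d)) : (cfg σ a).length = a.length := by
  simp [cfg]

theorem contains_cfg (σ : Pairing (HE d)) (a : List (HE d)) : Contains σ (cfg σ a) := by
  intro p hp
  simp only [cfg, List.mem_map] at hp
  obtain ⟨h, _, rfl⟩ := hp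
  rfl

theorem cfg_map_fst (σ : Pairing (HE d)) (a : List (HE d)) : (cfg σ a).map Prod.fst = a := by
  simp [cfg, Function.comp_def]

theorem eq_cfg (σ : Pairing (HE d)) (B : List (HE d × HE d)) (h : Contains σ B) :
    B = cfg σ (B.map Prod.fst) := by
  unfold cfg
  rw [List.map_map]
  conv_lhs => rw [← List.map_id B]
  refine List.map_congr_left ?_
  intro p hp
  have := h p hp
  simp only [id, Function.comp]
  exact Prod.ext rfl this.symm

theorem contains_append {H : Type} (σ : Pairing H) (A B : List (H × H)) :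
    Contains σ (A ++ B) ↔ Contains σ A ∧ Contains σ B := by
  unfold Contains
  simp only [List.mem_append]
  constructor
  · intro h
    exact ⟨fun p hp => h p (Or.inl hp), fun p hp => h p (Or.inr hp)⟩
  · rintro ⟨h1, h2⟩ p (hp | hp)
    · exact h1 p hp
    · exact h2 p hp

/-- A nonempty non-backtracking walk is a chain. -/
theorem cfg_mem_chains (σ : Pairing (HE d)) (a : List (HE d)) (hne : a ≠ [])
    (hw : ∀ c x y e, a = c ++ x :: y :: e → (σ.1 x).1 = y.1 ∧ σ.1 x ≠ y)
    (S E : Finset (HE d)) (hS : ∀ x e, a = x :: e → x ∈ S)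
    (hE : ∀ c x, a = c ++ [x] → σ.1 x ∈ E) :
    ∃ m, cfg σ a ∈ chains S E m ∧ a.length = m + 1 := by
  induction a generalizing S with
  | nil => exact absurd rfl hne
  | cons x a ih =>
    cases a with
    | nil =>
      refine ⟨0, ?_, rfl⟩
      rw [mem_chains]
      exact ⟨x, [], σ.1 x, rfl, hS x [] rfl, hE [] x rfl, rfl, by simp⟩
    | cons y a =>
      obtain ⟨m, hm, hl⟩ := ih (by simp)
        (fun c x' y' e he => hw (x :: c) x' y' e (by rw [he]; rfl)) Finset.univ
        (fun _ _ _ => Finset.mem_univ _)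
        (fun c x' he => hE (x :: c) x' (by rw [he]; rfl))
      obtain ⟨x', τ, z, h1, _, h3, h4, h5⟩ := mem_chains.1 hm
      have hx' : x' = y := by
        have := congrArg (List.map Prod.fst) h1
        rw [cfg_map_fst, mk_map_fst] at this
        simp only [List.cons.injEq] at this
        exact this.1.symm
      subst hx'
      refine ⟨m + 1, ?_, by simpa using hl⟩
      rw [mem_chains]
      refine ⟨x, (σ.1 x, x') :: τ, z, ?_, hS x _ rfl, h3, by simp [h4], ?_⟩
      · have h6 : cfg σ (x :: x' :: a) = (x, σ.1 x) :: cfg σ (x' :: a) := rfl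
        rw [h6, h1]
        rfl
      · intro p hp
        rcases List.mem_cons.1 hp with rfl | hp
        · rw [mem_trs]
          exact hw [] x x' a rfl
        · exact h5 p hp

/-- The set of half-edges at a vertex. -/
def hes (d : Fin n → ℕ) (v : Fin n) : Finset (HE d) := Finset.univ.filter fun h => h.1 = v

theorem mem_hes {h : HE d} {v : Fin n} : h ∈ hes d v ↔ h.1 = v := by simp [hes]

theorem card_hes (v : Fin n) : (hes d v).card = d v := by
  have : hes d v = Finset.univ.map ⟨fun i : Fin (d v) => (⟨v, i⟩ : HE d), fun i j h => by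
      simpa using h⟩ := by
    ext h
    simp only [mem_hes, Finset.mem_map, Finset.mem_univ, true_and, Function.Embedding.coeFn_mk]
    constructor
    · rintro rfl
      exact ⟨h.2, rfl⟩
    · rintro ⟨i, rfl⟩
      rfl
  rw [this]
  simp

theorem card_HE : Fintype.card (HE d) = ∑ v, d v := by simp

theorem card_trs : (trs d).card = ∑ v, d v * (d v - 1) := by
  have h1 : trs d = Finset.univ.biUnion fun v => (hes d v).offDiag := by
    ext p
    simp only [mem_trs, Finset.mem_biUnion, Finset.mem_univ, true_and, Finset.mem_offDiag, mem_hes]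
    constructor
    · rintro ⟨h1, h2⟩
      exact ⟨p.1.1, rfl, h1.symm, h2⟩
    · rintro ⟨v, h1, h2, h3⟩
      exact ⟨by rw [h1, h2], h3⟩
  rw [h1, Finset.card_biUnion]
  · refine Finset.sum_congr rfl fun v _ => ?_
    rw [Finset.offDiag_card, card_hes, Nat.mul_sub, mul_one]
  · intro v _ w _ hvw
    rw [Function.onFun, Finset.disjoint_left]
    intro p hp hp'
    rw [Finset.mem_offDiag, mem_hes, mem_hes] at hp hp'
    exact hvw (hp.1.symm.trans hp'.1)

end Pool.Agent.H86.CM
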