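import Pool.Agent.H86.CM.Defs

/-!
# Regular degree sequences
-/

open MeasureTheory

namespace Pool.Agent.H86.CM

/-- A degree sequence is regular with parameters `ν` (branching mean), `C, θ, η` (moment and
error constants), `k` and `p` (at least `p n` vertices have degree `k`), and `m` (some vertex has
degree at least `m`). -/
structure Reg (ν C θ η p : ℝ) (k m : ℕ) {n : ℕ} (d : Fin n → ℕ) : Prop where
  even : Even (∑ v, d v)
  lower : (n : ℝ) ≤ C * ∑ v, (d v : ℝ)
  upper : ∑ v, (d v : ℝ) ≤ C * n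
  second : |∑ v, (d v : ℝ) * ((d v : ℝ) - 1) - ν * ∑ v, (d v : ℝ)| ≤
    (∑ v, (d v : ℝ)) * (n : ℝ) ^ (-η)
  moment : ∑ v, (d v : ℝ) ^ (2 + θ) ≤ C * n
  many : p * n ≤ ((Finset.univ.filter fun v => d v = k).card : ℝ)
  large : ∃ v, m ≤ d v

end Pool.Agent.H86.CM
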