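import Pool.Agent.H86.CM.PairStruct
import Pool.Agent.H86.CM.AnalysisDefs
import Pool.Agent.H86.CM.DegDefs

/-!
# Laws and events of the second phase: definitions
-/

open MeasureTheory ProbabilityTheory

namespace Pool.Agent.H86.CM

variable {n : ℕ} {d : Fin n → ℕ}

/-- The law of the weights. -/
noncomputable def wLaw (d : Fin n → ℕ) (I : Bool → Measure ℝ) : Measure (Weights d) :=
  Measure.pi fun e => I e.1

/-- The law of the pairing and the weights, given that the pairing contains the pairs of `A`. -/
noncomputable def PA (d : Fin n → ℕ) (I : Bool → Measure ℝ) (A : List (HE d × HE d)) :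
    Measure (Pairing (HE d) × Weights d) :=
  (uniformOn {σ | Contains σ A}).prod (wLaw d I)

/-- The total weight, for the colour `c`, of the pairs of a configuration. -/
def cLen (w : Weights d) (c : Bool) (B : List (HE d × HE d)) : ℝ :=
  (B.map fun p => w (c, s(p.1, p.2))).sum

/-- The conditional probability that a pairing of `ℓ` half-edges containing `L` given pairs
contains `N` further given pairs. -/
noncomputable def kap (ℓ : ℝ) (L N : ℕ) : ℝ :=
  ∏ i ∈ Finset.range N, 1 / (ℓ - 2 * L - 2 * i - 1)

/-- The event that the configuration `B` is present and has weight at most `T`. -/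
def okEv (c : Bool) (T : ℝ) (B : List (HE d × HE d)) : Set (Pairing (HE d) × Weights d) :=
  {ω | Contains ω.1 B ∧ ω.2 ∈ {w : Weights d | cLen w c B ≤ T}}

/-- The event that two further runs are attached to `B`. -/
def dblEv (A : List (HE d × HE d)) (X : Finset (HE d)) (Tg : Finset (Fin n)) (KK : ℕ)
    (c : Bool) (T : ℝ) (B : List (HE d × HE d)) : Set (Pairing (HE d) × Weights d) :=
  {ω | ∃ q ∈ dblQ A X Tg KK B, Contains ω.1 (q.1 ++ q.2) ∧ cLen ω.2 c (q.1 ++ q.2) ≤ T}

/-- The half-edges at the vertex where the `j`-th pair of the configuration ends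
(`j = 1, …, B.length`). -/
def endAt (B : List (HE d × HE d)) (j : ℕ) : Finset (HE d) :=
  Finset.univ.filter fun h => ∀ p ∈ B[j - 1]?, h.1 = p.2.1

/-- The other colour, started at `o`, reaches a vertex of the configuration `B` too early. -/
def badEv (A : List (HE d × HE d)) (o : Fin n) (KR : ℕ) (c : Bool) (t0 : ℝ)
    (B : List (HE d × HE d)) : Set (Pairing (HE d) × Weights d) :=
  {ω | ∃ j ∈ Finset.Icc 1 B.length, ∃ m ∈ Finset.range KR, ∃ Q ∈ chains (hes d o) (endAt B j) m,
    (ends (A ++ B ++ Q)).Nodup ∧ Contains ω.1 Q ∧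
      cLen ω.2 (!c) Q ≤ t0 + cLen ω.2 c (B.take j)}

/-- There is a long walk of small weight for the other colour, started at `o`. -/
def longEv (A : List (HE d × HE d)) (o : Fin n) (KR : ℕ) (c : Bool) (T : ℝ) :
    Set (Pairing (HE d) × Weights d) :=
  {ω | ∃ Q ∈ chains (hes d o) Finset.univ KR,
    (ends (A ++ Q)).Nodup ∧ Contains ω.1 Q ∧ cLen ω.2 (!c) Q ≤ T}

/-- The other colour, started at `o`, reaches the explored set `W` by time `t0`. -/
def treeEv (A : List (HE d × HE d)) (W : Finset (Fin n)) (o : Fin n) (KR : ℕ) (c : Bool)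
    (t0 : ℝ) : Set (Pairing (HE d) × Weights d) :=
  {ω | ∃ m ∈ Finset.range KR, ∃ Q ∈ chains (hes d o) (hesS d W) m,
    (ends (A ++ Q)).Nodup ∧ Contains ω.1 Q ∧ cLen ω.2 (!c) Q ≤ t0}

/-- The event used in the second moment computation: the configuration `B` is present with
weight at most `T`, no two further runs are attached to it, the pairing contains `A` and the
weights are nonnegative. -/
def sEv (A : List (HE d × HE d)) (X : Finset (HE d)) (Tg : Finset (Fin n)) (KK : ℕ)
    (c : Bool) (T : ℝ) (B : List (HE d × HE d)) : Set (Pairing (HE d) × Weights d) :=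
  {ω | ω ∈ okEv c T B ∧ ω ∉ dblEv A X Tg KK c T B ∧ Contains ω.1 A ∧ ∀ e, 0 ≤ ω.2 e}

/-- Numerical hypotheses: `L` is the number of explored pairs and `Nm` the maximal number of
further pairs considered. -/
structure Nums (ν : ℝ) (d : Fin n → ℕ) (L Nm : ℕ) (ε : ℝ) : Prop where
  kap_up : ∀ N ≤ Nm, kap (Fintype.card (HE d)) L N ≤ (1 + ε) * (1 / (Fintype.card (HE d) : ℝ)) ^ N
  kap_low : ∀ N ≤ Nm, (1 / (Fintype.card (HE d) : ℝ)) ^ N ≤ kap (Fintype.card (HE d)) L N
  tr_up : ∀ N ≤ Nm, ((trs d).card : ℝ) ^ N ≤ 2 * (ν * (Fintype.card (HE d) : ℝ)) ^ N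
  pos : 1 ≤ Fintype.card (HE d)
  even : Even (Fintype.card (HE d))

/-! ### Exploration -/

/-- The state of an exploration: revealed pairs, active half-edges, visited vertices. -/
structure ExS (d : Fin n → ℕ) where
  /-- revealed pairs -/
  A : List (HE d × HE d)
  /-- active half-edges -/
  act : List (HE d)
  /-- visited vertices -/
  vis : List (Fin n)

/-- The half-edges at a vertex, as a list. -/
def hesL (d : Fin n → ℕ) (v : Fin n) : List (HE d) :=
  (List.finRange (d v)).map fun i => (⟨v, i⟩ : HE d)

/-- One step of the exploration, when the partner of the first active half-edge is `g`. -/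
def exNext (S : ExS d) (g : HE d) : ExS d :=
  match S.act with
  | [] => S
  | x :: rest => ⟨(x, g) :: S.A, rest ++ (hesL d g.1).erase g, g.1 :: S.vis⟩

/-- The state of the exploration from `u` when the revealed partners are `γ` (the most recent
first). -/
def exRun (u : Fin n) : List (HE d) → ExS d
  | [] => ⟨[], hesL d u, [u]⟩
  | g :: γ => exNext (exRun u γ) g

/-- The exploration with partners `γ` never stops, always finds new vertices and avoids `o`. -/
def nice (u o : Fin n) : List (HE d) → Prop
  | [] => u ≠ o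
  | g :: γ => nice u o γ ∧ (exRun u γ).act ≠ [] ∧ g.1 ∉ (exRun u γ).vis ∧ g.1 ≠ o

open Classical in
/-- The nice histories of length `m` with at least `M` active half-edges. -/
noncomputable def goodHist (d : Fin n → ℕ) (u o : Fin n) (m M : ℕ) : Finset (List (HE d)) :=
  (listsOf (Finset.univ : Finset (HE d)) m).filter fun γ =>
    nice u o γ ∧ M ≤ (exRun u γ).act.length

end Pool.Agent.H86.CM
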