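import Mathlib

/-!
# Two-colour competition on the configuration model: definitions

Colours are Booleans: `true` is red and `false` is blue.
-/

open MeasureTheory ProbabilityTheory Filter Topology

namespace Pool.Agent.H86.CM

/-- The half-edges of a degree sequence `d` on `Fin n`: the vertex `v` carries `d v` of them. -/
abbrev HE {n : ℕ} (d : Fin n → ℕ) : Type := Σ v : Fin n, Fin (d v)

/-- A perfect matching (pairing) of the elements of `H`: a fixed-point free involution.
The partner of `h` is `σ h`; the pairs `{h, σ h}` are the edges of the multigraph. -/
abbrev Pairing (H : Type) : Type := {σ : H → H // (∀ h, σ (σ h) = h) ∧ ∀ h, σ h ≠ h}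

instance instMSPairing (H : Type) : MeasurableSpace (Pairing H) := ⊤

/-- An ordered pair of distinct source vertices: `s true` is the red source and `s false`
is the blue source. -/
abbrev Sources (n : ℕ) : Type := {s : Bool → Fin n // s true ≠ s false}

instance instMSSources (n : ℕ) : MeasurableSpace (Sources n) := ⊤

/-- The edge weights: `w (c, e)` is the weight of the (potential) edge `e` for the colour `c`. -/
abbrev Weights {n : ℕ} (d : Fin n → ℕ) : Type := Bool × Sym2 (HE d) → ℝ

/-- A painting: an unpainted vertex has value `none`, and a vertex painted with colour `c` at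
time `t` has value `some (c, t)`. -/
abbrev Painting (n : ℕ) : Type := Fin n → Option (Bool × ℝ)

section Dynamics

variable {n : ℕ} {d : Fin n → ℕ}

/-- The initial painting: the two sources are painted at time `0`. -/
noncomputable def initPaint (s : Sources n) : Painting n := fun v =>
  if v = s.1 true then some (true, 0) else if v = s.1 false then some (false, 0) else none

/-- The half-edges that start at a painted vertex and lead to an unpainted vertex. -/
noncomputable def frontier (σ : Pairing (HE d)) (p : Painting n) : Finset (HE d) :=
  open Classical in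
  Finset.univ.filter fun h => p h.1 ≠ none ∧ p (σ.1 h).1 = none

/-- The colour carried by a half-edge: the colour of its vertex (`false` if unpainted). -/
def colourOf (p : Painting n) (h : HE d) : Bool :=
  match p h.1 with
  | some (c, _) => c
  | none => false

/-- The time at which the colour of the vertex of `h` arrives at the other end of the edge
`{h, σ h}`: the painting time of that vertex plus the weight of the edge for that colour. -/
noncomputable def arrival (σ : Pairing (HE d)) (w : Weights d) (p : Painting n) (h : HE d) : ℝ :=
  match p h.1 with
  | some (c, t) => t + w (c, s(h, σ.1 h))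
  | none => 0

open Classical in
/-- One step of the competition: among all arrivals from a painted vertex at an unpainted
vertex, the earliest one takes place, and the vertex is painted with the arriving colour. -/
noncomputable def paintStep (σ : Pairing (HE d)) (w : Weights d) (p : Painting n) :
    Painting n :=
  if hne : (frontier σ p).Nonempty then
    let h := Classical.choose (Finset.exists_min_image (frontier σ p) (arrival σ w p) hne)
    Function.update p (σ.1 h).1 (some (colourOf p h, arrival σ w p h))
  else p

/-- The final painting: `n` steps of the competition. -/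
noncomputable def finalPaint (σ : Pairing (HE d)) (w : Weights d) (s : Sources n) :
    Painting n :=
  (paintStep σ w)^[n] (initPaint s)

open Classical in
/-- `N_c(n)`: the final number of vertices of colour `c`. -/
noncomputable def numColour (σ : Pairing (HE d)) (w : Weights d) (s : Sources n) (c : Bool) : ℕ :=
  (Finset.univ.filter fun v : Fin n => ∃ t, finalPaint σ w s v = some (c, t)).card

/-- `u` and `v` lie in the same connected component of the multigraph given by `σ`. -/
def Connected (σ : Pairing (HE d)) (u v : Fin n) : Prop :=
  Relation.ReflTransGen (fun a b => ∃ h : HE d, h.1 = a ∧ (σ.1 h).1 = b) u v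

open Classical in
/-- The number of vertices in the connected component of `u`. -/
noncomputable def compSize (σ : Pairing (HE d)) (u : Fin n) : ℕ :=
  (Finset.univ.filter fun v : Fin n => Connected σ u v).card

/-- Both sources lie in the largest connected component. -/
def BothInGiant (σ : Pairing (HE d)) (s : Sources n) : Prop :=
  Connected σ (s.1 true) (s.1 false) ∧ ∀ u, compSize σ u ≤ compSize σ (s.1 true)

end Dynamics

/-- The law of the pairing, the weights and the sources given the degrees `d`: a uniform
pairing of the half-edges, independent weights with laws `I true` (red) and `I false` (blue),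
and a uniform pair of distinct sources, all independent. -/
noncomputable def cmLaw {n : ℕ} (d : Fin n → ℕ) (I : Bool → Measure ℝ) :
    Measure (Pairing (HE d) × Weights d × Sources n) :=
  (uniformOn Set.univ).prod
    ((Measure.pi fun e : Bool × Sym2 (HE d) => I e.1).prod (uniformOn Set.univ))

/-- Add `1` to the last degree if the sum of the degrees is odd. -/
def fixParity {n : ℕ} (d : Fin n → ℕ) : Fin n → ℕ := fun i =>
  if i.1 + 1 = n ∧ Odd (∑ j, d j) then d i + 1 else d i

/-- The probability, for i.i.d. degrees `d₁, …, d_n` with law `D` (with `1` added to `d_n` if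
the sum is odd), of an event `E` depending on the degrees, the pairing, the weights and the
sources. -/
noncomputable def prob (D : Measure ℕ) (I : Bool → Measure ℝ) (n : ℕ)
    (E : (d : Fin n → ℕ) → Pairing (HE d) × Weights d × Sources n → Prop) : ℝ :=
  (∫⁻ d : Fin n → ℕ, cmLaw (fixParity d) I {ω | E (fixParity d) ω}
    ∂(Measure.pi fun _ : Fin n => D)).toReal

/-- `ν = E[D (D - 1)] / E[D]`. -/
noncomputable def nu (D : Measure ℕ) : ℝ :=
  (∫ k : ℕ, (k : ℝ) * ((k : ℝ) - 1) ∂D) / ∫ k : ℕ, (k : ℝ) ∂D

/-- `α` is the Malthusian parameter of a colour with weight law `μ`. -/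
def IsMalthusian (ν : ℝ) (μ : Measure ℝ) (α : ℝ) : Prop :=
  0 < α ∧ ν * ∫ x, Real.exp (-(α * x)) ∂μ = 1

/-- `L` is slowly varying at infinity. -/
def SlowlyVarying (L : ℝ → ℝ) : Prop :=
  ∀ a : ℝ, 0 < a → Tendsto (fun x => L (a * x) / L x) atTop (𝓝 1)

/-- The conditional probability, given that both sources are in the largest component, that
both colours paint at least `δ n` vertices. -/
noncomputable def coexistProb (D : Measure ℕ) (I : Bool → Measure ℝ) (δ : ℝ) (n : ℕ) : ℝ :=
  prob D I n (fun _ ω => BothInGiant ω.1 ω.2.2 ∧
      ∀ c : Bool, δ * n ≤ numColour ω.1 ω.2.1 ω.2.2 c) /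
    prob D I n (fun _ ω => BothInGiant ω.1 ω.2.2)

/-- The statement of Q2. -/
def Q2Statement : Prop :=
  ∀ (D : Measure ℕ) [IsProbabilityMeasure D] (I : Bool → Measure ℝ)
    [∀ c, IsProbabilityMeasure (I c)] (L : ℝ → ℝ) (τ α : ℝ),
    3 < τ → SlowlyVarying L →
    (∀ x : ℝ, 0 < x → D.real {k : ℕ | x < k} = L x * x ^ (-(τ - 1))) →
    1 < nu D →
    (∀ c, ∀ x, I c {x} = 0) → (∀ c, I c (Set.Iio 0) = 0) →
    (∀ c, IsMalthusian (nu D) (I c) α) →
    Tendsto (fun δ : ℝ => liminf (fun n : ℕ => coexistProb D I δ n) atTop) (𝓝[>] 0) (𝓝 1)

end Pool.Agent.H86.CM
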