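import Pool.Agent.H86.CM.DegDefs

/-! MODULE DEG: i.i.d. degrees with a regularly varying tail are regular with high probability. -/

set_option autoImplicit false

open MeasureTheory ProbabilityTheory Filter Topology

namespace Pool.Agent.H86.CM

/-- law of one coordinate -/
theorem deg_coord (D : Measure ℕ) [IsProbabilityMeasure D] (n : ℕ) (v : Fin n) (S : Set ℕ) :
    Measure.pi (fun _ : Fin n => D) {d : Fin n → ℕ | d v ∈ S} = D S :=
  (measurePreserving_eval (fun _ : Fin n => D) v).measure_preimage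
    (MeasurableSet.of_discrete (s := S)).nullMeasurableSet

theorem deg_integral_coord (D : Measure ℕ) [IsProbabilityMeasure D] (n : ℕ) (v : Fin n)
    (f : ℕ → ℝ) :
    ∫ d : Fin n → ℕ, f (d v) ∂(Measure.pi (fun _ : Fin n => D)) = ∫ k, f k ∂D := by
  have h := (measurePreserving_eval (fun _ : Fin n => D) v)
  conv_rhs => rw [← h.map_eq]
  exact (integral_map (measurable_pi_apply v).aemeasurable
    (measurable_of_countable f).aestronglyMeasurable).symm

theorem deg_integrable_coord (D : Measure ℕ) [IsProbabilityMeasure D] (n : ℕ) (v : Fin n)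
    (f : ℕ → ℝ) (hf : Integrable f D) :
    Integrable (fun d : Fin n → ℕ => f (d v)) (Measure.pi (fun _ : Fin n => D)) :=
  (measurePreserving_eval (fun _ : Fin n => D) v).integrable_comp_of_integrable hf

theorem deg_rpow_le_trunc {y t r : ℝ} (hy : 0 ≤ y) (hyt : y ≤ t) (hr1 : r ≤ 1)
    (ht : 0 < t) : y ^ 2 ≤ t ^ (1 - r) * y ^ (1 + r) := by
  rcases hy.eq_or_lt with h | h
  · rw [← h]
    simp only [ne_eq, OfNat.ofNat_ne_zero, not_false_eq_true, zero_pow]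
    positivity
  · have e : y ^ 2 = y ^ (1 - r) * y ^ (1 + r) := by
      rw [← Real.rpow_add h]; norm_num
    rw [e]
    exact mul_le_mul_of_nonneg_right (Real.rpow_le_rpow hy hyt (by linarith))
      (Real.rpow_nonneg hy _)

theorem deg_le_tail {y t r : ℝ} (hyt : t < y) (hr : 0 < r)
    (ht : 0 < t) : y ≤ t ^ (-r) * y ^ (1 + r) := by
  have hy : 0 < y := ht.trans hyt
  rw [Real.rpow_add hy, Real.rpow_one, Real.rpow_neg ht.le]
  have h1 : t ^ r ≤ y ^ r := Real.rpow_le_rpow ht.le hyt.le hr.le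
  have h2 : 0 < t ^ r := Real.rpow_pos_of_pos ht r
  have h3 : 1 ≤ (t ^ r)⁻¹ * y ^ r := by
    rw [← div_eq_inv_mul, le_div_iff₀ h2]; linarith
  calc y = y * 1 := (mul_one y).symm
    _ ≤ y * ((t ^ r)⁻¹ * y ^ r) := by gcongr
    _ = (t ^ r)⁻¹ * (y * y ^ r) := by ring

theorem deg_one_le_tail {y t r : ℝ} (hyt : t < y) (hr : 0 < r)
    (ht : 0 < t) : 1 ≤ t ^ (-(1 + r)) * y ^ (1 + r) := by
  have h1 : t ^ (1 + r) ≤ y ^ (1 + r) := Real.rpow_le_rpow ht.le hyt.le (by linarith)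
  have h2 : 0 < t ^ (1 + r) := Real.rpow_pos_of_pos ht _
  rw [Real.rpow_neg ht.le, ← div_eq_inv_mul, le_div_iff₀ h2]
  linarith

/-- quantitative weak law of large numbers -/
theorem deg_wlln_bound (D : Measure ℕ) [IsProbabilityMeasure D] (Y : ℕ → ℝ) (hY : ∀ k, 0 ≤ Y k)
    (r η : ℝ) (hr : 0 < r) (hr1 : r ≤ 1)
    (hint : Integrable (fun k => Y k ^ (1 + r)) D) (n : ℕ) (hn : 1 ≤ n)
    (hbias : (n : ℝ) * ((n : ℝ) ^ (-r) * ∫ k, Y k ^ (1 + r) ∂D) ≤ (n : ℝ) ^ (1 - η) / 2) :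
    Measure.pi (fun _ : Fin n => D)
      {d : Fin n → ℕ | (n : ℝ) ^ (1 - η) < |∑ v, Y (d v) - n * ∫ k, Y k ∂D|}
      ≤ ENNReal.ofReal ((n : ℝ) ^ (-r) * ∫ k, Y k ^ (1 + r) ∂D)
        + ENNReal.ofReal (4 * (n : ℝ) ^ (-(r - 2 * η)) * ∫ k, Y k ^ (1 + r) ∂D) := by
  set E := ∫ k, Y k ^ (1 + r) ∂D with hE
  set P := Measure.pi (fun _ : Fin n => D) with hP
  have hn0 : (0 : ℝ) < n := by exact_mod_cast hn
  have hE0 : 0 ≤ E := integral_nonneg fun k => Real.rpow_nonneg (hY k) _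
  -- truncation
  let Y' : ℕ → ℝ := fun k => if Y k ≤ n then Y k else 0
  have hY'0 : ∀ k, 0 ≤ Y' k := fun k => by
    simp only [Y']; split_ifs
    · exact hY k
    · exact le_rfl
  have hY'n : ∀ k, Y' k ≤ n := fun k => by
    simp only [Y']; split_ifs with h
    · exact h
    · exact hn0.le
  have hY'le : ∀ k, Y' k ≤ Y k := fun k => by
    simp only [Y']; split_ifs with h
    · exact le_rfl
    · exact hY k
  have hYint : Integrable Y D := by
    refine Integrable.mono' (hint.add (integrable_const (1 : ℝ)))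
      (measurable_of_countable Y).aestronglyMeasurable (Filter.Eventually.of_forall fun k => ?_)
    rw [Real.norm_of_nonneg (hY k)]
    simp only [Pi.add_apply]
    rcases le_total (Y k) 1 with h | h
    · have := Real.rpow_nonneg (hY k) (1 + r); linarith
    · have : Y k ^ (1 : ℝ) ≤ Y k ^ (1 + r) := Real.rpow_le_rpow_of_exponent_le h (by linarith)
      rw [Real.rpow_one] at this; linarith
  have hmem : MemLp Y' 2 D := by
    refine MemLp.of_bound (measurable_of_countable Y').aestronglyMeasurable (n : ℝ)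
      (Filter.Eventually.of_forall fun k => ?_)
    rw [Real.norm_of_nonneg (hY'0 k)]; exact hY'n k
  have hY'int : Integrable Y' D := hmem.integrable (by norm_num)
  -- bias
  have hbias1 : ∫ k, Y k ∂D - ∫ k, Y' k ∂D ≤ (n : ℝ) ^ (-r) * E := by
    rw [← integral_sub hYint hY'int, hE, ← integral_const_mul]
    refine integral_mono (hYint.sub hY'int) (hint.const_mul _) fun k => ?_
    simp only [Y']
    split_ifs with h
    · rw [sub_self]
      exact mul_nonneg (Real.rpow_nonneg hn0.le _) (Real.rpow_nonneg (hY k) _)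
    · rw [sub_zero]
      exact deg_le_tail (not_le.1 h) hr hn0
  have hbias2 : 0 ≤ ∫ k, Y k ∂D - ∫ k, Y' k ∂D := by
    rw [← integral_sub hYint hY'int]
    exact integral_nonneg fun k => sub_nonneg.2 (hY'le k)
  -- variance
  have hvar : Var[∑ v : Fin n, fun d : Fin n → ℕ => Y' (d v); P]
      ≤ (n : ℝ) * ((n : ℝ) ^ (1 - r) * E) := by
    rw [hP, variance_sum_pi (fun _ => hmem)]
    rw [Finset.sum_const, Finset.card_univ, Fintype.card_fin, nsmul_eq_mul]
    refine mul_le_mul_of_nonneg_left ?_ hn0.le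
    refine (variance_le_expectation_sq hmem.aestronglyMeasurable).trans ?_
    rw [hE, ← integral_const_mul]
    refine integral_mono hmem.integrable_sq (hint.const_mul _) fun k => ?_
    simp only [Pi.pow_apply, Y']
    split_ifs with h
    · exact deg_rpow_le_trunc (hY k) h hr1 hn0
    · simp only [ne_eq, OfNat.ofNat_ne_zero, not_false_eq_true, zero_pow]
      exact mul_nonneg (Real.rpow_nonneg hn0.le _) (Real.rpow_nonneg (hY k) _)
  have hmean : P[∑ v : Fin n, fun d : Fin n → ℕ => Y' (d v)] = (n : ℝ) * ∫ k, Y' k ∂D := by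
    have : (fun d : Fin n → ℕ => (∑ v : Fin n, fun d : Fin n → ℕ => Y' (d v)) d)
        = fun d => ∑ v : Fin n, Y' (d v) := by ext d; simp
    rw [this, integral_finsetSum]
    · simp only [hP, deg_integral_coord D n _ Y']
      simp
    · intro v _
      exact deg_integrable_coord D n v Y' hY'int
  -- Chebyshev
  have hmemS : MemLp (∑ v : Fin n, fun d : Fin n → ℕ => Y' (d v)) 2 P :=
    memLp_finsetSum' _ fun v _ =>
      hmem.comp_measurePreserving (measurePreserving_eval (fun _ : Fin n => D) v)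
  have hc : (0 : ℝ) < (n : ℝ) ^ (1 - η) / 2 := by positivity
  have hcheb := meas_ge_le_variance_div_sq (μ := P) hmemS hc
  rw [hmean] at hcheb
  have hcheb2 : P {d : Fin n → ℕ | (n : ℝ) ^ (1 - η) / 2 ≤
      |(∑ v : Fin n, Y' (d v)) - (n : ℝ) * ∫ k, Y' k ∂D|}
      ≤ ENNReal.ofReal (4 * (n : ℝ) ^ (-(r - 2 * η)) * E) := by
    have e : {d : Fin n → ℕ | (n : ℝ) ^ (1 - η) / 2 ≤
      |(∑ v : Fin n, Y' (d v)) - (n : ℝ) * ∫ k, Y' k ∂D|}
      = {d : Fin n → ℕ | (n : ℝ) ^ (1 - η) / 2 ≤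
      |(∑ v : Fin n, fun d : Fin n → ℕ => Y' (d v)) d - (n : ℝ) * ∫ k, Y' k ∂D|} := by
      ext d; simp
    rw [e]
    refine hcheb.trans (ENNReal.ofReal_le_ofReal ?_)
    rw [div_le_iff₀ (by positivity)]
    refine hvar.trans (le_of_eq ?_)
    have e1 : ((n : ℝ) ^ (1 - η) / 2) ^ 2 = (n : ℝ) ^ (2 - 2 * η) / 4 := by
      rw [div_pow, ← Real.rpow_natCast ((n : ℝ) ^ (1 - η)) 2, ← Real.rpow_mul hn0.le]
      norm_num
      congr 1; ring
    have e2 : (n : ℝ) ^ (-(r - 2 * η)) * (n : ℝ) ^ (2 - 2 * η) = (n : ℝ) * (n : ℝ) ^ (1 - r) := by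
      rw [← Real.rpow_add hn0]
      nth_rewrite 2 [← Real.rpow_one (n : ℝ)]
      rw [← Real.rpow_add hn0]
      congr 1; ring
    rw [e1]
    calc (n : ℝ) * ((n : ℝ) ^ (1 - r) * E) = ((n : ℝ) * (n : ℝ) ^ (1 - r)) * E := by ring
      _ = ((n : ℝ) ^ (-(r - 2 * η)) * (n : ℝ) ^ (2 - 2 * η)) * E := by rw [e2]
      _ = _ := by ring
  -- exceedances
  have htail : P {d : Fin n → ℕ | ∃ v, (n : ℝ) < Y (d v)} ≤ ENNReal.ofReal ((n : ℝ) ^ (-r) * E) := by
    have hsub : {d : Fin n → ℕ | ∃ v, (n : ℝ) < Y (d v)}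
        = ⋃ v : Fin n, {d : Fin n → ℕ | d v ∈ {k : ℕ | (n : ℝ) < Y k}} := by
      ext d; simp
    rw [hsub]
    refine (measure_iUnion_fintype_le P _).trans ?_
    simp only [hP, deg_coord D n]
    rw [Finset.sum_const, Finset.card_univ, Fintype.card_fin, nsmul_eq_mul]
    have h1 : D {k : ℕ | (n : ℝ) < Y k} ≤ ENNReal.ofReal ((n : ℝ) ^ (-(1 + r)) * E) := by
      have h2 : D.real {k : ℕ | (n : ℝ) < Y k} ≤ (n : ℝ) ^ (-(1 + r)) * E := by
        rw [← integral_indicator_one (MeasurableSet.of_discrete), hE, ← integral_const_mul]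
        refine integral_mono ((integrable_const (1 : ℝ)).indicator MeasurableSet.of_discrete)
          (hint.const_mul _) fun k => ?_
        by_cases hk : (n : ℝ) < Y k
        · rw [Set.indicator_of_mem (by exact hk)]
          exact deg_one_le_tail hk hr hn0
        · rw [Set.indicator_of_notMem (by exact hk)]
          exact mul_nonneg (Real.rpow_nonneg hn0.le _) (Real.rpow_nonneg (hY k) _)
      rw [← ofReal_measureReal]
      exact ENNReal.ofReal_le_ofReal h2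
    calc (n : ENNReal) * D {k : ℕ | (n : ℝ) < Y k}
        ≤ (n : ENNReal) * ENNReal.ofReal ((n : ℝ) ^ (-(1 + r)) * E) := by gcongr
      _ = ENNReal.ofReal ((n : ℝ) ^ (-r) * E) := by
          rw [← ENNReal.ofReal_natCast, ← ENNReal.ofReal_mul hn0.le]
          congr 1
          have : (n : ℝ) * (n : ℝ) ^ (-(1 + r)) = (n : ℝ) ^ (-r) := by
            nth_rewrite 1 [← Real.rpow_one (n : ℝ)]
            rw [← Real.rpow_add hn0]
            congr 1; ring
          rw [← mul_assoc, this]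
  -- union
  have hunion : {d : Fin n → ℕ | (n : ℝ) ^ (1 - η) < |∑ v, Y (d v) - n * ∫ k, Y k ∂D|}
      ⊆ {d : Fin n → ℕ | ∃ v, (n : ℝ) < Y (d v)} ∪ {d : Fin n → ℕ | (n : ℝ) ^ (1 - η) / 2 ≤
      |(∑ v : Fin n, Y' (d v)) - (n : ℝ) * ∫ k, Y' k ∂D|} := by
    intro d hd
    by_cases hex : ∃ v, (n : ℝ) < Y (d v)
    · exact Or.inl hex
    · right
      push Not at hex
      simp only [Set.mem_ofPred_eq] at hd ⊢
      have e : ∑ v, Y (d v) = ∑ v, Y' (d v) := Finset.sum_congr rfl fun v _ => by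
        simp only [Y']; rw [if_pos (hex v)]
      rw [e] at hd
      have h1 : |∑ v, Y' (d v) - (n : ℝ) * ∫ k, Y k ∂D|
          ≤ |∑ v, Y' (d v) - (n : ℝ) * ∫ k, Y' k ∂D|
            + (n : ℝ) * (∫ k, Y k ∂D - ∫ k, Y' k ∂D) := by
        have h2 : (n : ℝ) * (∫ k, Y k ∂D - ∫ k, Y' k ∂D)
            = |(n : ℝ) * (∫ k, Y k ∂D - ∫ k, Y' k ∂D)| :=
          (abs_of_nonneg (mul_nonneg hn0.le hbias2)).symm
        rw [h2]
        have h3 : ∑ v, Y' (d v) - (n : ℝ) * ∫ k, Y k ∂D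
            = (∑ v, Y' (d v) - (n : ℝ) * ∫ k, Y' k ∂D)
              - (n : ℝ) * (∫ k, Y k ∂D - ∫ k, Y' k ∂D) := by ring
        rw [h3]
        exact abs_sub _ _
      have h4 : (n : ℝ) * (∫ k, Y k ∂D - ∫ k, Y' k ∂D) ≤ (n : ℝ) ^ (1 - η) / 2 :=
        (mul_le_mul_of_nonneg_left hbias1 hn0.le).trans hbias
      linarith
  exact (measure_mono hunion).trans ((measure_union_le _ _).trans (add_le_add htail hcheb2))

/-- `n ^ (-a) → 0`. -/
theorem deg_tendsto_npow (a : ℝ) (ha : 0 < a) :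
    Tendsto (fun n : ℕ => (n : ℝ) ^ (-a)) atTop (𝓝 0) :=
  (tendsto_rpow_neg_atTop ha).comp tendsto_natCast_atTop_atTop

theorem deg_wlln (D : Measure ℕ) [IsProbabilityMeasure D] (Y : ℕ → ℝ) (hY : ∀ k, 0 ≤ Y k)
    (r η : ℝ) (hr : 0 < r) (hr1 : r ≤ 1) (hη : 0 < η) (hη2 : 2 * η < r)
    (hint : Integrable (fun k => Y k ^ (1 + r)) D) :
    Tendsto (fun n : ℕ => Measure.pi (fun _ : Fin n => D)
      {d : Fin n → ℕ | (n : ℝ) ^ (1 - η) < |∑ v, Y (d v) - n * ∫ k, Y k ∂D|}) atTop (𝓝 0) := by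
  set E := ∫ k, Y k ^ (1 + r) ∂D with hE
  have hE0 : 0 ≤ E := integral_nonneg fun k => Real.rpow_nonneg (hY k) _
  have hb : ∀ᶠ n : ℕ in atTop, (n : ℝ) * ((n : ℝ) ^ (-r) * E) ≤ (n : ℝ) ^ (1 - η) / 2 := by
    have h1 : Tendsto (fun n : ℕ => (n : ℝ) ^ (-(r - η)) * E) atTop (𝓝 (0 * E)) :=
      (deg_tendsto_npow (r - η) (by linarith)).mul_const E
    rw [zero_mul] at h1
    filter_upwards [h1.eventually (gt_mem_nhds (show (0 : ℝ) < 1 / 2 by norm_num)),
      eventually_ge_atTop 1] with n h2 hn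
    have hn0 : (0 : ℝ) < n := by exact_mod_cast hn
    have e : (n : ℝ) * ((n : ℝ) ^ (-r) * E) = (n : ℝ) ^ (1 - η) * ((n : ℝ) ^ (-(r - η)) * E) := by
      have : (n : ℝ) * (n : ℝ) ^ (-r) = (n : ℝ) ^ (1 - η) * (n : ℝ) ^ (-(r - η)) := by
        nth_rewrite 1 [← Real.rpow_one (n : ℝ)]
        rw [← Real.rpow_add hn0, ← Real.rpow_add hn0]
        congr 1; ring
      rw [← mul_assoc, this, mul_assoc]
    rw [e]
    have : 0 < (n : ℝ) ^ (1 - η) := Real.rpow_pos_of_pos hn0 _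
    nlinarith
  have hlim : Tendsto (fun n : ℕ => ENNReal.ofReal ((n : ℝ) ^ (-r) * E)
      + ENNReal.ofReal (4 * (n : ℝ) ^ (-(r - 2 * η)) * E)) atTop (𝓝 0) := by
    have h1 : Tendsto (fun n : ℕ => (n : ℝ) ^ (-r) * E) atTop (𝓝 (0 * E)) :=
      (deg_tendsto_npow r hr).mul_const E
    have h2 : Tendsto (fun n : ℕ => 4 * (n : ℝ) ^ (-(r - 2 * η)) * E) atTop (𝓝 (4 * 0 * E)) :=
      ((deg_tendsto_npow (r - 2 * η) (by linarith)).const_mul 4).mul_const E
    have h3 := (ENNReal.tendsto_ofReal h1).add (ENNReal.tendsto_ofReal h2)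
    simpa using h3
  refine tendsto_of_tendsto_of_tendsto_of_le_of_le' tendsto_const_nhds hlim
    (Filter.Eventually.of_forall fun _ => zero_le) ?_
  filter_upwards [hb, eventually_ge_atTop 1] with n h1 h2
  exact deg_wlln_bound D Y hY r η hr hr1 hint n h2 h1

/-- the tail beyond `2 ^ j x₀` decays geometrically -/
theorem deg_tail_pow (G : ℝ → ℝ) (hG1 : ∀ x, G x ≤ 1) (s x0 : ℝ) (hx0 : 1 ≤ x0)
    (h : ∀ x, x0 ≤ x → G (2 * x) ≤ (2 : ℝ) ^ (-s) * G x) (j : ℕ) :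
    G (2 ^ j * x0) ≤ ((2 : ℝ) ^ (-s)) ^ j := by
  induction j with
  | zero => simpa using hG1 x0
  | succ j ih =>
    have h1 : x0 ≤ 2 ^ j * x0 := le_mul_of_one_le_left (by linarith) (one_le_pow₀ (by norm_num))
    have h2 := h _ h1
    have e : (2 : ℝ) ^ (j + 1) * x0 = 2 * (2 ^ j * x0) := by ring
    rw [e, pow_succ]
    refine h2.trans ?_
    have h3 : (0 : ℝ) < (2 : ℝ) ^ (-s) := by positivity
    nlinarith

theorem deg_moment_of_tail (D : Measure ℕ) [IsProbabilityMeasure D] (ρ x0 : ℝ) (hρ : 0 < ρ)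
    (hx0 : 1 ≤ x0)
    (h : ∀ x, x0 ≤ x → D.real {k : ℕ | 2 * x < k} ≤ (2 : ℝ) ^ (-(2 + 2 * ρ)) * D.real {k : ℕ | x < k}) :
    Integrable (fun k : ℕ => (k : ℝ) ^ (2 + ρ)) D := by
  have hG := deg_tail_pow (fun x => D.real {k : ℕ | x < k}) (fun x => measureReal_le_one) (2 + 2 * ρ)
    x0 hx0 h
  have hx0' : 0 < x0 := by linarith
  refine ⟨(measurable_of_countable _).aestronglyMeasurable, ?_⟩
  rw [hasFiniteIntegral_iff_ofReal (Filter.Eventually.of_forall fun k => by positivity)]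
  have hpt : ∀ k : ℕ, ENNReal.ofReal ((k : ℝ) ^ (2 + ρ)) ≤ ENNReal.ofReal ((2 * x0) ^ (2 + ρ))
      + ∑' j : ℕ, ({k : ℕ | 2 ^ j * x0 < (k : ℝ)}.indicator
        (fun _ => ENNReal.ofReal ((2 ^ (j + 2) * x0) ^ (2 + ρ))) k) := by
    intro k
    rcases lt_or_ge (k : ℝ) (2 * x0) with hk | hk
    · refine le_trans (ENNReal.ofReal_le_ofReal ?_) le_self_add
      exact Real.rpow_le_rpow (by positivity) hk.le (by linarith)
    · have h1 : 1 ≤ (k : ℝ) / (2 * x0) := by rw [le_div_iff₀ (by positivity)]; linarith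
      obtain ⟨j, hj1, hj2⟩ := exists_nat_pow_near h1 (by norm_num : (1 : ℝ) < 2)
      rw [le_div_iff₀ (by positivity)] at hj1
      rw [div_lt_iff₀ (by positivity)] at hj2
      have h2 : 2 ^ j * x0 < (k : ℝ) := by
        have : (0 : ℝ) < 2 ^ j * x0 := by positivity
        nlinarith
      refine le_trans ?_ le_add_self
      refine le_trans ?_ (ENNReal.le_tsum j)
      rw [Set.indicator_of_mem (by exact h2)]
      refine ENNReal.ofReal_le_ofReal (Real.rpow_le_rpow (by positivity) ?_ (by linarith))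
      calc (k : ℝ) ≤ 2 ^ (j + 1) * (2 * x0) := hj2.le
        _ = 2 ^ (j + 2) * x0 := by ring
  refine (lintegral_mono hpt).trans_lt ?_
  rw [lintegral_add_left measurable_const, lintegral_const, measure_univ, mul_one,
    lintegral_tsum (fun j => (measurable_of_countable _).aemeasurable)]
  refine ENNReal.add_lt_top.2 ⟨ENNReal.ofReal_lt_top, ?_⟩
  have hterm : ∀ j : ℕ, ∫⁻ k : ℕ, ({k : ℕ | 2 ^ j * x0 < (k : ℝ)}.indicator
        (fun _ => ENNReal.ofReal ((2 ^ (j + 2) * x0) ^ (2 + ρ))) k) ∂D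
      ≤ ENNReal.ofReal ((4 * x0) ^ (2 + ρ) * ((2 : ℝ) ^ (-ρ)) ^ j) := by
    intro j
    rw [lintegral_indicator MeasurableSet.of_discrete, lintegral_const,
      Measure.restrict_apply MeasurableSet.univ, Set.univ_inter, ← ofReal_measureReal,
      ← ENNReal.ofReal_mul (by positivity)]
    refine ENNReal.ofReal_le_ofReal ?_
    have h1 : (0 : ℝ) ≤ (2 ^ (j + 2) * x0) ^ (2 + ρ) := by positivity
    refine (mul_le_mul_of_nonneg_left (hG j) h1).trans (le_of_eq ?_)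
    have e1 : (2 : ℝ) ^ (j + 2) * x0 = 2 ^ j * (4 * x0) := by ring
    rw [e1, Real.mul_rpow (by positivity) (by positivity)]
    have e2 : ((2 : ℝ) ^ j) ^ (2 + ρ) * ((2 : ℝ) ^ (-(2 + 2 * ρ))) ^ j = ((2 : ℝ) ^ (-ρ)) ^ j := by
      rw [← Real.rpow_natCast 2 j, ← Real.rpow_natCast _ j, ← Real.rpow_natCast _ j,
        ← Real.rpow_mul (by norm_num), ← Real.rpow_mul (by norm_num), ← Real.rpow_mul (by norm_num),
        ← Real.rpow_add (by norm_num)]
      congr 1; ring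
    calc ((2 : ℝ) ^ j) ^ (2 + ρ) * (4 * x0) ^ (2 + ρ) * ((2 : ℝ) ^ (-(2 + 2 * ρ))) ^ j
        = (4 * x0) ^ (2 + ρ) * (((2 : ℝ) ^ j) ^ (2 + ρ) * ((2 : ℝ) ^ (-(2 + 2 * ρ))) ^ j) := by ring
      _ = _ := by rw [e2]
  have hsum : Summable (fun j : ℕ => (4 * x0) ^ (2 + ρ) * ((2 : ℝ) ^ (-ρ)) ^ j) := by
    refine (summable_geometric_of_lt_one (by positivity) ?_).mul_left _
    exact Real.rpow_lt_one_of_one_lt_of_neg (by norm_num) (by linarith)
  exact (ENNReal.tsum_le_tsum hterm).trans_lt hsum.tsum_ofReal_lt_top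

/-- Moments of order larger than `2` are finite and the support is unbounded. -/
theorem tail_moment (D : Measure ℕ) [IsProbabilityMeasure D] (L : ℝ → ℝ) (τ : ℝ) (hτ : 3 < τ)
    (hL : SlowlyVarying L)
    (htail : ∀ x : ℝ, 0 < x → D.real {k : ℕ | x < k} = L x * x ^ (-(τ - 1))) :
    (∃ ρ : ℝ, 0 < ρ ∧ ρ < 1 ∧ Integrable (fun k : ℕ => (k : ℝ) ^ (2 + ρ)) D) ∧
      ∀ m : ℕ, 0 < D {k : ℕ | m ≤ k} := by
  have hL2 := hL 2 (by norm_num)
  constructor
  · set s : ℝ := (τ - 3) / 2 with hs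
    have hs0 : 0 < s := by rw [hs]; linarith
    have h2s : (1 : ℝ) < (2 : ℝ) ^ s := Real.one_lt_rpow (by norm_num) hs0
    have hev : ∀ᶠ x : ℝ in atTop, L (2 * x) / L x < (2 : ℝ) ^ s ∧ 1 / 2 < L (2 * x) / L x ∧ 1 ≤ x := by
      filter_upwards [hL2.eventually (gt_mem_nhds h2s),
        hL2.eventually (lt_mem_nhds (show (1 : ℝ) / 2 < 1 by norm_num)), eventually_ge_atTop 1]
        with x h1 h2 h3
      exact ⟨h1, h2, h3⟩
    obtain ⟨x1, hx1⟩ := Filter.eventually_atTop.1 hev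
    set x0 := max x1 1
    set ρ : ℝ := min ((τ - 3) / 4) (1 / 2) with hρ
    have hρ0 : 0 < ρ := lt_min (by linarith) (by norm_num)
    have hρ1 : ρ < 1 := (min_le_right _ _).trans_lt (by norm_num)
    refine ⟨ρ, hρ0, hρ1, deg_moment_of_tail D ρ x0 hρ0 (le_max_right _ _) fun x hx => ?_⟩
    obtain ⟨h1, h2, h3⟩ := hx1 x ((le_max_left _ _).trans hx)
    have hx0 : 0 < x := by linarith
    have hLne : L x ≠ 0 := by
      intro h0
      rw [h0, div_zero] at h2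
      linarith
    have hLnn : 0 ≤ L x := by
      have h4 : 0 ≤ L x * x ^ (-(τ - 1)) := by rw [← htail x hx0]; exact measureReal_nonneg
      have h5 : 0 < x ^ (-(τ - 1)) := Real.rpow_pos_of_pos hx0 _
      exact nonneg_of_mul_nonneg_left h4 h5
    have hLpos : 0 < L x := lt_of_le_of_ne hLnn (Ne.symm hLne)
    rw [div_lt_iff₀ hLpos] at h1
    rw [htail _ hx0, htail _ (by positivity : 0 < 2 * x), Real.mul_rpow (by norm_num) hx0.le]
    have h5 : 0 < x ^ (-(τ - 1)) := Real.rpow_pos_of_pos hx0 _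
    have h6 : (2 : ℝ) ^ s * (2 : ℝ) ^ (-(τ - 1)) ≤ (2 : ℝ) ^ (-(2 + 2 * ρ)) := by
      rw [← Real.rpow_add (by norm_num)]
      refine Real.rpow_le_rpow_of_exponent_le (by norm_num) ?_
      have : ρ ≤ (τ - 3) / 4 := min_le_left _ _
      rw [hs]; linarith
    have h7 : 0 < (2 : ℝ) ^ (-(τ - 1)) := by positivity
    calc L (2 * x) * ((2 : ℝ) ^ (-(τ - 1)) * x ^ (-(τ - 1)))
        ≤ ((2 : ℝ) ^ s * L x) * ((2 : ℝ) ^ (-(τ - 1)) * x ^ (-(τ - 1))) :=
          mul_le_mul_of_nonneg_right h1.le (by positivity)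
      _ = ((2 : ℝ) ^ s * (2 : ℝ) ^ (-(τ - 1))) * (L x * x ^ (-(τ - 1))) := by ring
      _ ≤ (2 : ℝ) ^ (-(2 + 2 * ρ)) * (L x * x ^ (-(τ - 1))) :=
          mul_le_mul_of_nonneg_right h6 (by positivity)
  · intro m
    by_contra hm
    have hm0 : D {k : ℕ | m ≤ k} = 0 := by simpa using hm
    have hev : ∀ᶠ x : ℝ in atTop, L (2 * x) / L x = 0 := by
      filter_upwards [eventually_ge_atTop (max (m : ℝ) 1)] with x hx
      have hx0 : 0 < x := by have := (le_max_right (m : ℝ) 1).trans hx; linarith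
      have h1 : D.real {k : ℕ | x < k} = 0 := by
        rw [measureReal_def, measure_mono_null _ hm0]; · simp
        intro k hk
        have h2 : x < (k : ℝ) := hk
        have h3 : (m : ℝ) < k := ((le_max_left _ _).trans hx).trans_lt h2
        exact_mod_cast h3.le
      rw [htail x hx0] at h1
      have h5 : x ^ (-(τ - 1)) ≠ 0 := (Real.rpow_pos_of_pos hx0 _).ne'
      rcases mul_eq_zero.1 h1 with h | h
      · rw [h, div_zero]
      · exact absurd h h5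
    have := tendsto_nhds_unique (hL2.congr' hev) tendsto_const_nhds
    norm_num at this

theorem deg_fixParity_sum {n : ℕ} (d : Fin n → ℕ) (f : ℕ → ℝ) (B : ℝ) (hB : 0 ≤ B)
    (h : ∀ i : Fin n, i.1 + 1 = n → |f (d i + 1) - f (d i)| ≤ B) :
    |∑ v, f (fixParity d v) - ∑ v, f (d v)| ≤ B := by
  rw [← Finset.sum_sub_distrib]
  rcases Nat.eq_zero_or_pos n with h0 | h0
  · subst h0; simpa using hB
  · obtain ⟨m, rfl⟩ : ∃ m, n = m + 1 := ⟨n - 1, by omega⟩
    rw [Finset.sum_eq_single (Fin.last m)]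
    · unfold fixParity
      split_ifs with h1
      · exact h _ (by simp)
      · simpa using hB
    · intro i _ hi
      have h2 : ¬ (i.1 + 1 = m + 1) := by
        intro h3
        apply hi
        ext
        simp only [Fin.val_last]; omega
      unfold fixParity
      rw [if_neg (fun h4 => h2 h4.1), sub_self]
    · simp

theorem deg_fixParity_even {n : ℕ} (d : Fin n → ℕ) : Even (∑ v, fixParity d v) := by
  rcases Nat.eq_zero_or_pos n with h0 | h0
  · subst h0; simp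
  · obtain ⟨m, rfl⟩ : ∃ m, n = m + 1 := ⟨n - 1, by omega⟩
    by_cases ho : Odd (∑ j, d j)
    · have e : ∑ v, fixParity d v = (∑ v, d v) + 1 := by
        rw [Fin.sum_univ_castSucc, Fin.sum_univ_castSucc (f := d)]
        have e1 : ∀ i : Fin m, fixParity d i.castSucc = d i.castSucc := by
          intro i
          unfold fixParity
          rw [if_neg]
          rintro ⟨h1, -⟩
          simp only [Fin.val_castSucc] at h1
          have := i.2
          omega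
        have e2 : fixParity d (Fin.last m) = d (Fin.last m) + 1 := by
          unfold fixParity
          rw [if_pos ⟨by simp, ho⟩]
        rw [e2, Finset.sum_congr rfl (fun i _ => e1 i)]
        ring
      rw [e]
      exact ho.add_one
    · have e : fixParity d = d := by
        ext i
        unfold fixParity
        rw [if_neg (fun h => ho h.2)]
      rw [e]
      exact Nat.not_odd_iff_even.1 ho

theorem deg_le_fixParity {n : ℕ} (d : Fin n → ℕ) (v : Fin n) : d v ≤ fixParity d v := by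
  unfold fixParity
  split_ifs
  · exact Nat.le_succ _
  · exact le_rfl

/-- deterministic part of `reg_whp` -/
theorem deg_reg_det (ν m1 E3 q θ η0 : ℝ) (hν : 0 ≤ ν) (hm1 : 0 < m1) (hE3 : 0 ≤ E3) (_hq : 0 < q)
    (hθ : 0 < θ) (hθ1 : θ < 1) (hη0 : 0 < η0) (hη1 : η0 ≤ 1 / 2) (n : ℕ) (hn : 1 ≤ n)
    (hn1 : (3 + 2 * ν) * (n : ℝ) ^ (-(η0 / 2)) ≤ m1 / 2) (hn2 : (n : ℝ) ^ (-η0) ≤ m1 / 4)
    (hn3 : (n : ℝ) ^ (-η0) ≤ q / 4) (hn4 : 1 ≤ m1 / 4 * n) (hn5 : 1 ≤ q / 4 * n)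
    (d : Fin n → ℕ) (k m : ℕ)
    (g1 : |∑ v, (d v : ℝ) - n * m1| ≤ (n : ℝ) ^ (1 - η0))
    (g2 : |∑ v, (d v : ℝ) * ((d v : ℝ) - 1) - n * (ν * m1)| ≤ (n : ℝ) ^ (1 - η0))
    (g3 : |∑ v, (d v : ℝ) ^ (2 + θ) - n * E3| ≤ (n : ℝ) ^ (1 - η0))
    (g4 : |∑ v, (if d v = k then (1 : ℝ) else 0) - n * q| ≤ (n : ℝ) ^ (1 - η0))
    (g5 : ∀ i : Fin n, i.1 + 1 = n → (d i : ℝ) ≤ (n : ℝ) ^ (1 / 8 : ℝ))
    (g6 : ∃ v, m ≤ d v) :
    Reg ν (2 / m1 + m1 + E3 + 12) θ (η0 / 2) (q / 2) k m (fixParity d) := by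
  have hn0 : (0 : ℝ) < n := by exact_mod_cast hn
  have hn1' : (1 : ℝ) ≤ n := by exact_mod_cast hn
  have hsplit : (n : ℝ) ^ (1 - η0) = n * (n : ℝ) ^ (-η0) := by
    nth_rewrite 2 [← Real.rpow_one (n : ℝ)]
    rw [← Real.rpow_add hn0]; congr 1
  have hsmall1 : (n : ℝ) ^ (1 - η0) ≤ m1 / 4 * n := by
    rw [hsplit]; nlinarith
  have hsmall2 : (n : ℝ) ^ (1 - η0) ≤ q / 4 * n := by
    rw [hsplit]; nlinarith
  have hsmall3 : (n : ℝ) ^ (1 - η0) ≤ n := by
    calc (n : ℝ) ^ (1 - η0) ≤ (n : ℝ) ^ (1 : ℝ) := Real.rpow_le_rpow_of_exponent_le hn1' (by linarith)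
      _ = n := Real.rpow_one _
  have hone : (1 : ℝ) ≤ (n : ℝ) ^ (1 - η0) := Real.one_le_rpow hn1' (by linarith)
  have height : (n : ℝ) ^ (1 / 8 : ℝ) ≤ (n : ℝ) ^ (1 - η0) :=
    Real.rpow_le_rpow_of_exponent_le hn1' (by linarith)
  have height1 : (1 : ℝ) ≤ (n : ℝ) ^ (1 / 8 : ℝ) := Real.one_le_rpow hn1' (by norm_num)
  have hC : 0 < 2 / m1 + m1 + E3 + 12 := by positivity
  -- the four sums
  have s1 : |∑ v, (fixParity d v : ℝ) - ∑ v, (d v : ℝ)| ≤ 1 :=
    deg_fixParity_sum d (fun a => (a : ℝ)) 1 zero_le_one fun i _ => by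
      push_cast; simp
  have s2 : |∑ v, (fixParity d v : ℝ) * ((fixParity d v : ℝ) - 1)
      - ∑ v, (d v : ℝ) * ((d v : ℝ) - 1)| ≤ 2 * (n : ℝ) ^ (1 / 8 : ℝ) :=
    deg_fixParity_sum d (fun a => (a : ℝ) * ((a : ℝ) - 1)) _ (by positivity) fun i hi => by
      push_cast
      have e : ((d i : ℝ) + 1) * ((d i : ℝ) + 1 - 1) - (d i : ℝ) * ((d i : ℝ) - 1)
        = 2 * (d i : ℝ) := by ring
      rw [e, abs_of_nonneg (by positivity)]
      linarith [g5 i hi]
  have s3 : |∑ v, (fixParity d v : ℝ) ^ (2 + θ) - ∑ v, (d v : ℝ) ^ (2 + θ)| ≤ 8 * n :=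
    deg_fixParity_sum d (fun a => (a : ℝ) ^ (2 + θ)) _ (by positivity) fun i hi => by
      have h1 : ((d i : ℝ)) ^ (2 + θ) ≤ ((d i + 1 : ℕ) : ℝ) ^ (2 + θ) :=
        Real.rpow_le_rpow (by positivity) (by push_cast; linarith) (by linarith)
      have h2 : 0 ≤ ((d i : ℝ)) ^ (2 + θ) := by positivity
      rw [abs_of_nonneg (by linarith)]
      have h3 : ((d i + 1 : ℕ) : ℝ) ≤ 2 * (n : ℝ) ^ (1 / 8 : ℝ) := by
        push_cast; linarith [g5 i hi]
      have h4 : ((d i + 1 : ℕ) : ℝ) ^ (2 + θ) ≤ (2 * (n : ℝ) ^ (1 / 8 : ℝ)) ^ (3 : ℝ) := by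
        refine (Real.rpow_le_rpow (by positivity) h3 (by linarith)).trans ?_
        exact Real.rpow_le_rpow_of_exponent_le (by linarith) (by linarith)
      have h5 : (2 * (n : ℝ) ^ (1 / 8 : ℝ)) ^ (3 : ℝ) ≤ 8 * n := by
        rw [Real.mul_rpow (by norm_num) (by positivity), ← Real.rpow_mul hn0.le]
        have h6 : (n : ℝ) ^ (1 / 8 * 3 : ℝ) ≤ n := by
          calc (n : ℝ) ^ (1 / 8 * 3 : ℝ) ≤ (n : ℝ) ^ (1 : ℝ) :=
                Real.rpow_le_rpow_of_exponent_le hn1' (by norm_num)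
            _ = n := Real.rpow_one _
        have h7 : (2 : ℝ) ^ (3 : ℝ) = 8 := by norm_num
        rw [h7]; linarith
      linarith
  have s4 : |∑ v, (if fixParity d v = k then (1 : ℝ) else 0)
      - ∑ v, (if d v = k then (1 : ℝ) else 0)| ≤ 1 :=
    deg_fixParity_sum d (fun a => if a = k then (1 : ℝ) else 0) 1 zero_le_one fun i _ => by
      split_ifs <;> norm_num
  rw [abs_le] at g1 g2 g3 g4 s1 s2 s3 s4
  have hlow : (n : ℝ) * m1 / 2 ≤ ∑ v, (fixParity d v : ℝ) := by linarith [g1.1, s1.1]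
  refine ⟨deg_fixParity_even d, ?_, ?_, ?_, ?_, ?_, ?_⟩
  · have h1 : (n : ℝ) = 2 / m1 * ((n : ℝ) * m1 / 2) := by field_simp
    calc (n : ℝ) = 2 / m1 * ((n : ℝ) * m1 / 2) := h1
      _ ≤ 2 / m1 * ∑ v, (fixParity d v : ℝ) := by gcongr
      _ ≤ (2 / m1 + m1 + E3 + 12) * ∑ v, (fixParity d v : ℝ) := by
          have : (0 : ℝ) ≤ ∑ v, (fixParity d v : ℝ) := by positivity
          gcongr
          linarith
  · have h1 : (0 : ℝ) ≤ 2 / m1 * n := by positivity
    have h2 : (0 : ℝ) ≤ E3 * n := by positivity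
    have h3 : (2 / m1 + m1 + E3 + 12) * n = 2 / m1 * n + n * m1 + E3 * n + 12 * n := by ring
    rw [h3]
    linarith [g1.2, s1.2]
  · have hmain : |∑ v, (fixParity d v : ℝ) * ((fixParity d v : ℝ) - 1)
        - ν * ∑ v, (fixParity d v : ℝ)| ≤ (3 + 2 * ν) * (n : ℝ) ^ (1 - η0) := by
      have a1 := mul_le_mul_of_nonneg_left g1.1 hν
      have a2 := mul_le_mul_of_nonneg_left g1.2 hν
      have a3 := mul_le_mul_of_nonneg_left s1.1 hν
      have a4 := mul_le_mul_of_nonneg_left s1.2 hν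
      have a5 := mul_le_mul_of_nonneg_left hone hν
      rw [abs_le]
      obtain ⟨b1, b2⟩ := g2
      obtain ⟨c1, c2⟩ := s2
      constructor <;> linarith
    refine hmain.trans ?_
    have e1 : (n : ℝ) ^ (1 - η0) = (n : ℝ) ^ (-(η0 / 2)) * (n * (n : ℝ) ^ (-(η0 / 2))) := by
      nth_rewrite 3 [← Real.rpow_one (n : ℝ)]
      rw [← Real.rpow_add hn0, ← Real.rpow_add hn0]; congr 1; ring
    rw [e1]
    have hp : 0 < (n : ℝ) ^ (-(η0 / 2)) := Real.rpow_pos_of_pos hn0 _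
    calc (3 + 2 * ν) * ((n : ℝ) ^ (-(η0 / 2)) * (n * (n : ℝ) ^ (-(η0 / 2))))
        = ((3 + 2 * ν) * (n : ℝ) ^ (-(η0 / 2))) * (n * (n : ℝ) ^ (-(η0 / 2))) := by ring
      _ ≤ (m1 / 2) * (n * (n : ℝ) ^ (-(η0 / 2))) := by gcongr
      _ = ((n : ℝ) * m1 / 2) * (n : ℝ) ^ (-(η0 / 2)) := by ring
      _ ≤ (∑ v, (fixParity d v : ℝ)) * (n : ℝ) ^ (-(η0 / 2)) := by gcongr
  · have h1 : (0 : ℝ) ≤ 2 / m1 * n := by positivity
    have h2 : (0 : ℝ) ≤ n * m1 := by positivity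
    have h3 : (2 / m1 + m1 + E3 + 12) * n = 2 / m1 * n + n * m1 + n * E3 + 12 * n := by ring
    rw [h3]
    linarith [g3.2, s3.2]
  · have e : ((Finset.univ.filter fun v => fixParity d v = k).card : ℝ)
        = ∑ v, (if fixParity d v = k then (1 : ℝ) else 0) := by
      rw [Finset.sum_ite, Finset.sum_const_zero, add_zero, Finset.sum_const, nsmul_eq_mul, mul_one]
    rw [e]
    have h1 : q / 2 * n = n * q - q / 4 * n - q / 4 * n := by ring
    rw [h1]
    linarith [g4.1, s4.1]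
  · obtain ⟨v, hv⟩ := g6
    exact ⟨v, hv.trans (deg_le_fixParity d v)⟩

theorem deg_int_le (D : Measure ℕ) [IsProbabilityMeasure D] (ρ a : ℝ) (ha : 0 < a)
    (haρ : a ≤ 2 + ρ) (hmom : Integrable (fun k : ℕ => (k : ℝ) ^ (2 + ρ)) D) :
    Integrable (fun k : ℕ => (k : ℝ) ^ a) D := by
  refine hmom.mono' (measurable_of_countable _).aestronglyMeasurable
    (Filter.Eventually.of_forall fun k => ?_)
  rw [Real.norm_of_nonneg (by positivity)]
  rcases Nat.eq_zero_or_pos k with h | h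
  · subst h
    simp only [Nat.cast_zero]
    rw [Real.zero_rpow ha.ne', Real.zero_rpow (by linarith)]
  · exact Real.rpow_le_rpow_of_exponent_le (by exact_mod_cast h) haρ

theorem deg_last_bound (D : Measure ℕ) [IsProbabilityMeasure D] (n : ℕ) (hn : 1 ≤ n) (S : Set ℕ) :
    Measure.pi (fun _ : Fin n => D) {d : Fin n → ℕ | ∃ i : Fin n, i.1 + 1 = n ∧ d i ∈ S} ≤ D S := by
  obtain ⟨m, rfl⟩ : ∃ m, n = m + 1 := ⟨n - 1, by omega⟩
  rw [← deg_coord D (m + 1) (Fin.last m) S]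
  refine measure_mono ?_
  rintro d ⟨i, hi, hd⟩
  have : i = Fin.last m := by ext; simp only [Fin.val_last]; omega
  rw [this] at hd
  exact hd

theorem deg_last_tendsto (D : Measure ℕ) [IsProbabilityMeasure D]
    (hint : Integrable (fun k : ℕ => (k : ℝ)) D) :
    Tendsto (fun n : ℕ => Measure.pi (fun _ : Fin n => D)
      {d : Fin n → ℕ | ∃ i : Fin n, i.1 + 1 = n ∧ d i ∈ {k : ℕ | (n : ℝ) ^ (1 / 8 : ℝ) < k}})
      atTop (𝓝 0) := by
  have hlim : Tendsto (fun n : ℕ => ENNReal.ofReal ((n : ℝ) ^ (-(1 / 8 : ℝ)) * ∫ k : ℕ, (k : ℝ) ∂D))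
      atTop (𝓝 0) := by
    have h1 := (deg_tendsto_npow (1 / 8) (by norm_num)).mul_const (∫ k : ℕ, (k : ℝ) ∂D)
    have h2 := ENNReal.tendsto_ofReal h1
    simpa using h2
  refine tendsto_of_tendsto_of_tendsto_of_le_of_le' tendsto_const_nhds hlim
    (Filter.Eventually.of_forall fun _ => zero_le) ?_
  filter_upwards [eventually_ge_atTop 1] with n hn
  have hn0 : (0 : ℝ) < n := by exact_mod_cast hn
  refine (deg_last_bound D n hn {k : ℕ | (n : ℝ) ^ (1 / 8 : ℝ) < k}).trans ?_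
  rw [← ofReal_measureReal]
  refine ENNReal.ofReal_le_ofReal ?_
  have hmk := mul_meas_ge_le_integral_of_nonneg
    (Filter.Eventually.of_forall fun k : ℕ => Nat.cast_nonneg (α := ℝ) k) hint
    ((n : ℝ) ^ (1 / 8 : ℝ))
  have h3 : D.real {k : ℕ | (n : ℝ) ^ (1 / 8 : ℝ) < k} ≤ D.real {k : ℕ | (n : ℝ) ^ (1 / 8 : ℝ) ≤ k} :=
    measureReal_mono fun k (hk : (n : ℝ) ^ (1 / 8 : ℝ) < k) => hk.le
  have hp : 0 < (n : ℝ) ^ (1 / 8 : ℝ) := Real.rpow_pos_of_pos hn0 _
  rw [Real.rpow_neg hn0.le, ← div_eq_inv_mul, le_div_iff₀ hp, mul_comm]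
  exact (mul_le_mul_of_nonneg_left h3 hp.le).trans hmk

theorem deg_small_tendsto (D : Measure ℕ) [IsProbabilityMeasure D] (m : ℕ)
    (hm : 0 < D {k : ℕ | m ≤ k}) :
    Tendsto (fun n : ℕ => Measure.pi (fun _ : Fin n => D) {d : Fin n → ℕ | ∀ v, d v < m})
      atTop (𝓝 0) := by
  have h1 : D {k : ℕ | k < m} < 1 := by
    have h2 : {k : ℕ | k < m} = {k : ℕ | m ≤ k}ᶜ := by
      ext k; simp
    rw [h2, prob_compl_eq_one_sub MeasurableSet.of_discrete]
    exact ENNReal.sub_lt_self ENNReal.one_ne_top one_ne_zero hm.ne'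
  have h3 : ∀ n : ℕ, Measure.pi (fun _ : Fin n => D) {d : Fin n → ℕ | ∀ v, d v < m}
      = (D {k : ℕ | k < m}) ^ n := by
    intro n
    have e : {d : Fin n → ℕ | ∀ v, d v < m} = Set.pi Set.univ (fun _ : Fin n => {k : ℕ | k < m}) := by
      ext d; simp
    rw [e, Measure.pi_pi]
    simp
  simp only [h3]
  exact ENNReal.tendsto_pow_atTop_nhds_zero_of_lt_one h1

/-- I.i.d. degrees (with parity correction) are regular with probability tending to `1`. -/
theorem reg_whp (D : Measure ℕ) [IsProbabilityMeasure D] (ρ : ℝ) (hρ : 0 < ρ) (hρ1 : ρ < 1)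
    (hmom : Integrable (fun k : ℕ => (k : ℝ) ^ (2 + ρ)) D)
    (hunb : ∀ m : ℕ, 0 < D {k : ℕ | m ≤ k}) (hν : 1 < nu D) :
    ∃ (C θ η p : ℝ) (k : ℕ), 0 < C ∧ 0 < θ ∧ θ < 1 ∧ 0 < η ∧ 0 < p ∧ 1 ≤ k ∧
      ∀ m : ℕ, Tendsto (fun n : ℕ => Measure.pi (fun _ : Fin n => D)
        {d : Fin n → ℕ | Reg (nu D) C θ η p k m (fixParity d)}) atTop (𝓝 1) := by
  -- constants
  set m1 : ℝ := ∫ k : ℕ, (k : ℝ) ∂D with hm1def
  set m2 : ℝ := ∫ k : ℕ, (k : ℝ) * ((k : ℝ) - 1) ∂D with hm2def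
  have hnu : nu D = m2 / m1 := rfl
  have hm1nn : 0 ≤ m1 := integral_nonneg fun k => Nat.cast_nonneg k
  have hm1 : 0 < m1 := by
    rcases hm1nn.eq_or_lt with h | h
    · rw [hnu, ← h, div_zero] at hν
      linarith
    · exact h
  have hm2 : m2 = nu D * m1 := by rw [hnu]; field_simp
  set θ : ℝ := ρ / 2 with hθdef
  set E3 : ℝ := ∫ k : ℕ, (k : ℝ) ^ (2 + θ) ∂D with hE3def
  have hE3 : 0 ≤ E3 := integral_nonneg fun k => by positivity
  set r : ℝ := ρ / 8 with hrdef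
  set η0 : ℝ := ρ / 32 with hη0def
  have hr : 0 < r := by rw [hrdef]; linarith
  have hr1 : r ≤ 1 := by rw [hrdef]; linarith
  have hη0 : 0 < η0 := by rw [hη0def]; linarith
  have hη02 : 2 * η0 < r := by rw [hη0def, hrdef]; linarith
  obtain ⟨k0, hk0, hk0D⟩ : ∃ k : ℕ, 1 ≤ k ∧ 0 < D {k} := by
    by_contra hcon
    push Not at hcon
    have h1 : D {k : ℕ | 1 ≤ k} = 0 := by
      have e : {k : ℕ | 1 ≤ k} = ⋃ k ∈ {k : ℕ | 1 ≤ k}, {k} := (Set.biUnion_of_singleton _).symm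
      rw [e, measure_biUnion_null_iff (Set.to_countable _)]
      intro k hk
      exact nonpos_iff_eq_zero.1 (hcon k hk)
    exact absurd (hunb 1) (by rw [h1]; exact lt_irrefl _)
  set q : ℝ := D.real {k0} with hqdef
  have hq : 0 < q := by
    rw [hqdef, measureReal_def]
    exact ENNReal.toReal_pos hk0D.ne' (measure_ne_top _ _)
  -- integrability
  have hi1 : Integrable (fun k : ℕ => (k : ℝ) ^ (1 + r)) D :=
    deg_int_le D ρ _ (by linarith) (by linarith) hmom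
  have hi0 : Integrable (fun k : ℕ => (k : ℝ)) D := by
    have := deg_int_le D ρ 1 (by norm_num) (by linarith) hmom
    simpa using this
  have hY2 : ∀ k : ℕ, (0 : ℝ) ≤ (k : ℝ) * ((k : ℝ) - 1) := by
    intro k
    rcases Nat.eq_zero_or_pos k with h | h
    · subst h; simp
    · have : (1 : ℝ) ≤ k := by exact_mod_cast h
      exact mul_nonneg (by linarith) (by linarith)
  have hi2 : Integrable (fun k : ℕ => ((k : ℝ) * ((k : ℝ) - 1)) ^ (1 + r)) D := by
    refine (deg_int_le D ρ (2 * (1 + r)) (by linarith) (by rw [hrdef]; linarith) hmom).mono'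
      (measurable_of_countable _).aestronglyMeasurable (Filter.Eventually.of_forall fun k => ?_)
    rw [Real.norm_of_nonneg (Real.rpow_nonneg (hY2 k) _), Real.rpow_mul (Nat.cast_nonneg k)]
    refine Real.rpow_le_rpow (hY2 k) ?_ (by linarith)
    rw [Real.rpow_two]
    have : (0 : ℝ) ≤ k := Nat.cast_nonneg k
    nlinarith
  have hi3 : Integrable (fun k : ℕ => ((k : ℝ) ^ (2 + θ)) ^ (1 + r)) D := by
    have h1 := deg_int_le D ρ ((2 + θ) * (1 + r)) (by positivity)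
      (by rw [hθdef, hrdef]; nlinarith) hmom
    refine h1.congr (Filter.Eventually.of_forall fun k => ?_)
    exact Real.rpow_mul (Nat.cast_nonneg k) _ _
  have hi4 : Integrable (fun k : ℕ => (if k = k0 then (1 : ℝ) else 0) ^ (1 + r)) D := by
    refine (integrable_const (1 : ℝ)).mono'
      (measurable_of_countable _).aestronglyMeasurable (Filter.Eventually.of_forall fun k => ?_)
    split_ifs
    · simp
    · rw [Real.zero_rpow (by linarith)]; simp
  -- weak laws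
  have w1 := deg_wlln D (fun k : ℕ => (k : ℝ)) (fun k => Nat.cast_nonneg k) r η0 hr hr1 hη0 hη02 hi1
  have w2 := deg_wlln D (fun k : ℕ => (k : ℝ) * ((k : ℝ) - 1)) hY2 r η0 hr hr1 hη0 hη02 hi2
  have w3 := deg_wlln D (fun k : ℕ => (k : ℝ) ^ (2 + θ)) (fun k => by positivity) r η0 hr hr1 hη0
    hη02 hi3
  have w4 := deg_wlln D (fun k : ℕ => if k = k0 then (1 : ℝ) else 0)
    (fun k => by split_ifs <;> norm_num) r η0 hr hr1 hη0 hη02 hi4
  have w5 := deg_last_tendsto D hi0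
  have hq4 : ∫ k : ℕ, (if k = k0 then (1 : ℝ) else 0) ∂D = q := by
    rw [hqdef, ← integral_indicator_one (MeasurableSet.of_discrete)]
    congr 1
    ext k
    by_cases h : k = k0 <;> simp [h]
  rw [hq4] at w4
  rw [← hm1def] at w1
  rw [← hm2def, hm2] at w2
  rw [← hE3def] at w3
  refine ⟨2 / m1 + m1 + E3 + 12, θ, η0 / 2, q / 2, k0, by positivity, by positivity,
    by rw [hθdef]; linarith, by positivity, by positivity, hk0, fun m => ?_⟩
  have w6 := deg_small_tendsto D m (hunb m)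
  -- eventual numeric conditions
  have n1 : ∀ᶠ n : ℕ in atTop, (3 + 2 * nu D) * (n : ℝ) ^ (-(η0 / 2)) ≤ m1 / 2 := by
    have h1 := (deg_tendsto_npow (η0 / 2) (by linarith)).const_mul (3 + 2 * nu D)
    rw [mul_zero] at h1
    exact (h1.eventually (gt_mem_nhds (show (0 : ℝ) < m1 / 2 by linarith))).mono fun n h => h.le
  have n2 : ∀ᶠ n : ℕ in atTop, (n : ℝ) ^ (-η0) ≤ m1 / 4 :=
    ((deg_tendsto_npow η0 hη0).eventually
      (gt_mem_nhds (show (0 : ℝ) < m1 / 4 by linarith))).mono fun n h => h.le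
  have n3 : ∀ᶠ n : ℕ in atTop, (n : ℝ) ^ (-η0) ≤ q / 4 :=
    ((deg_tendsto_npow η0 hη0).eventually
      (gt_mem_nhds (show (0 : ℝ) < q / 4 by linarith))).mono fun n h => h.le
  have n4 : ∀ᶠ n : ℕ in atTop, 1 ≤ m1 / 4 * (n : ℝ) :=
    (tendsto_natCast_atTop_atTop.const_mul_atTop (by linarith : 0 < m1 / 4)).eventually_ge_atTop 1
  have n5 : ∀ᶠ n : ℕ in atTop, 1 ≤ q / 4 * (n : ℝ) :=
    (tendsto_natCast_atTop_atTop.const_mul_atTop (by linarith : 0 < q / 4)).eventually_ge_atTop 1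
  have hsum := ((((w1.add w2).add w3).add w4).add w5).add w6
  simp only [add_zero] at hsum
  have hlow : Tendsto (fun n : ℕ => 1 - (Measure.pi (fun _ : Fin n => D)
      {d : Fin n → ℕ | (n : ℝ) ^ (1 - η0) < |∑ v, (d v : ℝ) - n * m1|}
      + Measure.pi (fun _ : Fin n => D)
      {d : Fin n → ℕ | (n : ℝ) ^ (1 - η0) < |∑ v, (d v : ℝ) * ((d v : ℝ) - 1) - n * (nu D * m1)|}
      + Measure.pi (fun _ : Fin n => D)
      {d : Fin n → ℕ | (n : ℝ) ^ (1 - η0) < |∑ v, (d v : ℝ) ^ (2 + θ) - n * E3|}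
      + Measure.pi (fun _ : Fin n => D)
      {d : Fin n → ℕ | (n : ℝ) ^ (1 - η0) < |∑ v, (if d v = k0 then (1 : ℝ) else 0) - n * q|}
      + Measure.pi (fun _ : Fin n => D)
      {d : Fin n → ℕ | ∃ i : Fin n, i.1 + 1 = n ∧ d i ∈ {k : ℕ | (n : ℝ) ^ (1 / 8 : ℝ) < k}}
      + Measure.pi (fun _ : Fin n => D) {d : Fin n → ℕ | ∀ v, d v < m})) atTop (𝓝 1) := by
    have h1 := ENNReal.Tendsto.sub (tendsto_const_nhds (x := (1 : ENNReal)) (f := atTop)) hsum
      (Or.inl ENNReal.one_ne_top)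
    rw [tsub_zero] at h1
    exact h1
  refine tendsto_of_tendsto_of_tendsto_of_le_of_le' hlow tendsto_const_nhds ?_
    (Filter.Eventually.of_forall fun n => prob_le_one)
  filter_upwards [n1, n2, n3, n4, n5, eventually_ge_atTop 1] with n a1 a2 a3 a4 a5 a6
  rw [tsub_le_iff_right]
  have huniv : (1 : ENNReal) = Measure.pi (fun _ : Fin n => D) Set.univ := measure_univ.symm
  rw [huniv]
  have hcov : (Set.univ : Set (Fin n → ℕ)) ⊆
      {d : Fin n → ℕ | Reg (nu D) (2 / m1 + m1 + E3 + 12) θ (η0 / 2) (q / 2) k0 m (fixParity d)} ∪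
      ((((({d : Fin n → ℕ | (n : ℝ) ^ (1 - η0) < |∑ v, (d v : ℝ) - n * m1|}
      ∪ {d : Fin n → ℕ | (n : ℝ) ^ (1 - η0) < |∑ v, (d v : ℝ) * ((d v : ℝ) - 1) - n * (nu D * m1)|})
      ∪ {d : Fin n → ℕ | (n : ℝ) ^ (1 - η0) < |∑ v, (d v : ℝ) ^ (2 + θ) - n * E3|})
      ∪ {d : Fin n → ℕ | (n : ℝ) ^ (1 - η0) < |∑ v, (if d v = k0 then (1 : ℝ) else 0) - n * q|})
      ∪ {d : Fin n → ℕ | ∃ i : Fin n, i.1 + 1 = n ∧ d i ∈ {k : ℕ | (n : ℝ) ^ (1 / 8 : ℝ) < k}})
      ∪ {d : Fin n → ℕ | ∀ v, d v < m}) := by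
    intro d _
    by_cases b1 : (n : ℝ) ^ (1 - η0) < |∑ v, (d v : ℝ) - n * m1|
    · exact Or.inr (Or.inl (Or.inl (Or.inl (Or.inl (Or.inl b1)))))
    by_cases b2 : (n : ℝ) ^ (1 - η0) < |∑ v, (d v : ℝ) * ((d v : ℝ) - 1) - n * (nu D * m1)|
    · exact Or.inr (Or.inl (Or.inl (Or.inl (Or.inl (Or.inr b2)))))
    by_cases b3 : (n : ℝ) ^ (1 - η0) < |∑ v, (d v : ℝ) ^ (2 + θ) - n * E3|
    · exact Or.inr (Or.inl (Or.inl (Or.inl (Or.inr b3))))
    by_cases b4 : (n : ℝ) ^ (1 - η0) < |∑ v, (if d v = k0 then (1 : ℝ) else 0) - n * q|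
    · exact Or.inr (Or.inl (Or.inl (Or.inr b4)))
    by_cases b5 : ∃ i : Fin n, i.1 + 1 = n ∧ d i ∈ {k : ℕ | (n : ℝ) ^ (1 / 8 : ℝ) < k}
    · exact Or.inr (Or.inl (Or.inr b5))
    by_cases b6 : ∀ v, d v < m
    · exact Or.inr (Or.inr b6)
    left
    push Not at b5 b6
    refine deg_reg_det (nu D) m1 E3 q θ η0 (by linarith) hm1 hE3 hq (by positivity)
      (by rw [hθdef]; linarith) hη0 (by rw [hη0def]; linarith) n a6 a1 a2 a3 a4 a5 d k0 m
      (not_lt.1 b1) (not_lt.1 b2) (not_lt.1 b3) (not_lt.1 b4) (fun i hi => ?_) b6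
    have := b5 i hi
    exact not_lt.1 this
  refine (measure_mono hcov).trans ?_
  refine (measure_union_le _ _).trans (add_le_add le_rfl ?_)
  refine (measure_union_le _ _).trans (add_le_add ?_ le_rfl)
  refine (measure_union_le _ _).trans (add_le_add ?_ le_rfl)
  refine (measure_union_le _ _).trans (add_le_add ?_ le_rfl)
  refine (measure_union_le _ _).trans (add_le_add ?_ le_rfl)
  exact measure_union_le _ _

end Pool.Agent.H86.CM
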