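import Pool.Agent.H86.CM.MatchDefs

/-! MODULE MATCH: uniform pairings containing given pairs. -/

namespace Pool.Agent.H86.CM

variable {H : Type} [Fintype H] [DecidableEq H]

omit [Fintype H] [DecidableEq H] in
theorem match_inj (σ : Pairing H) {x y : H} (h : σ.1 x = σ.1 y) : x = y := by
  rw [← σ.2.1 x, h, σ.2.1]

omit [Fintype H] [DecidableEq H] in
/-- Conjugation of a pairing. -/
def match_conj (τ : Equiv.Perm H) (σ : Pairing H) : Pairing H :=
  ⟨fun x => τ (σ.1 (τ.symm x)), by simp [σ.2.1], fun h => by
    intro e
    apply σ.2.2 (τ.symm h)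
    have := congrArg τ.symm e
    simpa using this⟩

omit [Fintype H] [DecidableEq H] in
theorem match_conj_apply (τ : Equiv.Perm H) (σ : Pairing H) (x : H) :
    (match_conj τ σ).1 x = τ (σ.1 (τ.symm x)) := rfl

omit [Fintype H] [DecidableEq H] in
theorem match_mem_ends {A : List (H × H)} {x : H} :
    x ∈ ends A ↔ ∃ p ∈ A, x = p.1 ∨ x = p.2 := by
  simp [ends]

omit [Fintype H] [DecidableEq H] in
theorem match_ends_cons (p : H × H) (A : List (H × H)) :
    ends (p :: A) = p.1 :: p.2 :: ends A := rfl

omit [Fintype H] [DecidableEq H] in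
theorem match_ends_append (A B : List (H × H)) : ends (A ++ B) = ends A ++ ends B := by
  simp [ends]

omit [Fintype H] [DecidableEq H] in
theorem match_ends_length (A : List (H × H)) : (ends A).length = 2 * A.length := by
  induction A with
  | nil => rfl
  | cons p A ih =>
    rw [match_ends_cons]
    simp only [List.length_cons, ih]
    ring

omit [Fintype H] [DecidableEq H] in
/-- The partner of a used element is used. -/
theorem match_partner (σ : Pairing H) {A : List (H × H)} (hA : Contains σ A) {x : H}
    (hx : σ.1 x ∈ ends A) : x ∈ ends A := by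
  rw [match_mem_ends] at hx ⊢
  obtain ⟨p, hp, h | h⟩ := hx
  · refine ⟨p, hp, Or.inr ?_⟩
    rw [← hA p hp, ← h, σ.2.1]
  · refine ⟨p, hp, Or.inl ?_⟩
    rw [← hA p hp] at h
    exact match_inj σ h

omit [Fintype H] in
/-- Conjugation by the transposition of two unused elements preserves `Contains`. -/
theorem match_conj_contains (σ : Pairing H) {A : List (H × H)} (hA : Contains σ A) {g g' : H}
    (hg : g ∉ ends A) (hg' : g' ∉ ends A) : Contains (match_conj (Equiv.swap g g') σ) A := by
  intro p hp
  have h1 : p.1 ∈ ends A := match_mem_ends.2 ⟨p, hp, Or.inl rfl⟩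
  have h2 : p.2 ∈ ends A := match_mem_ends.2 ⟨p, hp, Or.inr rfl⟩
  have e1 : Equiv.swap g g' p.1 = p.1 :=
    Equiv.swap_apply_of_ne_of_ne (fun h => hg (h ▸ h1)) (fun h => hg' (h ▸ h1))
  have e2 : Equiv.swap g g' p.2 = p.2 :=
    Equiv.swap_apply_of_ne_of_ne (fun h => hg (h ▸ h2)) (fun h => hg' (h ▸ h2))
  rw [match_conj_apply, Equiv.symm_swap, e1, hA p hp, e2]

omit [DecidableEq H] in
theorem match_exists (hH : Even (Fintype.card H)) : Nonempty (Pairing H) := by
  obtain ⟨m, hm⟩ := hH
  have e : H ≃ Fin m ⊕ Fin m := by
    apply Fintype.equivOfCardEq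
    simp [hm]
  refine ⟨⟨fun x => e.symm (e x).swap, by simp, ?_⟩⟩
  intro h heq
  have : (e h).swap = e h := by
    have := congrArg e heq
    simpa using this
  rcases hx : e h with a | a
  · rw [hx] at this; simp at this
  · rw [hx] at this; simp at this

omit [DecidableEq H] in
theorem match_exists_contains (hH : Even (Fintype.card H)) (A : List (H × H))
    (hA : (ends A).Nodup) : ∃ σ : Pairing H, Contains σ A := by
  classical
  induction A with
  | nil =>
    obtain ⟨σ⟩ := match_exists hH
    exact ⟨σ, fun p hp => by simp at hp⟩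
  | cons p A ih =>
    rw [match_ends_cons] at hA
    simp only [List.nodup_cons, List.mem_cons, not_or] at hA
    obtain ⟨⟨h1, h2⟩, h3, h4⟩ := hA
    obtain ⟨σ, hσ⟩ := ih h4
    have hs : σ.1 p.1 ∉ ends A := fun h => h2 (match_partner σ hσ h)
    refine ⟨match_conj (Equiv.swap (σ.1 p.1) p.2) σ, ?_⟩
    intro q hq
    rw [List.mem_cons] at hq
    rcases hq with rfl | hq
    · rw [match_conj_apply, Equiv.symm_swap,
        Equiv.swap_apply_of_ne_of_ne (fun h => σ.2.2 _ h.symm) h1, Equiv.swap_apply_left]
    · exact match_conj_contains σ hσ hs h3 q hq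

theorem numContains_pos (hH : Even (Fintype.card H)) (A : List (H × H))
    (hA : (ends A).Nodup) : 0 < numContains A := by
  classical
  obtain ⟨σ, hσ⟩ := match_exists_contains hH A hA
  unfold numContains
  apply Finset.card_pos.2
  exact ⟨σ, Finset.mem_filter.2 ⟨Finset.mem_univ _, hσ⟩⟩

omit [Fintype H] [DecidableEq H] in
theorem match_contains_append (σ : Pairing H) (A B : List (H × H)) :
    Contains σ (A ++ B) ↔ Contains σ A ∧ Contains σ B := by
  unfold Contains
  simp only [List.mem_append]
  constructor
  · intro h
    exact ⟨fun p hp => h p (Or.inl hp), fun p hp => h p (Or.inr hp)⟩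
  · rintro ⟨h1, h2⟩ p (hp | hp)
    · exact h1 p hp
    · exact h2 p hp

theorem match_one (A : List (H × H)) (a b : H) (hA : (ends A).Nodup) (ha : a ∉ ends A)
    (hb : b ∉ ends A) (hab : a ≠ b) :
    (numContains A : ℝ) = ((Fintype.card H : ℝ) - 2 * A.length - 1) *
      numContains (A ++ [(a, b)]) := by
  classical
  have hfib : ∀ g : H, g ∉ ends A → g ≠ a →
      ((Finset.univ.filter fun σ : Pairing H => Contains σ A).filter
        fun σ => σ.1 a = g).card = numContains (A ++ [(a, b)]) := by
    intro g hg hga
    unfold numContains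
    apply Finset.card_bij (fun σ _ => match_conj (Equiv.swap g b) σ)
    · intro σ hσ
      rw [Finset.mem_filter, Finset.mem_filter] at hσ
      rw [Finset.mem_filter]
      refine ⟨Finset.mem_univ _, (match_contains_append _ _ _).2
        ⟨match_conj_contains σ hσ.1.2 hg hb, ?_⟩⟩
      intro p hp
      rw [List.mem_singleton] at hp
      subst hp
      rw [match_conj_apply, Equiv.symm_swap, Equiv.swap_apply_of_ne_of_ne hga.symm hab, hσ.2,
        Equiv.swap_apply_left]
    · intro σ _ σ' _ h
      apply Subtype.ext
      funext x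
      have := congrFun (congrArg Subtype.val h) (Equiv.swap g b x)
      rw [match_conj_apply, match_conj_apply] at this
      simpa using this
    · intro σ hσ
      rw [Finset.mem_filter, match_contains_append] at hσ
      refine ⟨match_conj (Equiv.swap g b) σ, ?_, ?_⟩
      · rw [Finset.mem_filter, Finset.mem_filter]
        refine ⟨⟨Finset.mem_univ _, match_conj_contains σ hσ.2.1 hg hb⟩, ?_⟩
        have := hσ.2.2 (a, b) (List.mem_singleton.2 rfl)
        rw [match_conj_apply, Equiv.symm_swap, Equiv.swap_apply_of_ne_of_ne hga.symm hab, this,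
          Equiv.swap_apply_right]
      · apply Subtype.ext
        funext x
        rw [match_conj_apply, match_conj_apply]
        simp
  have hzero : ∀ g : H, (g ∈ ends A ∨ g = a) →
      ((Finset.univ.filter fun σ : Pairing H => Contains σ A).filter
        fun σ => σ.1 a = g).card = 0 := by
    intro g hg
    rw [Finset.card_eq_zero, Finset.eq_empty_iff_forall_notMem]
    intro σ hσ
    rw [Finset.mem_filter, Finset.mem_filter] at hσ
    rcases hg with hg | hg
    · exact ha (match_partner σ hσ.1.2 (by rw [hσ.2]; exact hg))
    · exact σ.2.2 a (hσ.2.trans hg)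
  have hsum : numContains A = ∑ g : H, ((Finset.univ.filter fun σ : Pairing H =>
      Contains σ A).filter fun σ => σ.1 a = g).card := by
    unfold numContains
    exact Finset.card_eq_sum_card_fiberwise (fun σ _ => Finset.mem_univ (σ.1 a))
  have hval : ∀ g : H, ((Finset.univ.filter fun σ : Pairing H =>
      Contains σ A).filter fun σ => σ.1 a = g).card
      = if g ∈ (insert a (ends A).toFinset) then 0 else numContains (A ++ [(a, b)]) := by
    intro g
    split_ifs with h
    · apply hzero
      rw [Finset.mem_insert, List.mem_toFinset] at h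
      exact h.symm
    · rw [Finset.mem_insert, List.mem_toFinset, not_or] at h
      exact hfib g h.2 h.1
  rw [Finset.sum_congr rfl fun g _ => hval g] at hsum
  have hcard : (insert a (ends A).toFinset).card = 2 * A.length + 1 := by
    rw [Finset.card_insert_of_notMem (by rwa [List.mem_toFinset]),
      List.toFinset_card_of_nodup hA, match_ends_length]
  have h2 : ∑ g : H, (if g ∈ (insert a (ends A).toFinset) then 0 else
      numContains (A ++ [(a, b)])) = (insert a (ends A).toFinset)ᶜ.card
        * numContains (A ++ [(a, b)]) := by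
    rw [← Finset.sum_filter_add_sum_filter_not Finset.univ
      (fun g => g ∈ (insert a (ends A).toFinset))]
    rw [Finset.sum_congr rfl (g := fun _ => 0) (fun g hg => by
      rw [Finset.mem_filter] at hg; rw [if_pos hg.2])]
    rw [Finset.sum_congr (s₁ := Finset.univ.filter fun g => ¬ g ∈ (insert a (ends A).toFinset)) rfl
      (g := fun _ => numContains (A ++ [(a, b)])) (fun g hg => by
      rw [Finset.mem_filter] at hg; rw [if_neg hg.2])]
    rw [Finset.sum_const_zero, zero_add, Finset.sum_const, smul_eq_mul]
    congr 2
    ext g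
    simp
  rw [h2] at hsum
  have h3 := Finset.card_add_card_compl (insert a (ends A).toFinset)
  rw [hcard] at h3
  have h4 : (((insert a (ends A).toFinset)ᶜ.card : ℕ) : ℝ)
      = (Fintype.card H : ℝ) - 2 * A.length - 1 := by
    have : ((2 * A.length + 1 + (insert a (ends A).toFinset)ᶜ.card : ℕ) : ℝ)
        = (Fintype.card H : ℝ) := by rw [h3]
    push_cast at this
    linarith
  rw [hsum]
  push_cast
  rw [h4]

theorem numContains_append (hH : Even (Fintype.card H)) (A B : List (H × H))
    (h : (ends (A ++ B)).Nodup) :
    (numContains (A ++ B) : ℝ) / numContains A =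
      ∏ i ∈ Finset.range B.length,
        1 / ((Fintype.card H : ℝ) - 2 * A.length - 2 * i - 1) := by
  induction B generalizing A with
  | nil =>
    have hA : (ends A).Nodup := by simpa using h
    have : (numContains A : ℝ) ≠ 0 := by exact_mod_cast (numContains_pos hH A hA).ne'
    simp [this]
  | cons p B ih =>
    have e : A ++ p :: B = (A ++ [p]) ++ B := by simp
    rw [e] at h ⊢
    have hAp : (ends (A ++ [p])).Nodup := by
      rw [match_ends_append] at h
      exact (List.nodup_append.1 h).1
    have hAp' := hAp
    rw [match_ends_append, List.nodup_append] at hAp'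
    obtain ⟨hA, hp, hdis⟩ := hAp'
    have hp' : ends [p] = [p.1, p.2] := rfl
    rw [hp'] at hp hdis
    have h1 := match_one A p.1 p.2 hA (fun h' => hdis _ h' _ (by simp) rfl)
      (fun h' => hdis _ h' _ (by simp) rfl) (by
        simp only [List.nodup_cons, List.mem_singleton] at hp
        exact hp.1)
    have hpos1 : (numContains A : ℝ) ≠ 0 := by exact_mod_cast (numContains_pos hH A hA).ne'
    have hpos2 : (numContains (A ++ [p]) : ℝ) ≠ 0 := by
      exact_mod_cast (numContains_pos hH _ hAp).ne'
    have hih := ih (A ++ [p]) h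
    have hc : (Fintype.card H : ℝ) - 2 * A.length - 1 ≠ 0 := by
      intro h0
      rw [h0, zero_mul] at h1
      exact hpos1 h1
    rw [List.length_cons, Finset.prod_range_succ']
    have e2 : (numContains ((A ++ [p]) ++ B) : ℝ) / numContains A
        = ((numContains ((A ++ [p]) ++ B) : ℝ) / numContains (A ++ [p]))
          * (1 / ((Fintype.card H : ℝ) - 2 * A.length - 1)) := by
      rw [h1]
      have : (A ++ [(p.1, p.2)]) = A ++ [p] := rfl
      rw [this]
      field_simp
    rw [e2, hih]
    congr 1
    · apply Finset.prod_congr rfl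
      intro i _
      congr 1
      simp only [List.length_append, List.length_cons, List.length_nil]
      push_cast
      ring
    · congr 1
      push_cast
      ring

omit [Fintype H] [DecidableEq H] in
/-- If the list is contained in some pairing and no pair is repeated (in either order), then all
its entries are distinct. -/
theorem match_ends_nodup (σ : Pairing H) (A : List (H × H)) (hc : Contains σ A)
    (h1 : (A.map Prod.fst).Nodup) (h2 : ∀ p ∈ A, ∀ q ∈ A, p.1 ≠ q.2) : (ends A).Nodup := by
  induction A with
  | nil => simp [ends]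
  | cons p A ih =>
    rw [List.map_cons, List.nodup_cons] at h1
    rw [match_ends_cons, List.nodup_cons, List.nodup_cons, List.mem_cons, not_or]
    have hfst : ∀ q ∈ A, p.1 ≠ q.1 := by
      intro q hq e
      exact h1.1 (List.mem_map.2 ⟨q, hq, e.symm⟩)
    refine ⟨⟨h2 p (by simp) p (by simp), ?_⟩, ?_, ?_⟩
    · intro h
      obtain ⟨q, hq, e | e⟩ := match_mem_ends.1 h
      · exact hfst q hq e
      · exact h2 p (by simp) q (by simp [hq]) e
    · intro h
      obtain ⟨q, hq, e | e⟩ := match_mem_ends.1 h
      · exact h2 q (by simp [hq]) p (by simp) e.symm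
      · apply hfst q hq
        apply match_inj σ
        rw [hc p (by simp), hc q (by simp [hq]), e]
    · exact ih (fun q hq => hc q (by simp [hq])) h1.2
        (fun a ha b hb => h2 a (by simp [ha]) b (by simp [hb]))

/-- If the list is contained in some pairing and no pair is repeated (in either order), then all
its entries are distinct. -/
theorem ends_nodup_of_contains (σ : Pairing H) (A : List (H × H)) (hc : Contains σ A)
    (h1 : (A.map Prod.fst).Nodup) (h2 : ∀ p ∈ A, ∀ q ∈ A, p.1 ≠ q.2) : (ends A).Nodup :=
  match_ends_nodup σ A hc h1 h2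

end Pool.Agent.H86.CM
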