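import Pool.Agent.H86.CM.CoreDefs
import Pool.Agent.H86.CM.Match
import Pool.Agent.H86.CM.Analysis

/-! MODULE LAW: probabilities of configurations, laws of weights, numbers, second moments. -/

open MeasureTheory ProbabilityTheory

namespace Pool.Agent.H86.CM

variable {n : ℕ} {d : Fin n → ℕ}

instance instProbWLaw (I : Bool → Measure ℝ) [∀ c, IsProbabilityMeasure (I c)] :
    IsProbabilityMeasure (wLaw d I) := by
  unfold wLaw
  infer_instance

theorem law_msc (H : Type) : MeasurableSingletonClass (Pairing H) := ⟨fun _ => trivial⟩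

theorem law_meas_set (H : Type) (s : Set (Pairing H)) : MeasurableSet s := trivial

theorem law_prob_uniform (heven : Even (Fintype.card (HE d))) (A : List (HE d × HE d))
    (hA : (ends A).Nodup) :
    IsProbabilityMeasure (uniformOn {σ : Pairing (HE d) | Contains σ A}) := by
  have := law_msc (HE d)
  obtain ⟨σ, hσ⟩ := match_exists_contains heven A hA
  exact isProbabilityMeasure_uniformOn (Set.toFinite _) ⟨σ, hσ⟩

theorem PA_prob (I : Bool → Measure ℝ) [∀ c, IsProbabilityMeasure (I c)]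
    (heven : Even (Fintype.card (HE d))) (A : List (HE d × HE d)) (hA : (ends A).Nodup) :
    IsProbabilityMeasure (PA d I A) := by
  have := law_prob_uniform heven A hA
  unfold PA
  infer_instance

theorem law_count (A : List (HE d × HE d)) :
    Measure.count {σ : Pairing (HE d) | Contains σ A} = (numContains A : ENNReal) := by
  have := law_msc (HE d)
  rw [Measure.count_apply_finite _ (Set.toFinite _)]
  unfold numContains
  congr 2
  ext σ
  simp

theorem law_uniform (heven : Even (Fintype.card (HE d))) (A B : List (HE d × HE d))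
    (h : (ends (A ++ B)).Nodup) :
    (uniformOn {σ : Pairing (HE d) | Contains σ A}).real {σ | Contains σ B} =
      kap (Fintype.card (HE d)) A.length B.length := by
  rw [kap, ← numContains_append heven A B h, Measure.real, uniformOn,
    cond_apply (law_meas_set _ _)]
  have e : {σ : Pairing (HE d) | Contains σ A} ∩ {σ | Contains σ B} =
      {σ | Contains σ (A ++ B)} := by
    ext σ
    simp only [Set.mem_inter_iff, Set.mem_ofPred_eq]
    exact (match_contains_append σ A B).symm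
  rw [e, law_count, law_count, ENNReal.toReal_mul, ENNReal.toReal_inv, ENNReal.toReal_natCast,
    ENNReal.toReal_natCast]
  ring

theorem PA_rect (I : Bool → Measure ℝ) [∀ c, IsProbabilityMeasure (I c)]
    (heven : Even (Fintype.card (HE d))) (A B : List (HE d × HE d))
    (h : (ends (A ++ B)).Nodup) (S : Set (Weights d)) :
    (PA d I A).real {ω | Contains ω.1 B ∧ ω.2 ∈ S} =
      kap (Fintype.card (HE d)) A.length B.length * (wLaw d I).real S := by
  have e : {ω : Pairing (HE d) × Weights d | Contains ω.1 B ∧ ω.2 ∈ S} =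
      {σ | Contains σ B} ×ˢ S := by
    ext ω
    simp [Set.mem_prod]
  rw [PA, Measure.real, e, Measure.prod_prod, ENNReal.toReal_mul, ← Measure.real, ← Measure.real,
    law_uniform heven A B h]

theorem law_wLaw_neg (I : Bool → Measure ℝ) [∀ c, IsProbabilityMeasure (I c)]
    (hI : ∀ c, I c (Set.Iio 0) = 0) :
    wLaw d I {w | ¬ ∀ e, 0 ≤ w e} = 0 := by
  have e : {w : Weights d | ¬ ∀ e, 0 ≤ w e} = ⋃ e, {w : Weights d | w e < 0} := by
    ext w
    simp only [Set.mem_ofPred_eq, Set.mem_iUnion, not_forall, not_le]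
  rw [e, measure_iUnion_null_iff]
  intro i
  have h := (measurePreserving_eval (fun e : Bool × Sym2 (HE d) => I e.1) i).measure_preimage
    (s := Set.Iio (0 : ℝ)) measurableSet_Iio.nullMeasurableSet
  rw [hI] at h
  exact h

/-- Almost surely the pairing contains `A` and the weights are nonnegative. -/
theorem PA_ae (I : Bool → Measure ℝ) [∀ c, IsProbabilityMeasure (I c)]
    (hI : ∀ c, I c (Set.Iio 0) = 0)
    (heven : Even (Fintype.card (HE d))) (A : List (HE d × HE d)) (hA : (ends A).Nodup) :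
    PA d I A {ω | ¬ (Contains ω.1 A ∧ ∀ e, 0 ≤ ω.2 e)} = 0 := by
  have := law_prob_uniform heven A hA
  have hsub : {ω : Pairing (HE d) × Weights d | ¬ (Contains ω.1 A ∧ ∀ e, 0 ≤ ω.2 e)} ⊆
      ({σ | ¬ Contains σ A} ×ˢ Set.univ) ∪ (Set.univ ×ˢ {w | ¬ ∀ e, 0 ≤ w e}) := by
    intro ω hω
    simp only [Set.mem_union, Set.mem_prod, Set.mem_univ, and_true, true_and, Set.mem_ofPred_eq]
    simp only [Set.mem_ofPred_eq] at hω
    tauto
  apply measure_mono_null hsub
  rw [measure_union_null_iff]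
  unfold PA
  constructor
  · rw [Measure.prod_prod, uniformOn, cond_apply (law_meas_set _ _)]
    have e : {σ : Pairing (HE d) | Contains σ A} ∩ {σ | ¬ Contains σ A} = ∅ := by
      ext σ
      simp
    rw [e, measure_empty, mul_zero, zero_mul]
  · rw [Measure.prod_prod, law_wLaw_neg I hI, mul_zero]

theorem measurable_cLen (c : Bool) (B : List (HE d × HE d)) :
    Measurable fun w : Weights d => cLen w c B := by
  unfold cLen
  induction B with
  | nil => simp
  | cons p B ih =>
    simp only [List.map_cons, List.sum_cons]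
    exact (measurable_pi_apply _).add ih

/-! ### Index sets -/

/-- The indices of the weights used by a configuration. -/
def law_idx (c : Bool) (B : List (HE d × HE d)) : Finset (Bool × Sym2 (HE d)) :=
  (B.map fun p => (c, s(p.1, p.2))).toFinset

theorem law_mem_idx {c : Bool} {B : List (HE d × HE d)} {i : Bool × Sym2 (HE d)} :
    i ∈ law_idx c B ↔ ∃ p ∈ B, (c, s(p.1, p.2)) = i := by
  simp [law_idx]

theorem law_idx_fst {c : Bool} {B : List (HE d × HE d)} {i : Bool × Sym2 (HE d)}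
    (h : i ∈ law_idx c B) : i.1 = c := by
  obtain ⟨p, _, rfl⟩ := law_mem_idx.1 h
  rfl

theorem law_common {p q : HE d × HE d} (h : s(p.1, p.2) = s(q.1, q.2)) {B : List (HE d × HE d)}
    (hq : q ∈ B) : p.1 ∈ ends B := by
  rw [match_mem_ends]
  refine ⟨q, hq, ?_⟩
  rw [Sym2.eq_iff] at h
  rcases h with ⟨h, _⟩ | ⟨h, _⟩
  · exact Or.inl h
  · exact Or.inr h

theorem law_nodup (c : Bool) (B : List (HE d × HE d)) (h : (ends B).Nodup) :
    (B.map fun p => (c, s(p.1, p.2))).Nodup := by
  induction B with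
  | nil => simp
  | cons p B ih =>
    rw [match_ends_cons, List.nodup_cons, List.nodup_cons] at h
    rw [List.map_cons, List.nodup_cons]
    refine ⟨?_, ih h.2.2⟩
    intro hm
    rw [List.mem_map] at hm
    obtain ⟨q, hq, e⟩ := hm
    rw [Prod.mk.injEq] at e
    exact h.1 (List.mem_cons_of_mem _ (law_common e.2.symm hq))

theorem law_card (c : Bool) (B : List (HE d × HE d)) (h : (ends B).Nodup) :
    (law_idx c B).card = B.length := by
  rw [law_idx, List.toFinset_card_of_nodup (law_nodup c B h), List.length_map]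

theorem law_sum (c : Bool) (B : List (HE d × HE d)) (h : (ends B).Nodup) (w : Weights d) :
    ∑ i ∈ law_idx c B, w i = cLen w c B := by
  rw [law_idx, List.sum_toFinset _ (law_nodup c B h), List.map_map]
  rfl

theorem law_disj (c : Bool) (B B' : List (HE d × HE d)) (h : (ends (B ++ B')).Nodup) :
    Disjoint (law_idx c B) (law_idx c B') := by
  rw [Finset.disjoint_left]
  intro i hi hi'
  obtain ⟨p, hp, rfl⟩ := law_mem_idx.1 hi
  obtain ⟨q, hq, e⟩ := law_mem_idx.1 hi'
  rw [Prod.mk.injEq] at e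
  have h1 : p.1 ∈ ends B' := law_common e.2.symm hq
  have h2 : p.1 ∈ ends B := match_mem_ends.2 ⟨p, hp, Or.inl rfl⟩
  rw [match_ends_append, List.nodup_append] at h
  exact h.2.2 _ h2 _ h1 rfl

theorem law_disj' (c c' : Bool) (hc : c ≠ c') (B B' : List (HE d × HE d)) :
    Disjoint (law_idx c B) (law_idx c' B') := by
  rw [Finset.disjoint_left]
  intro i hi hi'
  exact hc ((law_idx_fst hi).symm.trans (law_idx_fst hi'))

theorem law_three (I : Bool → Measure ℝ) [∀ c, IsProbabilityMeasure (I c)] (c1 c2 c3 : Bool)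
    (B1 B2 B3 : List (HE d × HE d)) (h1 : (ends B1).Nodup) (h2 : (ends B2).Nodup)
    (h3 : (ends B3).Nodup) (h12 : Disjoint (law_idx c1 B1) (law_idx c2 B2))
    (h13 : Disjoint (law_idx c1 B1) (law_idx c3 B3))
    (h23 : Disjoint (law_idx c2 B2) (law_idx c3 B3)) :
    (wLaw d I).map (fun w => (cLen w c1 B1, cLen w c2 B2, cLen w c3 B3)) =
      (convPow (I c1) B1.length).prod
        ((convPow (I c2) B2.length).prod (convPow (I c3) B3.length)) := by
  have key := sum3_law (fun e : Bool × Sym2 (HE d) => I e.1) (I c1) (I c2) (I c3)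
    (law_idx c1 B1) (law_idx c2 B2) (law_idx c3 B3) h12 h13 h23
    (fun i hi => by rw [law_idx_fst hi]) (fun i hi => by rw [law_idx_fst hi])
    (fun i hi => by rw [law_idx_fst hi])
  rw [law_card c1 B1 h1, law_card c2 B2 h2, law_card c3 B3 h3] at key
  rw [← key]
  unfold wLaw
  congr 1
  funext w
  rw [law_sum c1 B1 h1, law_sum c2 B2 h2, law_sum c3 B3 h3]

theorem law_real_map (I : Bool → Measure ℝ) [∀ c, IsProbabilityMeasure (I c)] (c1 c2 c3 : Bool)
    (B1 B2 B3 : List (HE d × HE d)) (h1 : (ends B1).Nodup) (h2 : (ends B2).Nodup)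
    (h3 : (ends B3).Nodup) (h12 : Disjoint (law_idx c1 B1) (law_idx c2 B2))
    (h13 : Disjoint (law_idx c1 B1) (law_idx c3 B3))
    (h23 : Disjoint (law_idx c2 B2) (law_idx c3 B3)) (S : Set (ℝ × ℝ × ℝ))
    (hS : MeasurableSet S) :
    (wLaw d I).real {w | (cLen w c1 B1, cLen w c2 B2, cLen w c3 B3) ∈ S} =
      ((convPow (I c1) B1.length).prod
        ((convPow (I c2) B2.length).prod (convPow (I c3) B3.length))).real S := by
  rw [← law_three I c1 c2 c3 B1 B2 B3 h1 h2 h3 h12 h13 h23, Measure.real, Measure.real,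
    Measure.map_apply _ hS]
  · rfl
  · exact (measurable_cLen c1 B1).prodMk ((measurable_cLen c2 B2).prodMk (measurable_cLen c3 B3))

theorem law_prod_real {α β : Type} [MeasurableSpace α] [MeasurableSpace β] (μ : Measure α)
    (ν : Measure β) [IsProbabilityMeasure μ] [IsProbabilityMeasure ν] (S : Set (α × β))
    (hS : MeasurableSet S) : (μ.prod ν).real S = ∫ x, ν.real (Prod.mk x ⁻¹' S) ∂μ := by
  rw [Measure.real, Measure.prod_apply hS]
  unfold Measure.real
  rw [integral_toReal (measurable_measure_prodMk_left hS).aemeasurable]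
  exact Filter.Eventually.of_forall fun x => measure_lt_top _ _

theorem wLaw_one (I : Bool → Measure ℝ) [∀ c, IsProbabilityMeasure (I c)] (c : Bool)
    (B : List (HE d × HE d)) (h : (ends B).Nodup) (T : ℝ) :
    (wLaw d I).real {w | cLen w c B ≤ T} = cdfPow (I c) B.length T := by
  have hn : (ends ([] : List (HE d × HE d))).Nodup := by simp [ends]
  have he : ∀ c' : Bool, Disjoint (law_idx c B) (law_idx (d := d) c' []) := by
    intro c'
    simp [law_idx]
  have he' : Disjoint (law_idx (d := d) c []) (law_idx (d := d) c []) := by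
    simp [law_idx]
  have key := law_real_map I c c c B [] [] h hn hn (he c) (he c) he'
    (Set.Iic T ×ˢ (Set.univ ×ˢ Set.univ))
    (measurableSet_Iic.prod (MeasurableSet.univ.prod MeasurableSet.univ))
  have e : {w : Weights d | cLen w c B ≤ T} =
      {w | (cLen w c B, cLen w c [], cLen w c []) ∈
        (Set.Iic T ×ˢ (Set.univ ×ˢ Set.univ) : Set (ℝ × ℝ × ℝ))} := by
    ext w
    simp
  rw [e, key, Measure.real, Measure.prod_prod, Measure.prod_prod, measure_univ, mul_one,
    mul_one]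
  rfl

theorem wLaw_two (I : Bool → Measure ℝ) [∀ c, IsProbabilityMeasure (I c)] (c : Bool)
    (B B' : List (HE d × HE d)) (h : (ends (B ++ B')).Nodup) (T T' : ℝ) :
    (wLaw d I).real {w | cLen w c B ≤ T ∧ cLen w c B' ≤ T'} =
      cdfPow (I c) B.length T * cdfPow (I c) B'.length T' := by
  have hn : (ends ([] : List (HE d × HE d))).Nodup := by simp [ends]
  have he : ∀ B : List (HE d × HE d), Disjoint (law_idx c B) (law_idx (d := d) c []) := by
    intro B
    simp [law_idx]
  have h' := h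
  rw [match_ends_append, List.nodup_append] at h'
  have key := law_real_map I c c c B B' [] h'.1 h'.2.1 hn (law_disj c B B' h) (he B) (he B')
    (Set.Iic T ×ˢ (Set.Iic T' ×ˢ Set.univ))
    (measurableSet_Iic.prod (measurableSet_Iic.prod MeasurableSet.univ))
  have e : {w : Weights d | cLen w c B ≤ T ∧ cLen w c B' ≤ T'} =
      {w | (cLen w c B, cLen w c B', cLen w c []) ∈
        (Set.Iic T ×ˢ (Set.Iic T' ×ˢ Set.univ) : Set (ℝ × ℝ × ℝ))} := by
    ext w
    simp
  rw [e, key, Measure.real, Measure.prod_prod, Measure.prod_prod, measure_univ,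
    mul_one, ENNReal.toReal_mul]
  rfl

theorem wLaw_tight (I : Bool → Measure ℝ) [∀ c, IsProbabilityMeasure (I c)] (c : Bool)
    (B1 B2 B3 : List (HE d × HE d)) (h : (ends (B1 ++ B2 ++ B3)).Nodup) (T : ℝ) :
    (wLaw d I).real {w | cLen w c B1 + cLen w c B2 ≤ T ∧ cLen w c B1 + cLen w c B3 ≤ T} =
      ∫ x, cdfPow (I c) B2.length (T - x) * cdfPow (I c) B3.length (T - x)
        ∂(convPow (I c) B1.length) := by
  have h' := h
  rw [match_ends_append, match_ends_append, List.nodup_append, List.nodup_append] at h'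
  obtain ⟨⟨n1, n2, d12⟩, n3, d123⟩ := h'
  have h12 : (ends (B1 ++ B2)).Nodup := by
    rw [match_ends_append, List.nodup_append]
    exact ⟨n1, n2, d12⟩
  have h13 : (ends (B1 ++ B3)).Nodup := by
    rw [match_ends_append, List.nodup_append]
    exact ⟨n1, n3, fun a ha => d123 a (List.mem_append_left _ ha)⟩
  have h23 : (ends (B2 ++ B3)).Nodup := by
    rw [match_ends_append, List.nodup_append]
    exact ⟨n2, n3, fun a ha => d123 a (List.mem_append_right _ ha)⟩
  have hS : MeasurableSet {q : ℝ × ℝ × ℝ | q.1 + q.2.1 ≤ T ∧ q.1 + q.2.2 ≤ T} := by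
    exact (measurableSet_le (f := fun q : ℝ × ℝ × ℝ => q.1 + q.2.1) (g := fun _ => T)
      (by fun_prop) (by fun_prop)).inter (measurableSet_le
        (f := fun q : ℝ × ℝ × ℝ => q.1 + q.2.2) (g := fun _ => T) (by fun_prop) (by fun_prop))
  have key := law_real_map I c c c B1 B2 B3 n1 n2 n3 (law_disj c B1 B2 h12)
    (law_disj c B1 B3 h13) (law_disj c B2 B3 h23) _ hS
  rw [law_prod_real _ _ _ hS] at key
  refine Eq.trans key ?_
  congr 1
  funext x
  have e : Prod.mk x ⁻¹' {q : ℝ × ℝ × ℝ | q.1 + q.2.1 ≤ T ∧ q.1 + q.2.2 ≤ T} =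
      Set.Iic (T - x) ×ˢ Set.Iic (T - x) := by
    ext q
    simp only [Set.mem_preimage, Set.mem_ofPred_eq, Set.mem_prod, Set.mem_Iic]
    constructor
    · rintro ⟨h1, h2⟩
      exact ⟨by linarith, by linarith⟩
    · rintro ⟨h1, h2⟩
      exact ⟨by linarith, by linarith⟩
  rw [e, Measure.real, Measure.prod_prod, ENNReal.toReal_mul]
  rfl

theorem wLaw_red (I : Bool → Measure ℝ) [∀ c, IsProbabilityMeasure (I c)] (c : Bool)
    (B1 B2 B3 : List (HE d × HE d)) (h : (ends (B1 ++ B2)).Nodup) (h3 : (ends B3).Nodup)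
    (T t0 : ℝ) :
    (wLaw d I).real {w | cLen w c B1 + cLen w c B2 ≤ T ∧ cLen w (!c) B3 ≤ t0 + cLen w c B1} =
      ∫ z, ∫ x in Set.Iic (T - z), cdfPow (I (!c)) B3.length (t0 + x)
        ∂(convPow (I c) B1.length) ∂(convPow (I c) B2.length) := by
  have h' := h
  rw [match_ends_append, List.nodup_append] at h'
  obtain ⟨n1, n2, d12⟩ := h'
  have hcc : c ≠ !c := by cases c <;> simp
  have hS : MeasurableSet {q : ℝ × ℝ × ℝ | q.2.1 + q.1 ≤ T ∧ q.2.2 ≤ t0 + q.2.1} := by
    exact (measurableSet_le (f := fun q : ℝ × ℝ × ℝ => q.2.1 + q.1) (g := fun _ => T)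
      (by fun_prop) (by fun_prop)).inter (measurableSet_le
        (f := fun q : ℝ × ℝ × ℝ => q.2.2) (g := fun q => t0 + q.2.1) (by fun_prop) (by fun_prop))
  have key := law_real_map I c c (!c) B2 B1 B3 n2 n1 h3 (law_disj c B1 B2 h).symm
    (law_disj' c (!c) hcc B2 B3) (law_disj' c (!c) hcc B1 B3) _ hS
  rw [law_prod_real _ _ _ hS] at key
  refine Eq.trans key ?_
  congr 1
  funext z
  have hS2 : MeasurableSet
      (Prod.mk z ⁻¹' {q : ℝ × ℝ × ℝ | q.2.1 + q.1 ≤ T ∧ q.2.2 ≤ t0 + q.2.1}) :=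
    measurable_prodMk_left hS
  rw [law_prod_real _ _ _ hS2, ← integral_indicator measurableSet_Iic]
  congr 1
  funext x
  by_cases hx : x ∈ Set.Iic (T - z)
  · rw [Set.indicator_of_mem hx, cdfPow]
    congr 1
    ext y
    simp only [Set.mem_preimage, Set.mem_ofPred_eq, Set.mem_Iic]
    rw [Set.mem_Iic] at hx
    constructor
    · exact fun h => h.2
    · exact fun h => ⟨by linarith, h⟩
  · rw [Set.indicator_of_notMem hx]
    have e : Prod.mk x ⁻¹' (Prod.mk z ⁻¹'
        {q : ℝ × ℝ × ℝ | q.2.1 + q.1 ≤ T ∧ q.2.2 ≤ t0 + q.2.1}) = ∅ := by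
      ext y
      simp only [Set.mem_preimage, Set.mem_ofPred_eq, Set.mem_empty_iff_false, iff_false, not_and]
      intro h
      exact absurd (show x ≤ T - z by linarith) hx
    rw [e, measureReal_empty]

/-- A second moment bound for the number of events that occur. -/
theorem count_lower {Ω ι : Type} [MeasurableSpace Ω] (P : Measure Ω) [IsProbabilityMeasure P]
    (s : Finset ι) (R S : ι → Set Ω) (hR : ∀ i ∈ s, MeasurableSet (R i))
    (hS : ∀ i ∈ s, MeasurableSet (S i)) (hSR : ∀ i ∈ s, S i ⊆ R i) (m ρ v : ℝ) (hm : 0 < m)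
    (h1 : ∑ i ∈ s, P.real (R i) = m) (h2 : ∑ i ∈ s, P.real (R i \ S i) ≤ ρ)
    (h3 : ∑ i ∈ s, ∑ j ∈ s, P.real (S i ∩ S j) ≤ m ^ 2 + v) :
    P.real {ω | ∑ i ∈ s, (S i).indicator (fun _ => (1 : ℝ)) ω ≤ m / 2} ≤
      4 * (v + 2 * m * ρ) / m ^ 2 := by
  set Y : Ω → ℝ := fun ω => ∑ i ∈ s, (S i).indicator (fun _ => (1 : ℝ)) ω with hY
  have hint1 : ∀ i ∈ s, Integrable ((S i).indicator (fun _ => (1 : ℝ))) P := fun i hi =>
    (integrable_const (1 : ℝ)).indicator (hS i hi)
  have hint2 : ∀ i ∈ s, ∀ j ∈ s, Integrable ((S i ∩ S j).indicator (fun _ => (1 : ℝ))) P :=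
    fun i hi j hj => (integrable_const (1 : ℝ)).indicator ((hS i hi).inter (hS j hj))
  have hEY : ∫ ω, Y ω ∂P = ∑ i ∈ s, P.real (S i) := by
    simp only [hY]
    rw [integral_finsetSum _ hint1]
    refine Finset.sum_congr rfl fun i hi => ?_
    rw [integral_indicator (hS i hi), setIntegral_const, smul_eq_mul, mul_one]
  have hYint : Integrable Y P := integrable_finsetSum _ hint1
  have hY2 : (fun ω => Y ω ^ 2) =
      fun ω => ∑ i ∈ s, ∑ j ∈ s, (S i ∩ S j).indicator (fun _ => (1 : ℝ)) ω := by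
    funext ω
    simp only [hY, sq, Finset.sum_mul_sum]
    refine Finset.sum_congr rfl fun i _ => Finset.sum_congr rfl fun j _ => ?_
    by_cases hi : ω ∈ S i <;> by_cases hj : ω ∈ S j <;> simp [hi, hj]
  have hY2int : Integrable (fun ω => Y ω ^ 2) P := by
    rw [hY2]
    exact integrable_finsetSum _ fun i hi => integrable_finsetSum _ fun j hj => hint2 i hi j hj
  have hEY2 : ∫ ω, Y ω ^ 2 ∂P = ∑ i ∈ s, ∑ j ∈ s, P.real (S i ∩ S j) := by
    rw [hY2, integral_finsetSum _ fun i hi => integrable_finsetSum _ fun j hj => hint2 i hi j hj]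
    refine Finset.sum_congr rfl fun i hi => ?_
    rw [integral_finsetSum _ fun j hj => hint2 i hi j hj]
    refine Finset.sum_congr rfl fun j hj => ?_
    rw [integral_indicator ((hS i hi).inter (hS j hj)), setIntegral_const, smul_eq_mul, mul_one]
  have hlow : m - ρ ≤ ∫ ω, Y ω ∂P := by
    rw [hEY]
    have : ∑ i ∈ s, P.real (R i) ≤ ∑ i ∈ s, P.real (S i) + ∑ i ∈ s, P.real (R i \ S i) := by
      rw [← Finset.sum_add_distrib]
      refine Finset.sum_le_sum fun i hi => ?_
      have hu : R i = S i ∪ (R i \ S i) := by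
        rw [Set.union_sdiff_cancel (hSR i hi)]
      calc P.real (R i) = P.real (S i ∪ (R i \ S i)) := by rw [← hu]
        _ ≤ _ := measureReal_union_le _ _
    linarith
  have hvar : ∫ ω, (Y ω - m) ^ 2 ∂P ≤ v + 2 * m * ρ := by
    have e : (fun ω => (Y ω - m) ^ 2) = fun ω => Y ω ^ 2 - 2 * m * Y ω + m ^ 2 := by
      funext ω
      ring
    have e1 : ∫ ω, (Y ω ^ 2 - 2 * m * Y ω + m ^ 2) ∂P =
        ∫ ω, (Y ω ^ 2 - 2 * m * Y ω) ∂P + ∫ _ω, m ^ 2 ∂P :=
      integral_add (f := fun ω => Y ω ^ 2 - 2 * m * Y ω) (g := fun _ => m ^ 2)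
        (hY2int.sub (hYint.const_mul (2 * m))) (integrable_const _)
    have e2 : ∫ ω, (Y ω ^ 2 - 2 * m * Y ω) ∂P = ∫ ω, Y ω ^ 2 ∂P - ∫ ω, 2 * m * Y ω ∂P :=
      integral_sub hY2int (hYint.const_mul (2 * m))
    rw [e, e1, e2, integral_const_mul, integral_const, hEY2]
    simp only [smul_eq_mul, probReal_univ, one_mul]
    nlinarith
  have hsqint : Integrable (fun ω => (Y ω - m) ^ 2) P := by
    have e : (fun ω => (Y ω - m) ^ 2) = fun ω => Y ω ^ 2 - 2 * m * Y ω + m ^ 2 := by
      funext ω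
      ring
    rw [e]
    exact (hY2int.sub (hYint.const_mul _)).add (integrable_const _)
  have hmarkov := mul_meas_ge_le_integral_of_nonneg (μ := P) (f := fun ω => (Y ω - m) ^ 2)
    (Filter.Eventually.of_forall fun ω => sq_nonneg _) hsqint ((m / 2) ^ 2)
  have hsub : {ω | Y ω ≤ m / 2} ⊆ {ω | (m / 2) ^ 2 ≤ (Y ω - m) ^ 2} := by
    intro ω hω
    simp only [Set.mem_ofPred_eq] at hω ⊢
    nlinarith
  have hle : P.real {ω | Y ω ≤ m / 2} ≤ P.real {ω | (m / 2) ^ 2 ≤ (Y ω - m) ^ 2} :=
    measureReal_mono hsub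
  rw [le_div_iff₀ (by positivity)]
  have hm2 : 0 ≤ (m / 2) ^ 2 := sq_nonneg _
  nlinarith [mul_le_mul_of_nonneg_left hle hm2]

/-- A first moment (Markov) bound for the number of events that occur (no measurability). -/
theorem count_upper {Ω ι : Type} [MeasurableSpace Ω] (P : Measure Ω) [IsProbabilityMeasure P]
    (s : Finset ι) (Z : ι → Set Ω) (hZ : ∀ i ∈ s, MeasurableSet (Z i)) (m ρ : ℝ) (hm : 0 < m)
    (h1 : ∑ i ∈ s, P.real (Z i) ≤ ρ) :
    P.real {ω | m / 2 ≤ ∑ i ∈ s, (Z i).indicator (fun _ => (1 : ℝ)) ω} ≤ 2 * ρ / m := by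
  have hint1 : ∀ i ∈ s, Integrable ((Z i).indicator (fun _ => (1 : ℝ))) P := fun i hi =>
    (integrable_const (1 : ℝ)).indicator (hZ i hi)
  have hE : ∫ ω, ∑ i ∈ s, (Z i).indicator (fun _ => (1 : ℝ)) ω ∂P = ∑ i ∈ s, P.real (Z i) := by
    rw [integral_finsetSum _ hint1]
    refine Finset.sum_congr rfl fun i hi => ?_
    rw [integral_indicator (hZ i hi), setIntegral_const, smul_eq_mul, mul_one]
  have hmarkov := mul_meas_ge_le_integral_of_nonneg (μ := P)
    (f := fun ω => ∑ i ∈ s, (Z i).indicator (fun _ => (1 : ℝ)) ω)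
    (Filter.Eventually.of_forall fun ω => Finset.sum_nonneg fun i _ =>
      Set.indicator_nonneg (fun _ _ => zero_le_one) ω) (integrable_finsetSum _ hint1) (m / 2)
  rw [hE] at hmarkov
  rw [le_div_iff₀ hm]
  linarith

theorem kap_lower (ℓ : ℝ) (L N : ℕ) (h : 2 * (L + N : ℝ) < ℓ) : (1 / ℓ) ^ N ≤ kap ℓ L N := by
  have hL : (0 : ℝ) ≤ L := Nat.cast_nonneg _
  have hN : (0 : ℝ) ≤ N := Nat.cast_nonneg _
  have hℓ : 0 < ℓ := by linarith
  have e : (1 / ℓ) ^ N = ∏ _i ∈ Finset.range N, (1 / ℓ) := by simp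
  rw [kap, e]
  refine Finset.prod_le_prod (fun i _ => by positivity) fun i hi => ?_
  have hi' : (i : ℝ) + 1 ≤ N := by exact_mod_cast Finset.mem_range.1 hi
  have hi0 : (0 : ℝ) ≤ i := Nat.cast_nonneg _
  exact one_div_le_one_div_of_le (by linarith) (by linarith)

theorem kap_upper (ℓ ε : ℝ) (L N : ℕ) (hε : 0 < ε) (hε1 : ε ≤ 1)
    (h : 8 * ((N : ℝ) + 1) * (L + N + 1) ≤ ε * ℓ) : kap ℓ L N ≤ (1 + ε) * (1 / ℓ) ^ N := by
  have hL : (0 : ℝ) ≤ L := Nat.cast_nonneg _
  have hN : (0 : ℝ) ≤ N := Nat.cast_nonneg _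
  have hpos : 0 < 8 * ((N : ℝ) + 1) * (L + N + 1) := by positivity
  have hℓ : 0 < ℓ := by
    by_contra hc
    push Not at hc
    nlinarith
  set x : ℝ := 2 * (L + N) / ℓ with hx
  have hx0 : 0 ≤ x := by positivity
  have hxe : ((N : ℝ) + 1) * x ≤ ε / 4 := by
    rw [hx, mul_div_assoc', div_le_iff₀ hℓ]
    nlinarith
  have hx1 : x ≤ 1 / 4 := by nlinarith
  have hfac : kap ℓ L N ≤ ∏ _i ∈ Finset.range N, (1 / (ℓ * (1 - x))) := by
    rw [kap]
    refine Finset.prod_le_prod (fun i hi => ?_) fun i hi => ?_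
    · have hi' : (i : ℝ) + 1 ≤ N := by exact_mod_cast Finset.mem_range.1 hi
      have : ℓ * (1 - x) = ℓ - 2 * (L + N) := by
        rw [hx]; field_simp
      have : 0 < ℓ * (1 - x) := by
        apply mul_pos hℓ; linarith
      apply div_nonneg zero_le_one
      linarith
    · have hi' : (i : ℝ) + 1 ≤ N := by exact_mod_cast Finset.mem_range.1 hi
      have e1 : ℓ * (1 - x) = ℓ - 2 * (L + N) := by
        rw [hx]; field_simp
      have : 0 < ℓ * (1 - x) := by
        apply mul_pos hℓ; linarith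
      exact one_div_le_one_div_of_le this (by rw [e1]; linarith)
  refine hfac.trans ?_
  rw [Finset.prod_const, Finset.card_range, one_div, mul_inv, mul_pow, mul_comm, ← one_div ℓ]
  refine mul_le_mul_of_nonneg_right ?_ (by positivity)
  have hb : 1 - ε / 4 ≤ (1 - x) ^ N := by
    have := one_add_mul_le_pow (a := -x) (by linarith) N
    have e : 1 + (N : ℝ) * -x = 1 - N * x := by ring
    rw [e] at this
    have e2 : (1 : ℝ) + -x = 1 - x := by ring
    rw [e2] at this
    nlinarith
  rw [inv_pow]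
  calc ((1 - x) ^ N)⁻¹ ≤ (1 - ε / 4)⁻¹ := inv_anti₀ (by linarith) hb
    _ ≤ 1 + ε := by
      rw [inv_le_comm₀ (by linarith) (by linarith), inv_eq_one_div, div_le_iff₀ (by linarith)]
      nlinarith

end Pool.Agent.H86.CM
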