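import Pool.Agent.H86.CM.ExA
import Pool.Agent.H86.CM.Law

/-! MODULE EXB: the exploration succeeds with high probability or the component is small. -/

open MeasureTheory ProbabilityTheory

namespace Pool.Agent.H86.CM

/-! ### Degree sums -/

section Degrees

variable {n : ℕ} {d : Fin n → ℕ}

open Classical in
theorem exb_tail (θ b M : ℝ) (hθ : 0 < θ) (hb : 0 < b)
    (hM : ∑ v, (d v : ℝ) ^ (2 + θ) ≤ M) :
    ∑ v, (if b < (d v : ℝ) then (d v : ℝ) ^ 2 else 0) ≤ b ^ (-θ) * M := by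
  have h1 : ∀ v ∈ (Finset.univ : Finset (Fin n)), (if b < (d v : ℝ) then (d v : ℝ) ^ 2 else 0) ≤
      b ^ (-θ) * (d v : ℝ) ^ (2 + θ) := by
    intro v _
    split_ifs with hv
    · have hd : (0 : ℝ) < d v := hb.trans hv
      have h3 : (d v : ℝ) ^ (2 + θ) = (d v : ℝ) ^ 2 * (d v : ℝ) ^ θ := by
        rw [Real.rpow_add hd]
        norm_num
      rw [h3]
      have h4 : 1 ≤ b ^ (-θ) * (d v : ℝ) ^ θ := by
        rw [Real.rpow_neg hb.le]
        rw [inv_mul_eq_div, le_div_iff₀ (Real.rpow_pos_of_pos hb θ), one_mul]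
        exact Real.rpow_le_rpow hb.le hv.le hθ.le
      have h5 : (0 : ℝ) ≤ (d v : ℝ) ^ 2 := by positivity
      nlinarith
    · exact mul_nonneg (Real.rpow_nonneg hb.le _) (Real.rpow_nonneg (Nat.cast_nonneg _) _)
  refine (Finset.sum_le_sum h1).trans ?_
  rw [← Finset.mul_sum]
  exact mul_le_mul_of_nonneg_left hM (Real.rpow_nonneg hb.le _)

theorem exb_cast_card : (Fintype.card (HE d) : ℝ) = ∑ v, (d v : ℝ) := by
  rw [card_HE]
  push_cast
  rfl

theorem exb_sum_HE (f : Fin n → ℝ) : ∑ g : HE d, f g.1 = ∑ v, (d v : ℝ) * f v := by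
  rw [Fintype.sum_sigma]
  refine Finset.sum_congr rfl fun v _ => ?_
  simp

theorem exb_sq_le (ν C θ η p : ℝ) (k mL : ℕ) (hθ : 0 < θ) (h : Reg ν C θ η p k mL d)
    (v : Fin n) : (d v : ℝ) ^ 2 ≤ C * n := by
  have h1 : (d v : ℝ) ^ (2 + θ) ≤ C * n := by
    refine le_trans ?_ h.moment
    exact Finset.single_le_sum (f := fun v => (d v : ℝ) ^ (2 + θ))
      (fun w _ => Real.rpow_nonneg (Nat.cast_nonneg _) _) (Finset.mem_univ v)
  refine le_trans ?_ h1
  rcases Nat.eq_zero_or_pos (d v) with h0 | h0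
  · rw [h0]
    simp only [Nat.cast_zero, ne_eq, OfNat.ofNat_ne_zero, not_false_eq_true, zero_pow]
    exact Real.rpow_nonneg le_rfl _
  · have h2 : (1 : ℝ) ≤ d v := by exact_mod_cast h0
    rw [← Real.rpow_natCast]
    exact Real.rpow_le_rpow_of_exponent_le h2 (by push_cast; linarith)

/-- The number of half-edges is large and the degrees are small compared to it. -/
theorem exb_size (ν C θ η p : ℝ) (k : ℕ) (hC : 0 < C) (hθ : 0 < θ) (K : ℝ) :
    ∃ N : ℕ, ∀ n : ℕ, N ≤ n → ∀ (d : Fin n → ℕ) (mL : ℕ), Reg ν C θ η p k mL d →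
      K ≤ (Fintype.card (HE d) : ℝ) ∧ ∀ v, K * (d v : ℝ) ≤ (Fintype.card (HE d) : ℝ) := by
  obtain ⟨N, hN⟩ := exists_nat_ge (|K| ^ 2 * C ^ 3 + |K| * C)
  refine ⟨N, fun n hn d mL hreg => ?_⟩
  have hn' : |K| ^ 2 * C ^ 3 + |K| * C ≤ n := hN.trans (by exact_mod_cast hn)
  have hK0 : 0 ≤ |K| := abs_nonneg K
  have hKK : K ≤ |K| := le_abs_self K
  rw [exb_cast_card]
  have hlow := hreg.lower
  set ℓ : ℝ := ∑ v, (d v : ℝ) with hℓ
  have hℓ0 : 0 ≤ ℓ := Finset.sum_nonneg fun v _ => Nat.cast_nonneg _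
  have h0 : 0 ≤ |K| ^ 2 * C ^ 3 := by positivity
  have h0' : 0 ≤ |K| * C := by positivity
  constructor
  · refine hKK.trans ?_
    have h1 : |K| * C ≤ ℓ * C := by linarith [mul_comm C ℓ]
    exact le_of_mul_le_mul_right h1 hC
  · intro v
    have h1 := exb_sq_le ν C θ η p k mL hθ hreg v
    have h2 : K * (d v : ℝ) ≤ |K| * (d v : ℝ) :=
      mul_le_mul_of_nonneg_right hKK (Nat.cast_nonneg _)
    refine h2.trans ?_
    have h3 : (|K| * (d v : ℝ)) ^ 2 ≤ ℓ ^ 2 := by
      have h4 : |K| ^ 2 * C ^ 3 * n ≤ C ^ 2 * ℓ ^ 2 := by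
        have h5 : (|K| ^ 2 * C ^ 3) * n ≤ n * n :=
          mul_le_mul_of_nonneg_right (by linarith) (Nat.cast_nonneg _)
        have h6 : (n : ℝ) * n ≤ (C * ℓ) * (C * ℓ) :=
          mul_le_mul hlow hlow (Nat.cast_nonneg _) (by positivity)
        calc |K| ^ 2 * C ^ 3 * n ≤ n * n := h5
          _ ≤ (C * ℓ) * (C * ℓ) := h6
          _ = C ^ 2 * ℓ ^ 2 := by ring
      have h7 : C ^ 2 * (|K| ^ 2 * (C * n)) ≤ C ^ 2 * ℓ ^ 2 := by
        calc C ^ 2 * (|K| ^ 2 * (C * n)) = |K| ^ 2 * C ^ 3 * n := by ring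
          _ ≤ _ := h4
      have h8 : |K| ^ 2 * (C * n) ≤ ℓ ^ 2 := le_of_mul_le_mul_left h7 (by positivity)
      calc (|K| * (d v : ℝ)) ^ 2 = |K| ^ 2 * (d v : ℝ) ^ 2 := by ring
        _ ≤ |K| ^ 2 * (C * n) := mul_le_mul_of_nonneg_left h1 (by positivity)
        _ ≤ _ := h8
    exact le_of_sq_le_sq h3 hℓ0

theorem exb_npow (η a : ℝ) (hη : 0 < η) (ha : 0 < a) :
    ∃ N : ℕ, ∀ n : ℕ, N ≤ n → (n : ℝ) ^ (-η) ≤ a := by
  have h : Filter.Tendsto (fun n : ℕ => (n : ℝ) ^ (-η)) Filter.atTop (nhds 0) :=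
    (tendsto_rpow_neg_atTop hη).comp tendsto_natCast_atTop_atTop
  obtain ⟨N, hN⟩ := Filter.eventually_atTop.1 (h.eventually_le_const ha)
  exact ⟨N, hN⟩

/-- The truncated mean. -/
theorem exb_mean (ν C θ η p : ℝ) (k mL : ℕ) (hC : 0 < C) (hθ : 0 < θ) (B : ℝ) (hB : 0 < B)
    (hreg : Reg ν C θ η p k mL d) :
    (ν - 1 - (n : ℝ) ^ (-η) - B ^ (-θ) * C ^ 2) * (Fintype.card (HE d) : ℝ) ≤
      ∑ g : HE d, (min (d g.1 : ℝ) B - 2) := by
  rw [exb_sum_HE (fun v => min (d v : ℝ) B - 2), exb_cast_card]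
  have htail := exb_tail (d := d) θ B (C * n) hθ hB hreg.moment
  have h2 := (abs_le.1 hreg.second).1
  have hlow := hreg.lower
  set ℓ : ℝ := ∑ v, (d v : ℝ) with hℓ
  have hB0 : 0 ≤ B ^ (-θ) := Real.rpow_nonneg hB.le _
  have h3 : B ^ (-θ) * (C * n) ≤ B ^ (-θ) * C ^ 2 * ℓ := by
    have : C * (n : ℝ) ≤ C * (C * ℓ) := mul_le_mul_of_nonneg_left hlow hC.le
    calc B ^ (-θ) * (C * n) ≤ B ^ (-θ) * (C * (C * ℓ)) := mul_le_mul_of_nonneg_left this hB0
      _ = _ := by ring
  have h4 : ∀ v ∈ (Finset.univ : Finset (Fin n)), (d v : ℝ) * ((d v : ℝ) - 1) - (d v : ℝ) -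
      (if B < (d v : ℝ) then (d v : ℝ) ^ 2 else 0) ≤ (d v : ℝ) * (min (d v : ℝ) B - 2) := by
    intro v _
    have hd : (0 : ℝ) ≤ d v := Nat.cast_nonneg _
    split_ifs with hv
    · rw [min_eq_right hv.le]
      nlinarith
    · rw [min_eq_left (not_lt.1 hv)]
      nlinarith
  have h5 := Finset.sum_le_sum h4
  rw [Finset.sum_sub_distrib, Finset.sum_sub_distrib] at h5
  linarith

/-- The Laplace transform of the increments. -/
theorem exb_laplace (ν C θ η p : ℝ) (k : ℕ) (hν : 1 < ν) (hC : 0 < C) (hθ : 0 < θ)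
    (hη : 0 < η) : ∃ (t B q : ℝ) (N : ℕ), 0 < t ∧ 0 < B ∧ 0 < q ∧ q < 1 ∧
      ∀ n : ℕ, N ≤ n → ∀ (d : Fin n → ℕ) (mL : ℕ), Reg ν C θ η p k mL d →
      ∑ g : HE d, Real.exp (-(t * (min (d g.1 : ℝ) B - 2))) ≤ q * (Fintype.card (HE d) : ℝ) := by
  -- choose B
  have h1 : Filter.Tendsto (fun B : ℝ => B ^ (-θ) * C ^ 2) Filter.atTop (nhds (0 * C ^ 2)) :=
    (tendsto_rpow_neg_atTop hθ).mul_const _
  rw [zero_mul] at h1
  obtain ⟨B, hB1, hB2⟩ := ((h1.eventually_le_const (show (0 : ℝ) < (ν - 1) / 4 by linarith)).and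
    (Filter.eventually_ge_atTop (2 : ℝ))).exists
  obtain ⟨N, hN⟩ := exb_npow η ((ν - 1) / 4) hη (by linarith)
  have hB0 : 0 < B := by linarith
  set t : ℝ := min (1 / B) ((ν - 1) / (4 * B ^ 2)) with ht
  have ht0 : 0 < t := lt_min (by positivity) (div_pos (by linarith) (by positivity))
  have htB : t * B ≤ 1 := by
    have : t ≤ 1 / B := min_le_left _ _
    calc t * B ≤ 1 / B * B := mul_le_mul_of_nonneg_right this hB0.le
      _ = 1 := by field_simp
  have htB2 : t * B ^ 2 ≤ (ν - 1) / 4 := by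
    have : t ≤ (ν - 1) / (4 * B ^ 2) := min_le_right _ _
    calc t * B ^ 2 ≤ (ν - 1) / (4 * B ^ 2) * B ^ 2 :=
          mul_le_mul_of_nonneg_right this (by positivity)
      _ = (ν - 1) / 4 := by field_simp
  refine ⟨t, B, max (1 - t * (ν - 1) / 4) (1 / 2), N, ht0, hB0, ?_, ?_, ?_⟩
  · exact lt_max_of_lt_right (by norm_num)
  · refine max_lt ?_ (by norm_num)
    have : 0 < t * (ν - 1) := mul_pos ht0 (by linarith)
    linarith
  · intro n hn d mL hreg
    have hmean := exb_mean ν C θ η p k mL hC hθ B hB0 hreg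
    have hnη := hN n hn
    have hℓ0 : (0 : ℝ) ≤ (Fintype.card (HE d) : ℝ) := Nat.cast_nonneg _
    set ℓ : ℝ := (Fintype.card (HE d) : ℝ) with hℓ
    have hX : ∀ g ∈ (Finset.univ : Finset (HE d)),
        Real.exp (-(t * (min (d g.1 : ℝ) B - 2))) ≤
          1 - t * (min (d g.1 : ℝ) B - 2) + t ^ 2 * B ^ 2 := by
      intro g _
      have hd1 : (1 : ℝ) ≤ d g.1 := by
        have := g.2.pos
        exact_mod_cast this
      have hm1 : 1 ≤ min (d g.1 : ℝ) B := le_min hd1 (by linarith)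
      have hm2 : min (d g.1 : ℝ) B ≤ B := min_le_right _ _
      have habs : |(min (d g.1 : ℝ) B - 2)| ≤ B := abs_le.2 ⟨by linarith, by linarith⟩
      have habs' : |-(t * (min (d g.1 : ℝ) B - 2))| ≤ 1 := by
        rw [abs_neg, abs_mul, abs_of_pos ht0]
        exact (mul_le_mul_of_nonneg_left habs ht0.le).trans htB
      have h2 := (abs_le.1 (Real.abs_exp_sub_one_sub_id_le habs')).2
      have h3 : (-(t * (min (d g.1 : ℝ) B - 2))) ^ 2 ≤ t ^ 2 * B ^ 2 := by
        have : (min (d g.1 : ℝ) B - 2) ^ 2 ≤ B ^ 2 := sq_le_sq' (by linarith [(abs_le.1 habs).1])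
          (abs_le.1 habs).2
        calc (-(t * (min (d g.1 : ℝ) B - 2))) ^ 2 = t ^ 2 * (min (d g.1 : ℝ) B - 2) ^ 2 := by ring
          _ ≤ _ := mul_le_mul_of_nonneg_left this (sq_nonneg t)
      linarith
    refine (Finset.sum_le_sum hX).trans ?_
    rw [Finset.sum_add_distrib, Finset.sum_sub_distrib, ← Finset.mul_sum, Finset.sum_const,
      Finset.sum_const, Finset.card_univ, nsmul_eq_mul, nsmul_eq_mul, mul_one, ← hℓ]
    have h4 : (ν - 1) / 2 * ℓ ≤ ∑ g : HE d, (min (d g.1 : ℝ) B - 2) := by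
      refine le_trans ?_ hmean
      exact mul_le_mul_of_nonneg_right (by linarith) hℓ0
    have h5 : t * ((ν - 1) / 2 * ℓ) ≤ t * ∑ g : HE d, (min (d g.1 : ℝ) B - 2) :=
      mul_le_mul_of_nonneg_left h4 ht0.le
    have h6 : t ^ 2 * B ^ 2 ≤ t * ((ν - 1) / 4) := by
      calc t ^ 2 * B ^ 2 = t * (t * B ^ 2) := by ring
        _ ≤ _ := mul_le_mul_of_nonneg_left htB2 ht0.le
    have h7 : ℓ * (t ^ 2 * B ^ 2) ≤ ℓ * (t * ((ν - 1) / 4)) := mul_le_mul_of_nonneg_left h6 hℓ0
    calc ℓ - t * ∑ g : HE d, (min (d g.1 : ℝ) B - 2) + ℓ * (t ^ 2 * B ^ 2)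
        ≤ ℓ - t * ((ν - 1) / 2 * ℓ) + ℓ * (t * ((ν - 1) / 4)) := by linarith
      _ = (1 - t * (ν - 1) / 4) * ℓ := by ring
      _ ≤ _ := mul_le_mul_of_nonneg_right (le_max_left _ _) hℓ0

/-- The number of half-edges at vertices of degree at least `3`. -/
theorem exb_big (ν C θ η p : ℝ) (k : ℕ) (hν : 1 < ν) (hC : 0 < C) (hθ : 0 < θ)
    (hη : 0 < η) : ∃ (ρ : ℝ) (N : ℕ), 0 < ρ ∧
      ∀ n : ℕ, N ≤ n → ∀ (d : Fin n → ℕ) (mL : ℕ), Reg ν C θ η p k mL d →
      ρ * (Fintype.card (HE d) : ℝ) ≤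
        ((Finset.univ.filter fun g : HE d => 3 ≤ d g.1).card : ℝ) := by
  have h1 : Filter.Tendsto (fun B : ℝ => B ^ (-θ) * C ^ 2) Filter.atTop (nhds (0 * C ^ 2)) :=
    (tendsto_rpow_neg_atTop hθ).mul_const _
  rw [zero_mul] at h1
  obtain ⟨B, hB1, hB2⟩ := ((h1.eventually_le_const (show (0 : ℝ) < (ν - 1) / 4 by linarith)).and
    (Filter.eventually_ge_atTop (2 : ℝ))).exists
  obtain ⟨N, hN⟩ := exb_npow η ((ν - 1) / 4) hη (by linarith)
  have hB0 : 0 < B := by linarith
  refine ⟨(ν - 1) / 2 / B, N, div_pos (by linarith) hB0, ?_⟩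
  intro n hn d mL hreg
  have hmean := exb_mean ν C θ η p k mL hC hθ B hB0 hreg
  have hnη := hN n hn
  have hℓ0 : (0 : ℝ) ≤ (Fintype.card (HE d) : ℝ) := Nat.cast_nonneg _
  have h4 : (ν - 1) / 2 * (Fintype.card (HE d) : ℝ) ≤ ∑ g : HE d, (min (d g.1 : ℝ) B - 2) := by
    refine le_trans ?_ hmean
    exact mul_le_mul_of_nonneg_right (by linarith) hℓ0
  have h5 : ∑ g : HE d, (min (d g.1 : ℝ) B - 2) ≤
      ∑ g : HE d, (if 3 ≤ d g.1 then B else 0) := by
    refine Finset.sum_le_sum fun g _ => ?_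
    split_ifs with hg
    · have := min_le_right (d g.1 : ℝ) B
      linarith
    · have h6 : (d g.1 : ℝ) ≤ 2 := by
        have : d g.1 ≤ 2 := by omega
        exact_mod_cast this
      have := min_le_left (d g.1 : ℝ) B
      linarith
  rw [← Finset.sum_filter, Finset.sum_const, nsmul_eq_mul] at h5
  rw [div_mul_eq_mul_div, div_le_iff₀ hB0]
  linarith

theorem exb_trs (ν C θ η p : ℝ) (k mL : ℕ) (hη : 0 < η) (hn : 1 ≤ n)
    (hreg : Reg ν C θ η p k mL d) :
    ((trs d).card : ℝ) ≤ (ν + 1) * (Fintype.card (HE d) : ℝ) := by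
  have h2 := (abs_le.1 hreg.second).2
  have h3 : (n : ℝ) ^ (-η) ≤ 1 :=
    Real.rpow_le_one_of_one_le_of_nonpos (by exact_mod_cast hn) (by linarith)
  have hℓ0 : (0 : ℝ) ≤ ∑ v, (d v : ℝ) := Finset.sum_nonneg fun v _ => Nat.cast_nonneg _
  have h4 : ((trs d).card : ℝ) = ∑ v, (d v : ℝ) * ((d v : ℝ) - 1) := by
    rw [card_trs]
    push_cast
    refine Finset.sum_congr rfl fun v _ => ?_
    rcases Nat.eq_zero_or_pos (d v) with h0 | h0
    · simp [h0]
    · rw [Nat.cast_sub h0]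
      simp
  rw [h4, exb_cast_card]
  nlinarith

end Degrees

/-! ### Probabilities of configurations -/

section Prob

variable {n : ℕ} {d : Fin n → ℕ}

theorem exb_even (h : Even (∑ v, d v)) : Even (Fintype.card (HE d)) := by
  rw [card_HE]
  exact h

theorem exb_univ : {σ : Pairing (HE d) | Contains σ ([] : List (HE d × HE d))} = Set.univ := by
  ext σ
  simp [Contains]

theorem exb_isProb (heven : Even (Fintype.card (HE d))) :
    IsProbabilityMeasure (uniformOn (Set.univ : Set (Pairing (HE d)))) := by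
  rw [← exb_univ]
  exact law_prob_uniform heven [] (by simp [ends])

theorem exb_prob (heven : Even (Fintype.card (HE d))) (B : List (HE d × HE d))
    (hB : (ends B).Nodup) :
    (uniformOn (Set.univ : Set (Pairing (HE d)))).real {σ | Contains σ B} =
      kap (Fintype.card (HE d)) 0 B.length := by
  rw [← exb_univ]
  exact law_uniform heven [] B hB

theorem exb_kap_succ (ℓ : ℝ) (N : ℕ) :
    kap ℓ 0 (N + 1) = kap ℓ 0 N * (1 / (ℓ - 2 * N - 1)) := by
  unfold kap
  rw [Finset.prod_range_succ]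
  simp

theorem exb_kap_le (ℓ : ℝ) (N M : ℕ) (hNM : N ≤ M) (h : 2 * (M : ℝ) < ℓ) :
    kap ℓ 0 N ≤ (1 / (ℓ - 2 * M)) ^ N := by
  have e : (1 / (ℓ - 2 * (M : ℝ))) ^ N = ∏ _i ∈ Finset.range N, (1 / (ℓ - 2 * (M : ℝ))) := by simp
  rw [kap, e]
  have hMN : (N : ℝ) ≤ M := by exact_mod_cast hNM
  refine Finset.prod_le_prod (fun i hi => ?_) fun i hi => ?_
  · have hi' : (i : ℝ) + 1 ≤ N := by exact_mod_cast Finset.mem_range.1 hi
    refine div_nonneg zero_le_one ?_
    simp only [Nat.cast_zero, mul_zero, sub_zero]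
    linarith
  · have hi' : (i : ℝ) + 1 ≤ N := by exact_mod_cast Finset.mem_range.1 hi
    refine one_div_le_one_div_of_le (by linarith) ?_
    simp only [Nat.cast_zero, mul_zero, sub_zero]
    linarith

theorem exb_kap_nonneg (ℓ : ℝ) (N : ℕ) (h : 2 * (N : ℝ) ≤ ℓ) : 0 ≤ kap ℓ 0 N := by
  rw [kap]
  refine Finset.prod_nonneg fun i hi => ?_
  have hi' : (i : ℝ) + 1 ≤ N := by exact_mod_cast Finset.mem_range.1 hi
  refine div_nonneg zero_le_one ?_
  simp only [Nat.cast_zero, mul_zero, sub_zero]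
  linarith

/-- Revealing the partner of one more half-edge. -/
theorem exb_prob_cons (heven : Even (Fintype.card (HE d))) (A : List (HE d × HE d)) (x g : HE d)
    (hA : (ends A).Nodup) (hx : x ∉ ends A)
    (hsize : 2 * (A.length : ℝ) + 1 < (Fintype.card (HE d) : ℝ)) :
    (uniformOn (Set.univ : Set (Pairing (HE d)))).real {σ | Contains σ ((x, g) :: A)} ≤
      (uniformOn (Set.univ : Set (Pairing (HE d)))).real {σ | Contains σ A} *
        (1 / ((Fintype.card (HE d) : ℝ) - 2 * A.length - 1)) := by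
  by_cases h : x ≠ g ∧ g ∉ ends A
  · have hn : (ends ((x, g) :: A)).Nodup := by
      rw [match_ends_cons, List.nodup_cons, List.nodup_cons]
      refine ⟨?_, h.2, hA⟩
      rw [List.mem_cons, not_or]
      exact ⟨h.1, hx⟩
    rw [exb_prob heven _ hn, exb_prob heven _ hA, List.length_cons, exb_kap_succ]
  · have he : {σ : Pairing (HE d) | Contains σ ((x, g) :: A)} = ∅ := by
      rw [Set.eq_empty_iff_forall_notMem]
      intro σ hσ
      have h1 : σ.1 x = g := hσ (x, g) (List.mem_cons_self ..)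
      have h2 : Contains σ A := fun p hp => hσ p (List.mem_cons_of_mem _ hp)
      apply h
      constructor
      · intro e
        exact σ.2.2 x (h1.trans e.symm)
      · intro hg
        rw [← h1] at hg
        exact hx (match_partner σ h2 hg)
    rw [he, measureReal_empty]
    refine mul_nonneg measureReal_nonneg (div_nonneg zero_le_one ?_)
    linarith

open Classical in
/-- The nice histories of a given length. -/
noncomputable def exb_niceL (d : Fin n → ℕ) (u o : Fin n) (j : ℕ) : Finset (List (HE d)) :=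
  (listsOf (Finset.univ : Finset (HE d)) j).filter fun γ => nice u o γ

theorem exb_mem_niceL {u o : Fin n} {j : ℕ} {γ : List (HE d)} :
    γ ∈ exb_niceL d u o j ↔ γ.length = j ∧ nice u o γ := by
  simp [exb_niceL, mem_listsOf]

/-- For histories of a fixed length the events are disjoint. -/
theorem exb_prob_union (u o : Fin n) (j : ℕ) (S : Finset (List (HE d)))
    (hS : S ⊆ exb_niceL d u o j) :
    (uniformOn (Set.univ : Set (Pairing (HE d)))).real
      {σ | ∃ γ ∈ S, Contains σ (exRun u γ).A} =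
      ∑ γ ∈ S, (uniformOn (Set.univ : Set (Pairing (HE d)))).real
        {σ | Contains σ (exRun u γ).A} := by
  have e : {σ : Pairing (HE d) | ∃ γ ∈ S, Contains σ (exRun u γ).A} =
      ⋃ γ ∈ S, {σ | Contains σ (exRun u γ).A} := by
    ext σ
    simp
  rw [e, measureReal_biUnion_finset]
  · intro γ hγ γ' hγ' hne
    rw [Function.onFun, Set.disjoint_left]
    intro σ hσ hσ'
    have h1 := exb_mem_niceL.1 (hS hγ)
    have h2 := exb_mem_niceL.1 (hS hγ')
    exact hne (ex_unique u o γ γ' h1.2 h2.2 (h1.1.trans h2.1.symm) σ hσ hσ')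
  · intro γ _
    exact law_meas_set _ _

theorem exb_nice_sum_le_one (heven : Even (Fintype.card (HE d))) (u o : Fin n) (j : ℕ) :
    ∑ γ ∈ exb_niceL d u o j, (uniformOn (Set.univ : Set (Pairing (HE d)))).real
        {σ | Contains σ (exRun u γ).A} ≤ 1 := by
  have := exb_isProb heven
  rw [← exb_prob_union u o j _ (Finset.Subset.refl _)]
  exact measureReal_le_one

/-- The number of half-edges at a visited vertex or at `o`. -/
theorem exb_card_vis (D : ℝ) (hD : ∀ v, (d v : ℝ) ≤ D) (o : Fin n) (vis : List (Fin n)) :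
    ((Finset.univ.filter fun g : HE d => g.1 ∈ vis ∨ g.1 = o).card : ℝ) ≤
      ((vis.length : ℝ) + 1) * D := by
  classical
  have h1 : (Finset.univ.filter fun g : HE d => g.1 ∈ vis ∨ g.1 = o) ⊆
      (o :: vis).toFinset.biUnion fun v => hes d v := by
    intro g hg
    simp only [Finset.mem_filter, Finset.mem_univ, true_and] at hg
    simp only [Finset.mem_biUnion, List.mem_toFinset, List.mem_cons, mem_hes]
    rcases hg with h | h
    · exact ⟨g.1, Or.inr h, rfl⟩
    · exact ⟨o, Or.inl rfl, h⟩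
  have h2 : (Finset.univ.filter fun g : HE d => g.1 ∈ vis ∨ g.1 = o).card ≤
      ∑ v ∈ (o :: vis).toFinset, d v := by
    refine (Finset.card_le_card h1).trans (Finset.card_biUnion_le.trans ?_)
    exact Finset.sum_le_sum fun v _ => (card_hes v).le
  have hD0 : 0 ≤ D := (Nat.cast_nonneg _).trans (hD o)
  calc ((Finset.univ.filter fun g : HE d => g.1 ∈ vis ∨ g.1 = o).card : ℝ)
      ≤ ((∑ v ∈ (o :: vis).toFinset, d v : ℕ) : ℝ) := by exact_mod_cast h2
    _ = ∑ v ∈ (o :: vis).toFinset, (d v : ℝ) := by push_cast; rfl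
    _ ≤ ∑ _v ∈ (o :: vis).toFinset, D := Finset.sum_le_sum fun v _ => hD v
    _ = ((o :: vis).toFinset.card : ℝ) * D := by rw [Finset.sum_const, nsmul_eq_mul]
    _ ≤ ((vis.length : ℝ) + 1) * D := by
      refine mul_le_mul_of_nonneg_right ?_ hD0
      have : (o :: vis).toFinset.card ≤ vis.length + 1 := (List.toFinset_card_le _)
      exact_mod_cast this

/-- A collision in one step. -/
theorem exb_step (heven : Even (Fintype.card (HE d))) (u o : Fin n) (m : ℕ) (D : ℝ)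
    (hD : ∀ v, (d v : ℝ) ≤ D) (hsize : 2 * (m : ℝ) < (Fintype.card (HE d) : ℝ))
    (γ : List (HE d)) (hγ : γ.length < m) (hn : nice u o γ) :
    (uniformOn (Set.univ : Set (Pairing (HE d)))).real
      {σ | Contains σ (exRun u γ).A ∧ ∃ x rest, (exRun u γ).act = x :: rest ∧
        ((σ.1 x).1 ∈ (exRun u γ).vis ∨ (σ.1 x).1 = o)} ≤
      (uniformOn (Set.univ : Set (Pairing (HE d)))).real {σ | Contains σ (exRun u γ).A} *
        (((m : ℝ) + 1) * D / ((Fintype.card (HE d) : ℝ) - 2 * m)) := by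
  classical
  have := exb_isProb heven
  obtain ⟨hnd, hlen, hact, hactm, hends, hu, ho, hvl, hvn, hal⟩ := ex_facts u o γ hn
  have hγ' : (γ.length : ℝ) + 1 ≤ m := by exact_mod_cast hγ
  have hD0 : 0 ≤ D := (Nat.cast_nonneg _).trans (hD o)
  have hpos : 0 < (Fintype.card (HE d) : ℝ) - 2 * m := by linarith
  set P : Measure (Pairing (HE d)) := uniformOn (Set.univ : Set (Pairing (HE d))) with hP
  have hPA : 0 ≤ P.real {σ | Contains σ (exRun u γ).A} := measureReal_nonneg
  cases hx : (exRun u γ).act with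
  | nil =>
    have e : {σ : Pairing (HE d) | Contains σ (exRun u γ).A ∧ ∃ x rest, ([] : List (HE d)) = x :: rest ∧
        ((σ.1 x).1 ∈ (exRun u γ).vis ∨ (σ.1 x).1 = o)} = ∅ := by
      rw [Set.eq_empty_iff_forall_notMem]
      rintro σ ⟨_, x, rest, h, _⟩
      exact absurd h (List.cons_ne_nil _ _).symm
    rw [e, measureReal_empty]
    positivity
  | cons x rest =>
    have hxa : x ∈ (exRun u γ).act := by rw [hx]; exact List.mem_cons_self ..
    have hxe : x ∉ ends (exRun u γ).A := ((hactm x).1 hxa).2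
    have hsub : {σ : Pairing (HE d) | Contains σ (exRun u γ).A ∧ ∃ x' rest', x :: rest = x' :: rest' ∧
        ((σ.1 x').1 ∈ (exRun u γ).vis ∨ (σ.1 x').1 = o)} ⊆
        ⋃ g ∈ (Finset.univ.filter fun g : HE d => g.1 ∈ (exRun u γ).vis ∨ g.1 = o),
          {σ | Contains σ ((x, g) :: (exRun u γ).A)} := by
      rintro σ ⟨hc, x', rest', h, h'⟩
      rw [List.cons.injEq] at h
      obtain ⟨rfl, rfl⟩ := h
      simp only [Set.mem_iUnion]
      refine ⟨σ.1 x, ?_, ?_⟩
      · simp only [Finset.mem_filter, Finset.mem_univ, true_and]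
        exact h'
      · intro q hq
        rw [List.mem_cons] at hq
        rcases hq with rfl | hq
        · rfl
        · exact hc q hq
    refine (measureReal_mono hsub (measure_ne_top _ _)).trans ((measureReal_biUnion_finset_le _ _).trans ?_)
    have hone : ∀ g ∈ (Finset.univ.filter fun g : HE d => g.1 ∈ (exRun u γ).vis ∨ g.1 = o),
        P.real {σ | Contains σ ((x, g) :: (exRun u γ).A)} ≤
          P.real {σ | Contains σ (exRun u γ).A} * (1 / ((Fintype.card (HE d) : ℝ) - 2 * m)) := by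
      intro g _
      refine (exb_prob_cons heven (exRun u γ).A x g hnd hxe (by rw [hlen]; linarith)).trans ?_
      refine mul_le_mul_of_nonneg_left ?_ hPA
      rw [hlen]
      exact one_div_le_one_div_of_le hpos (by linarith)
    refine (Finset.sum_le_sum hone).trans ?_
    rw [Finset.sum_const, nsmul_eq_mul]
    have hcard := exb_card_vis D hD o (exRun u γ).vis
    rw [hvl] at hcard
    push_cast at hcard
    have hcard' : ((Finset.univ.filter fun g : HE d => g.1 ∈ (exRun u γ).vis ∨ g.1 = o).card : ℝ) ≤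
        ((m : ℝ) + 1) * D :=
      hcard.trans (mul_le_mul_of_nonneg_right (by linarith) hD0)
    calc ((Finset.univ.filter fun g : HE d => g.1 ∈ (exRun u γ).vis ∨ g.1 = o).card : ℝ) *
          (P.real {σ | Contains σ (exRun u γ).A} * (1 / ((Fintype.card (HE d) : ℝ) - 2 * m)))
        ≤ (((m : ℝ) + 1) * D) *
          (P.real {σ | Contains σ (exRun u γ).A} * (1 / ((Fintype.card (HE d) : ℝ) - 2 * m))) :=
        mul_le_mul_of_nonneg_right hcard' (by positivity)
      _ = _ := by ring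

/-- A collision before step `m`. -/
theorem exb_caseC (heven : Even (Fintype.card (HE d))) (u o : Fin n) (m : ℕ) (D : ℝ)
    (hD : ∀ v, (d v : ℝ) ≤ D) (hsize : 2 * (m : ℝ) < (Fintype.card (HE d) : ℝ)) :
    (uniformOn (Set.univ : Set (Pairing (HE d)))).real
      {σ | ∃ γ : List (HE d), γ.length < m ∧ nice u o γ ∧ Contains σ (exRun u γ).A ∧
        ∃ x rest, (exRun u γ).act = x :: rest ∧
        ((σ.1 x).1 ∈ (exRun u γ).vis ∨ (σ.1 x).1 = o)} ≤
      (m : ℝ) * (((m : ℝ) + 1) * D / ((Fintype.card (HE d) : ℝ) - 2 * m)) := by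
  have := exb_isProb heven
  have hD0 : 0 ≤ D := (Nat.cast_nonneg _).trans (hD o)
  have hpos : 0 < (Fintype.card (HE d) : ℝ) - 2 * m := by linarith
  have hsub : {σ : Pairing (HE d) | ∃ γ : List (HE d), γ.length < m ∧ nice u o γ ∧
      Contains σ (exRun u γ).A ∧ ∃ x rest, (exRun u γ).act = x :: rest ∧
        ((σ.1 x).1 ∈ (exRun u γ).vis ∨ (σ.1 x).1 = o)} ⊆
      ⋃ j ∈ Finset.range m, ⋃ γ ∈ exb_niceL d u o j,
        {σ | Contains σ (exRun u γ).A ∧ ∃ x rest, (exRun u γ).act = x :: rest ∧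
        ((σ.1 x).1 ∈ (exRun u γ).vis ∨ (σ.1 x).1 = o)} := by
    rintro σ ⟨γ, h1, h2, h3, h4⟩
    simp only [Set.mem_iUnion]
    exact ⟨γ.length, Finset.mem_range.2 h1, γ, exb_mem_niceL.2 ⟨rfl, h2⟩, h3, h4⟩
  refine (measureReal_mono hsub (measure_ne_top _ _)).trans ((measureReal_biUnion_finset_le _ _).trans ?_)
  have hj : ∀ j ∈ Finset.range m, (uniformOn (Set.univ : Set (Pairing (HE d)))).real
      (⋃ γ ∈ exb_niceL d u o j,
        {σ | Contains σ (exRun u γ).A ∧ ∃ x rest, (exRun u γ).act = x :: rest ∧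
        ((σ.1 x).1 ∈ (exRun u γ).vis ∨ (σ.1 x).1 = o)}) ≤
      ((m : ℝ) + 1) * D / ((Fintype.card (HE d) : ℝ) - 2 * m) := by
    intro j hj
    refine (measureReal_biUnion_finset_le _ _).trans ?_
    have h1 : ∀ γ ∈ exb_niceL d u o j, (uniformOn (Set.univ : Set (Pairing (HE d)))).real
        {σ | Contains σ (exRun u γ).A ∧ ∃ x rest, (exRun u γ).act = x :: rest ∧
        ((σ.1 x).1 ∈ (exRun u γ).vis ∨ (σ.1 x).1 = o)} ≤
        (uniformOn (Set.univ : Set (Pairing (HE d)))).real {σ | Contains σ (exRun u γ).A} *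
        (((m : ℝ) + 1) * D / ((Fintype.card (HE d) : ℝ) - 2 * m)) := by
      intro γ hγ
      obtain ⟨h2, h3⟩ := exb_mem_niceL.1 hγ
      exact exb_step heven u o m D hD hsize γ (by rw [h2]; exact Finset.mem_range.1 hj) h3
    refine (Finset.sum_le_sum h1).trans ?_
    rw [← Finset.sum_mul]
    have h4 := exb_nice_sum_le_one heven u o j
    have h5 : 0 ≤ ((m : ℝ) + 1) * D / ((Fintype.card (HE d) : ℝ) - 2 * m) := by positivity
    calc _ ≤ 1 * (((m : ℝ) + 1) * D / ((Fintype.card (HE d) : ℝ) - 2 * m)) :=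
          mul_le_mul_of_nonneg_right h4 h5
      _ = _ := one_mul _
  refine (Finset.sum_le_sum hj).trans ?_
  rw [Finset.sum_const, Finset.card_range, nsmul_eq_mul]

/-! ### Few active half-edges after `m` steps -/

theorem exb_listsOf_sum (f : HE d → ℝ) (m : ℕ) :
    ∑ γ ∈ listsOf (Finset.univ : Finset (HE d)) m, (γ.map f).prod = (∑ g, f g) ^ m := by
  unfold listsOf
  rw [Finset.sum_image (fun a _ b _ h => List.ofFn_injective h)]
  have h1 : ∀ F : Fin m → HE d, ((List.ofFn F).map f).prod = ∏ i, f (F i) := by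
    intro F
    rw [List.map_ofFn, List.prod_ofFn]
    rfl
  simp only [h1]
  rw [Finset.sum_prod_piFinset]
  simp

theorem exb_prod_exp (a : HE d → ℝ) (γ : List (HE d)) :
    (γ.map fun g => Real.exp (a g)).prod = Real.exp (γ.map a).sum := by
  induction γ with
  | nil => simp
  | cons g γ ih => simp [ih, Real.exp_add]

theorem exb_list_sum_le (a b : HE d → ℝ) (h : ∀ g, a g ≤ b g) (γ : List (HE d)) :
    (γ.map a).sum ≤ (γ.map b).sum := by
  induction γ with
  | nil => simp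
  | cons g γ ih =>
    simp only [List.map_cons, List.sum_cons]
    exact add_le_add (h g) ih

theorem exb_list_cast (γ : List (HE d)) :
    (γ.map fun g : HE d => ((d g.1 : ℝ) - 2)).sum =
      (((γ.map fun g : HE d => d g.1).sum : ℕ) : ℝ) - 2 * γ.length := by
  induction γ with
  | nil => simp
  | cons g γ ih =>
    simp only [List.map_cons, List.sum_cons, ih, List.length_cons]
    push_cast
    ring

open Classical in
theorem exb_caseE (heven : Even (Fintype.card (HE d))) (u o : Fin n) (m M : ℕ) (t B q : ℝ)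
    (ht : 0 < t) (hsize : 2 * (m : ℝ) < (Fintype.card (HE d) : ℝ))
    (hlap : ∑ g : HE d, Real.exp (-(t * (min (d g.1 : ℝ) B - 2))) ≤
      q * (Fintype.card (HE d) : ℝ)) :
    (uniformOn (Set.univ : Set (Pairing (HE d)))).real
      {σ | ∃ γ : List (HE d), γ.length = m ∧ nice u o γ ∧ Contains σ (exRun u γ).A ∧
        (exRun u γ).act.length < M} ≤
      Real.exp (t * M) * (q * (Fintype.card (HE d) : ℝ) /
        ((Fintype.card (HE d) : ℝ) - 2 * m)) ^ m := by
  have := exb_isProb heven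
  set ℓ : ℝ := (Fintype.card (HE d) : ℝ) with hℓ
  have hpos : 0 < ℓ - 2 * m := by linarith
  set P : Measure (Pairing (HE d)) := uniformOn (Set.univ : Set (Pairing (HE d))) with hP
  set G : Finset (List (HE d)) :=
    (exb_niceL d u o m).filter fun γ => (exRun u γ).act.length < M with hG
  have hsub : {σ : Pairing (HE d) | ∃ γ : List (HE d), γ.length = m ∧ nice u o γ ∧
      Contains σ (exRun u γ).A ∧ (exRun u γ).act.length < M} ⊆
      ⋃ γ ∈ G, {σ | Contains σ (exRun u γ).A} := by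
    rintro σ ⟨γ, h1, h2, h3, h4⟩
    simp only [Set.mem_iUnion]
    exact ⟨γ, Finset.mem_filter.2 ⟨exb_mem_niceL.2 ⟨h1, h2⟩, h4⟩, h3⟩
  refine (measureReal_mono hsub (measure_ne_top _ _)).trans ((measureReal_biUnion_finset_le _ _).trans ?_)
  have h1 : ∀ γ ∈ G, P.real {σ | Contains σ (exRun u γ).A} ≤
      (1 / (ℓ - 2 * m)) ^ m * (Real.exp (t * M) *
        (γ.map fun g : HE d => Real.exp (-(t * (min (d g.1 : ℝ) B - 2)))).prod) := by
    intro γ hγ
    rw [hG, Finset.mem_filter] at hγ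
    obtain ⟨hγ1, hγ2⟩ := hγ
    obtain ⟨h2, h3⟩ := exb_mem_niceL.1 hγ1
    obtain ⟨hnd, hlen, hact, hactm, hends, hu, ho, hvl, hvn, hal⟩ := ex_facts u o γ h3
    rw [exb_prob heven _ hnd, hlen, h2]
    have h4 := exb_kap_le ℓ m m le_rfl hsize
    have h5 : 0 ≤ (1 / (ℓ - 2 * m)) ^ m := by positivity
    have h6 : 1 ≤ Real.exp (t * M) *
        (γ.map fun g : HE d => Real.exp (-(t * (min (d g.1 : ℝ) B - 2)))).prod := by
      rw [exb_prod_exp, ← Real.exp_add]
      apply Real.one_le_exp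
      have h7 := exb_list_sum_le (fun g : HE d => -(t * ((d g.1 : ℝ) - 2)))
        (fun g : HE d => -(t * (min (d g.1 : ℝ) B - 2))) (fun g => by
          have := min_le_left (d g.1 : ℝ) B
          have h8 : t * (min (d g.1 : ℝ) B - 2) ≤ t * ((d g.1 : ℝ) - 2) :=
            mul_le_mul_of_nonneg_left (by linarith) ht.le
          linarith) γ
      have h9 : (γ.map fun g : HE d => -(t * ((d g.1 : ℝ) - 2))).sum =
          -(t * (γ.map fun g : HE d => ((d g.1 : ℝ) - 2)).sum) := by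
        clear h7 hal hact hactm hγ1 hγ2 h2 h3 hnd hlen hends hu ho hvl hvn
        induction γ with
        | nil => simp
        | cons g γ ih =>
          simp only [List.map_cons, List.sum_cons, ih]
          ring
      rw [h9, exb_list_cast] at h7
      have h10 : (((γ.map fun g : HE d => d g.1).sum : ℕ) : ℝ) - 2 * γ.length ≤ M := by
        have h11 : ((exRun u γ).act.length : ℝ) + 2 * γ.length =
            d u + (((γ.map fun g : HE d => d g.1).sum : ℕ) : ℝ) := by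
          exact_mod_cast hal
        have h12 : ((exRun u γ).act.length : ℝ) ≤ M := by exact_mod_cast hγ2.le
        have h13 : (0 : ℝ) ≤ d u := Nat.cast_nonneg _
        linarith
      have h14 := mul_le_mul_of_nonneg_left h10 ht.le
      linarith
    calc kap ℓ 0 m ≤ (1 / (ℓ - 2 * m)) ^ m := h4
      _ = (1 / (ℓ - 2 * m)) ^ m * 1 := (mul_one _).symm
      _ ≤ _ := mul_le_mul_of_nonneg_left h6 h5
  refine (Finset.sum_le_sum h1).trans ?_
  rw [← Finset.mul_sum, ← Finset.mul_sum]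
  have h2 : ∑ γ ∈ G, (γ.map fun g : HE d => Real.exp (-(t * (min (d g.1 : ℝ) B - 2)))).prod ≤
      (q * ℓ) ^ m := by
    refine le_trans (Finset.sum_le_sum_of_subset_of_nonneg (t := listsOf Finset.univ m) ?_ ?_) ?_
    · intro γ hγ
      rw [hG, Finset.mem_filter] at hγ
      rw [mem_listsOf]
      exact ⟨(exb_mem_niceL.1 hγ.1).1, fun _ _ => Finset.mem_univ _⟩
    · intro γ _ _
      apply List.prod_nonneg
      intro a ha
      rw [List.mem_map] at ha
      obtain ⟨g, _, rfl⟩ := ha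
      exact (Real.exp_pos _).le
    · rw [exb_listsOf_sum]
      exact pow_le_pow_left₀ (Finset.sum_nonneg fun g _ => (Real.exp_pos _).le) hlap m
  calc (1 / (ℓ - 2 * m)) ^ m * (Real.exp (t * M) * ∑ γ ∈ G,
        (γ.map fun g : HE d => Real.exp (-(t * (min (d g.1 : ℝ) B - 2)))).prod)
      ≤ (1 / (ℓ - 2 * m)) ^ m * (Real.exp (t * M) * (q * ℓ) ^ m) := by
        refine mul_le_mul_of_nonneg_left (mul_le_mul_of_nonneg_left h2 (Real.exp_pos _).le) ?_
        positivity
    _ = _ := by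
        rw [div_pow, div_pow]
        ring

/-! ### The component is small -/

theorem exb_conn_symm (σ : Pairing (HE d)) {a b : Fin n} (h : Connected σ a b) :
    Connected σ b a := by
  unfold Connected at h ⊢
  induction h with
  | refl => exact Relation.ReflTransGen.refl
  | tail _ h ih =>
    obtain ⟨x, hx, hx'⟩ := h
    refine Relation.ReflTransGen.head ?_ ih
    exact ⟨σ.1 x, hx', by rw [σ.2.1]; exact hx⟩

theorem exb_compSize_eq (σ : Pairing (HE d)) {a b : Fin n} (h : Connected σ a b) :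
    compSize σ a = compSize σ b := by
  unfold compSize
  congr 1
  ext v
  simp only [Finset.mem_filter, Finset.mem_univ, true_and]
  constructor
  · intro h'
    exact Relation.ReflTransGen.trans (exb_conn_symm σ h) h'
  · intro h'
    exact Relation.ReflTransGen.trans h h'

theorem exb_giant (σ : Pairing (HE d)) (s : Sources n) (c : Bool) (h : BothInGiant σ s)
    (u : Fin n) : compSize σ u ≤ compSize σ (s.1 c) := by
  obtain ⟨h1, h2⟩ := h
  cases c
  · rw [← exb_compSize_eq σ h1]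
    exact h2 u
  · exact h2 u

/-- If the component of `u0` is small, then two of its half-edges lead to the same vertex. -/
theorem exb_small (σ : Pairing (HE d)) (u0 : Fin n) (Hm : Finset (HE d)) (hHm : Hm ⊆ hes d u0)
    (hc : compSize σ u0 ≤ Hm.card) :
    (∃ h ∈ Hm, (σ.1 h).1 = u0) ∨
      ∃ h ∈ Hm, ∃ h' ∈ Hm, h ≠ h' ∧ (σ.1 h).1 = (σ.1 h').1 ∧ (σ.1 h).1 ≠ u0 := by
  classical
  by_contra hcon
  push Not at hcon
  obtain ⟨h1, h2⟩ := hcon
  have hinj : Set.InjOn (fun h : HE d => (σ.1 h).1) (Hm : Set (HE d)) := by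
    intro h hh h' hh' e
    by_contra hne
    exact h1 h hh (h2 h hh h' hh' hne e)
  have hcard : (insert u0 (Hm.image fun h : HE d => (σ.1 h).1)).card = Hm.card + 1 := by
    rw [Finset.card_insert_of_notMem, Finset.card_image_of_injOn hinj]
    intro hmem
    rw [Finset.mem_image] at hmem
    obtain ⟨h, hh, e⟩ := hmem
    exact h1 h hh e
  have hle : (insert u0 (Hm.image fun h : HE d => (σ.1 h).1)).card ≤ compSize σ u0 := by
    unfold compSize
    apply Finset.card_le_card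
    intro v hv
    rw [Finset.mem_insert, Finset.mem_image] at hv
    simp only [Finset.mem_filter, Finset.mem_univ, true_and]
    rcases hv with rfl | ⟨h, hh, rfl⟩
    · exact Relation.ReflTransGen.refl
    · refine Relation.ReflTransGen.single ⟨h, ?_, rfl⟩
      exact mem_hes.1 (hHm hh)
  omega

theorem exb_prob_one (heven : Even (Fintype.card (HE d))) (h g : HE d)
    (hsize : (1 : ℝ) < (Fintype.card (HE d) : ℝ)) :
    (uniformOn (Set.univ : Set (Pairing (HE d)))).real {σ | Contains σ [(h, g)]} ≤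
      1 / ((Fintype.card (HE d) : ℝ) - 1) := by
  have := exb_isProb heven
  have h1 := exb_prob_cons heven [] h g (by simp [ends]) (by simp [ends])
    (by simpa using hsize)
  simp only [List.length_nil, Nat.cast_zero, mul_zero, sub_zero] at h1
  refine h1.trans ?_
  have h2 : (uniformOn (Set.univ : Set (Pairing (HE d)))).real
      {σ | Contains σ ([] : List (HE d × HE d))} ≤ 1 := measureReal_le_one
  have h3 : 0 ≤ 1 / ((Fintype.card (HE d) : ℝ) - 1) := div_nonneg zero_le_one (by linarith)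
  calc _ ≤ 1 * (1 / ((Fintype.card (HE d) : ℝ) - 1)) := mul_le_mul_of_nonneg_right h2 h3
    _ = _ := one_mul _

theorem exb_prob_two (heven : Even (Fintype.card (HE d))) (h g h' g' : HE d)
    (hne : h ≠ h') (hg : h ≠ g') (hsize : (3 : ℝ) < (Fintype.card (HE d) : ℝ)) :
    (uniformOn (Set.univ : Set (Pairing (HE d)))).real {σ | Contains σ [(h, g), (h', g')]} ≤
      1 / ((Fintype.card (HE d) : ℝ) - 1) * (1 / ((Fintype.card (HE d) : ℝ) - 3)) := by
  have := exb_isProb heven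
  have hnn : 0 ≤ 1 / ((Fintype.card (HE d) : ℝ) - 1) * (1 / ((Fintype.card (HE d) : ℝ) - 3)) :=
    mul_nonneg (div_nonneg zero_le_one (by linarith)) (div_nonneg zero_le_one (by linarith))
  by_cases hg' : h' = g'
  · have he : {σ : Pairing (HE d) | Contains σ [(h, g), (h', g')]} = ∅ := by
      rw [Set.eq_empty_iff_forall_notMem]
      intro σ hσ
      have h1 : σ.1 h' = g' := hσ (h', g') (by simp)
      exact σ.2.2 h' (h1.trans hg'.symm)
    rw [he, measureReal_empty]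
    exact hnn
  · have h1 := exb_prob_cons heven [(h', g')] h g (by simp [ends, hg']) (by simp [ends, hne, hg])
      (by simp only [List.length_singleton]; push_cast; linarith)
    simp only [List.length_singleton, Nat.cast_one, mul_one] at h1
    have h2 := exb_prob_one heven h' g' (by linarith)
    have e : (Fintype.card (HE d) : ℝ) - 2 - 1 = (Fintype.card (HE d) : ℝ) - 3 := by ring
    rw [e] at h1
    refine h1.trans ?_
    exact mul_le_mul_of_nonneg_right h2 (div_nonneg zero_le_one (by linarith))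

theorem exb_caseB (heven : Even (Fintype.card (HE d))) (s : Sources n) (c : Bool) (m : ℕ) (D : ℝ)
    (hD : ∀ v, (d v : ℝ) ≤ D) (hsize : (3 : ℝ) < (Fintype.card (HE d) : ℝ)) (u0 : Fin n)
    (hu0 : m ≤ d u0) :
    (uniformOn (Set.univ : Set (Pairing (HE d)))).real
      {σ | BothInGiant σ s ∧ compSize σ (s.1 c) ≤ m} ≤
      m * D * (1 / ((Fintype.card (HE d) : ℝ) - 1)) +
      m ^ 2 * ((trs d).card : ℝ) * (1 / ((Fintype.card (HE d) : ℝ) - 1) *
        (1 / ((Fintype.card (HE d) : ℝ) - 3))) := by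
  classical
  have := exb_isProb heven
  set ℓ : ℝ := (Fintype.card (HE d) : ℝ) with hℓ
  have hD0 : 0 ≤ D := (Nat.cast_nonneg _).trans (hD u0)
  set P : Measure (Pairing (HE d)) := uniformOn (Set.univ : Set (Pairing (HE d))) with hP
  obtain ⟨Hm, hHm, hcard⟩ : ∃ Hm ⊆ hes d u0, Hm.card = m :=
    Finset.exists_subset_card_eq (by rw [card_hes]; exact hu0)
  have hsub : {σ : Pairing (HE d) | BothInGiant σ s ∧ compSize σ (s.1 c) ≤ m} ⊆
      (⋃ q ∈ Hm ×ˢ hes d u0, {σ | Contains σ [(q.1, q.2)]}) ∪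
      ⋃ q ∈ ((Hm ×ˢ Hm).filter fun q => q.1 ≠ q.2) ×ˢ
        ((trs d).filter fun r => r.1.1 ≠ u0),
        {σ | Contains σ [(q.1.1, q.2.1), (q.1.2, q.2.2)]} := by
    rintro σ ⟨hg, hc⟩
    have hc' : compSize σ u0 ≤ Hm.card := by
      rw [hcard]
      exact (exb_giant σ s c hg u0).trans hc
    rcases exb_small σ u0 Hm hHm hc' with ⟨h, hh, he⟩ | ⟨h, hh, h', hh', hne, he, hu⟩
    · left
      simp only [Set.mem_iUnion]
      refine ⟨(h, σ.1 h), Finset.mem_product.2 ⟨hh, mem_hes.2 he⟩, ?_⟩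
      intro p hp
      rw [List.mem_singleton] at hp
      subst hp
      rfl
    · right
      simp only [Set.mem_iUnion]
      refine ⟨((h, h'), (σ.1 h, σ.1 h')), ?_, ?_⟩
      · rw [Finset.mem_product, Finset.mem_filter, Finset.mem_filter, Finset.mem_product]
        refine ⟨⟨⟨hh, hh'⟩, hne⟩, mem_trs.2 ⟨he, ?_⟩, hu⟩
        intro e
        exact hne (match_inj σ e)
      · intro p hp
        simp only [List.mem_cons, List.not_mem_nil, or_false] at hp
        rcases hp with rfl | rfl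
        · rfl
        · rfl
  refine (measureReal_mono hsub (measure_ne_top _ _)).trans ((measureReal_union_le _ _).trans ?_)
  refine add_le_add ((measureReal_biUnion_finset_le _ _).trans ?_)
    ((measureReal_biUnion_finset_le _ _).trans ?_)
  · have h1 : ∀ q ∈ Hm ×ˢ hes d u0, P.real {σ | Contains σ [(q.1, q.2)]} ≤ 1 / (ℓ - 1) :=
      fun q _ => exb_prob_one heven q.1 q.2 (by linarith)
    refine (Finset.sum_le_sum h1).trans ?_
    rw [Finset.sum_const, Finset.card_product, hcard, card_hes, nsmul_eq_mul]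
    refine mul_le_mul_of_nonneg_right ?_ (div_nonneg zero_le_one (by linarith))
    push_cast
    exact mul_le_mul_of_nonneg_left (hD u0) (Nat.cast_nonneg _)
  · have hnn : 0 ≤ 1 / (ℓ - 1) * (1 / (ℓ - 3)) :=
      mul_nonneg (div_nonneg zero_le_one (by linarith)) (div_nonneg zero_le_one (by linarith))
    have h1 : ∀ q ∈ ((Hm ×ˢ Hm).filter fun q => q.1 ≠ q.2) ×ˢ
        ((trs d).filter fun r => r.1.1 ≠ u0),
        P.real {σ | Contains σ [(q.1.1, q.2.1), (q.1.2, q.2.2)]} ≤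
          1 / (ℓ - 1) * (1 / (ℓ - 3)) := by
      intro q hq
      rw [Finset.mem_product, Finset.mem_filter, Finset.mem_filter, Finset.mem_product] at hq
      obtain ⟨⟨⟨hq1, hq2⟩, hq3⟩, hq4, hq5⟩ := hq
      refine exb_prob_two heven q.1.1 q.2.1 q.1.2 q.2.2 hq3 ?_ hsize
      intro e
      apply hq5
      rw [(mem_trs.1 hq4).1, ← e]
      exact mem_hes.1 (hHm hq1)
    refine (Finset.sum_le_sum h1).trans ?_
    rw [Finset.sum_const, Finset.card_product, nsmul_eq_mul]
    refine mul_le_mul_of_nonneg_right ?_ hnn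
    have h2 : ((Hm ×ˢ Hm).filter fun q => q.1 ≠ q.2).card ≤ m ^ 2 := by
      refine (Finset.card_filter_le _ _).trans ?_
      rw [Finset.card_product, hcard, sq]
    have h3 : ((trs d).filter fun r => r.1.1 ≠ u0).card ≤ (trs d).card :=
      Finset.card_filter_le _ _
    have h4 := Nat.mul_le_mul h2 h3
    calc ((((Hm ×ˢ Hm).filter fun q => q.1 ≠ q.2).card *
          ((trs d).filter fun r => r.1.1 ≠ u0).card : ℕ) : ℝ) ≤ ((m ^ 2 * (trs d).card : ℕ) : ℝ) := by
          exact_mod_cast h4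
      _ = _ := by push_cast; rfl

end Prob

theorem exb_sources {n : ℕ} (s : Sources n) (c : Bool) : s.1 c ≠ s.1 (!c) := by
  cases c
  · exact s.2.symm
  · exact s.2

theorem exb_mem_goodHist {n : ℕ} {d : Fin n → ℕ} {u o : Fin n} {m M : ℕ} {γ : List (HE d)} :
    γ ∈ goodHist d u o m M ↔ γ.length = m ∧ nice u o γ ∧ M ≤ (exRun u γ).act.length := by
  simp [goodHist, mem_listsOf]

/-- If both sources are in the largest component, then with high probability the exploration from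
the source of colour `c` is nice for `m` steps and has then at least `M` active half-edges. -/
theorem explore_whp (ν C θ η p : ℝ) (k : ℕ) (hν : 1 < ν) (hC : 0 < C) (hθ : 0 < θ)
    (hη : 0 < η) (hp : 0 < p) (M : ℕ) (ε : ℝ) (hε : 0 < ε) :
    ∃ m mL N : ℕ, ∀ n : ℕ, N ≤ n → ∀ d : Fin n → ℕ, Reg ν C θ η p k mL d →
      ∀ (s : Sources n) (c : Bool),
      uniformOn Set.univ {σ : Pairing (HE d) | BothInGiant σ s ∧
        ∀ γ ∈ goodHist d (s.1 c) (s.1 (!c)) m M, ¬ Contains σ (exRun (s.1 c) γ).A} ≤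
      ENNReal.ofReal ε := by
  obtain ⟨t, B, q, N0, ht, hB, hq0, hq1, hlap⟩ := exb_laplace ν C θ η p k hν hC hθ hη
  obtain ⟨m, hm⟩ := exists_pow_lt_of_lt_one
    (show 0 < ε / 4 / (Real.exp (t * M) * 2) by positivity) hq1
  set K : ℝ := 6 + 4 * m + 4 * m ^ 2 + 4 / ε * (2 * m + 4 * m ^ 2 * (ν + 1)) +
    4 / ε * (2 * m * (m + 1)) with hK
  have hm0 : (0 : ℝ) ≤ m := Nat.cast_nonneg _
  have hν1 : 0 < ν + 1 := by linarith
  have k1 : 0 ≤ 4 * (m : ℝ) := by positivity
  have k2 : 0 ≤ 4 * (m : ℝ) ^ 2 := by positivity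
  have k3 : 0 ≤ 4 / ε * (2 * (m : ℝ) + 4 * m ^ 2 * (ν + 1)) := by positivity
  have k4 : 0 ≤ 4 / ε * (2 * (m : ℝ) * (m + 1)) := by positivity
  have hK0 : 0 < K := by linarith
  obtain ⟨N1, hN1⟩ := exb_size ν C θ η p k hC hθ K
  refine ⟨m, m, max 1 (max N0 N1), fun n hn d hreg s c => ?_⟩
  have hn1 : 1 ≤ n := (le_max_left _ _).trans hn
  have hnN0 : N0 ≤ n := (le_max_left _ _).trans ((le_max_right _ _).trans hn)
  have hnN1 : N1 ≤ n := (le_max_right _ _).trans ((le_max_right _ _).trans hn)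
  obtain ⟨hKℓ, hKd⟩ := hN1 n hnN1 d m hreg
  have hlap' := hlap n hnN0 d m hreg
  have htrs := exb_trs ν C θ η p k m hη hn1 hreg
  have heven := exb_even hreg.even
  have hprob := exb_isProb heven
  obtain ⟨u0, hu0⟩ := hreg.large
  set ℓ : ℝ := (Fintype.card (HE d) : ℝ) with hℓ
  have hℓ6 : 6 ≤ ℓ := by linarith
  have hℓ0 : 0 < ℓ := by linarith
  have hD : ∀ v, (d v : ℝ) ≤ ℓ / K := by
    intro v
    rw [le_div_iff₀ hK0]
    linarith [hKd v]
  have hsize : 2 * (m : ℝ) < ℓ := by linarith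
  set P : Measure (Pairing (HE d)) := uniformOn (Set.univ : Set (Pairing (HE d))) with hP
  have hB1 := exb_caseB heven s c m (ℓ / K) hD (by linarith) u0 hu0
  have hC1 := exb_caseC heven (s.1 c) (s.1 !c) m (ℓ / K) hD hsize
  have hE1 := exb_caseE heven (s.1 c) (s.1 !c) m M t B q ht hsize hlap'
  rw [← hℓ, ← hP] at hB1 hC1 hE1
  -- the three bounds
  have b1 : (m : ℝ) * (ℓ / K) * (1 / (ℓ - 1)) + m ^ 2 * ((trs d).card : ℝ) *
      (1 / (ℓ - 1) * (1 / (ℓ - 3))) ≤ ε / 4 := by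
    have e1 : 1 / (ℓ - 1) ≤ 2 / ℓ := by
      rw [div_le_div_iff₀ (by linarith) hℓ0]; linarith
    have e2 : 1 / (ℓ - 3) ≤ 2 / ℓ := by
      rw [div_le_div_iff₀ (by linarith) hℓ0]; linarith
    have e0 : 0 ≤ 1 / (ℓ - 1) := div_nonneg zero_le_one (by linarith)
    have e0' : 0 ≤ 1 / (ℓ - 3) := div_nonneg zero_le_one (by linarith)
    have e3 : 1 / (ℓ - 1) * (1 / (ℓ - 3)) ≤ 2 / ℓ * (2 / ℓ) :=
      mul_le_mul e1 e2 e0' (by positivity)
    have e4 : (m : ℝ) * (ℓ / K) * (1 / (ℓ - 1)) ≤ m * (ℓ / K) * (2 / ℓ) :=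
      mul_le_mul_of_nonneg_left e1 (by positivity)
    have e5 : (m : ℝ) ^ 2 * ((trs d).card : ℝ) * (1 / (ℓ - 1) * (1 / (ℓ - 3))) ≤
        m ^ 2 * ((ν + 1) * ℓ) * (2 / ℓ * (2 / ℓ)) := by
      refine mul_le_mul ?_ e3 (mul_nonneg e0 e0') (by positivity)
      exact mul_le_mul_of_nonneg_left htrs (by positivity)
    have e6 : (m : ℝ) * (ℓ / K) * (2 / ℓ) = 2 * m / K := by
      field_simp
    have e7 : (m : ℝ) ^ 2 * ((ν + 1) * ℓ) * (2 / ℓ * (2 / ℓ)) = 4 * m ^ 2 * (ν + 1) / ℓ := by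
      field_simp
      ring
    have e8 : 4 * (m : ℝ) ^ 2 * (ν + 1) / ℓ ≤ 4 * m ^ 2 * (ν + 1) / K :=
      div_le_div_of_nonneg_left (by positivity) hK0 hKℓ
    have e9 : 2 * (m : ℝ) / K + 4 * m ^ 2 * (ν + 1) / K ≤ ε / 4 := by
      rw [← add_div, div_le_iff₀ hK0]
      have : 4 / ε * (2 * (m : ℝ) + 4 * m ^ 2 * (ν + 1)) ≤ K := by linarith
      calc 2 * (m : ℝ) + 4 * m ^ 2 * (ν + 1)
          = ε / 4 * (4 / ε * (2 * (m : ℝ) + 4 * m ^ 2 * (ν + 1))) := by
            field_simp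
        _ ≤ ε / 4 * K := mul_le_mul_of_nonneg_left this (by positivity)
    linarith
  have b2 : (m : ℝ) * (((m : ℝ) + 1) * (ℓ / K) / (ℓ - 2 * m)) ≤ ε / 4 := by
    have e1 : ℓ / 2 ≤ ℓ - 2 * m := by linarith
    have e2 : ((m : ℝ) + 1) * (ℓ / K) / (ℓ - 2 * m) ≤ ((m : ℝ) + 1) * (ℓ / K) / (ℓ / 2) :=
      div_le_div_of_nonneg_left (by positivity) (by positivity) e1
    have e3 : (m : ℝ) * (((m : ℝ) + 1) * (ℓ / K) / (ℓ / 2)) = 2 * m * (m + 1) / K := by
      field_simp
    have e4 : 2 * (m : ℝ) * (m + 1) / K ≤ ε / 4 := by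
      rw [div_le_iff₀ hK0]
      have : 4 / ε * (2 * (m : ℝ) * (m + 1)) ≤ K := by linarith
      calc 2 * (m : ℝ) * (m + 1) = ε / 4 * (4 / ε * (2 * (m : ℝ) * (m + 1))) := by
            field_simp
        _ ≤ ε / 4 * K := mul_le_mul_of_nonneg_left this (by positivity)
    have e5 := mul_le_mul_of_nonneg_left e2 hm0
    linarith
  have b3 : Real.exp (t * M) * (q * ℓ / (ℓ - 2 * m)) ^ m ≤ ε / 4 := by
    have hpos : 0 < ℓ - 2 * m := by linarith
    have e1 : (1 : ℝ) / 2 ≤ (1 - 2 * m / ℓ) ^ m := by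
      have h1 : 2 * (m : ℝ) / ℓ ≤ 1 := by
        rw [div_le_iff₀ hℓ0]; linarith
      have h2 := one_add_mul_le_pow (a := -(2 * (m : ℝ) / ℓ)) (by linarith) m
      have h3 : (m : ℝ) * (2 * m / ℓ) ≤ 1 / 2 := by
        rw [mul_div_assoc', div_le_iff₀ hℓ0]
        nlinarith
      have h4 : (1 : ℝ) + -(2 * (m : ℝ) / ℓ) = 1 - 2 * m / ℓ := by ring
      rw [h4] at h2
      linarith
    have e2 : q * ℓ / (ℓ - 2 * m) = q / (1 - 2 * m / ℓ) := by
      have : ℓ - 2 * m = ℓ * (1 - 2 * m / ℓ) := by field_simp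
      rw [this]
      rw [mul_comm q ℓ, mul_div_mul_left _ _ hℓ0.ne']
    rw [e2, div_pow]
    have e3 : q ^ m / (1 - 2 * (m : ℝ) / ℓ) ^ m ≤ q ^ m / (1 / 2) :=
      div_le_div_of_nonneg_left (by positivity) (by norm_num) e1
    have e4 : q ^ m * (Real.exp (t * M) * 2) ≤ ε / 4 := by
      have := (lt_div_iff₀ (show 0 < Real.exp (t * M) * 2 by positivity)).1 hm
      exact this.le
    calc Real.exp (t * M) * (q ^ m / (1 - 2 * (m : ℝ) / ℓ) ^ m)
        ≤ Real.exp (t * M) * (q ^ m / (1 / 2)) :=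
          mul_le_mul_of_nonneg_left e3 (Real.exp_pos _).le
      _ = q ^ m * (Real.exp (t * M) * 2) := by ring
      _ ≤ _ := e4
  -- the inclusion of events
  have hsub : {σ : Pairing (HE d) | BothInGiant σ s ∧
        ∀ γ ∈ goodHist d (s.1 c) (s.1 (!c)) m M, ¬ Contains σ (exRun (s.1 c) γ).A} ⊆
      {σ | BothInGiant σ s ∧ compSize σ (s.1 c) ≤ m} ∪
      ({σ | ∃ γ : List (HE d), γ.length < m ∧ nice (s.1 c) (s.1 !c) γ ∧
        Contains σ (exRun (s.1 c) γ).A ∧
        ∃ x rest, (exRun (s.1 c) γ).act = x :: rest ∧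
        ((σ.1 x).1 ∈ (exRun (s.1 c) γ).vis ∨ (σ.1 x).1 = s.1 !c)} ∪
      {σ | ∃ γ : List (HE d), γ.length = m ∧ nice (s.1 c) (s.1 !c) γ ∧
        Contains σ (exRun (s.1 c) γ).A ∧ (exRun (s.1 c) γ).act.length < M}) := by
    rintro σ ⟨hg, hno⟩
    rcases ex_cases (s.1 c) (s.1 !c) (exb_sources s c) σ m with ⟨γ, h1, h2, h3⟩ | ⟨γ, h1, h2, h3, h4⟩
    · right; right
      refine ⟨γ, h1, h2, h3, ?_⟩
      by_contra hlt
      exact hno γ (exb_mem_goodHist.2 ⟨h1, h2, not_lt.1 hlt⟩) h3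
    · rcases h4 with h4 | h4
      · left
        refine ⟨hg, ?_⟩
        have := ex_dead (s.1 c) (s.1 !c) γ h2 σ h3 h4
        omega
      · right; left
        exact ⟨γ, h1, h2, h3, h4⟩
  have hreal : P.real {σ : Pairing (HE d) | BothInGiant σ s ∧
        ∀ γ ∈ goodHist d (s.1 c) (s.1 (!c)) m M, ¬ Contains σ (exRun (s.1 c) γ).A} ≤ ε := by
    refine (measureReal_mono hsub (measure_ne_top _ _)).trans ?_
    refine (measureReal_union_le _ _).trans ?_
    have h2 := measureReal_union_le (μ := P) {σ | ∃ γ : List (HE d), γ.length < m ∧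
        nice (s.1 c) (s.1 !c) γ ∧ Contains σ (exRun (s.1 c) γ).A ∧
        ∃ x rest, (exRun (s.1 c) γ).act = x :: rest ∧
        ((σ.1 x).1 ∈ (exRun (s.1 c) γ).vis ∨ (σ.1 x).1 = s.1 !c)}
      {σ | ∃ γ : List (HE d), γ.length = m ∧ nice (s.1 c) (s.1 !c) γ ∧
        Contains σ (exRun (s.1 c) γ).A ∧ (exRun (s.1 c) γ).act.length < M}
    linarith
  exact (ENNReal.le_ofReal_iff_toReal_le (measure_ne_top _ _) hε.le).2 hreal

/-! ### A lower bound -/

section Pos

variable {n : ℕ} {d : Fin n → ℕ}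

/-- Histories that always find a new vertex of degree at least `3`. -/
def exb_bigP (u o : Fin n) : List (HE d) → Prop
  | [] => u ≠ o
  | g :: γ => exb_bigP u o γ ∧ 3 ≤ d g.1 ∧ g.1 ∉ (exRun u γ).vis ∧ g.1 ≠ o

theorem exb_bigP_sum (u o : Fin n) (γ : List (HE d)) (h : exb_bigP u o γ) :
    3 * γ.length ≤ (γ.map fun g => d g.1).sum := by
  induction γ with
  | nil => simp
  | cons g γ ih =>
    have h1 := ih h.1
    have h2 := h.2.1
    simp only [List.length_cons, List.map_cons, List.sum_cons]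
    omega

theorem exb_bigP_nice (u o : Fin n) (hu : 1 ≤ d u) (γ : List (HE d)) (h : exb_bigP u o γ) :
    nice u o γ ∧ γ.length + 1 ≤ (exRun u γ).act.length := by
  have key : ∀ γ : List (HE d), exb_bigP u o γ → nice u o γ →
      γ.length + 1 ≤ (exRun u γ).act.length := by
    intro γ h hn
    obtain ⟨hnd, hlen, hact, hactm, hends, hu', ho, hvl, hvn, hal⟩ := ex_facts u o γ hn
    have h1 := exb_bigP_sum u o γ h
    omega
  induction γ with
  | nil => exact ⟨h, key [] h h⟩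
  | cons g γ ih =>
    have h1 := ih h.1
    have hn : nice u o (g :: γ) := by
      refine ⟨h1.1, ?_, h.2.2.1, h.2.2.2⟩
      intro e
      rw [e] at h1
      simp at h1
    exact ⟨hn, key _ h hn⟩

open Classical in
/-- The finite set of such histories. -/
noncomputable def exb_bigL (d : Fin n → ℕ) (u o : Fin n) (j : ℕ) : Finset (List (HE d)) :=
  (listsOf (Finset.univ : Finset (HE d)) j).filter fun γ => exb_bigP u o γ

theorem exb_mem_bigL {u o : Fin n} {j : ℕ} {γ : List (HE d)} :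
    γ ∈ exb_bigL d u o j ↔ γ.length = j ∧ exb_bigP u o γ := by
  simp [exb_bigL, mem_listsOf]

theorem exb_bigL_card (u o : Fin n) (huo : u ≠ o) (hu : 1 ≤ d u) (D L : ℝ) (m : ℕ)
    (hD : ∀ v, (d v : ℝ) ≤ D) (hL : 0 ≤ L)
    (hbig : L + ((m : ℝ) + 2) * D ≤ ((Finset.univ.filter fun g : HE d => 3 ≤ d g.1).card : ℝ))
    (j : ℕ) (hj : j ≤ m) : L ^ j ≤ ((exb_bigL d u o j).card : ℝ) := by
  classical
  have hD0 : 0 ≤ D := (Nat.cast_nonneg _).trans (hD o)
  induction j with
  | zero =>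
    have : ([] : List (HE d)) ∈ exb_bigL d u o 0 := exb_mem_bigL.2 ⟨rfl, huo⟩
    have h1 : 1 ≤ (exb_bigL d u o 0).card := Finset.card_pos.2 ⟨_, this⟩
    rw [pow_zero]
    exact_mod_cast h1
  | succ j ih =>
    have ih' := ih (by omega)
    set F : List (HE d) → Finset (HE d) := fun γ =>
      Finset.univ.filter fun g : HE d => 3 ≤ d g.1 ∧ g.1 ∉ (exRun u γ).vis ∧ g.1 ≠ o with hF
    have hFcard : ∀ γ ∈ exb_bigL d u o j, L ≤ ((F γ).card : ℝ) := by
      intro γ hγ
      obtain ⟨h1, h2⟩ := exb_mem_bigL.1 hγ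
      obtain ⟨hnd, hlen, hact, hactm, hends, hu', ho, hvl, hvn, hal⟩ :=
        ex_facts u o γ (exb_bigP_nice u o hu γ h2).1
      have h3 := exb_card_vis D hD o (exRun u γ).vis
      rw [hvl, h1] at h3
      push_cast at h3
      have h4 : (Finset.univ.filter fun g : HE d => 3 ≤ d g.1) ⊆
          F γ ∪ (Finset.univ.filter fun g : HE d => g.1 ∈ (exRun u γ).vis ∨ g.1 = o) := by
        intro g hg
        simp only [hF, Finset.mem_union, Finset.mem_filter, Finset.mem_univ, true_and] at hg ⊢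
        by_cases h5 : g.1 ∈ (exRun u γ).vis ∨ g.1 = o
        · exact Or.inr h5
        · rw [not_or] at h5
          exact Or.inl ⟨hg, h5⟩
      have h5 := (Finset.card_le_card h4).trans (Finset.card_union_le _ _)
      have h6 : ((Finset.univ.filter fun g : HE d => 3 ≤ d g.1).card : ℝ) ≤ (F γ).card +
          (Finset.univ.filter fun g : HE d => g.1 ∈ (exRun u γ).vis ∨ g.1 = o).card := by
        exact_mod_cast h5
      have h7 : ((j : ℝ) + 1 + 1) * D ≤ ((m : ℝ) + 2) * D := by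
        refine mul_le_mul_of_nonneg_right ?_ hD0
        have : (j : ℝ) + 1 ≤ m := by exact_mod_cast hj
        linarith
      linarith
    have hcard : ((exb_bigL d u o j).sigma F).card ≤ (exb_bigL d u o (j + 1)).card := by
      refine Finset.card_le_card_of_injOn (fun q => q.2 :: q.1) ?_ ?_
      · rintro ⟨γ, g⟩ hq
        rw [Finset.mem_coe, Finset.mem_sigma] at hq
        obtain ⟨h1, h2⟩ := hq
        simp only [hF, Finset.mem_filter, Finset.mem_univ, true_and] at h2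
        obtain ⟨h3, h4⟩ := exb_mem_bigL.1 h1
        rw [Finset.mem_coe]
        exact exb_mem_bigL.2 ⟨by simp [h3], h4, h2⟩
      · rintro ⟨γ, g⟩ _ ⟨γ', g'⟩ _ h
        simp only [List.cons.injEq] at h
        obtain ⟨rfl, rfl⟩ := h
        rfl
    rw [Finset.card_sigma] at hcard
    have h1 : L ^ (j + 1) ≤ ((∑ γ ∈ exb_bigL d u o j, (F γ).card : ℕ) : ℝ) := by
      push_cast
      calc L ^ (j + 1) = L ^ j * L := pow_succ _ _
        _ ≤ ((exb_bigL d u o j).card : ℝ) * L := mul_le_mul_of_nonneg_right ih' hL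
        _ = ∑ _γ ∈ exb_bigL d u o j, L := by rw [Finset.sum_const, nsmul_eq_mul]
        _ ≤ _ := Finset.sum_le_sum hFcard
    exact h1.trans (by exact_mod_cast hcard)

end Pos

/-- From a source of degree at least `1`, the exploration is nice for `m` steps and has then at
least `m + 1` active half-edges, with probability bounded below. -/
theorem explore_pos (ν C θ η p : ℝ) (k : ℕ) (hν : 1 < ν) (hC : 0 < C) (hθ : 0 < θ)
    (hη : 0 < η) (hp : 0 < p) (m : ℕ) :
    ∃ (q : ℝ) (N : ℕ), 0 < q ∧ ∀ n : ℕ, N ≤ n → ∀ d : Fin n → ℕ, ∀ mL, Reg ν C θ η p k mL d →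
      ∀ (s : Sources n) (c : Bool), 1 ≤ d (s.1 c) →
      ENNReal.ofReal q ≤ uniformOn Set.univ {σ : Pairing (HE d) |
        ∃ γ ∈ goodHist d (s.1 c) (s.1 (!c)) m (m + 1), Contains σ (exRun (s.1 c) γ).A} := by
  obtain ⟨ρ, N0, hρ, hbig⟩ := exb_big ν C θ η p k hν hC hθ hη
  set K : ℝ := 1 + 2 * m + 2 * (m + 2) / ρ with hK
  have hm0 : (0 : ℝ) ≤ m := Nat.cast_nonneg _
  have k1 : 0 ≤ 2 * ((m : ℝ) + 2) / ρ := by positivity
  have hK0 : 0 < K := by linarith
  obtain ⟨N1, hN1⟩ := exb_size ν C θ η p k hC hθ K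
  refine ⟨(ρ / 2) ^ m, max N0 N1, by positivity, fun n hn d mL hreg s c hdc => ?_⟩
  have hnN0 : N0 ≤ n := (le_max_left _ _).trans hn
  have hnN1 : N1 ≤ n := (le_max_right _ _).trans hn
  obtain ⟨hKℓ, hKd⟩ := hN1 n hnN1 d mL hreg
  have hbig' := hbig n hnN0 d mL hreg
  have heven := exb_even hreg.even
  have hprob := exb_isProb heven
  set ℓ : ℝ := (Fintype.card (HE d) : ℝ) with hℓ
  have hℓ0 : 0 < ℓ := by linarith
  have hD : ∀ v, (d v : ℝ) ≤ ℓ / K := by
    intro v
    rw [le_div_iff₀ hK0]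
    linarith [hKd v]
  have hb : ρ * ℓ / 2 + ((m : ℝ) + 2) * (ℓ / K) ≤
      ((Finset.univ.filter fun g : HE d => 3 ≤ d g.1).card : ℝ) := by
    refine le_trans ?_ hbig'
    have h1 : ((m : ℝ) + 2) * (ℓ / K) ≤ ρ * ℓ / 2 := by
      rw [mul_div_assoc', div_le_iff₀ hK0]
      have h2 : 2 * ((m : ℝ) + 2) / ρ ≤ K := by linarith
      rw [div_le_iff₀ hρ] at h2
      nlinarith
    linarith
  have hcount := exb_bigL_card (s.1 c) (s.1 !c) (exb_sources s c) hdc (ℓ / K) (ρ * ℓ / 2) m hD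
    (by positivity) hb m le_rfl
  set P : Measure (Pairing (HE d)) := uniformOn (Set.univ : Set (Pairing (HE d))) with hP
  have hsub : {σ : Pairing (HE d) | ∃ γ ∈ exb_bigL d (s.1 c) (s.1 !c) m,
      Contains σ (exRun (s.1 c) γ).A} ⊆ {σ : Pairing (HE d) |
        ∃ γ ∈ goodHist d (s.1 c) (s.1 (!c)) m (m + 1), Contains σ (exRun (s.1 c) γ).A} := by
    rintro σ ⟨γ, hγ, hc⟩
    obtain ⟨h1, h2⟩ := exb_mem_bigL.1 hγ
    have h3 := exb_bigP_nice (s.1 c) (s.1 !c) hdc γ h2
    exact ⟨γ, exb_mem_goodHist.2 ⟨h1, h3.1, by rw [← h1]; exact h3.2⟩, hc⟩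
  have hnice : exb_bigL d (s.1 c) (s.1 !c) m ⊆ exb_niceL d (s.1 c) (s.1 !c) m := by
    intro γ hγ
    obtain ⟨h1, h2⟩ := exb_mem_bigL.1 hγ
    exact exb_mem_niceL.2 ⟨h1, (exb_bigP_nice (s.1 c) (s.1 !c) hdc γ h2).1⟩
  have hsum := exb_prob_union (s.1 c) (s.1 !c) m _ hnice
  rw [← hP] at hsum
  have hreal : (ρ / 2) ^ m ≤ P.real {σ : Pairing (HE d) |
        ∃ γ ∈ goodHist d (s.1 c) (s.1 (!c)) m (m + 1), Contains σ (exRun (s.1 c) γ).A} := by
    refine le_trans ?_ (measureReal_mono hsub (measure_ne_top _ _))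
    rw [hsum]
    have h1 : ∀ γ ∈ exb_bigL d (s.1 c) (s.1 !c) m,
        (1 / ℓ) ^ m ≤ P.real {σ | Contains σ (exRun (s.1 c) γ).A} := by
      intro γ hγ
      obtain ⟨h2, h3⟩ := exb_mem_niceL.1 (hnice hγ)
      obtain ⟨hnd, hlen, _⟩ := ex_facts (s.1 c) (s.1 !c) γ h3
      rw [hP, exb_prob heven _ hnd, hlen, h2]
      refine kap_lower _ 0 m ?_
      simp only [Nat.cast_zero, zero_add]
      linarith
    calc (ρ / 2) ^ m = (ρ * ℓ / 2) ^ m * (1 / ℓ) ^ m := by
          rw [← mul_pow]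
          congr 1
          field_simp
      _ ≤ ((exb_bigL d (s.1 c) (s.1 !c) m).card : ℝ) * (1 / ℓ) ^ m :=
          mul_le_mul_of_nonneg_right hcount (by positivity)
      _ = ∑ _γ ∈ exb_bigL d (s.1 c) (s.1 !c) m, (1 / ℓ) ^ m := by
          rw [Finset.sum_const, nsmul_eq_mul]
      _ ≤ _ := Finset.sum_le_sum h1
  exact (ENNReal.ofReal_le_iff_le_toReal (measure_ne_top _ _)).2 hreal

end Pool.Agent.H86.CM
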