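import Pool.Agent.H86.CM.Deg

/-! MODULE FINAL: from the theorem for deterministic regular degree sequences to Q2. -/

open MeasureTheory ProbabilityTheory Filter Topology

namespace Pool.Agent.H86.CM

/-- The theorem for deterministic degree sequences (proved elsewhere; the hypothesis of this
module). -/
def DetStatement : Prop :=
  ∀ (I : Bool → Measure ℝ) [∀ c, IsProbabilityMeasure (I c)] (ν C θ η p α : ℝ) (k : ℕ),
    1 < ν → 0 < C → 0 < θ → θ < 1 → 0 < η → 0 < p → 1 ≤ k →
    (∀ c x, I c {x} = 0) → (∀ c, I c (Set.Iio 0) = 0) → (∀ c, IsMalthusian ν (I c) α) →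
    (∃ (q : ℝ) (m N : ℕ), 0 < q ∧ ∀ n : ℕ, N ≤ n → ∀ d : Fin n → ℕ, Reg ν C θ η p k m d →
      ENNReal.ofReal q ≤ cmLaw d I {ω | BothInGiant ω.1 ω.2.2}) ∧
    ∀ ε : ℝ, 0 < ε → ∃ (δ : ℝ) (m N : ℕ), 0 < δ ∧ ∀ n : ℕ, N ≤ n → ∀ d : Fin n → ℕ,
      Reg ν C θ η p k m d → ∀ c : Bool,
      cmLaw d I {ω | BothInGiant ω.1 ω.2.2 ∧ (numColour ω.1 ω.2.1 ω.2.2 c : ℝ) < δ * n} ≤
        ENNReal.ofReal ε

lemma fin_uniform_le {Ω : Type} [MeasurableSpace Ω] [MeasurableSingletonClass Ω]
    (s : Set Ω) : uniformOn (Set.univ : Set Ω) s ≤ 1 := prob_le_one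

lemma fin_cmLaw_le {n : ℕ} (d : Fin n → ℕ) (I : Bool → Measure ℝ)
    [∀ c, IsProbabilityMeasure (I c)] (s : Set (Pairing (HE d) × Weights d × Sources n)) :
    cmLaw d I s ≤ 1 := by
  have h1 : cmLaw d I s ≤ cmLaw d I Set.univ := measure_mono (Set.subset_univ _)
  refine h1.trans ?_
  unfold cmLaw
  rw [← Set.univ_prod_univ, Measure.prod_prod, ← Set.univ_prod_univ, Measure.prod_prod]
  exact mul_le_one' (fin_uniform_le _) (mul_le_one' prob_le_one (fin_uniform_le _))

section

set_option linter.unusedSectionVars false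

variable (D : Measure ℕ) [IsProbabilityMeasure D] (I : Bool → Measure ℝ)
    [∀ c, IsProbabilityMeasure (I c)] (n : ℕ)

/-- the extended-real valued probability -/
noncomputable def fin_P
    (E : (d : Fin n → ℕ) → Pairing (HE d) × Weights d × Sources n → Prop) : ENNReal :=
  ∫⁻ d : Fin n → ℕ, cmLaw (fixParity d) I {ω | E (fixParity d) ω}
    ∂(Measure.pi fun _ : Fin n => D)

lemma fin_P_le_one (E : (d : Fin n → ℕ) → Pairing (HE d) × Weights d × Sources n → Prop) :
    fin_P D I n E ≤ 1 := by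
  unfold fin_P
  calc _ ≤ ∫⁻ d : Fin n → ℕ, 1 ∂(Measure.pi fun _ : Fin n => D) :=
        lintegral_mono fun d => fin_cmLaw_le _ I _
    _ = 1 := by simp

lemma fin_P_mono (E E' : (d : Fin n → ℕ) → Pairing (HE d) × Weights d × Sources n → Prop)
    (h : ∀ d ω, E d ω → E' d ω) : fin_P D I n E ≤ fin_P D I n E' := by
  unfold fin_P
  apply lintegral_mono
  intro d
  exact measure_mono fun ω hω => h _ ω hω

lemma fin_P_add (E E1 E2 : (d : Fin n → ℕ) → Pairing (HE d) × Weights d × Sources n → Prop)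
    (h : ∀ d ω, E d ω → E1 d ω ∨ E2 d ω) :
    fin_P D I n E ≤ fin_P D I n E1 + fin_P D I n E2 := by
  unfold fin_P
  rw [← lintegral_add_left (Measurable.of_discrete)]
  apply lintegral_mono
  intro d
  refine le_trans (measure_mono ?_) (measure_union_le _ _)
  intro ω hω
  exact h _ ω hω

lemma fin_prob_eq (E : (d : Fin n → ℕ) → Pairing (HE d) × Weights d × Sources n → Prop) :
    prob D I n E = (fin_P D I n E).toReal := rfl

lemma fin_P_upper (E : (d : Fin n → ℕ) → Pairing (HE d) × Weights d × Sources n → Prop)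
    (R : (Fin n → ℕ) → Prop) (ε : ENNReal)
    (h : ∀ d, R (fixParity d) → cmLaw (fixParity d) I {ω | E (fixParity d) ω} ≤ ε) :
    fin_P D I n E ≤ ε + (Measure.pi fun _ : Fin n => D) {d | ¬ R (fixParity d)} := by
  unfold fin_P
  calc ∫⁻ d : Fin n → ℕ, cmLaw (fixParity d) I {ω | E (fixParity d) ω}
        ∂(Measure.pi fun _ : Fin n => D)
      ≤ ∫⁻ d : Fin n → ℕ, (ε + ({d | ¬ R (fixParity d)} : Set (Fin n → ℕ)).indicator 1 d)
        ∂(Measure.pi fun _ : Fin n => D) := by
        apply lintegral_mono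
        intro d
        by_cases hd : R (fixParity d)
        · exact (h d hd).trans le_self_add
        · have : ({d | ¬ R (fixParity d)} : Set (Fin n → ℕ)).indicator (1 : (Fin n → ℕ) → ENNReal) d
              = 1 := Set.indicator_of_mem hd _
          show _ ≤ ε + ({d | ¬ R (fixParity d)} : Set (Fin n → ℕ)).indicator
            (1 : (Fin n → ℕ) → ENNReal) d
          rw [this]
          exact (fin_cmLaw_le _ I _).trans le_add_self
    _ = ε + (Measure.pi fun _ : Fin n => D) {d | ¬ R (fixParity d)} := by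
        rw [lintegral_add_left measurable_const, lintegral_const, measure_univ, mul_one,
          lintegral_indicator_one (MeasurableSet.of_discrete)]

lemma fin_P_lower (E : (d : Fin n → ℕ) → Pairing (HE d) × Weights d × Sources n → Prop)
    (R : (Fin n → ℕ) → Prop) (q : ENNReal)
    (h : ∀ d, R (fixParity d) → q ≤ cmLaw (fixParity d) I {ω | E (fixParity d) ω}) :
    q * (Measure.pi fun _ : Fin n => D) {d | R (fixParity d)} ≤ fin_P D I n E := by
  unfold fin_P
  calc q * (Measure.pi fun _ : Fin n => D) {d | R (fixParity d)}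
      = ∫⁻ d : Fin n → ℕ, ({d | R (fixParity d)} : Set (Fin n → ℕ)).indicator (fun _ => q) d
        ∂(Measure.pi fun _ : Fin n => D) := by
        rw [lintegral_indicator_const (MeasurableSet.of_discrete)]
    _ ≤ _ := by
        apply lintegral_mono
        intro d
        by_cases hd : R (fixParity d)
        · show ({d | R (fixParity d)} : Set (Fin n → ℕ)).indicator (fun _ => q) d ≤ _
          rw [Set.indicator_of_mem (show d ∈ {d | R (fixParity d)} from hd)]
          exact h d hd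
        · show ({d | R (fixParity d)} : Set (Fin n → ℕ)).indicator (fun _ => q) d ≤ _
          rw [Set.indicator_of_notMem (show d ∉ {d | R (fixParity d)} from hd)]
          exact zero_le

lemma fin_coexist_bounds (δ : ℝ) : 0 ≤ coexistProb D I δ n ∧ coexistProb D I δ n ≤ 1 := by
  unfold coexistProb
  rw [fin_prob_eq, fin_prob_eq]
  constructor
  · positivity
  · apply div_le_one_of_le₀ _ ENNReal.toReal_nonneg
    apply ENNReal.toReal_mono
    · exact ne_top_of_le_ne_top ENNReal.one_ne_top (fin_P_le_one D I n _)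
    · exact fin_P_mono D I n _ _ fun d ω h => h.1

lemma fin_coexist_lower (δ δ0 : ℝ) (hδ : δ ≤ δ0) (b r : ℝ) (hr : 0 < r)
    (hB : r ≤ prob D I n (fun _ ω => BothInGiant ω.1 ω.2.2))
    (hbad : ∀ c : Bool, prob D I n (fun _ ω => BothInGiant ω.1 ω.2.2 ∧
      (numColour ω.1 ω.2.1 ω.2.2 c : ℝ) < δ0 * n) ≤ b) :
    1 - 2 * b / r ≤ coexistProb D I δ n := by
  unfold coexistProb
  set B := prob D I n (fun _ ω => BothInGiant ω.1 ω.2.2) with hBdef
  set G := prob D I n (fun _ ω => BothInGiant ω.1 ω.2.2 ∧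
      ∀ c : Bool, δ * n ≤ numColour ω.1 ω.2.1 ω.2.2 c) with hGdef
  have hBpos : 0 < B := lt_of_lt_of_le hr hB
  have hfin : ∀ E, fin_P D I n E ≠ ⊤ := fun E =>
    ne_top_of_le_ne_top ENNReal.one_ne_top (fin_P_le_one D I n E)
  have hle : B ≤ G + (prob D I n (fun _ ω => BothInGiant ω.1 ω.2.2 ∧
      (numColour ω.1 ω.2.1 ω.2.2 true : ℝ) < δ0 * n) + prob D I n (fun _ ω =>
        BothInGiant ω.1 ω.2.2 ∧ (numColour ω.1 ω.2.1 ω.2.2 false : ℝ) < δ0 * n)) := by
    rw [hBdef, hGdef]
    simp only [fin_prob_eq]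
    rw [← ENNReal.toReal_add (hfin _) (hfin _), ← ENNReal.toReal_add (hfin _)
      (ENNReal.add_ne_top.mpr ⟨hfin _, hfin _⟩)]
    apply ENNReal.toReal_mono
    · exact ENNReal.add_ne_top.mpr ⟨hfin _, ENNReal.add_ne_top.mpr ⟨hfin _, hfin _⟩⟩
    · have h1 := fin_P_add D I n (fun _ ω => BothInGiant ω.1 ω.2.2)
        (fun _ ω => BothInGiant ω.1 ω.2.2 ∧ ∀ c : Bool, δ * n ≤ numColour ω.1 ω.2.1 ω.2.2 c)
        (fun _ ω => (BothInGiant ω.1 ω.2.2 ∧ (numColour ω.1 ω.2.1 ω.2.2 true : ℝ) < δ0 * n) ∨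
          (BothInGiant ω.1 ω.2.2 ∧ (numColour ω.1 ω.2.1 ω.2.2 false : ℝ) < δ0 * n)) (by
          intro d ω hω
          by_cases hall : ∀ c : Bool, δ * n ≤ numColour ω.1 ω.2.1 ω.2.2 c
          · exact Or.inl ⟨hω, hall⟩
          · right
            push Not at hall
            obtain ⟨c, hc⟩ := hall
            have hc' : (numColour ω.1 ω.2.1 ω.2.2 c : ℝ) < δ0 * n := by
              refine lt_of_lt_of_le hc ?_
              exact mul_le_mul_of_nonneg_right hδ (Nat.cast_nonneg n)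
            cases c
            · exact Or.inr ⟨hω, hc'⟩
            · exact Or.inl ⟨hω, hc'⟩)
      refine h1.trans ?_
      gcongr
      exact fin_P_add D I n _ _ _ fun d ω h => h
  have h1 := hbad true
  have h2 := hbad false
  have h3 : B - 2 * b ≤ G := by linarith
  have hb0 : 0 ≤ b := by
    refine le_trans ?_ h1
    rw [fin_prob_eq]
    exact ENNReal.toReal_nonneg
  rw [le_div_iff₀ hBpos]
  have h4 : 2 * b ≤ 2 * b / r * B := by
    rw [div_mul_eq_mul_div, le_div_iff₀ hr]
    exact mul_le_mul_of_nonneg_left hB (by linarith)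
  nlinarith

end

theorem q2_of_det (h : DetStatement) : Q2Statement := by
  intro D _ I _ L τ α hτ hL htail hν hat hneg hmal
  obtain ⟨⟨ρ, hρ, hρ1, hmom⟩, hunb⟩ := tail_moment D L τ hτ hL htail
  obtain ⟨C, θ, η, p, k, hC, hθ, hθ1, hη, hp, hk, hreg⟩ := reg_whp D ρ hρ hρ1 hmom hunb hν
  obtain ⟨⟨q, m0, N0, hq, hgiant⟩, hcol⟩ :=
    h I (nu D) C θ η p α k hν hC hθ hθ1 hη hp hk hat hneg hmal
  -- the probability of the giant event is bounded below
  have hB : ∀ᶠ n : ℕ in atTop, q / 2 ≤ prob D I n (fun _ ω => BothInGiant ω.1 ω.2.2) := by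
    have h1 : ∀ᶠ n : ℕ in atTop, (1 / 2 : ENNReal) < Measure.pi (fun _ : Fin n => D)
        {d : Fin n → ℕ | Reg (nu D) C θ η p k m0 (fixParity d)} := by
      apply (hreg m0).eventually
      apply lt_mem_nhds
      norm_num
    filter_upwards [h1, eventually_ge_atTop N0] with n hn hN
    have h2 := fin_P_lower D I n (fun _ ω => BothInGiant ω.1 ω.2.2)
      (fun d => Reg (nu D) C θ η p k m0 d) (ENNReal.ofReal q)
      (fun d hd => hgiant n hN (fixParity d) hd)
    rw [fin_prob_eq]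
    have h3 : ENNReal.ofReal (q / 2) ≤ fin_P D I n (fun _ ω => BothInGiant ω.1 ω.2.2) := by
      refine le_trans ?_ h2
      have : ENNReal.ofReal (q / 2) = ENNReal.ofReal q * (1 / 2) := by
        rw [div_eq_mul_inv, ENNReal.ofReal_mul hq.le, one_div]
        congr 1
        rw [ENNReal.ofReal_inv_of_pos (by norm_num)]
        norm_num
      rw [this]
      gcongr
    have hfin : fin_P D I n (fun _ ω => BothInGiant ω.1 ω.2.2) ≠ ⊤ :=
      ne_top_of_le_ne_top ENNReal.one_ne_top (fin_P_le_one D I n _)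
    exact (ENNReal.ofReal_le_iff_le_toReal hfin).mp h3
  -- the bad events have small probability
  have hbad : ∀ ε : ℝ, 0 < ε → ∃ δ0 : ℝ, 0 < δ0 ∧ ∀ᶠ n : ℕ in atTop, ∀ c : Bool,
      prob D I n (fun _ ω => BothInGiant ω.1 ω.2.2 ∧
        (numColour ω.1 ω.2.1 ω.2.2 c : ℝ) < δ0 * n) ≤ ε := by
    intro ε hε
    obtain ⟨δ0, m, N, hδ0, hδ⟩ := hcol (ε / 2) (by linarith)
    refine ⟨δ0, hδ0, ?_⟩
    have h1 : ∀ᶠ n : ℕ in atTop, 1 - ENNReal.ofReal (ε / 2) < Measure.pi (fun _ : Fin n => D)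
        {d : Fin n → ℕ | Reg (nu D) C θ η p k m (fixParity d)} := by
      apply (hreg m).eventually
      apply lt_mem_nhds
      apply ENNReal.sub_lt_self ENNReal.one_ne_top one_ne_zero
      simp only [ne_eq, ENNReal.ofReal_eq_zero, not_le]
      linarith
    filter_upwards [h1, eventually_ge_atTop N] with n hn hN
    intro c
    have h2 := fin_P_upper D I n (fun _ ω => BothInGiant ω.1 ω.2.2 ∧
        (numColour ω.1 ω.2.1 ω.2.2 c : ℝ) < δ0 * n)
      (fun d => Reg (nu D) C θ η p k m d) (ENNReal.ofReal (ε / 2))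
      (fun d hd => hδ n hN (fixParity d) hd c)
    have h3 : (Measure.pi fun _ : Fin n => D) {d | ¬ Reg (nu D) C θ η p k m (fixParity d)} ≤
        ENNReal.ofReal (ε / 2) := by
      have : {d : Fin n → ℕ | ¬ Reg (nu D) C θ η p k m (fixParity d)} =
          {d : Fin n → ℕ | Reg (nu D) C θ η p k m (fixParity d)}ᶜ := rfl
      rw [this, prob_compl_eq_one_sub (MeasurableSet.of_discrete)]
      have h4 := hn.le
      rw [tsub_le_iff_right] at h4 ⊢
      rwa [add_comm]
    have h4 : fin_P D I n (fun _ ω => BothInGiant ω.1 ω.2.2 ∧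
        (numColour ω.1 ω.2.1 ω.2.2 c : ℝ) < δ0 * n) ≤ ENNReal.ofReal ε := by
      refine h2.trans ?_
      calc _ ≤ ENNReal.ofReal (ε / 2) + ENNReal.ofReal (ε / 2) := by gcongr
        _ = ENNReal.ofReal ε := by
          rw [← ENNReal.ofReal_add (by linarith) (by linarith)]
          congr 1
          ring
    rw [fin_prob_eq]
    exact ENNReal.toReal_le_of_le_ofReal hε.le h4
  -- conclusion
  have hbdd : ∀ δ : ℝ, IsBoundedUnder (· ≥ ·) atTop (fun n : ℕ => coexistProb D I δ n) := fun δ =>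
    isBoundedUnder_of ⟨0, fun n => (fin_coexist_bounds D I n δ).1⟩
  have hcobdd : ∀ δ : ℝ, IsCoboundedUnder (· ≥ ·) atTop (fun n : ℕ => coexistProb D I δ n) :=
    fun δ => IsBoundedUnder.isCoboundedUnder_ge
      (isBoundedUnder_of ⟨1, fun n => (fin_coexist_bounds D I n δ).2⟩)
  rw [Metric.tendsto_nhds]
  intro ε hε
  obtain ⟨δ0, hδ0, hδ⟩ := hbad (ε * q / 16) (by positivity)
  have hmem : Set.Ioc 0 δ0 ∈ 𝓝[>] (0 : ℝ) := Ioc_mem_nhdsGT hδ0
  filter_upwards [hmem] with δ hδmem
  have hlow : 1 - ε / 4 ≤ liminf (fun n : ℕ => coexistProb D I δ n) atTop := by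
    apply le_liminf_of_le (hcobdd δ)
    filter_upwards [hB, hδ] with n h1 h2
    have h3 := fin_coexist_lower D I n δ δ0 hδmem.2 (ε * q / 16) (q / 2) (by linarith) h1 h2
    refine le_trans (le_of_eq ?_) h3
    field_simp
    ring
  have hup : liminf (fun n : ℕ => coexistProb D I δ n) atTop ≤ 1 := by
    apply liminf_le_of_le (hbdd δ)
    intro b hb
    obtain ⟨n, hn⟩ := hb.exists
    exact hn.trans (fin_coexist_bounds D I n δ).2
  rw [Real.dist_eq, abs_lt]
  constructor <;> linarith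

end Pool.Agent.H86.CM
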