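import Pool.Agent.H86.CM.Law
import Pool.Agent.H86.CM.Target
import Pool.Agent.H86.CM.ExB
import Pool.Agent.H86.CM.Comp
import Pool.Agent.H86.CM.Final

/-!
# The theorem for deterministic degrees from the conditional estimate and the exploration
-/

open MeasureTheory ProbabilityTheory Filter Topology

namespace Pool.Agent.H86.CM

section Gen

variable {α β : Type} [Fintype α] [MeasurableSpace α] [MeasurableSingletonClass α]
  [MeasurableSpace β]

/-- A product measure with a finite discrete first factor, for all sets. -/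
theorem det_prod_eq (μ : Measure α) (ν : Measure β) [SFinite μ] [SFinite ν] (E : Set (α × β)) :
    (μ.prod ν) E = ∑ a, ν {b | (a, b) ∈ E} * μ {a} := by
  apply le_antisymm
  · have h1 : E ⊆ ⋃ a : α, ({a} : Set α) ×ˢ {b | (a, b) ∈ E} := by
      rintro ⟨a, b⟩ h
      rw [Set.mem_iUnion]
      exact ⟨a, rfl, h⟩
    calc (μ.prod ν) E ≤ (μ.prod ν) (⋃ a : α, ({a} : Set α) ×ˢ {b | (a, b) ∈ E}) := measure_mono h1
      _ ≤ ∑ a, (μ.prod ν) (({a} : Set α) ×ˢ {b | (a, b) ∈ E}) := measure_iUnion_fintype_le _ _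
      _ = _ := by
        refine Finset.sum_congr rfl fun a _ => ?_
        rw [Measure.prod_prod, mul_comm]
  · have h2 := subset_toMeasurable (μ.prod ν) E
    rw [← measure_toMeasurable (μ := μ.prod ν) E,
      Measure.prod_apply (measurableSet_toMeasurable _ _), lintegral_fintype]
    refine Finset.sum_le_sum fun a _ => ?_
    refine mul_le_mul_left (measure_mono ?_) _
    intro b hb
    exact h2 hb

/-- A product measure with a finite discrete second factor, upper bound for all sets. -/
theorem det_prod_le (μ : Measure α) (ν : Measure β) [SFinite μ] [SFinite ν] (E : Set (β × α)) :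
    (ν.prod μ) E ≤ ∑ a, ν {b | (b, a) ∈ E} * μ {a} := by
  have h1 : E ⊆ ⋃ a : α, {b | (b, a) ∈ E} ×ˢ ({a} : Set α) := by
    rintro ⟨b, a⟩ h
    rw [Set.mem_iUnion]
    exact ⟨a, h, rfl⟩
  calc (ν.prod μ) E ≤ (ν.prod μ) (⋃ a : α, {b | (b, a) ∈ E} ×ˢ ({a} : Set α)) := measure_mono h1
    _ ≤ ∑ a, (ν.prod μ) ({b | (b, a) ∈ E} ×ˢ ({a} : Set α)) := measure_iUnion_fintype_le _ _
    _ = _ := by
      refine Finset.sum_congr rfl fun a _ => ?_
      rw [Measure.prod_prod]

theorem det_sum_singleton (μ : Measure α) (S : Set α) :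
    ∑ a, S.indicator (fun _ => (1 : ENNReal)) a * μ {a} = μ S := by
  rw [← lintegral_fintype, lintegral_indicator_const (Set.toFinite S).measurableSet, one_mul]

end Gen

variable {n : ℕ} {d : Fin n → ℕ}

local instance det_msc_pairing (H : Type) : MeasurableSingletonClass (Pairing H) := ⟨fun _ => trivial⟩

local instance det_msc_sources (n : ℕ) : MeasurableSingletonClass (Sources n) := ⟨fun _ => trivial⟩

noncomputable local instance det_fin_pairing {n : ℕ} (d : Fin n → ℕ) : Fintype (Pairing (HE d)) :=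
  Fintype.ofFinite _

noncomputable local instance det_fin_sources (n : ℕ) : Fintype (Sources n) := Fintype.ofFinite _

/-- The conditional law `PA` and sums over the pairings containing `A`. -/
theorem det_cond (I : Bool → Measure ℝ) [∀ c, IsProbabilityMeasure (I c)]
    (A : List (HE d × HE d)) (F : Pairing (HE d) → Set (Weights d)) :
    ∑ σ : Pairing (HE d), ({σ | Contains σ A} : Set (Pairing (HE d))).indicator
        (fun σ => wLaw d I (F σ)) σ * uniformOn Set.univ {σ} =
      uniformOn Set.univ {σ : Pairing (HE d) | Contains σ A} *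
        PA d I A {ω | ω.2 ∈ F ω.1} := by
  unfold PA
  rw [det_prod_eq, Finset.mul_sum]
  refine Finset.sum_congr rfl fun σ _ => ?_
  have h1 := uniformOn_inter (s := (Set.univ : Set (Pairing (HE d))))
    (t := {σ | Contains σ A}) (u := {σ}) (Set.toFinite _)
  rw [Set.univ_inter] at h1
  by_cases hc : Contains σ A
  · rw [Set.indicator_of_mem (show σ ∈ {σ | Contains σ A} from hc)]
    have h2 : ({σ | Contains σ A} : Set (Pairing (HE d))) ∩ {σ} = {σ} := by
      ext τ
      simp only [Set.mem_inter_iff, Set.mem_ofPred_eq, Set.mem_singleton_iff]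
      constructor
      · exact fun h => h.2
      · exact fun h => ⟨h ▸ hc, h⟩
    rw [h2] at h1
    rw [h1]
    have h3 : {b : Weights d | (σ, b) ∈ {ω : Pairing (HE d) × Weights d | ω.2 ∈ F ω.1}} = F σ :=
      rfl
    rw [h3]
    ring
  · rw [Set.indicator_of_notMem (show σ ∉ {σ | Contains σ A} from hc)]
    have h2 : ({σ | Contains σ A} : Set (Pairing (HE d))) ∩ {σ} = ∅ := by
      ext τ
      simp only [Set.mem_inter_iff, Set.mem_ofPred_eq, Set.mem_singleton_iff, Set.mem_empty_iff_false,
        iff_false, not_and]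
      exact fun h h' => hc (h' ▸ h)
    rw [h2, measure_empty] at h1
    have h3 : uniformOn ({σ | Contains σ A} : Set (Pairing (HE d))) {σ} *
      uniformOn Set.univ {σ | Contains σ A} = 0 := h1.symm
    rw [zero_mul, mul_comm (wLaw d I _), ← mul_assoc, mul_comm (uniformOn Set.univ _), h3, zero_mul]

theorem det_weight (I : Bool → Measure ℝ) [∀ c, IsProbabilityMeasure (I c)] (c : Bool) (x : ℝ)
    (A : List (HE d × HE d)) :
    PA d I A {ω | ¬ ∀ q ∈ A, ω.2 (c, s(q.1, q.2)) ≤ x} ≤ A.length * I c (Set.Ioi x) := by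
  have key : ∀ B : List (HE d × HE d),
      PA d I A {ω | ¬ ∀ q ∈ B, ω.2 (c, s(q.1, q.2)) ≤ x} ≤ B.length * I c (Set.Ioi x) := by
    intro B
    induction B with
    | nil => simp
    | cons q B ih =>
      have h1 : {ω : Pairing (HE d) × Weights d | ¬ ∀ q' ∈ q :: B, ω.2 (c, s(q'.1, q'.2)) ≤ x} ⊆
          (Set.univ ×ˢ {w : Weights d | x < w (c, s(q.1, q.2))}) ∪
          {ω | ¬ ∀ q' ∈ B, ω.2 (c, s(q'.1, q'.2)) ≤ x} := by
        intro ω hω
        simp only [Set.mem_union, Set.mem_prod, Set.mem_univ, true_and, Set.mem_ofPred_eq]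
        simp only [Set.mem_ofPred_eq, List.forall_mem_cons, not_and_or, not_le] at hω
        exact hω
      have h2 : PA d I A (Set.univ ×ˢ {w : Weights d | x < w (c, s(q.1, q.2))}) ≤
          I c (Set.Ioi x) := by
        unfold PA
        rw [Measure.prod_prod]
        have h3 : wLaw d I {w : Weights d | x < w (c, s(q.1, q.2))} = I c (Set.Ioi x) :=
          (measurePreserving_eval (fun e : Bool × Sym2 (HE d) => I e.1)
            (c, s(q.1, q.2))).measure_preimage (s := Set.Ioi x) measurableSet_Ioi.nullMeasurableSet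
        rw [h3]
        calc _ ≤ 1 * I c (Set.Ioi x) := by
              refine mul_le_mul_left ?_ _
              exact prob_le_one
          _ = _ := one_mul _
      refine (measure_mono h1).trans ((measure_union_le _ _).trans ?_)
      refine (add_le_add h2 ih).trans ?_
      rw [List.length_cons]
      push_cast
      rw [add_mul, one_mul, add_comm]
  exact key A

theorem det_mem_goodHist {u o : Fin n} {m M : ℕ} {γ : List (HE d)} :
    γ ∈ goodHist d u o m M ↔ γ.length = m ∧ nice u o γ ∧ M ≤ (exRun u γ).act.length := by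
  unfold goodHist
  simp only [Finset.mem_filter, mem_listsOf]
  constructor
  · rintro ⟨⟨h1, _⟩, h2, h3⟩
    exact ⟨h1, h2, h3⟩
  · rintro ⟨h1, h2, h3⟩
    exact ⟨⟨h1, fun x _ => Finset.mem_univ x⟩, h2, h3⟩

/-- The events that a good history is contained are disjoint. -/
theorem det_disjoint (u o : Fin n) (m M : ℕ) :
    Set.PairwiseDisjoint (↑(goodHist d u o m M) : Set (List (HE d)))
      fun γ => {σ : Pairing (HE d) | Contains σ (exRun u γ).A} := by
  intro γ hγ γ' hγ' hne
  rw [Function.onFun, Set.disjoint_left]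
  intro σ h h'
  rw [Finset.mem_coe, det_mem_goodHist] at hγ hγ'
  exact hne (ex_unique u o γ γ' hγ.2.1 hγ'.2.1 (hγ.1.trans hγ'.1.symm) σ h h')

theorem det_union (u o : Fin n) (m M : ℕ) :
    uniformOn Set.univ {σ : Pairing (HE d) | ∃ γ ∈ goodHist d u o m M,
      Contains σ (exRun u γ).A} =
    ∑ γ ∈ goodHist d u o m M, uniformOn Set.univ
      {σ : Pairing (HE d) | Contains σ (exRun u γ).A} := by
  rw [← measure_biUnion_finset (det_disjoint u o m M) (fun _ _ => trivial)]
  congr 1
  ext σ
  simp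

/-- The sum over the good histories. -/
theorem det_sum_le (I : Bool → Measure ℝ) [∀ c, IsProbabilityMeasure (I c)] (s : Sources n)
    (c : Bool) (m M : ℕ) (r : ℝ) (b : ENNReal)
    (hb : ∀ γ ∈ goodHist d (s.1 c) (s.1 (!c)) m M,
      PA d I (exRun (s.1 c) γ).A {ω | (numColour ω.1 ω.2 s c : ℝ) < r} ≤ b) :
    ∑ σ : Pairing (HE d), wLaw d I {w | BothInGiant σ s ∧ (numColour σ w s c : ℝ) < r} *
        uniformOn Set.univ {σ} ≤
      uniformOn Set.univ {σ : Pairing (HE d) | BothInGiant σ s ∧
        ∀ γ ∈ goodHist d (s.1 c) (s.1 (!c)) m M, ¬ Contains σ (exRun (s.1 c) γ).A} + b := by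
  set G := goodHist d (s.1 c) (s.1 (!c)) m M with hG
  set T : Set (Pairing (HE d)) := {σ | BothInGiant σ s ∧
    ∀ γ ∈ G, ¬ Contains σ (exRun (s.1 c) γ).A} with hT
  have h1 : ∀ σ : Pairing (HE d),
      wLaw d I {w | BothInGiant σ s ∧ (numColour σ w s c : ℝ) < r} ≤
      T.indicator (fun _ => (1 : ENNReal)) σ +
      ∑ γ ∈ G, ({σ | Contains σ (exRun (s.1 c) γ).A} : Set (Pairing (HE d))).indicator
        (fun σ => wLaw d I {w | (numColour σ w s c : ℝ) < r}) σ := by
    intro σ
    by_cases hB : BothInGiant σ s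
    · by_cases hg : ∃ γ ∈ G, Contains σ (exRun (s.1 c) γ).A
      · obtain ⟨γ, hγ, hc⟩ := hg
        refine le_trans ?_ le_add_self
        refine le_trans ?_ (Finset.single_le_sum (f := fun γ =>
          ({σ | Contains σ (exRun (s.1 c) γ).A} : Set (Pairing (HE d))).indicator
        (fun σ => wLaw d I {w | (numColour σ w s c : ℝ) < r}) σ) (fun _ _ => zero_le) hγ)
        rw [Set.indicator_of_mem (show σ ∈ {σ | Contains σ (exRun (s.1 c) γ).A} from hc)]
        exact measure_mono fun w hw => hw.2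
      · refine le_trans ?_ le_self_add
        rw [Set.indicator_of_mem (show σ ∈ T from ⟨hB, fun γ hγ hc => hg ⟨γ, hγ, hc⟩⟩)]
        exact prob_le_one
    · have : {w : Weights d | BothInGiant σ s ∧ (numColour σ w s c : ℝ) < r} = ∅ := by
        ext w
        simp [hB]
      rw [this, measure_empty]
      exact zero_le
  calc ∑ σ : Pairing (HE d), wLaw d I {w | BothInGiant σ s ∧ (numColour σ w s c : ℝ) < r} *
        uniformOn Set.univ {σ}
      ≤ ∑ σ : Pairing (HE d), (T.indicator (fun _ => (1 : ENNReal)) σ +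
          ∑ γ ∈ G, ({σ | Contains σ (exRun (s.1 c) γ).A} : Set (Pairing (HE d))).indicator
          (fun σ => wLaw d I {w | (numColour σ w s c : ℝ) < r}) σ) * uniformOn Set.univ {σ} :=
        Finset.sum_le_sum fun σ _ => mul_le_mul_left (h1 σ) _
    _ = uniformOn Set.univ T + ∑ γ ∈ G, uniformOn Set.univ
          {σ : Pairing (HE d) | Contains σ (exRun (s.1 c) γ).A} *
          PA d I (exRun (s.1 c) γ).A {ω | (numColour ω.1 ω.2 s c : ℝ) < r} := by
        simp_rw [add_mul]
        rw [Finset.sum_add_distrib, det_sum_singleton]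
        congr 1
        simp_rw [Finset.sum_mul]
        rw [Finset.sum_comm]
        refine Finset.sum_congr rfl fun γ _ => ?_
        exact det_cond I (exRun (s.1 c) γ).A fun σ => {w | (numColour σ w s c : ℝ) < r}
    _ ≤ uniformOn Set.univ T + ∑ γ ∈ G, uniformOn Set.univ
          {σ : Pairing (HE d) | Contains σ (exRun (s.1 c) γ).A} * b := by
        gcongr with γ hγ
        exact hb γ hγ
    _ ≤ uniformOn Set.univ T + b := by
        rw [← Finset.sum_mul, hG, ← det_union]
        gcongr
        calc _ ≤ 1 * b := mul_le_mul_left prob_le_one _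
          _ = b := one_mul _

theorem det_gamma (I : Bool → Measure ℝ) [∀ c, IsProbabilityMeasure (I c)] (s : Sources n)
    (c : Bool) (A : List (HE d × HE d)) (r x : ℝ) (b1 b2 : ENNReal)
    (h1 : A.length * I c (Set.Ioi x) ≤ b1)
    (h2 : PA d I A {ω | (∀ q ∈ A, ω.2 (c, s(q.1, q.2)) ≤ x) ∧
        (numColour ω.1 ω.2 s c : ℝ) < r} ≤ b2) :
    PA d I A {ω | (numColour ω.1 ω.2 s c : ℝ) < r} ≤ b1 + b2 := by
  have h3 : {ω : Pairing (HE d) × Weights d | (numColour ω.1 ω.2 s c : ℝ) < r} ⊆
      {ω | ¬ ∀ q ∈ A, ω.2 (c, s(q.1, q.2)) ≤ x} ∪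
      {ω | (∀ q ∈ A, ω.2 (c, s(q.1, q.2)) ≤ x) ∧ (numColour ω.1 ω.2 s c : ℝ) < r} := by
    intro ω hω
    by_cases hq : ∀ q ∈ A, ω.2 (c, s(q.1, q.2)) ≤ x
    · exact Or.inr ⟨hq, hω⟩
    · exact Or.inl hq
  exact (measure_mono h3).trans ((measure_union_le _ _).trans
    (add_le_add ((det_weight I c x A).trans h1) h2))

/-! ### Sources -/

theorem det_card_sources (n : ℕ) : Fintype.card (Sources n) = n * n - n := by
  have e : Sources n ≃ {p : Fin n × Fin n // p ∈ (Finset.univ : Finset (Fin n)).offDiag} :=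
    { toFun := fun s => ⟨(s.1 true, s.1 false), by
        rw [Finset.mem_offDiag]
        exact ⟨Finset.mem_univ _, Finset.mem_univ _, s.2⟩⟩
      invFun := fun p => ⟨fun c => if c then p.1.1 else p.1.2, by
        have := (Finset.mem_offDiag.1 p.2).2.2
        simpa using this⟩
      left_inv := by
        intro s
        apply Subtype.ext
        funext c
        cases c <;> simp
      right_inv := by
        intro p
        apply Subtype.ext
        simp }
  rw [Fintype.card_congr e, Fintype.card_coe, Finset.offDiag_card, Finset.card_univ,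
    Fintype.card_fin]

theorem det_unif_sources (n : ℕ) (S : Set (Sources n)) [DecidablePred (· ∈ S)] :
    uniformOn Set.univ S = ((Finset.univ.filter (· ∈ S)).card : ENNReal) /
      ((n * n - n : ℕ) : ENNReal) := by
  rw [uniformOn_univ, det_card_sources]
  congr 1
  have h1 : S = (↑(Finset.univ.filter (· ∈ S)) : Set (Sources n)) := by
    ext s
    simp
  conv_lhs => rw [h1]
  rw [Measure.count_apply_finset]

theorem det_sources_pairs (K : Finset (Fin n)) :
    ((K.card * K.card - K.card : ℕ) : ENNReal) / ((n * n - n : ℕ) : ENNReal) ≤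
      uniformOn Set.univ {s : Sources n | s.1 true ∈ K ∧ s.1 false ∈ K} := by
  classical
  rw [det_unif_sources]
  refine ENNReal.div_le_div_right ?_ _
  rw [Nat.cast_le, ← Finset.offDiag_card]
  refine (Finset.card_le_card ?_).trans
    (Finset.card_image_le (f := fun s : Sources n => (s.1 true, s.1 false)))
  intro p hp
  rw [Finset.mem_offDiag] at hp
  rw [Finset.mem_image]
  refine ⟨⟨fun c => if c then p.1 else p.2, by simpa using hp.2.2⟩, ?_, ?_⟩
  · rw [Finset.mem_filter]
    refine ⟨Finset.mem_univ _, ?_⟩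
    simp only [Set.mem_ofPred_eq]
    exact ⟨by simpa using hp.1, by simpa using hp.2.1⟩
  · simp

theorem det_sum_sources (f : Fin n → ℝ) (hf : ∀ v, 0 ≤ f v) (c : Bool) :
    ∑ s : Sources n, f (s.1 c) ≤ n * ∑ v, f v := by
  classical
  have h1 : ∑ s : Sources n, f (s.1 c) =
      ∑ p ∈ (Finset.univ : Finset (Sources n)).image (fun s => (s.1 c, s.1 (!c))), f p.1 := by
    rw [Finset.sum_image]
    intro s _ s' _ h
    simp only [Prod.mk.injEq] at h
    apply Subtype.ext
    funext c'
    by_cases hc : c' = c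
    · rw [hc]
      exact h.1
    · have : c' = !c := by
        cases c <;> cases c' <;> simp_all
      rw [this]
      exact h.2
  rw [h1]
  calc _ ≤ ∑ p : Fin n × Fin n, f p.1 :=
        Finset.sum_le_sum_of_subset_of_nonneg (Finset.subset_univ _) fun _ _ _ => hf _
    _ = n * ∑ v, f v := by
      rw [Fintype.sum_prod_type]
      simp only [Finset.sum_const, Finset.card_univ, Fintype.card_fin, nsmul_eq_mul]
      rw [Finset.mul_sum]

theorem det_exists_x (I : Bool → Measure ℝ) [∀ c, IsProbabilityMeasure (I c)] (m : ℕ) (ε : ℝ)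
    (hε : 0 < ε) :
    ∃ x : ℝ, 0 ≤ x ∧ ∀ c, (m : ENNReal) * I c (Set.Ioi x) ≤ ENNReal.ofReal ε := by
  have h1 : ∀ c, ∀ᶠ x : ℝ in atTop, (m : ENNReal) * I c (Set.Ioi x) ≤ ENNReal.ofReal ε := by
    intro c
    have hpos : (0 : ℝ) < ε / (m + 1) := by positivity
    have h2 : ∀ᶠ x : ℝ in atTop, 1 - ENNReal.ofReal (ε / (m + 1)) < I c (Set.Iic x) := by
      have h3 := tendsto_measure_Iic_atTop (I c)
      rw [measure_univ] at h3
      apply h3.eventually
      apply lt_mem_nhds
      apply ENNReal.sub_lt_self ENNReal.one_ne_top one_ne_zero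
      simp only [ne_eq, ENNReal.ofReal_eq_zero, not_le]
      exact hpos
    filter_upwards [h2] with x hx
    have h4 : I c (Set.Ioi x) ≤ ENNReal.ofReal (ε / (m + 1)) := by
      have h5 : Set.Ioi x = (Set.Iic x)ᶜ := by
        ext y
        simp
      rw [h5, prob_compl_eq_one_sub measurableSet_Iic]
      have h6 := hx.le
      rw [tsub_le_iff_right] at h6 ⊢
      rwa [add_comm]
    calc (m : ENNReal) * I c (Set.Ioi x) ≤ (m : ENNReal) * ENNReal.ofReal (ε / (m + 1)) := by
          gcongr
      _ = ENNReal.ofReal (m * (ε / (m + 1))) := by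
          rw [ENNReal.ofReal_mul (Nat.cast_nonneg m), ENNReal.ofReal_natCast]
      _ ≤ ENNReal.ofReal ε := by
          apply ENNReal.ofReal_le_ofReal
          rw [← mul_div_assoc, div_le_iff₀ (by positivity)]
          nlinarith
  obtain ⟨x, h2, h3, h4⟩ := ((h1 true).and ((h1 false).and (eventually_ge_atTop 0))).exists
  refine ⟨x, h4, ?_⟩
  intro c
  cases c
  · exact h3
  · exact h2

theorem det_cmLaw_le (I : Bool → Measure ℝ) [∀ c, IsProbabilityMeasure (I c)] (c : Bool) (r : ℝ) :
    cmLaw d I {ω | BothInGiant ω.1 ω.2.2 ∧ (numColour ω.1 ω.2.1 ω.2.2 c : ℝ) < r} ≤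
      ∑ s : Sources n, (∑ σ : Pairing (HE d),
        wLaw d I {w | BothInGiant σ s ∧ (numColour σ w s c : ℝ) < r} *
        uniformOn Set.univ {σ}) * uniformOn Set.univ {s} := by
  unfold cmLaw
  rw [det_prod_eq]
  have h1 : ∀ σ : Pairing (HE d),
      ((Measure.pi fun e : Bool × Sym2 (HE d) => I e.1).prod
        (uniformOn (Set.univ : Set (Sources n))))
        {b | (σ, b) ∈ {ω : Pairing (HE d) × Weights d × Sources n | BothInGiant ω.1 ω.2.2 ∧
          (numColour ω.1 ω.2.1 ω.2.2 c : ℝ) < r}} ≤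
      ∑ s : Sources n, wLaw d I {w | BothInGiant σ s ∧ (numColour σ w s c : ℝ) < r} *
        uniformOn Set.univ {s} := fun σ => det_prod_le _ _ _
  calc _ ≤ ∑ σ : Pairing (HE d), (∑ s : Sources n,
        wLaw d I {w | BothInGiant σ s ∧ (numColour σ w s c : ℝ) < r} *
        uniformOn Set.univ {s}) * uniformOn Set.univ {σ} :=
        Finset.sum_le_sum fun σ _ => mul_le_mul_left (h1 σ) _
    _ = _ := by
        simp_rw [Finset.sum_mul]
        rw [Finset.sum_comm]
        refine Finset.sum_congr rfl fun s _ => Finset.sum_congr rfl fun σ _ => ?_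
        ring

theorem det_unif_single (n : ℕ) (s : Sources n) :
    uniformOn Set.univ {s} = ((n * n - n : ℕ) : ENNReal)⁻¹ := by
  rw [uniformOn_univ, det_card_sources, Measure.count_singleton, one_div]

theorem det_sq_le (n : ℕ) (hn : 2 ≤ n) : (n : ℝ) * n ≤ 2 * ((n * n - n : ℕ) : ℝ) := by
  have h1 : n ≤ n * n := Nat.le_mul_self n
  rw [Nat.cast_sub h1]
  push_cast
  have h2 : (2 : ℝ) ≤ n := by exact_mod_cast hn
  nlinarith

theorem det_avg (hn : 2 ≤ n) (C ε ε' : ℝ) (hε : 0 < ε) (hε' : 0 < ε')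
    (hC : 0 < C) (hbd : ε' * (1 + 2 * C) ≤ ε / 2)
    (hup : ∑ v, (d v : ℝ) ≤ C * n) (c : Bool) :
    ∑ s : Sources n, ENNReal.ofReal (ε / 2 + ε' * (1 + d (s.1 c))) * uniformOn Set.univ {s} ≤
      ENNReal.ofReal ε := by
  have h0 : 0 < ((n * n - n : ℕ) : ℝ) := by
    have h1 := det_sq_le n hn
    have h2 : (2 : ℝ) ≤ n := by exact_mod_cast hn
    nlinarith
  have h1 : ∀ s : Sources n,
      ENNReal.ofReal (ε / 2 + ε' * (1 + d (s.1 c))) * uniformOn Set.univ {s} =
      ENNReal.ofReal ((ε / 2 + ε' * (1 + d (s.1 c))) * ((n * n - n : ℕ) : ℝ)⁻¹) := by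
    intro s
    rw [det_unif_single, ENNReal.ofReal_mul (by positivity), ENNReal.ofReal_inv_of_pos h0,
      ENNReal.ofReal_natCast]
  simp_rw [h1]
  rw [← ENNReal.ofReal_sum_of_nonneg (fun s _ => by positivity), ← Finset.sum_mul]
  apply ENNReal.ofReal_le_ofReal
  rw [← div_eq_mul_inv, div_le_iff₀ h0]
  have h2 := det_sum_sources (fun v => (d v : ℝ)) (fun v => Nat.cast_nonneg _) c
  have h3 : ∑ s : Sources n, (ε / 2 + ε' * (1 + (d (s.1 c) : ℝ))) =
      (ε / 2 + ε') * ((n * n - n : ℕ) : ℝ) + ε' * ∑ s : Sources n, (d (s.1 c) : ℝ) := by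
    have h4 : ∀ s : Sources n, ε / 2 + ε' * (1 + (d (s.1 c) : ℝ)) =
        (ε / 2 + ε') + ε' * (d (s.1 c) : ℝ) := fun s => by ring
    simp_rw [h4]
    rw [Finset.sum_add_distrib, ← Finset.mul_sum, Finset.sum_const, Finset.card_univ,
      det_card_sources, nsmul_eq_mul]
    ring
  rw [h3]
  have h5 : (n : ℝ) * ∑ v, (d v : ℝ) ≤ C * (2 * ((n * n - n : ℕ) : ℝ)) := by
    calc (n : ℝ) * ∑ v, (d v : ℝ) ≤ n * (C * n) := by gcongr
      _ = C * (n * n) := by ring
      _ ≤ _ := mul_le_mul_of_nonneg_left (det_sq_le n hn) hC.le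
  have h6 : ε' * ∑ s : Sources n, (d (s.1 c) : ℝ) ≤ ε' * (C * (2 * ((n * n - n : ℕ) : ℝ))) := by
    gcongr
    exact h2.trans h5
  nlinarith

/-! ### The giant component -/

theorem det_connected_of_walk (σ : Pairing (HE d)) : ∀ (a : List (HE d)) (u v : Fin n),
    IsWalk σ u a v → Connected σ u v := by
  intro a
  induction a with
  | nil =>
    intro u v h
    change u = v at h
    subst h
    exact Relation.ReflTransGen.refl
  | cons x a ih =>
    intro u v h
    exact Relation.ReflTransGen.head ⟨x, h.1, rfl⟩ (ih _ _ h.2)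

theorem det_symm (σ : Pairing (HE d)) {u v : Fin n} (h : Connected σ u v) : Connected σ v u := by
  induction h with
  | refl => exact Relation.ReflTransGen.refl
  | tail _ hbc ih =>
    obtain ⟨x, h1, h2⟩ := hbc
    exact Relation.ReflTransGen.head ⟨σ.1 x, h2, by rw [σ.2.1, h1]⟩ ih

theorem det_compSize_eq (σ : Pairing (HE d)) {u v : Fin n} (h : Connected σ u v) :
    compSize σ u = compSize σ v := by
  classical
  unfold compSize
  congr 1
  ext w
  simp only [Finset.mem_filter, Finset.mem_univ, true_and]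
  exact ⟨fun h' => (det_symm σ h).trans h', fun h' => h.trans h'⟩

theorem det_numColour_le (σ : Pairing (HE d)) (w : Weights d) (s : Sources n) (c : Bool) :
    numColour σ w s c ≤ compSize σ (s.1 c) := by
  classical
  unfold numColour compSize
  apply Finset.card_le_card
  intro v hv
  simp only [Finset.mem_filter, Finset.mem_univ, true_and] at hv ⊢
  obtain ⟨t, ht⟩ := hv
  obtain ⟨a, ha, _⟩ := final_walk σ w s v c t ht
  exact det_connected_of_walk σ a _ _ ha

theorem det_big (I : Bool → Measure ℝ) [∀ c, IsProbabilityMeasure (I c)] (s : Sources n)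
    (c : Bool) (m M : ℕ) (r : ℝ) (b : ENNReal)
    (hb : ∀ γ ∈ goodHist d (s.1 c) (s.1 (!c)) m M,
      PA d I (exRun (s.1 c) γ).A {ω | (numColour ω.1 ω.2 s c : ℝ) < r} ≤ b) :
    uniformOn Set.univ {σ : Pairing (HE d) | ∃ γ ∈ goodHist d (s.1 c) (s.1 (!c)) m M,
      Contains σ (exRun (s.1 c) γ).A} ≤
    uniformOn Set.univ {σ : Pairing (HE d) | ∃ γ ∈ goodHist d (s.1 c) (s.1 (!c)) m M,
      Contains σ (exRun (s.1 c) γ).A} * b +
    uniformOn Set.univ {σ : Pairing (HE d) | ∃ u, r ≤ (compSize σ u : ℝ)} := by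
  set G := goodHist d (s.1 c) (s.1 (!c)) m M with hG
  set Big : Set (Pairing (HE d)) := {σ | ∃ u, r ≤ (compSize σ u : ℝ)} with hBig
  set S : List (HE d) → Set (Pairing (HE d)) := fun γ => {σ | Contains σ (exRun (s.1 c) γ).A}
    with hS
  have h1 : ∀ γ ∈ G, uniformOn Set.univ (S γ) ≤
      uniformOn Set.univ (S γ) * b + uniformOn Set.univ (S γ ∩ Big) := by
    intro γ hγ
    have h2 : uniformOn Set.univ (S γ \ Big) ≤ uniformOn Set.univ (S γ) * b := by
      calc uniformOn Set.univ (S γ \ Big)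
          = ∑ σ : Pairing (HE d), (S γ \ Big).indicator (fun _ => (1 : ENNReal)) σ *
            uniformOn Set.univ {σ} := (det_sum_singleton _ _).symm
        _ ≤ ∑ σ : Pairing (HE d), (S γ).indicator
            (fun σ => wLaw d I {w | (numColour σ w s c : ℝ) < r}) σ * uniformOn Set.univ {σ} := by
            refine Finset.sum_le_sum fun σ _ => mul_le_mul_left ?_ _
            by_cases hσ : σ ∈ S γ \ Big
            · rw [Set.indicator_of_mem hσ, Set.indicator_of_mem hσ.1]
              have h3 : {w : Weights d | (numColour σ w s c : ℝ) < r} = Set.univ := by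
                ext w
                simp only [Set.mem_ofPred_eq, Set.mem_univ, iff_true]
                have h4 : (compSize σ (s.1 c) : ℝ) < r := by
                  by_contra h5
                  exact hσ.2 ⟨s.1 c, not_lt.1 h5⟩
                refine lt_of_le_of_lt ?_ h4
                exact_mod_cast det_numColour_le σ w s c
              rw [h3, measure_univ]
            · rw [Set.indicator_of_notMem hσ]
              exact zero_le
        _ = uniformOn Set.univ (S γ) *
            PA d I (exRun (s.1 c) γ).A {ω | (numColour ω.1 ω.2 s c : ℝ) < r} :=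
            det_cond I (exRun (s.1 c) γ).A fun σ => {w | (numColour σ w s c : ℝ) < r}
        _ ≤ _ := by
            gcongr
            exact hb γ hγ
    calc uniformOn Set.univ (S γ) ≤ uniformOn Set.univ ((S γ \ Big) ∪ (S γ ∩ Big)) :=
          measure_mono (by rw [Set.sdiff_union_inter])
      _ ≤ uniformOn Set.univ (S γ \ Big) + uniformOn Set.univ (S γ ∩ Big) := measure_union_le _ _
      _ ≤ _ := by gcongr
  calc uniformOn Set.univ {σ : Pairing (HE d) | ∃ γ ∈ G, Contains σ (exRun (s.1 c) γ).A}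
      = ∑ γ ∈ G, uniformOn Set.univ (S γ) := det_union _ _ m M
    _ ≤ ∑ γ ∈ G, (uniformOn Set.univ (S γ) * b + uniformOn Set.univ (S γ ∩ Big)) :=
        Finset.sum_le_sum h1
    _ = (∑ γ ∈ G, uniformOn Set.univ (S γ)) * b + ∑ γ ∈ G, uniformOn Set.univ (S γ ∩ Big) := by
        rw [Finset.sum_add_distrib, Finset.sum_mul]
    _ ≤ _ := by
        have h5 : ∑ γ ∈ G, uniformOn Set.univ (S γ) =
          uniformOn Set.univ {σ : Pairing (HE d) | ∃ γ ∈ G, Contains σ (exRun (s.1 c) γ).A} :=
          (det_union _ _ m M).symm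
        rw [h5]
        gcongr
        have h6 : Set.PairwiseDisjoint (↑G : Set (List (HE d))) fun γ => S γ ∩ Big := by
          intro γ hγ γ' hγ' hne
          exact (det_disjoint (s.1 c) (s.1 (!c)) m M hγ hγ' hne).mono Set.inter_subset_left
            Set.inter_subset_left
        have h7 := measure_biUnion_finset (μ := uniformOn (Set.univ : Set (Pairing (HE d)))) h6
          (fun γ _ => (Set.toFinite (S γ ∩ Big)).measurableSet)
        rw [← h7]
        apply measure_mono
        intro σ hσ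
        simp only [Set.mem_iUnion] at hσ
        obtain ⟨γ, _, hσ⟩ := hσ
        exact hσ.2

theorem det_giant_sources (σ : Pairing (HE d)) (hn : 2 ≤ n) (δ : ℝ) (hδ : 0 < δ)
    (hδn : 2 ≤ δ * n) (hσ : ∃ u, δ * n ≤ (compSize σ u : ℝ)) :
    ENNReal.ofReal (δ ^ 2 / 2) ≤ uniformOn Set.univ {s : Sources n | BothInGiant σ s} := by
  classical
  have : Nonempty (Fin n) := ⟨⟨0, by omega⟩⟩
  obtain ⟨u0, hu0⟩ := Finite.exists_max (fun u : Fin n => compSize σ u)
  obtain ⟨u1, hu1⟩ := hσ
  have hK : δ * n ≤ (compSize σ u0 : ℝ) := hu1.trans (by exact_mod_cast hu0 u1)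
  set K : Finset (Fin n) := Finset.univ.filter fun v : Fin n => Connected σ u0 v with hKdef
  have hKc : K.card = compSize σ u0 := by
    unfold compSize
    rw [hKdef]
  have hsub : {s : Sources n | s.1 true ∈ K ∧ s.1 false ∈ K} ⊆
      {s : Sources n | BothInGiant σ s} := by
    intro s hs
    have h1 : Connected σ u0 (s.1 true) := by
      have := hs.1
      rw [hKdef, Finset.mem_filter] at this
      exact this.2
    have h2 : Connected σ u0 (s.1 false) := by
      have := hs.2
      rw [hKdef, Finset.mem_filter] at this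
      exact this.2
    refine ⟨(det_symm σ h1).trans h2, ?_⟩
    intro u
    rw [← det_compSize_eq σ h1]
    exact hu0 u
  refine le_trans ?_ (measure_mono hsub)
  refine le_trans ?_ (det_sources_pairs K)
  have h0 : 0 < ((n * n - n : ℕ) : ℝ) := by
    have h1 := det_sq_le n hn
    have h2 : (2 : ℝ) ≤ n := by exact_mod_cast hn
    nlinarith
  rw [← ENNReal.ofReal_natCast, ← ENNReal.ofReal_natCast, ← ENNReal.ofReal_div_of_pos h0]
  apply ENNReal.ofReal_le_ofReal
  rw [le_div_iff₀ h0]
  have hK' : δ * n ≤ (K.card : ℝ) := by rw [hKc]; exact hK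
  have h3 : ((K.card * K.card - K.card : ℕ) : ℝ) = (K.card : ℝ) * K.card - K.card := by
    rw [Nat.cast_sub (Nat.le_mul_self _)]
    push_cast
    ring
  have h4 : ((n * n - n : ℕ) : ℝ) = (n : ℝ) * n - n := by
    rw [Nat.cast_sub (Nat.le_mul_self _)]
    push_cast
    ring
  rw [h3, h4]
  have hn0 : (0 : ℝ) ≤ n := Nat.cast_nonneg n
  have h5 : (δ * n) * (δ * n) ≤ (K.card : ℝ) * K.card :=
    mul_le_mul hK' hK' (by positivity) (by positivity)
  have h6 : 2 * (K.card : ℝ) ≤ (K.card : ℝ) * K.card :=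
    mul_le_mul_of_nonneg_right (hδn.trans hK') (by positivity)
  have h7 : δ ^ 2 / 2 * ((n : ℝ) * n - n) ≤ δ ^ 2 / 2 * ((n : ℝ) * n) := by
    apply mul_le_mul_of_nonneg_left _ (by positivity)
    linarith
  nlinarith

theorem det_giant_lower (I : Bool → Measure ℝ) [∀ c, IsProbabilityMeasure (I c)] (hn : 2 ≤ n)
    (δ : ℝ) (hδ : 0 < δ) (hδn : 2 ≤ δ * n) :
    ENNReal.ofReal (δ ^ 2 / 2) *
      uniformOn Set.univ {σ : Pairing (HE d) | ∃ u, δ * n ≤ (compSize σ u : ℝ)} ≤
    cmLaw d I {ω | BothInGiant ω.1 ω.2.2} := by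
  unfold cmLaw
  rw [det_prod_eq, ← det_sum_singleton, Finset.mul_sum]
  refine Finset.sum_le_sum fun σ _ => ?_
  rw [← mul_assoc]
  refine mul_le_mul_left ?_ _
  have h1 : {b : Weights d × Sources n |
      (σ, b) ∈ {ω : Pairing (HE d) × Weights d × Sources n | BothInGiant ω.1 ω.2.2}} =
      Set.univ ×ˢ {s : Sources n | BothInGiant σ s} := by
    ext b
    simp
  rw [h1, Measure.prod_prod, measure_univ, one_mul]
  by_cases hσ : ∃ u, δ * n ≤ (compSize σ u : ℝ)
  · rw [Set.indicator_of_mem (show σ ∈ {σ : Pairing (HE d) |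
      ∃ u, δ * n ≤ (compSize σ u : ℝ)} from hσ), mul_one]
    exact det_giant_sources σ hn δ hδ hδn hσ
  · rw [Set.indicator_of_notMem (show σ ∉ {σ : Pairing (HE d) |
      ∃ u, δ * n ≤ (compSize σ u : ℝ)} from hσ), mul_zero]
    exact zero_le

theorem det_of_core_cond
    (h : ∀ (I : Bool → Measure ℝ) [∀ c, IsProbabilityMeasure (I c)] (ν C θ η p α : ℝ) (k : ℕ),
      1 < ν → 0 < C → 0 < θ → θ < 1 → 0 < η → 0 < p → 1 ≤ k →
      (∀ c x, I c {x} = 0) → (∀ c, I c (Set.Iio 0) = 0) → (∀ c, IsMalthusian ν (I c) α) →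
      CoreCond I ν C θ η p k) : DetStatement := by
  intro I _ ν C θ η p α k hν hC hθ hθ1 hη hp hk hat hneg hmal
  have hcore := h I ν C θ η p α k hν hC hθ hθ1 hη hp hk hat hneg hmal
  constructor
  · -- the giant component
    obtain ⟨M, hM⟩ := hcore (1 / (4 * (1 + k))) (by positivity)
    obtain ⟨x, hx0, hx⟩ := det_exists_x I M (1 / 4) (by norm_num)
    obtain ⟨δ, N1, hδ, hN1⟩ := hM M x hx0
    obtain ⟨q, N2, hq, hN2⟩ := explore_pos ν C θ η p k hν hC hθ hη hp M
    obtain ⟨N3, hN3⟩ := exists_nat_ge (2 / δ)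
    obtain ⟨N4, hN4⟩ := exists_nat_ge (2 / p)
    refine ⟨δ ^ 2 / 2 * (q / 2), 0, max (max N1 N2) (max (max N3 N4) 2), by positivity, ?_⟩
    intro n hn d hd
    have hn1 : N1 ≤ n := le_trans (le_trans (le_max_left _ _) (le_max_left _ _)) hn
    have hn2 : N2 ≤ n := le_trans (le_trans (le_max_right _ _) (le_max_left _ _)) hn
    have hn3 : N3 ≤ n := le_trans (le_trans (le_trans (le_max_left _ _) (le_max_left _ _))
      (le_max_right _ _)) hn
    have hn4 : N4 ≤ n := le_trans (le_trans (le_trans (le_max_right _ _) (le_max_left _ _))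
      (le_max_right _ _)) hn
    have hn5 : 2 ≤ n := le_trans (le_trans (le_max_right _ _) (le_max_right _ _)) hn
    have hδn : 2 ≤ δ * n := by
      have h1 : 2 / δ ≤ n := hN3.trans (by exact_mod_cast hn3)
      rw [div_le_iff₀ hδ] at h1
      linarith
    have hpn : 2 ≤ p * n := by
      have h1 : 2 / p ≤ n := hN4.trans (by exact_mod_cast hn4)
      rw [div_le_iff₀ hp] at h1
      linarith
    have hcard : 1 < (Finset.univ.filter fun v => d v = k).card := by
      have h1 : (2 : ℝ) ≤ ((Finset.univ.filter fun v => d v = k).card : ℝ) := hpn.trans hd.many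
      have h2 : 2 ≤ (Finset.univ.filter fun v => d v = k).card := by exact_mod_cast h1
      omega
    obtain ⟨v1, hv1, v2, hv2, hne⟩ := Finset.one_lt_card.1 hcard
    rw [Finset.mem_filter] at hv1 hv2
    let s : Sources n := ⟨fun c => if c then v1 else v2, by simpa using hne⟩
    have hs1 : d (s.1 true) = k := by simpa [s] using hv1.2
    have hs2 : d (s.1 (!true)) = k := by simpa [s] using hv2.2
    have hpos := hN2 n hn2 d 0 hd s true (by rw [hs1]; exact hk)
    have hgood : ∀ γ ∈ goodHist d (s.1 true) (s.1 (!true)) M (M + 1),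
        PA d I (exRun (s.1 true) γ).A {ω | (numColour ω.1 ω.2 s true : ℝ) < δ * n} ≤
        ENNReal.ofReal (1 / 2) := by
      intro γ hγ
      rw [det_mem_goodHist] at hγ
      have hγ' : γ ∈ goodHist d (s.1 true) (s.1 (!true)) M M := by
        rw [det_mem_goodHist]
        exact ⟨hγ.1, hγ.2.1, by omega⟩
      have h1 := hN1 n hn1 d 0 hd s true γ hγ'
      have hlen : (exRun (s.1 true) γ).A.length = M := by
        rw [(ex_facts _ _ γ hγ.2.1).2.1, hγ.1]
      have h2 := det_gamma I s true (exRun (s.1 true) γ).A (δ * n) x (ENNReal.ofReal (1 / 4)) _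
        (by rw [hlen]; exact hx true) h1
      refine h2.trans ?_
      rw [hs2, ← ENNReal.ofReal_add (by norm_num) (by positivity)]
      apply ENNReal.ofReal_le_ofReal
      apply le_of_eq
      field_simp
      norm_num
    have hbig := det_big I s true M (M + 1) (δ * n) _ hgood
    set U := uniformOn Set.univ {σ : Pairing (HE d) | ∃ γ ∈ goodHist d (s.1 true) (s.1 (!true)) M
      (M + 1), Contains σ (exRun (s.1 true) γ).A} with hU
    have hU1 : U ≤ 1 := prob_le_one
    have h3 : ENNReal.ofReal (q / 2) ≤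
        uniformOn Set.univ {σ : Pairing (HE d) | ∃ u, δ * n ≤ (compSize σ u : ℝ)} := by
      have h4 : U * ENNReal.ofReal (1 / 2) + U * ENNReal.ofReal (1 / 2) = U := by
        rw [← mul_add, ← ENNReal.ofReal_add (by norm_num) (by norm_num)]
        norm_num
      have h5 : U * ENNReal.ofReal (1 / 2) ≤
          uniformOn Set.univ {σ : Pairing (HE d) | ∃ u, δ * n ≤ (compSize σ u : ℝ)} := by
        have h6 : U * ENNReal.ofReal (1 / 2) + U * ENNReal.ofReal (1 / 2) ≤
            U * ENNReal.ofReal (1 / 2) +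
            uniformOn Set.univ {σ : Pairing (HE d) | ∃ u, δ * n ≤ (compSize σ u : ℝ)} := by
          rw [h4]
          exact hbig
        refine (ENNReal.add_le_add_iff_left ?_).1 h6
        exact ENNReal.mul_ne_top (ne_top_of_le_ne_top ENNReal.one_ne_top hU1)
          ENNReal.ofReal_ne_top
      refine le_trans ?_ h5
      have h7 : ENNReal.ofReal (q / 2) = ENNReal.ofReal q * ENNReal.ofReal (1 / 2) := by
        rw [← ENNReal.ofReal_mul hq.le]
        congr 1
        ring
      rw [h7]
      exact mul_le_mul_left hpos _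
    calc ENNReal.ofReal (δ ^ 2 / 2 * (q / 2)) =
          ENNReal.ofReal (δ ^ 2 / 2) * ENNReal.ofReal (q / 2) :=
          ENNReal.ofReal_mul (by positivity)
      _ ≤ _ := by gcongr
      _ ≤ _ := det_giant_lower I hn5 δ hδ hδn
  · -- the colours
    intro ε hε
    have hε' : 0 < ε / (2 * (1 + 2 * C)) := by positivity
    obtain ⟨M, hM⟩ := hcore (ε / (2 * (1 + 2 * C))) hε'
    obtain ⟨m, mL, N1, hN1⟩ := explore_whp ν C θ η p k hν hC hθ hη hp M (ε / 4) (by linarith)
    obtain ⟨x, hx0, hx⟩ := det_exists_x I m (ε / 4) (by linarith)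
    obtain ⟨δ, N2, hδ, hN2⟩ := hM m x hx0
    refine ⟨δ, mL, max (max N1 N2) 2, hδ, ?_⟩
    intro n hn d hd c
    have hn1 : N1 ≤ n := le_trans (le_trans (le_max_left _ _) (le_max_left _ _)) hn
    have hn2 : N2 ≤ n := le_trans (le_trans (le_max_right _ _) (le_max_left _ _)) hn
    have hn5 : 2 ≤ n := le_trans (le_max_right _ _) hn
    refine (det_cmLaw_le I c (δ * n)).trans ?_
    refine le_trans ?_ (det_avg (d := d) hn5 C ε (ε / (2 * (1 + 2 * C))) hε hε' hC
      (le_of_eq (by field_simp)) hd.upper (!c))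
    refine Finset.sum_le_sum fun s _ => mul_le_mul_left ?_ _
    have hgood : ∀ γ ∈ goodHist d (s.1 c) (s.1 (!c)) m M,
        PA d I (exRun (s.1 c) γ).A {ω | (numColour ω.1 ω.2 s c : ℝ) < δ * n} ≤
        ENNReal.ofReal (ε / 4) + ENNReal.ofReal (ε / (2 * (1 + 2 * C)) * (1 + d (s.1 !c))) := by
      intro γ hγ
      have h1 := hN2 n hn2 d mL hd s c γ hγ
      rw [det_mem_goodHist] at hγ
      have hlen : (exRun (s.1 c) γ).A.length = m := by
        rw [(ex_facts _ _ γ hγ.2.1).2.1, hγ.1]
      exact det_gamma I s c (exRun (s.1 c) γ).A (δ * n) x (ENNReal.ofReal (ε / 4)) _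
        (by rw [hlen]; exact hx c) h1
    refine (det_sum_le I s c m M (δ * n) _ hgood).trans ?_
    refine (add_le_add_left (hN1 n hn1 d hd s c) _).trans ?_
    rw [← ENNReal.ofReal_add (by positivity) (by positivity),
      ← ENNReal.ofReal_add (by positivity) (by positivity)]
    apply ENNReal.ofReal_le_ofReal
    apply le_of_eq
    ring

end Pool.Agent.H86.CM
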