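import Pool.Agent.H86.CM.Main

/-!
# Consequences of the theorem for deterministic degrees: the two probability estimates
-/

open MeasureTheory ProbabilityTheory Filter Topology

namespace Pool.Agent.H86.CM

/-- The probability that both sources are in the largest component is bounded below, and the
probability that in addition some colour paints few vertices is small. -/
theorem giant_and_bad (D : Measure ℕ) [IsProbabilityMeasure D] (I : Bool → Measure ℝ)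
    [∀ c, IsProbabilityMeasure (I c)] (L : ℝ → ℝ) (τ α : ℝ) (hτ : 3 < τ) (hL : SlowlyVarying L)
    (htail : ∀ x : ℝ, 0 < x → D.real {k : ℕ | x < k} = L x * x ^ (-(τ - 1)))
    (hν : 1 < nu D) (hat : ∀ c, ∀ x, I c {x} = 0) (hneg : ∀ c, I c (Set.Iio 0) = 0)
    (hmal : ∀ c, IsMalthusian (nu D) (I c) α) :
    (∃ q : ℝ, 0 < q ∧ ∀ᶠ n : ℕ in atTop,
      q ≤ prob D I n (fun _ ω => BothInGiant ω.1 ω.2.2)) ∧
    ∀ ε : ℝ, 0 < ε → ∃ δ0 : ℝ, 0 < δ0 ∧ ∀ᶠ n : ℕ in atTop, ∀ c : Bool,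
      prob D I n (fun _ ω => BothInGiant ω.1 ω.2.2 ∧
        (numColour ω.1 ω.2.1 ω.2.2 c : ℝ) < δ0 * n) ≤ ε := by
  obtain ⟨⟨ρ, hρ, hρ1, hmom⟩, hunb⟩ := tail_moment D L τ hτ hL htail
  obtain ⟨C, θ, η, p, k, hC, hθ, hθ1, hη, hp, hk, hreg⟩ := reg_whp D ρ hρ hρ1 hmom hunb hν
  obtain ⟨⟨q, m0, N0, hq, hgiant⟩, hcol⟩ :=
    det_statement I (nu D) C θ η p α k hν hC hθ hθ1 hη hp hk hat hneg hmal
  -- the probability of the giant event is bounded below
  have hB : ∀ᶠ n : ℕ in atTop, q / 2 ≤ prob D I n (fun _ ω => BothInGiant ω.1 ω.2.2) := by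
    have h1 : ∀ᶠ n : ℕ in atTop, (1 / 2 : ENNReal) < Measure.pi (fun _ : Fin n => D)
        {d : Fin n → ℕ | Reg (nu D) C θ η p k m0 (fixParity d)} := by
      apply (hreg m0).eventually
      apply lt_mem_nhds
      norm_num
    filter_upwards [h1, eventually_ge_atTop N0] with n hn hN
    have h2 := fin_P_lower D I n (fun _ ω => BothInGiant ω.1 ω.2.2)
      (fun d => Reg (nu D) C θ η p k m0 d) (ENNReal.ofReal q)
      (fun d hd => hgiant n hN (fixParity d) hd)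
    rw [fin_prob_eq]
    have h3 : ENNReal.ofReal (q / 2) ≤ fin_P D I n (fun _ ω => BothInGiant ω.1 ω.2.2) := by
      refine le_trans ?_ h2
      have : ENNReal.ofReal (q / 2) = ENNReal.ofReal q * (1 / 2) := by
        rw [div_eq_mul_inv, ENNReal.ofReal_mul hq.le, one_div]
        congr 1
        rw [ENNReal.ofReal_inv_of_pos (by norm_num)]
        norm_num
      rw [this]
      gcongr
    have hfin : fin_P D I n (fun _ ω => BothInGiant ω.1 ω.2.2) ≠ ⊤ :=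
      ne_top_of_le_ne_top ENNReal.one_ne_top (fin_P_le_one D I n _)
    exact (ENNReal.ofReal_le_iff_le_toReal hfin).mp h3
  -- the bad events have small probability
  have hbad : ∀ ε : ℝ, 0 < ε → ∃ δ0 : ℝ, 0 < δ0 ∧ ∀ᶠ n : ℕ in atTop, ∀ c : Bool,
      prob D I n (fun _ ω => BothInGiant ω.1 ω.2.2 ∧
        (numColour ω.1 ω.2.1 ω.2.2 c : ℝ) < δ0 * n) ≤ ε := by
    intro ε hε
    obtain ⟨δ0, m, N, hδ0, hδ⟩ := hcol (ε / 2) (by linarith)
    refine ⟨δ0, hδ0, ?_⟩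
    have h1 : ∀ᶠ n : ℕ in atTop, 1 - ENNReal.ofReal (ε / 2) < Measure.pi (fun _ : Fin n => D)
        {d : Fin n → ℕ | Reg (nu D) C θ η p k m (fixParity d)} := by
      apply (hreg m).eventually
      apply lt_mem_nhds
      apply ENNReal.sub_lt_self ENNReal.one_ne_top one_ne_zero
      simp only [ne_eq, ENNReal.ofReal_eq_zero, not_le]
      linarith
    filter_upwards [h1, eventually_ge_atTop N] with n hn hN
    intro c
    have h2 := fin_P_upper D I n (fun _ ω => BothInGiant ω.1 ω.2.2 ∧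
        (numColour ω.1 ω.2.1 ω.2.2 c : ℝ) < δ0 * n)
      (fun d => Reg (nu D) C θ η p k m d) (ENNReal.ofReal (ε / 2))
      (fun d hd => hδ n hN (fixParity d) hd c)
    have h3 : (Measure.pi fun _ : Fin n => D) {d | ¬ Reg (nu D) C θ η p k m (fixParity d)} ≤
        ENNReal.ofReal (ε / 2) := by
      have : {d : Fin n → ℕ | ¬ Reg (nu D) C θ η p k m (fixParity d)} =
          {d : Fin n → ℕ | Reg (nu D) C θ η p k m (fixParity d)}ᶜ := rfl
      rw [this, prob_compl_eq_one_sub (MeasurableSet.of_discrete)]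
      have h4 := hn.le
      rw [tsub_le_iff_right] at h4 ⊢
      rwa [add_comm]
    have h4 : fin_P D I n (fun _ ω => BothInGiant ω.1 ω.2.2 ∧
        (numColour ω.1 ω.2.1 ω.2.2 c : ℝ) < δ0 * n) ≤ ENNReal.ofReal ε := by
      refine h2.trans ?_
      calc _ ≤ ENNReal.ofReal (ε / 2) + ENNReal.ofReal (ε / 2) := by gcongr
        _ = ENNReal.ofReal ε := by
          rw [← ENNReal.ofReal_add (by linarith) (by linarith)]
          congr 1
          ring
    rw [fin_prob_eq]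
    exact ENNReal.toReal_le_of_le_ofReal hε.le h4
  exact ⟨⟨q / 2, by linarith, hB⟩, hbad⟩

theorem bad_ratio (D : Measure ℕ) [IsProbabilityMeasure D] (I : Bool → Measure ℝ)
    [∀ c, IsProbabilityMeasure (I c)]
    (h1 : ∃ q : ℝ, 0 < q ∧ ∀ᶠ n : ℕ in atTop,
      q ≤ prob D I n (fun _ ω => BothInGiant ω.1 ω.2.2))
    (h2 : ∀ ε : ℝ, 0 < ε → ∃ δ0 : ℝ, 0 < δ0 ∧ ∀ᶠ n : ℕ in atTop, ∀ c : Bool,
      prob D I n (fun _ ω => BothInGiant ω.1 ω.2.2 ∧
        (numColour ω.1 ω.2.1 ω.2.2 c : ℝ) < δ0 * n) ≤ ε) (ε : ℝ) (hε : 0 < ε) :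
    ∃ δ : ℝ, 0 < δ ∧ ∀ᶠ n : ℕ in atTop,
      prob D I n (fun _ ω => BothInGiant ω.1 ω.2.2 ∧
        ∃ c : Bool, (numColour ω.1 ω.2.1 ω.2.2 c : ℝ) < δ * n) ≤
      ε * prob D I n (fun _ ω => BothInGiant ω.1 ω.2.2) := by
  obtain ⟨q, hq, hB⟩ := h1
  obtain ⟨δ, hδ, hbad⟩ := h2 (ε * q / 2) (by positivity)
  refine ⟨δ, hδ, ?_⟩
  filter_upwards [hB, hbad] with n hn hn2
  have hfin : ∀ E, fin_P D I n E ≠ ⊤ := fun E =>
    ne_top_of_le_ne_top ENNReal.one_ne_top (fin_P_le_one D I n E)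
  have h3 : prob D I n (fun _ ω => BothInGiant ω.1 ω.2.2 ∧
        ∃ c : Bool, (numColour ω.1 ω.2.1 ω.2.2 c : ℝ) < δ * n) ≤
      prob D I n (fun _ ω => BothInGiant ω.1 ω.2.2 ∧
        (numColour ω.1 ω.2.1 ω.2.2 true : ℝ) < δ * n) +
      prob D I n (fun _ ω => BothInGiant ω.1 ω.2.2 ∧
        (numColour ω.1 ω.2.1 ω.2.2 false : ℝ) < δ * n) := by
    simp only [fin_prob_eq]
    rw [← ENNReal.toReal_add (hfin _) (hfin _)]
    refine ENNReal.toReal_mono (ENNReal.add_ne_top.mpr ⟨hfin _, hfin _⟩) ?_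
    refine fin_P_add D I n _ _ _ ?_
    rintro d ω ⟨h4, c, hc⟩
    cases c
    · exact Or.inr ⟨h4, hc⟩
    · exact Or.inl ⟨h4, hc⟩
  have h4 := hn2 true
  have h5 := hn2 false
  have h6 : ε * q ≤ ε * prob D I n (fun _ ω => BothInGiant ω.1 ω.2.2) :=
    mul_le_mul_of_nonneg_left hn hε.le
  linarith

end Pool.Agent.H86.CM
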