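import Pool.Agent.H86.CM.AsmE
import Pool.Agent.H86.CM.Det

/-!
# Coexistence on the configuration model when the Malthusian parameters are equal
-/

open MeasureTheory ProbabilityTheory

namespace Pool.Agent.H86.CM

theorem det_statement : DetStatement :=
  det_of_core_cond fun I _ ν C θ η p α k hν hC hθ _ hη hp hk hat hneg hmal =>
    core_cond_of_target I ν C θ η p k hν hC hθ hη hp
      (core_target I ν C θ η p α k hν hC hθ hη hk hat hneg hmal)

theorem q2_statement : Q2Statement := q2_of_det det_statement

end Pool.Agent.H86.CM
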