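import Pool.Agent.H86.CM.Defs

/-!
# Pairings containing given pairs, walks and configurations: definitions
-/

namespace Pool.Agent.H86.CM

section Match

variable {H : Type} [Fintype H] [DecidableEq H]

/-- The elements used by a list of pairs. -/
def ends (A : List (H × H)) : List H := A.flatMap fun p => [p.1, p.2]

/-- The pairing `σ` contains all pairs of the list. -/
def Contains (σ : Pairing H) (A : List (H × H)) : Prop := ∀ p ∈ A, σ.1 p.1 = p.2

open Classical in
/-- The number of pairings that contain all pairs of the list. -/
noncomputable def numContains (A : List (H × H)) : ℕ :=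
  (Finset.univ.filter fun σ : Pairing H => Contains σ A).card

end Match

section Walk

variable {n : ℕ} {d : Fin n → ℕ}

/-- `a` is a walk (list of half-edges, each followed to its partner) from `u` to `v`. -/
def IsWalk (σ : Pairing (HE d)) : Fin n → List (HE d) → Fin n → Prop
  | u, [], v => u = v
  | u, h :: a, v => h.1 = u ∧ IsWalk σ (σ.1 h).1 a v

/-- The vertices visited by a walk after its starting vertex. -/
def walkVerts (σ : Pairing (HE d)) (a : List (HE d)) : List (Fin n) :=
  a.map fun h => (σ.1 h).1

/-- The total weight of a walk for the colour `c`. -/
def walkLen (σ : Pairing (HE d)) (w : Weights d) (c : Bool) (a : List (HE d)) : ℝ :=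
  (a.map fun h => w (c, s(h, σ.1 h))).sum

end Walk

end Pool.Agent.H86.CM
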