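import Pool.Agent.H86.CM.Pairs

/-!
# The structure of pairs of good configurations
-/

namespace Pool.Agent.H86.CM

variable {n : ℕ} {d : Fin n → ℕ}

/-- The half-edges to which further runs can be attached. -/
def attS (X : Finset (HE d)) (Tg : Finset (Fin n)) (B : List (HE d × HE d)) : Finset (HE d) :=
  Finset.univ.filter fun h => h ∈ X ∨ h.1 ∈ Tg ∨ h.1 ∈ B.map (fun p => p.2.1)

/-- The pairs of runs attached to `B`. -/
def dblQ (A : List (HE d × HE d)) (X : Finset (HE d)) (Tg : Finset (Fin n)) (KK : ℕ)
    (B : List (HE d × HE d)) : Finset (List (HE d × HE d) × List (HE d × HE d)) :=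
  (((Finset.range KK).biUnion fun m => chains (attS X Tg B) (attS X Tg B) m) ×ˢ
    ((Finset.range KK).biUnion fun m => chains (attS X Tg B) (attS X Tg B) m)).filter
    fun q => (ends (A ++ B ++ q.1 ++ q.2)).Nodup

variable {A : List (HE d × HE d)} {W : Finset (Fin n)} {X : Finset (HE d)}
  {Tg : Finset (Fin n)} {o : Fin n} {b0 β : ℝ} {KK : ℕ}

theorem SW.not_mem_A (hs : Scene d A W X Tg o) {σ : Pairing (HE d)} (hA : Contains σ A)
    {a : List (HE d)} (ha : SW σ W Tg a) {x : HE d} (hx : x ∈ a) : x ∉ ends A ∧ σ.1 x ∉ ends A := by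
  have h1 : σ.1 x ∉ ends A := fun h => ha.notW x hx (hs.endsW _ h)
  exact ⟨fun h => h1 ((mem_ends_symm σ hA).2 h), h1⟩

/-- Ends of two lists of steps are disjoint if no step of the second list is a step of the first
list, in either direction. -/
theorem ends_cfg_disjoint {σ : Pairing (HE d)} {F G : List (HE d)}
    (h : ∀ x ∈ G, x ∉ F ∧ σ.1 x ∉ F) : (ends (cfg σ F)).Disjoint (ends (cfg σ G)) := by
  intro x hx hy
  rw [mem_ends_cfg] at hx hy
  rcases hy with hy | hy
  · rcases hx with hx | hx
    · exact (h x hy).1 hx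
    · exact (h x hy).2 hx
  · rcases hx with hx | hx
    · have := (h _ hy).2
      rw [σ.2.1] at this
      exact this hx
    · exact (h _ hy).1 hx

theorem ends_A_cfg_disjoint {σ : Pairing (HE d)} {A : List (HE d × HE d)} {G : List (HE d)}
    (h : ∀ x ∈ G, x ∉ ends A ∧ σ.1 x ∉ ends A) : (ends A).Disjoint (ends (cfg σ G)) := by
  intro x hx hy
  rw [mem_ends_cfg] at hy
  rcases hy with hy | hy
  · exact (h x hy).1 hx
  · have := (h _ hy).2
    rw [σ.2.1] at this
    exact this hx

theorem SW.chain_facts {σ : Pairing (HE d)} {a : List (HE d)} (ha : SW σ W Tg a)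
    {c R e : List (HE d)} (h : a = c ++ R ++ e) :
    ∀ c' x y e', R = c' ++ x :: y :: e' → (σ.1 x).1 = y.1 ∧ σ.1 x ≠ y := by
  intro c' x y e' hR
  have h1 : a = (c ++ c') ++ x :: y :: (e' ++ e) := by rw [h, hR]; simp
  refine ⟨ha.walk _ _ _ _ h1, ?_⟩
  intro hxy
  have hx : x ∈ a := by rw [h1]; simp
  have hy : y ∈ a := by rw [h1]; simp
  exact ha.no_back hx (hxy ▸ hy)

theorem SW.sub_nodup {σ : Pairing (HE d)} {a : List (HE d)} (ha : SW σ W Tg a)
    {R : List (HE d)} (h : R.Sublist a) : (ends (cfg σ R)).Nodup := by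
  refine ends_cfg_nodup (h.nodup ha.list_nodup) ?_
  intro x hx hx'
  exact ha.no_back (h.subset hx) (h.subset hx')

theorem exists_last {α : Type} {l : List α} (h : l ≠ []) : ∃ c x, l = c ++ [x] := by
  rcases List.eq_nil_or_concat l with h0 | ⟨c, x, h0⟩
  · exact absurd h0 h
  · exact ⟨c, x, by rw [h0]; simp⟩

/-- A vertex visited by both walks at a non-fresh step of the second walk. -/
theorem nonfresh_vertex {σ : Pairing (HE d)} {a : List (HE d)} (ha : SW σ W Tg a) {x : HE d}
    (hx : ¬ Fresh σ a x) :
    (x.1 ∈ W ∨ x.1 ∈ (cfg σ a).map (fun p => p.2.1)) ∧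
      ((σ.1 x).1 ∈ W ∨ (σ.1 x).1 ∈ (cfg σ a).map (fun p => p.2.1)) := by
  have key : ∀ y ∈ a, (y.1 ∈ W ∨ y.1 ∈ (cfg σ a).map (fun p => p.2.1)) ∧
      (σ.1 y).1 ∈ (cfg σ a).map (fun p => p.2.1) := by
    intro y hy
    constructor
    · rcases mem_split_pred hy with ⟨e, he⟩ | ⟨c, p, e, he⟩
      · exact Or.inl (ha.head y e he)
      · right
        rw [← ha.walk c p y e he]
        rw [List.mem_map]
        refine ⟨(p, σ.1 p), ?_, rfl⟩
        rw [cfg, List.mem_map]
        exact ⟨p, by rw [he]; simp, rfl⟩
    · rw [List.mem_map]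
      refine ⟨(y, σ.1 y), ?_, rfl⟩
      rw [cfg, List.mem_map]
      exact ⟨y, hy, rfl⟩
  unfold Fresh at hx
  rw [not_and_or, not_not, not_not] at hx
  rcases hx with hx | hx
  · exact ⟨(key x hx).1, Or.inr (key x hx).2⟩
  · have h1 := key _ hx
    rw [σ.2.1] at h1
    exact ⟨Or.inr h1.2, h1.1⟩

theorem pair_structure (hs : Scene d A W X Tg o) {σ : Pairing (HE d)} (hA : Contains σ A)
    {B B' : List (HE d × HE d)} (hB : B ∈ goodB d W X Tg o b0 β KK)
    (hB' : B' ∈ goodB d W X Tg o b0 β KK) (hcB : Contains σ B) (hcB' : Contains σ B')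
    (hne : B ≠ B') :
    (∃ c mid e R : List (HE d × HE d), B = c ++ mid ++ e ∧ B' = c ++ R ++ e ∧ mid ≠ [] ∧
      R ≠ [] ∧ (ends (A ++ B ++ R)).Nodup ∧
      R ∈ chains (if c.length = 0 then X else atS B c.length)
        (if e.length = 0 then hesS d Tg else atS B (B.length - e.length)) (R.length - 1)) ∨
    (∃ q ∈ dblQ A X Tg KK B, (q.1 ++ q.2).Sublist B') := by
  have ha := goodB_SW hs hB hcB
  have ha' := goodB_SW hs hB' hcB'
  set a := B.map Prod.fst with had
  set a' := B'.map Prod.fst with had'
  have hBa : B = cfg σ a := eq_cfg σ B hcB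
  have hBa' : B' = cfg σ a' := eq_cfg σ B' hcB'
  have hne' : a ≠ a' := fun h => hne (by rw [hBa, hBa', h])
  obtain ⟨c, mid, e, R, h1, h2, hmid, hR, hfirst, hlast⟩ := ha.structural ha' hs.disj hne'
  have hlen' : a'.length ≤ KK := by
    obtain ⟨x, τ, y, h3, _, _, h4, _⟩ := mem_goodB.1 hB'
    rw [had', h3, List.length_map, mk_length]
    omega
  -- the pairs of the two walks avoid `A`
  have hAa : (ends A).Disjoint (ends (cfg σ a)) :=
    ends_A_cfg_disjoint fun x hx => ha.not_mem_A hs hA hx
  have hAa' : ∀ R' : List (HE d), R'.Sublist a' → (ends A).Disjoint (ends (cfg σ R')) :=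
    fun R' hR' => ends_A_cfg_disjoint fun x hx => ha'.not_mem_A hs hA (hR'.subset hx)
  have hna : (ends (cfg σ a)).Nodup := ha.sub_nodup (List.Sublist.refl _)
  -- head and last of R
  obtain ⟨r1, Rt, hRt⟩ := List.exists_cons_of_ne_nil hR
  obtain ⟨Ri, r2, hRi⟩ := exists_last hR
  obtain ⟨q1, Mt, hMt⟩ := List.exists_cons_of_ne_nil hmid
  obtain ⟨Mi, q2, hMi⟩ := exists_last hmid
  have hRsub : R.Sublist a' := by
    rw [h2]
    exact ((List.sublist_append_right c R).trans (List.sublist_append_left _ e))
  by_cases hall : ∀ x ∈ R, Fresh σ a x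
  · -- the single case
    left
    refine ⟨cfg σ c, cfg σ mid, cfg σ e, cfg σ R, ?_, ?_, ?_, ?_, ?_, ?_⟩
    · rw [hBa, h1, cfg_append, cfg_append]
    · rw [hBa', h2, cfg_append, cfg_append]
    · simpa [cfg] using hmid
    · simpa [cfg] using hR
    · rw [hBa, ends_append, ends_append, List.nodup_append', List.nodup_append']
      refine ⟨⟨hs.nodup, hna, hAa⟩, ha'.sub_nodup hRsub, ?_⟩
      rw [List.disjoint_append_left]
      exact ⟨hAa' R hRsub, ends_cfg_disjoint hall⟩
    · have hs1 : ∀ x z, R = x :: z →
          x ∈ (if (cfg σ c).length = 0 then X else atS B (cfg σ c).length) := by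
        intro x z hx
        split_ifs with hc
        · rw [cfg_length, List.length_eq_zero_iff] at hc
          subst hc
          obtain ⟨x', τ', y', h3, h4, _⟩ := mem_goodB.1 hB'
          have : x = x' := by
            have h5 : a' = x' :: τ'.map Prod.snd := by rw [had', h3, mk_map_fst]
            rw [h2, hx] at h5
            simp only [List.nil_append, List.cons_append, List.cons.injEq] at h5
            exact h5.1
          rw [this]
          exact h4
        · rw [cfg_length] at hc ⊢
          have hcne : c ≠ [] := fun h => hc (by rw [h]; rfl)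
          obtain ⟨c0, g, hg⟩ := exists_last hcne
          have hg1 : (σ.1 g).1 = x.1 :=
            ha'.walk c0 g x (z ++ e) (by rw [h2, hg, hx]; simp)
          have hg2 : (σ.1 g).1 = q1.1 :=
            ha.walk c0 g q1 (Mt ++ e) (by rw [h1, hg, hMt]; simp)
          simp only [atS, Finset.mem_filter, Finset.mem_univ, true_and]
          intro p hp
          have : B[c.length]? = some (q1, σ.1 q1) := by
            rw [hBa, h1, hMt]
            simp [cfg]
          rw [this] at hp
          simp only [Option.mem_def, Option.some.injEq] at hp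
          rw [← hp, ← hg1, hg2]
      have hs2 : ∀ z x, R = z ++ [x] → σ.1 x ∈ (if (cfg σ e).length = 0 then hesS d Tg else
          atS B (B.length - (cfg σ e).length)) := by
        intro z x hx
        split_ifs with hc
        · rw [cfg_length, List.length_eq_zero_iff] at hc
          subst hc
          rw [mem_hesS]
          exact ha'.last (c ++ z) x (by rw [h2, hx]; simp)
        · rw [cfg_length] at hc ⊢
          cases e with
          | nil => exact absurd rfl hc
          | cons g e0 =>
            have hg1 : (σ.1 x).1 = g.1 :=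
              ha'.walk (c ++ z) x g e0 (by rw [h2, hx]; simp)
            simp only [atS, Finset.mem_filter, Finset.mem_univ, true_and]
            intro p hp
            have hl : B.length - (g :: e0).length = (cfg σ (c ++ mid)).length := by
              rw [hBa, h1, cfg_length, cfg_length]
              simp only [List.length_append, List.length_cons]
              omega
            have : B[(cfg σ (c ++ mid)).length]? = some (g, σ.1 g) := by
              have e2 : B = cfg σ (c ++ mid) ++ (g, σ.1 g) :: cfg σ e0 := by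
                rw [hBa, h1, cfg_append]
                rfl
              rw [e2, List.getElem?_append_right (le_refl _)]
              simp
            rw [hl, this] at hp
            simp only [Option.mem_def, Option.some.injEq] at hp
            rw [← hp, hg1]
      obtain ⟨m, hm, hml⟩ := cfg_mem_chains σ R hR (ha'.chain_facts h2) _ _ hs1 hs2
      have e1 : (cfg σ R).length - 1 = m := by rw [cfg_length, hml]; rfl
      rw [e1]
      exact hm
  · -- the double case
    right
    have hbad : ∃ x ∈ R, ¬ Fresh σ a x := by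
      by_contra h
      exact hall fun x hx => by
        by_contra h'
        exact h ⟨x, hx, h'⟩
    obtain ⟨R1, x, z, h3, h4, h5⟩ := first_bad (Fresh σ a) R hbad
    obtain ⟨z', x', R2, h6, h7, h8⟩ := last_bad (Fresh σ a) (x :: z) ⟨x, by simp, h5⟩
    have hR1 : R1 ≠ [] := by
      rintro rfl
      exact h5 (hfirst x z (by rw [h3]; rfl))
    have hR2 : R2 ≠ [] := by
      rintro rfl
      exact h8 (hlast (R1 ++ z') x' (by rw [h3, h6]; simp))
    have hsub : (R1 ++ R2).Sublist a' := by
      refine List.Sublist.trans ?_ hRsub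
      rw [h3, h6]
      refine List.Sublist.append (List.Sublist.refl _) ?_
      exact (List.sublist_cons_self x' R2).trans (List.sublist_append_right z' _)
    have hfr : ∀ y ∈ R1 ++ R2, Fresh σ a y := by
      intro y hy
      rcases List.mem_append.1 hy with hy | hy
      · exact h4 y hy
      · exact h7 y hy
    have hl1 : R1.length + R2.length ≤ KK := by
      have := hsub.length_le
      rw [List.length_append] at this
      omega
    have hl1' : 0 < R1.length := List.length_pos_iff.2 hR1
    have hl2' : 0 < R2.length := List.length_pos_iff.2 hR2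
    have hatt : ∀ h : HE d, h.1 ∈ (cfg σ a).map (fun p => p.2.1) → h ∈ attS X Tg B := by
      intro h hh
      simp only [attS, Finset.mem_filter, Finset.mem_univ, true_and]
      right; right
      rw [hBa]
      exact hh
    have hs1 : ∀ y e', R1 = y :: e' → y ∈ attS X Tg B := by
      intro y e' hy
      by_cases hc : c = []
      · subst hc
        obtain ⟨x1, τ', y', h9, h10, _⟩ := mem_goodB.1 hB'
        have : y = x1 := by
          have h5 : a' = x1 :: τ'.map Prod.snd := by rw [had', h9, mk_map_fst]
          rw [h2, h3, hy] at h5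
          simp only [List.nil_append, List.cons_append, List.cons.injEq] at h5
          exact h5.1
        rw [this]
        simp only [attS, Finset.mem_filter, Finset.mem_univ, true_and]
        exact Or.inl h10
      · obtain ⟨c0, g, hg⟩ := exists_last hc
        have hg1 : (σ.1 g).1 = y.1 :=
          ha'.walk c0 g y (e' ++ (x :: z) ++ e) (by rw [h2, h3, hy, hg]; simp)
        refine hatt y ?_
        rw [← hg1, List.mem_map]
        refine ⟨(g, σ.1 g), ?_, rfl⟩
        rw [cfg, List.mem_map]
        exact ⟨g, by rw [h1, hg]; simp, rfl⟩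
    have hs2 : ∀ e' y, R1 = e' ++ [y] → σ.1 y ∈ attS X Tg B := by
      intro e' y hy
      have hy1 : (σ.1 y).1 = x.1 :=
        ha'.walk (c ++ e') y x (z ++ e) (by rw [h2, h3, hy]; simp)
      have hya : y ∈ a' := by rw [h2, h3, hy]; simp
      refine hatt _ ?_
      rw [hy1]
      rcases (nonfresh_vertex ha h5).1 with h9 | h9
      · exact absurd (hy1 ▸ h9) (ha'.notW y hya)
      · exact h9
    have hs3 : ∀ y e', R2 = y :: e' → y ∈ attS X Tg B := by
      intro y e' hy
      have hy1 : (σ.1 x').1 = y.1 :=
        ha'.walk (c ++ R1 ++ z') x' y (e' ++ e) (by rw [h2, h3, h6, hy]; simp)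
      have hya : x' ∈ a' := by rw [h2, h3, h6]; simp
      refine hatt _ ?_
      rw [← hy1]
      rcases (nonfresh_vertex ha h8).2 with h9 | h9
      · exact absurd h9 (ha'.notW x' hya)
      · exact h9
    have hs4 : ∀ e' y, R2 = e' ++ [y] → σ.1 y ∈ attS X Tg B := by
      intro e' y hy
      by_cases he : e = []
      · subst he
        simp only [attS, Finset.mem_filter, Finset.mem_univ, true_and]
        right; left
        exact ha'.last (c ++ R1 ++ z' ++ [x'] ++ e') y (by rw [h2, h3, h6, hy]; simp)
      · obtain ⟨g, e0, rfl⟩ := List.exists_cons_of_ne_nil he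
        have hg1 : (σ.1 y).1 = g.1 :=
          ha'.walk (c ++ R1 ++ z' ++ [x'] ++ e') y g e0 (by rw [h2, h3, h6, hy]; simp)
        have hq : (σ.1 q2).1 = g.1 :=
          ha.walk (c ++ Mi) q2 g e0 (by rw [h1, hMi]; simp)
        refine hatt _ ?_
        rw [hg1, ← hq, List.mem_map]
        refine ⟨(q2, σ.1 q2), ?_, rfl⟩
        rw [cfg, List.mem_map]
        exact ⟨q2, by rw [h1, hMi]; simp, rfl⟩
    obtain ⟨m1, hm1, hml1⟩ := cfg_mem_chains σ R1 hR1
      (ha'.chain_facts (c := c) (e := (x :: z) ++ e) (by rw [h2, h3]; simp))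
      (attS X Tg B) (attS X Tg B) hs1 hs2
    obtain ⟨m2, hm2, hml2⟩ := cfg_mem_chains σ R2 hR2
      (ha'.chain_facts (c := c ++ R1 ++ z' ++ [x']) (e := e)
        (by rw [h2, h3, h6]; simp))
      (attS X Tg B) (attS X Tg B) hs3 hs4
    refine ⟨(cfg σ R1, cfg σ R2), ?_, ?_⟩
    · unfold dblQ
      rw [Finset.mem_filter, Finset.mem_product]
      refine ⟨⟨?_, ?_⟩, ?_⟩
      · rw [Finset.mem_biUnion]
        exact ⟨m1, by rw [Finset.mem_range]; omega, hm1⟩
      · rw [Finset.mem_biUnion]
        exact ⟨m2, by rw [Finset.mem_range]; omega, hm2⟩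
      · have h9 : A ++ B ++ cfg σ R1 ++ cfg σ R2 = A ++ cfg σ a ++ cfg σ (R1 ++ R2) := by
          rw [cfg_append, hBa]
          simp
        simp only
        rw [h9, ends_append, ends_append, List.nodup_append', List.nodup_append']
        refine ⟨⟨hs.nodup, hna, hAa⟩, ha'.sub_nodup hsub, ?_⟩
        rw [List.disjoint_append_left]
        exact ⟨hAa' _ hsub, ends_cfg_disjoint hfr⟩
    · rw [hBa', ← cfg_append]
      exact List.Sublist.map _ hsub

end Pool.Agent.H86.CM
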