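import Pool.Agent.H86.CM.Chains

/-!
# Pairs of good configurations
-/

namespace Pool.Agent.H86.CM

section Ends

variable {H : Type}

theorem ends_append (A B : List (H × H)) : ends (A ++ B) = ends A ++ ends B := by
  simp [ends]

theorem ends_cons (p : H × H) (A : List (H × H)) : ends (p :: A) = p.1 :: p.2 :: ends A := by
  simp [ends]

theorem mem_ends {A : List (H × H)} {x : H} : x ∈ ends A ↔ ∃ p ∈ A, x = p.1 ∨ x = p.2 := by
  simp [ends]

theorem mem_ends_symm {A : List (H × H)} (σ : Pairing H) (hc : Contains σ A) {x : H} :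
    σ.1 x ∈ ends A ↔ x ∈ ends A := by
  have key : ∀ x, x ∈ ends A → σ.1 x ∈ ends A := by
    intro x hx
    rw [mem_ends] at hx ⊢
    obtain ⟨p, hp, rfl | rfl⟩ := hx
    · exact ⟨p, hp, Or.inr (hc p hp)⟩
    · refine ⟨p, hp, Or.inl ?_⟩
      rw [← hc p hp, σ.2.1]
  constructor
  · intro h
    have := key _ h
    rwa [σ.2.1] at this
  · exact key x

end Ends

variable {n : ℕ} {d : Fin n → ℕ}

theorem mem_ends_cfg {σ : Pairing (HE d)} {F : List (HE d)} {x : HE d} :
    x ∈ ends (cfg σ F) ↔ x ∈ F ∨ σ.1 x ∈ F := by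
  rw [mem_ends]
  simp only [cfg, List.mem_map]
  constructor
  · rintro ⟨p, ⟨h, hh, rfl⟩, rfl | rfl⟩
    · exact Or.inl hh
    · right
      simpa [σ.2.1] using hh
  · rintro (h | h)
    · exact ⟨_, ⟨x, h, rfl⟩, Or.inl rfl⟩
    · refine ⟨_, ⟨σ.1 x, h, rfl⟩, Or.inr ?_⟩
      simp [σ.2.1]

theorem ends_cfg_nodup {σ : Pairing (HE d)} {F : List (HE d)} (h : F.Nodup)
    (h2 : ∀ x ∈ F, σ.1 x ∉ F) : (ends (cfg σ F)).Nodup := by
  induction F with
  | nil => simp [cfg, ends]
  | cons x F ih =>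
    have h1 : cfg σ (x :: F) = (x, σ.1 x) :: cfg σ F := rfl
    rw [h1, ends_cons]
    rw [List.nodup_cons] at h
    have h3 : σ.1 x ∉ F := fun hh => h2 x (by simp) (by simp [hh])
    refine List.nodup_cons.2 ⟨?_, List.nodup_cons.2 ⟨?_, ?_⟩⟩
    · simp only [List.mem_cons, not_or, mem_ends_cfg]
      exact ⟨fun hh => σ.2.2 x hh.symm, h.1, h3⟩
    · simp only [mem_ends_cfg, not_or, σ.2.1]
      exact ⟨h3, h.1⟩
    · exact ih h.2 fun y hy hh => h2 y (by simp [hy]) (by simp [hh])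

/-- Data of the second phase: explored pairs `A` inside `W`, seeds `X`, targets `Tg` and the
other source `o`. -/
structure Scene (d : Fin n → ℕ) (A : List (HE d × HE d)) (W : Finset (Fin n))
    (X : Finset (HE d)) (Tg : Finset (Fin n)) (o : Fin n) : Prop where
  nodup : (ends A).Nodup
  endsW : ∀ h ∈ ends A, h.1 ∈ W
  xW : ∀ x ∈ X, x.1 ∈ W
  xA : ∀ x ∈ X, x ∉ ends A
  disj : Disjoint W Tg
  oW : o ∉ W
  oTg : o ∉ Tg

/-- Good lists of transits. -/
structure GoodT (W Tg : Finset (Fin n)) (o : Fin n) (b0 β : ℝ) (τ : List (HE d × HE d)) :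
    Prop where
  tr : ∀ p ∈ τ, p ∈ trs d
  nodup : (τ.map fun p => p.1.1).Nodup
  out : ∀ p ∈ τ, p.1.1 ∉ W ∧ p.1.1 ∉ Tg ∧ p.1.1 ≠ o
  deg : ∀ c p e, τ = c ++ p :: e → (d p.1.1 : ℝ) ≤ b0 * β ^ (c.length + 1) ∧
    (d p.1.1 : ℝ) ≤ b0 * β ^ (e.length + 1)

/-- The half-edges of a set of vertices. -/
def hesS (d : Fin n → ℕ) (S : Finset (Fin n)) : Finset (HE d) :=
  Finset.univ.filter fun h => h.1 ∈ S

theorem mem_hesS {h : HE d} {S : Finset (Fin n)} : h ∈ hesS d S ↔ h.1 ∈ S := by simp [hesS]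

open Classical in
/-- The good configurations with at most `KK` pairs. -/
noncomputable def goodB (d : Fin n → ℕ) (W : Finset (Fin n)) (X : Finset (HE d))
    (Tg : Finset (Fin n)) (o : Fin n) (b0 β : ℝ) (KK : ℕ) : Finset (List (HE d × HE d)) :=
  ((Finset.range KK).biUnion fun m => chains X (hesS d Tg) m).filter fun B =>
    ∃ x τ y, B = mk x τ y ∧ GoodT W Tg o b0 β τ

theorem mem_goodB {W : Finset (Fin n)} {X : Finset (HE d)} {Tg : Finset (Fin n)} {o : Fin n}
    {b0 β : ℝ} {KK : ℕ} {B : List (HE d × HE d)} :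
    B ∈ goodB d W X Tg o b0 β KK ↔ ∃ x τ y, B = mk x τ y ∧ x ∈ X ∧ y.1 ∈ Tg ∧ τ.length < KK ∧
      GoodT W Tg o b0 β τ := by
  unfold goodB
  simp only [Finset.mem_filter, Finset.mem_biUnion, Finset.mem_range, mem_chains, mem_hesS]
  constructor
  · rintro ⟨⟨m, hm, x, τ, y, rfl, h1, h2, h3, h4⟩, x', τ', y', h5, h6⟩
    obtain ⟨rfl, rfl, rfl⟩ := mk_inj h5
    exact ⟨x, τ, y, rfl, h1, h2, h3 ▸ hm, h6⟩
  · rintro ⟨x, τ, y, rfl, h1, h2, h3, h4⟩
    exact ⟨⟨τ.length, h3, x, τ, y, rfl, h1, h2, rfl, h4.tr⟩, x, τ, y, rfl, h4⟩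

/-- Consecutive pairs of a chain. -/
theorem mk_consec {x : HE d} {τ : List (HE d × HE d)} {y : HE d} {c e : List (HE d × HE d)}
    {p q : HE d × HE d} (h : mk x τ y = c ++ p :: q :: e) :
    ∃ c' e', τ = c' ++ (p.2, q.1) :: e' ∧ c'.length = c.length ∧ e'.length = e.length := by
  have h' : mk x τ y = (c ++ [p]) ++ (q :: e) := by simpa using h
  obtain ⟨c', t, e', h1, h2, h3⟩ := mk_split x τ y _ _ h' (by simp) (by simp)
  have h4 : t.1 = p.2 := by
    have := congrArg (List.map Prod.snd) h2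
    rw [mk_map_snd, List.map_append] at this
    have := List.append_inj_right' this (by simp)
    simpa using this.symm
  have h5 : t.2 = q.1 := by
    have := congrArg (List.map Prod.fst) h3
    rw [mk_map_fst, List.map_cons] at this
    simp only [List.cons.injEq] at this
    exact this.1.symm
  refine ⟨c', e', ?_, ?_, ?_⟩
  · rw [h1, ← h4, ← h5]
  · have := congrArg List.length h2
    rw [mk_length] at this
    simpa using this.symm
  · have := congrArg List.length h3
    rw [mk_length] at this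
    simpa using this.symm

variable {A : List (HE d × HE d)} {W : Finset (Fin n)} {X : Finset (HE d)}
  {Tg : Finset (Fin n)} {o : Fin n} {b0 β : ℝ} {KK : ℕ}

theorem verts_mk (x : HE d) (τ : List (HE d × HE d)) (y : HE d) :
    (mk x τ y).map (fun p => p.2.1) = τ.map (fun p => p.1.1) ++ [y.1] := by
  have := congrArg (List.map Sigma.fst) (mk_map_snd x τ y)
  simpa [List.map_map, Function.comp_def] using this

theorem goodB_verts_nodup {B : List (HE d × HE d)} (hB : B ∈ goodB d W X Tg o b0 β KK) :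
    (B.map fun p => p.2.1).Nodup := by
  obtain ⟨x, τ, y, rfl, hx, hy, hτ, hg⟩ := mem_goodB.1 hB
  rw [verts_mk, List.nodup_append]
  refine ⟨hg.nodup, by simp, ?_⟩
  intro u hu v hv
  simp only [List.mem_singleton] at hv
  subst hv
  simp only [List.mem_map] at hu
  obtain ⟨p, hp, rfl⟩ := hu
  intro h
  exact (hg.out p hp).2.1 (h ▸ hy)

theorem goodB_out (hs : Scene d A W X Tg o) {B : List (HE d × HE d)}
    (hB : B ∈ goodB d W X Tg o b0 β KK) {p : HE d × HE d} (hp : p ∈ B) :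
    p.2.1 ∉ W ∧ p.2.1 ≠ o := by
  obtain ⟨x, τ, y, rfl, hx, hy, hτ, hg⟩ := mem_goodB.1 hB
  have h1 : p.2.1 ∈ (mk x τ y).map (fun p => p.2.1) := List.mem_map.2 ⟨p, hp, rfl⟩
  rw [verts_mk, List.mem_append] at h1
  rcases h1 with h1 | h1
  · obtain ⟨q, hq, hqp⟩ := List.mem_map.1 h1
    rw [← hqp]
    exact ⟨(hg.out q hq).1, (hg.out q hq).2.2⟩
  · simp only [List.mem_singleton] at h1
    rw [h1]
    exact ⟨fun h => Finset.disjoint_left.1 hs.disj h hy, fun h => hs.oTg (h ▸ hy)⟩

/-- A good configuration contained in `σ` gives a walk of `σ`. -/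
theorem goodB_SW (hs : Scene d A W X Tg o) {σ : Pairing (HE d)} {B : List (HE d × HE d)}
    (hB : B ∈ goodB d W X Tg o b0 β KK) (hc : Contains σ B) : SW σ W Tg (B.map Prod.fst) := by
  have hout := fun {p} hp => goodB_out hs hB (p := p) hp
  have hvn := goodB_verts_nodup hB
  obtain ⟨x, τ, y, rfl, hx, hy, hτ, hg⟩ := mem_goodB.1 hB
  have hcons : ∀ c z z' e, (mk x τ y).map Prod.fst = c ++ z :: z' :: e →
      ∃ c' e', τ = c' ++ (σ.1 z, z') :: e' := by
    intro c z z' e he
    have h1 : mk x τ y = cfg σ c ++ (z, σ.1 z) :: (z', σ.1 z') :: cfg σ e := by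
      rw [eq_cfg σ _ hc, he]
      simp [cfg]
    obtain ⟨c', e', h2, _⟩ := mk_consec h1
    exact ⟨c', e', h2⟩
  refine ⟨?_, ?_, ?_, ?_, ?_, ?_, ?_⟩
  · simp [mk_ne_nil]
  · intro z e hz
    rw [mk_map_fst] at hz
    simp only [List.cons.injEq] at hz
    rw [← hz.1]
    exact hs.xW x hx
  · intro c z z' e he
    obtain ⟨c', e', h2⟩ := hcons c z z' e he
    exact (mem_trs.1 (hg.tr (σ.1 z, z') (by rw [h2]; simp))).1
  · have h1 : ((mk x τ y).map Prod.fst).map (fun h => (σ.1 h).1) =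
        (mk x τ y).map (fun p => p.2.1) := by
      rw [List.map_map]
      refine List.map_congr_left ?_
      intro p hp
      simp only [Function.comp]
      rw [hc p hp]
    rw [h1]
    exact hvn
  · intro h hh
    obtain ⟨p, hp, rfl⟩ := List.mem_map.1 hh
    rw [hc p hp]
    exact (hout hp).1
  · intro c z he
    have h1 : mk x τ y = cfg σ c ++ [(z, σ.1 z)] := by
      rw [eq_cfg σ _ hc, he]
      simp [cfg]
    have h2 := congrArg (List.map Prod.snd) h1
    rw [mk_map_snd, List.map_append] at h2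
    have := List.append_inj_right' h2 (by simp)
    simp only [List.map_cons, List.map_nil, List.cons.injEq, and_true] at this
    rw [← this]
    exact hy
  · intro c z z' e he
    obtain ⟨c', e', h2⟩ := hcons c z z' e he
    exact (hg.out (σ.1 z, z') (by rw [h2]; simp)).2.1

/-- The half-edges at the vertex where pair `j` of the configuration starts. -/
def atS (B : List (HE d × HE d)) (j : ℕ) : Finset (HE d) :=
  Finset.univ.filter fun h => ∀ p ∈ B[j]?, h.1 = p.1.1

theorem card_atS {B : List (HE d × HE d)} (hB : B ∈ goodB d W X Tg o b0 β KK) {j : ℕ} (h1 : 1 ≤ j) (h2 : j < B.length) :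
    ((atS B j).card : ℝ) ≤ b0 * β ^ j ∧ ((atS B j).card : ℝ) ≤ b0 * β ^ (B.length - j) := by
  obtain ⟨x, τ, y, rfl, hx, hy, hτ, hg⟩ := mem_goodB.1 hB
  set B := mk x τ y with hBd
  have hsplit : B = (B.take (j - 1)) ++ B[j - 1] :: B[j] :: B.drop (j + 1) := by
    have e1 : B = B.take (j - 1) ++ B.drop (j - 1) := (List.take_append_drop _ _).symm
    have e2 : B.drop (j - 1) = B[j - 1] :: B.drop (j - 1 + 1) :=
      List.drop_eq_getElem_cons (by omega)
    have e3 : B.drop (j - 1 + 1) = B[j] :: B.drop (j + 1) := by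
      have : j - 1 + 1 = j := by omega
      rw [this]
      exact List.drop_eq_getElem_cons h2
    rw [e3] at e2
    rw [e2] at e1
    exact e1
  obtain ⟨c', e', h3, h4, h5⟩ := mk_consec (x := x) (τ := τ) (y := y) (hBd.symm.trans hsplit)
  have h6 := hg.deg c' _ e' h3
  have h7 := (mem_trs.1 (hg.tr ((B[j - 1]).2, (B[j]).1)
    ((congrArg (fun l => ((B[j - 1]).2, (B[j]).1) ∈ l) h3).mpr (by simp)))).1
  have h8 : (atS B j).card = d (B[j]).1.1 := by
    rw [← card_hes (d := d)]
    congr 1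
    ext h
    simp [atS, mem_hes, h2]
  rw [h8]
  simp only at h6 h7
  rw [h7] at h6
  have h9 : c'.length + 1 = j := by
    rw [h4, List.length_take]
    omega
  have h10 : e'.length + 1 = B.length - j := by
    rw [h5, List.length_drop]
    omega
  rw [h9, h10] at h6
  exact h6

end Pool.Agent.H86.CM
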