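import Pool.Agent.H86.CM.Law

/-!
# First and second moments of the number of good configurations
-/

open MeasureTheory ProbabilityTheory

namespace Pool.Agent.H86.CM

variable {n : ℕ} {d : Fin n → ℕ} {A : List (HE d × HE d)} {W : Finset (Fin n)}
  {X : Finset (HE d)} {Tg : Finset (Fin n)} {o : Fin n}

/-! ### Measurability -/

theorem sec_meas_rect (B : List (HE d × HE d)) (S : Set (Weights d)) (hS : MeasurableSet S) :
    MeasurableSet {ω : Pairing (HE d) × Weights d | Contains ω.1 B ∧ ω.2 ∈ S} :=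
  (measurable_fst (law_meas_set (HE d) {σ | Contains σ B})).inter (measurable_snd hS)

theorem measurable_okEv (c : Bool) (T : ℝ) (B : List (HE d × HE d)) :
    MeasurableSet (okEv c T B) :=
  sec_meas_rect B _ (measurableSet_le (measurable_cLen c B) measurable_const)

theorem sec_dbl_union (KK : ℕ) (c : Bool) (T : ℝ) (B : List (HE d × HE d)) :
    dblEv A X Tg KK c T B = ⋃ q ∈ dblQ A X Tg KK B,
      {ω : Pairing (HE d) × Weights d | Contains ω.1 (q.1 ++ q.2) ∧
        ω.2 ∈ {w : Weights d | cLen w c (q.1 ++ q.2) ≤ T}} := by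
  ext ω
  simp only [dblEv, Set.mem_iUnion, Set.mem_ofPred_eq, exists_prop]

theorem sec_measurable_dblEv (KK : ℕ) (c : Bool) (T : ℝ) (B : List (HE d × HE d)) :
    MeasurableSet (dblEv A X Tg KK c T B) := by
  rw [sec_dbl_union]
  refine Finset.measurableSet_biUnion _ fun q _ => ?_
  exact sec_meas_rect _ _ (measurableSet_le (measurable_cLen c _) measurable_const)

theorem measurable_sEv (KK : ℕ) (c : Bool) (T : ℝ) (B : List (HE d × HE d)) :
    MeasurableSet (sEv A X Tg KK c T B) := by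
  have h1 : sEv A X Tg KK c T B = (okEv c T B ∩ (dblEv A X Tg KK c T B)ᶜ) ∩
      {ω : Pairing (HE d) × Weights d | Contains ω.1 A ∧ ω.2 ∈ {w : Weights d | ∀ e, 0 ≤ w e}} := by
    ext ω
    simp only [sEv, Set.mem_ofPred_eq, Set.mem_inter_iff, Set.mem_compl_iff]
    tauto
  rw [h1]
  refine ((measurable_okEv c T B).inter (sec_measurable_dblEv KK c T B).compl).inter ?_
  refine sec_meas_rect _ _ ?_
  have h2 : {w : Weights d | ∀ e, 0 ≤ w e} = ⋂ e, {w : Weights d | 0 ≤ w e} := by
    ext w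
    simp
  rw [h2]
  exact MeasurableSet.iInter fun e => measurableSet_le measurable_const (measurable_pi_apply e)

/-! ### Good configurations -/

theorem sec_ends_mk (x : HE d) (τ : List (HE d × HE d)) (y : HE d) :
    ends (mk x τ y) = x :: (ends τ ++ [y]) := by
  induction τ generalizing x with
  | nil => rfl
  | cons p τ ih =>
    have h1 : mk x (p :: τ) y = (x, p.1) :: mk p.2 τ y := rfl
    rw [h1, ends_cons, ends_cons, ih]
    rfl

theorem sec_ends_tr (τ : List (HE d × HE d)) (h : ∀ p ∈ τ, p ∈ trs d)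
    (hn : (τ.map fun p => p.1.1).Nodup) : (ends τ).Nodup := by
  induction τ with
  | nil => simp [ends]
  | cons p τ ih =>
    rw [ends_cons]
    rw [List.map_cons, List.nodup_cons] at hn
    have hp := mem_trs.1 (h p (by simp))
    have key : ∀ z ∈ ends τ, z.1 ≠ p.1.1 := by
      intro z hz hzp
      obtain ⟨q, hq, hzq⟩ := mem_ends.1 hz
      apply hn.1
      rw [List.mem_map]
      refine ⟨q, hq, ?_⟩
      have hq' := mem_trs.1 (h q (by simp [hq]))
      rcases hzq with rfl | rfl
      · exact hzp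
      · rw [hq'.1]; exact hzp
    refine List.nodup_cons.2 ⟨?_, List.nodup_cons.2 ⟨?_, ?_⟩⟩
    · rw [List.mem_cons, not_or]
      exact ⟨hp.2, fun h1 => key _ h1 rfl⟩
    · exact fun h1 => key _ h1 hp.1.symm
    · exact ih (fun q hq => h q (by simp [hq])) hn.2

theorem sec_nodup (hs : Scene d A W X Tg o) {b0 β : ℝ} {KK : ℕ} {B : List (HE d × HE d)}
    (hB : B ∈ goodB d W X Tg o b0 β KK) : (ends (A ++ B)).Nodup := by
  obtain ⟨x, τ, y, rfl, hx, hy, hτ, hg⟩ := mem_goodB.1 hB
  have h1 : ∀ z ∈ ends τ, z.1 ∉ W ∧ z.1 ∉ Tg := by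
    intro z hz
    obtain ⟨q, hq, hzq⟩ := mem_ends.1 hz
    have hq' := mem_trs.1 (hg.tr q hq)
    rcases hzq with rfl | rfl
    · exact ⟨(hg.out q hq).1, (hg.out q hq).2.1⟩
    · rw [← hq'.1]
      exact ⟨(hg.out q hq).1, (hg.out q hq).2.1⟩
  have hyW : y.1 ∉ W := fun h => Finset.disjoint_left.1 hs.disj h hy
  rw [ends_append, sec_ends_mk, List.nodup_append']
  refine ⟨hs.nodup, ?_, ?_⟩
  · rw [List.nodup_cons]
    constructor
    · rw [List.mem_append, not_or, List.mem_singleton]
      exact ⟨fun h => (h1 x h).1 (hs.xW x hx), fun h => hyW (h ▸ hs.xW x hx)⟩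
    · rw [List.nodup_append']
      refine ⟨sec_ends_tr τ hg.tr hg.nodup, by simp, ?_⟩
      intro z hz hz'
      rw [List.mem_singleton] at hz'
      subst hz'
      exact (h1 z hz).2 hy
  · intro z hz hz'
    have hzW := hs.endsW z hz
    rw [List.mem_cons, List.mem_append, List.mem_singleton] at hz'
    rcases hz' with rfl | hz' | rfl
    · exact hs.xA z hx hz
    · exact (h1 z hz').1 hzW
    · exact hyW hzW

theorem sec_nodup' (hs : Scene d A W X Tg o) {b0 β : ℝ} {KK : ℕ} {B : List (HE d × HE d)}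
    (hB : B ∈ goodB d W X Tg o b0 β KK) : (ends B).Nodup := by
  have h := sec_nodup hs hB
  rw [ends_append, List.nodup_append'] at h
  exact h.2.1

theorem sec_length {b0 β : ℝ} {KK : ℕ} {B : List (HE d × HE d)}
    (hB : B ∈ goodB d W X Tg o b0 β KK) : 1 ≤ B.length ∧ B.length ≤ KK := by
  obtain ⟨x, τ, y, rfl, hx, hy, hτ, hg⟩ := mem_goodB.1 hB
  rw [mk_length]
  omega

theorem sec_okEv_real (I : Bool → Measure ℝ) [∀ c, IsProbabilityMeasure (I c)]
    (heven : Even (Fintype.card (HE d))) (c : Bool) (T : ℝ) (B : List (HE d × HE d))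
    (h : (ends (A ++ B)).Nodup) :
    (PA d I A).real (okEv c T B) =
      kap (Fintype.card (HE d)) A.length B.length * cdfPow (I c) B.length T := by
  have h' : (ends B).Nodup := by
    rw [ends_append, List.nodup_append'] at h
    exact h.2.1
  unfold okEv
  rw [PA_rect I heven A B h, wLaw_one I c B h' T]

theorem sec_cdf_nonneg (μ : Measure ℝ) (k : ℕ) (t : ℝ) : 0 ≤ cdfPow μ k t := measureReal_nonneg

theorem sec_card_hesS {k : ℕ} (hdeg : ∀ v ∈ Tg, d v = k) :
    ((hesS d Tg).card : ℝ) = Tg.card * k := by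
  have h1 : hesS d Tg = Tg.biUnion fun v => hes d v := by
    ext h
    simp [mem_hesS, mem_hes]
  rw [h1, Finset.card_biUnion]
  · rw [Finset.sum_congr rfl fun v hv => by rw [card_hes, hdeg v hv]]
    simp
  · intro v _ w _ hvw
    rw [Function.onFun, Finset.disjoint_left]
    intro p hp hp'
    rw [mem_hes] at hp hp'
    exact hvw (hp.symm.trans hp')

/-- Sums over chains of bounded length. -/
theorem sec_sum_chains (S E : Finset (HE d)) (KK : ℕ) (g : ℕ → ℝ) (hg : ∀ m, 0 ≤ g m) :
    ∑ B ∈ (Finset.range KK).biUnion (fun m => chains S E m), g B.length ≤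
      ∑ m ∈ Finset.range KK, (S.card : ℝ) * ((trs d).card : ℝ) ^ m * E.card * g (m + 1) := by
  rw [Finset.sum_biUnion]
  · refine Finset.sum_le_sum fun m _ => ?_
    rw [Finset.sum_congr rfl fun B hB => by rw [length_of_mem_chains hB]]
    rw [Finset.sum_const, nsmul_eq_mul]
    refine mul_le_mul_of_nonneg_right ?_ (hg _)
    exact_mod_cast card_chains_le S E m
  · intro a _ b _ hab
    rw [Function.onFun, Finset.disjoint_left]
    intro B hB hB'
    have h1 := length_of_mem_chains hB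
    have h2 := length_of_mem_chains hB'
    omega

theorem sec_good_sub {b0 β : ℝ} {KK : ℕ} :
    goodB d W X Tg o b0 β KK ⊆ (Finset.range KK).biUnion fun m => chains X (hesS d Tg) m := by
  classical
  exact Finset.filter_subset _ _

theorem sec_sum_good {b0 β : ℝ} (KK : ℕ) (g : ℕ → ℝ) (hg : ∀ m, 0 ≤ g m) {k : ℕ}
    (hdeg : ∀ v ∈ Tg, d v = k) :
    ∑ B ∈ goodB d W X Tg o b0 β KK, g B.length ≤
      ∑ m ∈ Finset.range KK, (X.card : ℝ) * ((trs d).card : ℝ) ^ m * (Tg.card * k) *
        g (m + 1) := by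
  refine (Finset.sum_le_sum_of_subset_of_nonneg sec_good_sub fun B _ _ => hg _).trans ?_
  have h := sec_sum_chains X (hesS d Tg) KK g hg
  rw [sec_card_hesS hdeg] at h
  exact h

open Classical in
theorem sec_sum_good_lower {b0 β : ℝ} (KK : ℕ) (g : ℕ → ℝ) (hg : ∀ m, 0 ≤ g m) {k : ℕ}
    (hdeg : ∀ v ∈ Tg, d v = k) :
    ∑ m ∈ Finset.range KK, (X.card : ℝ) *
        (((listsOf (trs d) m).filter fun τ => GoodT W Tg o b0 β τ).card : ℝ) * (Tg.card * k) *
        g (m + 1) ≤ ∑ B ∈ goodB d W X Tg o b0 β KK, g B.length := by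
  set F : ℕ → Finset (List (HE d × HE d)) := fun m =>
    ((X ×ˢ (listsOf (trs d) m).filter fun τ => GoodT W Tg o b0 β τ) ×ˢ hesS d Tg).image
      fun q => mk q.1.1 q.1.2 q.2 with hF
  have hlen : ∀ m, ∀ B ∈ F m, B.length = m + 1 := by
    intro m B hB
    rw [hF, Finset.mem_image] at hB
    obtain ⟨q, hq, rfl⟩ := hB
    rw [Finset.mem_product, Finset.mem_product, Finset.mem_filter, mem_listsOf] at hq
    rw [mk_length, hq.1.2.1.1]
  have hsub : (Finset.range KK).biUnion F ⊆ goodB d W X Tg o b0 β KK := by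
    intro B hB
    rw [Finset.mem_biUnion] at hB
    obtain ⟨m, hm, hB⟩ := hB
    rw [hF, Finset.mem_image] at hB
    obtain ⟨q, hq, rfl⟩ := hB
    rw [Finset.mem_product, Finset.mem_product, Finset.mem_filter, mem_listsOf, mem_hesS] at hq
    rw [mem_goodB]
    refine ⟨_, _, _, rfl, hq.1.1, hq.2, ?_, hq.1.2.2⟩
    rw [hq.1.2.1.1]
    exact Finset.mem_range.1 hm
  refine le_trans (le_of_eq ?_)
    (Finset.sum_le_sum_of_subset_of_nonneg hsub fun B _ _ => hg _)
  rw [Finset.sum_biUnion]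
  · refine Finset.sum_congr rfl fun m _ => ?_
    rw [Finset.sum_congr rfl fun B hB => by rw [hlen m B hB], Finset.sum_const, nsmul_eq_mul]
    congr 1
    rw [hF, Finset.card_image_of_injOn, Finset.card_product, Finset.card_product,
      ← sec_card_hesS hdeg]
    · push_cast
      ring
    · rintro ⟨⟨x, τ⟩, y⟩ _ ⟨⟨x', τ'⟩, y'⟩ _ h
      obtain ⟨h1, h2, h3⟩ := mk_inj h
      exact Prod.ext (Prod.ext h1 h2) h3
  · intro a _ b _ hab
    rw [Function.onFun, Finset.disjoint_left]
    intro B hB hB'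
    have h1 := hlen _ B hB
    have h2 := hlen _ B hB'
    omega

open Classical in
/-- First moment, lower bound. -/
theorem first_bound (I : Bool → Measure ℝ) [∀ c, IsProbabilityMeasure (I c)]
    (ν β b0 ε : ℝ) (k KK : ℕ) (c : Bool) (T : ℝ) (hν : 1 < ν) (hε : 0 ≤ ε)
    (hs : Scene d A W X Tg o) (hdeg : ∀ v ∈ Tg, d v = k) (hN : Nums ν d A.length (3 * KK) ε)
    (hcount : ∀ m < KK, (ν * (Fintype.card (HE d) : ℝ)) ^ m / 2 ≤
      (((listsOf (trs d) m).filter fun τ => GoodT W Tg o b0 β τ).card : ℝ)) :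
    (X.card : ℝ) * Tg.card * (k / (2 * ν * (Fintype.card (HE d) : ℝ))) *
        ∑ m ∈ Finset.range KK, ν ^ (m + 1) * cdfPow (I c) (m + 1) T ≤
      ∑ B ∈ goodB d W X Tg o b0 β KK, (PA d I A).real (okEv c T B) := by
  set ℓ : ℝ := (Fintype.card (HE d) : ℝ) with hℓ
  have hℓ1 : (1 : ℝ) ≤ ℓ := by
    rw [hℓ]; exact_mod_cast hN.pos
  have hℓ0 : (0 : ℝ) < ℓ := lt_of_lt_of_le one_pos hℓ1
  have hν0 : (0 : ℝ) < ν := lt_trans one_pos hν
  have h1 : ∑ B ∈ goodB d W X Tg o b0 β KK, (1 / ℓ) ^ B.length * cdfPow (I c) B.length T ≤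
      ∑ B ∈ goodB d W X Tg o b0 β KK, (PA d I A).real (okEv c T B) := by
    refine Finset.sum_le_sum fun B hB => ?_
    rw [sec_okEv_real I hN.even c T B (sec_nodup hs hB)]
    refine mul_le_mul_of_nonneg_right ?_ (sec_cdf_nonneg _ _ _)
    have := (sec_length hB).2
    exact hN.kap_low _ (by omega)
  refine le_trans ?_ h1
  refine le_trans ?_ (sec_sum_good_lower KK (fun b => (1 / ℓ) ^ b * cdfPow (I c) b T)
    (fun m => mul_nonneg (by positivity) (sec_cdf_nonneg _ _ _)) hdeg)
  rw [Finset.mul_sum]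
  refine Finset.sum_le_sum fun m hm => ?_
  have h2 := hcount m (Finset.mem_range.1 hm)
  have h3 : (X.card : ℝ) * Tg.card * (k / (2 * ν * ℓ)) * (ν ^ (m + 1) * cdfPow (I c) (m + 1) T) =
      (X.card : ℝ) * ((ν * ℓ) ^ m / 2) * (Tg.card * k) *
        ((1 / ℓ) ^ (m + 1) * cdfPow (I c) (m + 1) T) := by
    rw [mul_pow, one_div, inv_pow, pow_succ, pow_succ]
    field_simp
  rw [h3]
  refine mul_le_mul_of_nonneg_right ?_ (mul_nonneg (by positivity) (sec_cdf_nonneg _ _ _))
  refine mul_le_mul_of_nonneg_right ?_ (by positivity)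
  exact mul_le_mul_of_nonneg_left h2 (by positivity)

/-! ### The double structure -/

theorem sec_deg_le {b0 β : ℝ} (hβ : 1 ≤ β) (hb0 : 1 ≤ b0) {KK : ℕ} {τ : List (HE d × HE d)}
    (hτ : τ.length < KK) (hg : GoodT W Tg o b0 β τ) {p : HE d × HE d} (hp : p ∈ τ) :
    (d p.1.1 : ℝ) ≤ b0 * β ^ KK := by
  obtain ⟨c, e, rfl⟩ := List.append_of_mem hp
  refine (hg.deg c p e rfl).1.trans ?_
  refine mul_le_mul_of_nonneg_left ?_ (by linarith)
  refine pow_le_pow_right₀ hβ ?_
  rw [List.length_append, List.length_cons] at hτ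
  omega

theorem sec_card_attS {b0 β : ℝ} (hβ : 1 ≤ β) (hb0 : 1 ≤ b0) {KK : ℕ} {k : ℕ}
    (hdeg : ∀ v ∈ Tg, d v = k) {B : List (HE d × HE d)}
    (hB : B ∈ goodB d W X Tg o b0 β KK) :
    ((attS X Tg B).card : ℝ) ≤ X.card + Tg.card * k + KK * (b0 * β ^ KK) := by
  classical
  obtain ⟨x, τ, y, rfl, hx, hy, hτ, hg⟩ := mem_goodB.1 hB
  have h1 : attS X Tg (mk x τ y) ⊆
      (X ∪ hesS d Tg) ∪ (τ.map fun p => p.1.1).toFinset.biUnion fun v => hes d v := by
    intro h hh
    simp only [attS, Finset.mem_filter, Finset.mem_univ, true_and] at hh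
    rw [Finset.mem_union, Finset.mem_union]
    rcases hh with hh | hh | hh
    · exact Or.inl (Or.inl hh)
    · exact Or.inl (Or.inr (mem_hesS.2 hh))
    · rw [verts_mk, List.mem_append, List.mem_singleton] at hh
      rcases hh with hh | hh
      · right
        rw [Finset.mem_biUnion]
        exact ⟨h.1, List.mem_toFinset.2 hh, mem_hes.2 rfl⟩
      · left; right
        rw [mem_hesS, hh]
        exact hy
  have h2 : (((τ.map fun p => p.1.1).toFinset.biUnion fun v => hes d v).card : ℝ) ≤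
      KK * (b0 * β ^ KK) := by
    have h3 : (((τ.map fun p => p.1.1).toFinset.biUnion fun v => hes d v).card : ℝ) ≤
        ∑ v ∈ (τ.map fun p => p.1.1).toFinset, ((hes d v).card : ℝ) := by
      exact_mod_cast Finset.card_biUnion_le
    refine h3.trans ?_
    have h4 : ∀ v ∈ (τ.map fun p => p.1.1).toFinset, ((hes d v).card : ℝ) ≤ b0 * β ^ KK := by
      intro v hv
      rw [List.mem_toFinset, List.mem_map] at hv
      obtain ⟨p, hp, rfl⟩ := hv
      rw [card_hes]
      exact sec_deg_le hβ hb0 hτ hg hp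
    refine (Finset.sum_le_card_nsmul _ _ _ h4).trans ?_
    rw [nsmul_eq_mul]
    refine mul_le_mul_of_nonneg_right ?_ (by positivity)
    have h5 : (τ.map fun p => p.1.1).toFinset.card ≤ τ.length := by
      refine (List.toFinset_card_le _).trans ?_
      rw [List.length_map]
    have h6 : (τ.map fun p => p.1.1).toFinset.card ≤ KK := h5.trans hτ.le
    exact_mod_cast h6
  have h7 : ((attS X Tg (mk x τ y)).card : ℝ) ≤ ((X.card + (hesS d Tg).card : ℕ) : ℝ) +
      (((τ.map fun p => p.1.1).toFinset.biUnion fun v => hes d v).card : ℝ) := by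
    have h8 := (Finset.card_le_card h1).trans ((Finset.card_union_le _ _).trans
      (Nat.add_le_add_right (Finset.card_union_le _ _) _))
    exact_mod_cast h8
  rw [Nat.cast_add, sec_card_hesS hdeg] at h7
  linarith

/-- Sums over pairs of attached runs. -/
theorem sec_sum_dblQ (KK : ℕ) (B : List (HE d × HE d)) (h : ℕ → ℕ → ℝ)
    (hh : ∀ a b, 0 ≤ h a b) (U : ℝ) (hU : ((attS X Tg B).card : ℝ) ≤ U) :
    ∑ q ∈ dblQ A X Tg KK B, h q.1.length q.2.length ≤
      ∑ m1 ∈ Finset.range KK, ∑ m2 ∈ Finset.range KK,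
        U ^ 4 * ((trs d).card : ℝ) ^ (m1 + m2) * h (m1 + 1) (m2 + 1) := by
  set S := attS X Tg B with hS
  set Ch := (Finset.range KK).biUnion fun m => chains S S m with hCh
  have hU0 : 0 ≤ U := le_trans (Nat.cast_nonneg _) hU
  have h1 : ∑ q ∈ dblQ A X Tg KK B, h q.1.length q.2.length ≤
      ∑ q1 ∈ Ch, ∑ q2 ∈ Ch, h q1.length q2.length := by
    rw [← Finset.sum_product']
    refine Finset.sum_le_sum_of_subset_of_nonneg ?_ fun q _ _ => hh _ _
    intro q hq
    exact (Finset.mem_filter.1 hq).1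
  refine h1.trans ?_
  have h2 : ∀ q1 ∈ Ch, ∑ q2 ∈ Ch, h q1.length q2.length ≤
      ∑ m2 ∈ Finset.range KK, (S.card : ℝ) * ((trs d).card : ℝ) ^ m2 * S.card *
        h q1.length (m2 + 1) :=
    fun q1 _ => sec_sum_chains S S KK (fun b => h q1.length b) fun b => hh _ _
  refine (Finset.sum_le_sum h2).trans ?_
  have h3 := sec_sum_chains S S KK (fun a => ∑ m2 ∈ Finset.range KK,
    (S.card : ℝ) * ((trs d).card : ℝ) ^ m2 * S.card * h a (m2 + 1))
    (fun a => Finset.sum_nonneg fun m2 _ => mul_nonneg (by positivity) (hh _ _))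
  refine h3.trans ?_
  refine Finset.sum_le_sum fun m1 _ => ?_
  rw [Finset.mul_sum]
  refine Finset.sum_le_sum fun m2 _ => ?_
  have h4 : (S.card : ℝ) * ((trs d).card : ℝ) ^ m1 * S.card *
      ((S.card : ℝ) * ((trs d).card : ℝ) ^ m2 * S.card * h (m1 + 1) (m2 + 1)) =
      (S.card : ℝ) ^ 4 * ((trs d).card : ℝ) ^ (m1 + m2) * h (m1 + 1) (m2 + 1) := by
    rw [pow_add]; ring
  rw [h4]
  refine mul_le_mul_of_nonneg_right ?_ (hh _ _)
  refine mul_le_mul_of_nonneg_right ?_ (by positivity)
  exact pow_le_pow_left₀ (Nat.cast_nonneg _) hU 4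

theorem sec_dbl_one (I : Bool → Measure ℝ) [∀ c, IsProbabilityMeasure (I c)]
    {b0 β ν ε : ℝ} {KK : ℕ} (c : Bool) (T : ℝ)
    (hε : 0 ≤ ε) (hε1 : ε ≤ 1) (hs : Scene d A W X Tg o)
    (hN : Nums ν d A.length (3 * KK) ε)
    {B : List (HE d × HE d)} (hB : B ∈ goodB d W X Tg o b0 β KK) :
    (PA d I A).real (okEv c T B ∩ dblEv A X Tg KK c T B) ≤
      ∑ q ∈ dblQ A X Tg KK B, 2 * (1 / (Fintype.card (HE d) : ℝ)) ^
        (B.length + (q.1.length + q.2.length)) *
        (cdfPow (I c) B.length T * cdfPow (I c) (q.1.length + q.2.length) T) := by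
  have hprob := PA_prob I hN.even A hs.nodup
  have h1 : okEv c T B ∩ dblEv A X Tg KK c T B ⊆ ⋃ q ∈ dblQ A X Tg KK B,
      {ω : Pairing (HE d) × Weights d | Contains ω.1 (B ++ (q.1 ++ q.2)) ∧
        ω.2 ∈ {w : Weights d | cLen w c B ≤ T ∧ cLen w c (q.1 ++ q.2) ≤ T}} := by
    rintro ω ⟨h2, h3⟩
    obtain ⟨q, hq, h4, h5⟩ := h3
    simp only [Set.mem_iUnion]
    exact ⟨q, hq, (contains_append _ _ _).2 ⟨h2.1, h4⟩, h2.2, h5⟩
  refine (measureReal_mono h1 (measure_ne_top _ _)).trans ?_
  refine (measureReal_biUnion_finset_le _ _).trans ?_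
  refine Finset.sum_le_sum fun q hq => ?_
  have hq' := Finset.mem_filter.1 hq
  have hnd : (ends (A ++ (B ++ (q.1 ++ q.2)))).Nodup := by
    have := hq'.2
    simpa [List.append_assoc] using this
  have hnd' : (ends (B ++ (q.1 ++ q.2))).Nodup := by
    rw [ends_append, List.nodup_append'] at hnd
    exact hnd.2.1
  have hlen : ∀ q ∈ (Finset.range KK).biUnion fun m => chains (attS X Tg B) (attS X Tg B) m,
      q.length ≤ KK := by
    intro q hq
    rw [Finset.mem_biUnion] at hq
    obtain ⟨m, hm, hq⟩ := hq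
    rw [length_of_mem_chains hq]
    have := Finset.mem_range.1 hm
    omega
  have hq1 := hlen _ (Finset.mem_product.1 hq'.1).1
  have hq2 := hlen _ (Finset.mem_product.1 hq'.1).2
  have hBl := (sec_length hB).2
  rw [PA_rect I hN.even A _ hnd, wLaw_two I c B _ hnd']
  rw [List.length_append, List.length_append]
  refine mul_le_mul_of_nonneg_right ?_
    (mul_nonneg (sec_cdf_nonneg _ _ _) (sec_cdf_nonneg _ _ _))
  refine (hN.kap_up _ (by omega)).trans ?_
  refine mul_le_mul_of_nonneg_right (by linarith) (by positivity)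

theorem sec_shift_sum (f : ℕ → ℝ) (hf : ∀ n, 0 ≤ f n) (a N : ℕ) :
    ∑ i ∈ Finset.range N, f (a + i) ≤ ∑ i ∈ Finset.range (a + N), f i := by
  rw [Finset.sum_range_add]
  have := Finset.sum_nonneg fun i (_ : i ∈ Finset.range a) => hf i
  linarith

/-- The contribution of the double structure. -/
theorem dbl_bound (I : Bool → Measure ℝ) [∀ c, IsProbabilityMeasure (I c)]
    (ν α β b0 ε CA : ℝ) (k KK : ℕ) (c : Bool) (T : ℝ) (hν : 1 < ν) (hβ : 1 ≤ β) (hb0 : 1 ≤ b0)
    (hε : 0 ≤ ε) (hε1 : ε ≤ 1) (hk : 1 ≤ k)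
    (hs : Scene d A W X Tg o) (hdeg : ∀ v ∈ Tg, d v = k) (hN : Nums ν d A.length (3 * KK) ε)
    (hCA : ∀ (t : ℝ) (N : ℕ), ∑ k ∈ Finset.range N, ν ^ k * cdfPow (I c) k t ≤
      CA * Real.exp (α * t)) :
    ∑ B ∈ goodB d W X Tg o b0 β KK, (PA d I A).real (okEv c T B ∩ dblEv A X Tg KK c T B) ≤
      4 * k / ν ^ 3 * CA ^ 2 * (X.card * Tg.card) *
        (X.card + Tg.card * k + KK * (b0 * β ^ KK)) ^ 4 * KK *
        (Real.exp (α * T) / Fintype.card (HE d)) ^ 2 / Fintype.card (HE d) := by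
  set ℓ : ℝ := (Fintype.card (HE d) : ℝ) with hℓ
  have hℓ1 : (1 : ℝ) ≤ ℓ := by
    rw [hℓ]; exact_mod_cast hN.pos
  have hℓ0 : (0 : ℝ) < ℓ := lt_of_lt_of_le one_pos hℓ1
  have hν0 : (0 : ℝ) < ν := lt_trans one_pos hν
  set D2 : ℝ := ((trs d).card : ℝ) with hD2
  set U : ℝ := X.card + Tg.card * k + KK * (b0 * β ^ KK) with hU
  have hU0 : 0 ≤ U := by positivity
  have hD20 : 0 ≤ D2 := Nat.cast_nonneg _
  set F : ℕ → ℝ := fun b => cdfPow (I c) b T with hF
  have hF0 : ∀ b, 0 ≤ F b := fun b => sec_cdf_nonneg _ _ _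
  set G : ℕ → ℝ := fun b => ∑ m1 ∈ Finset.range KK, ∑ m2 ∈ Finset.range KK,
    U ^ 4 * D2 ^ (m1 + m2) * (2 * (1 / ℓ) ^ (b + ((m1 + 1) + (m2 + 1))) *
      (F b * F ((m1 + 1) + (m2 + 1)))) with hG
  have hG0 : ∀ b, 0 ≤ G b := fun b => Finset.sum_nonneg fun m1 _ => Finset.sum_nonneg fun m2 _ =>
    mul_nonneg (by positivity) (mul_nonneg (by positivity) (mul_nonneg (hF0 _) (hF0 _)))
  have h1 : ∀ B ∈ goodB d W X Tg o b0 β KK,
      (PA d I A).real (okEv c T B ∩ dblEv A X Tg KK c T B) ≤ G B.length := by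
    intro B hB
    refine (sec_dbl_one I c T hε hε1 hs hN hB).trans ?_
    exact sec_sum_dblQ KK B (fun a b => 2 * (1 / ℓ) ^ (B.length + (a + b)) *
      (F B.length * F (a + b)))
      (fun a b => mul_nonneg (by positivity) (mul_nonneg (hF0 _) (hF0 _))) U
      (sec_card_attS hβ hb0 hdeg hB)
  refine (Finset.sum_le_sum h1).trans ?_
  refine (sec_sum_good KK G hG0 hdeg).trans ?_
  set P : ℝ := (X.card : ℝ) * Tg.card with hP
  have hP0 : 0 ≤ P := by positivity
  set Q : ℝ := 4 * k / ν ^ 3 * P * U ^ 4 / ℓ ^ 3 with hQ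
  have hQ0 : 0 ≤ Q := by positivity
  have key : ∀ m ∈ Finset.range KK, (X.card : ℝ) * D2 ^ m * (Tg.card * k) * G (m + 1) ≤
      Q * (ν ^ (m + 1) * F (m + 1)) * ∑ m1 ∈ Finset.range KK, ∑ m2 ∈ Finset.range KK,
        ν ^ ((m1 + 2) + m2) * F ((m1 + 2) + m2) := by
    intro m hm
    have hm' := Finset.mem_range.1 hm
    rw [hG, Finset.mul_sum, Finset.mul_sum]
    refine Finset.sum_le_sum fun m1 hm1 => ?_
    rw [Finset.mul_sum, Finset.mul_sum]
    refine Finset.sum_le_sum fun m2 hm2 => ?_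
    have hm1' := Finset.mem_range.1 hm1
    have hm2' := Finset.mem_range.1 hm2
    have hD : D2 ^ m * D2 ^ (m1 + m2) ≤ 2 * (ν * ℓ) ^ (m + (m1 + m2)) := by
      rw [← pow_add]
      exact hN.tr_up _ (by omega)
    have e1 : (m1 + 1) + (m2 + 1) = (m1 + 2) + m2 := by ring
    rw [e1]
    calc (X.card : ℝ) * D2 ^ m * (Tg.card * k) * (U ^ 4 * D2 ^ (m1 + m2) *
          (2 * (1 / ℓ) ^ (m + 1 + ((m1 + 2) + m2)) * (F (m + 1) * F ((m1 + 2) + m2))))
        = (D2 ^ m * D2 ^ (m1 + m2)) * (2 * P * k * U ^ 4 *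
          (1 / ℓ) ^ (m + 1 + ((m1 + 2) + m2)) * (F (m + 1) * F ((m1 + 2) + m2))) := by
            rw [hP]; ring
      _ ≤ (2 * (ν * ℓ) ^ (m + (m1 + m2))) * (2 * P * k * U ^ 4 *
          (1 / ℓ) ^ (m + 1 + ((m1 + 2) + m2)) * (F (m + 1) * F ((m1 + 2) + m2))) := by
            refine mul_le_mul_of_nonneg_right hD ?_
            exact mul_nonneg (by positivity) (mul_nonneg (hF0 _) (hF0 _))
      _ = Q * (ν ^ (m + 1) * F (m + 1)) * (ν ^ ((m1 + 2) + m2) * F ((m1 + 2) + m2)) := by
            rw [hQ, mul_pow, one_div, inv_pow]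
            have e2 : ℓ ^ (m + 1 + ((m1 + 2) + m2)) = ℓ ^ (m + (m1 + m2)) * ℓ ^ 3 := by
              rw [← pow_add]; congr 1; ring
            have e3 : ν ^ (m + 1) * ν ^ ((m1 + 2) + m2) = ν ^ (m + (m1 + m2)) * ν ^ 3 := by
              rw [← pow_add, ← pow_add]; congr 1; ring
            rw [e2]
            have e4 : Q * (ν ^ (m + 1) * F (m + 1)) * (ν ^ ((m1 + 2) + m2) * F ((m1 + 2) + m2)) =
                Q * (ν ^ (m + (m1 + m2)) * ν ^ 3) * (F (m + 1) * F ((m1 + 2) + m2)) := by
              rw [← e3]; ring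
            rw [← hQ, e4, hQ]
            field_simp
            ring
  refine (Finset.sum_le_sum key).trans ?_
  rw [← Finset.sum_mul, ← Finset.mul_sum]
  have hs1 : ∑ m ∈ Finset.range KK, ν ^ (m + 1) * F (m + 1) ≤ CA * Real.exp (α * T) := by
    have h2 := sec_shift_sum (fun b => ν ^ b * F b) (fun b => mul_nonneg (by positivity) (hF0 b))
      1 KK
    simp only [add_comm 1] at h2
    exact h2.trans (hCA T (KK + 1))
  have hs2 : ∑ m1 ∈ Finset.range KK, ∑ m2 ∈ Finset.range KK,
      ν ^ ((m1 + 2) + m2) * F ((m1 + 2) + m2) ≤ KK * (CA * Real.exp (α * T)) := by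
    have h3 : ∀ m1 ∈ Finset.range KK, ∑ m2 ∈ Finset.range KK,
        ν ^ ((m1 + 2) + m2) * F ((m1 + 2) + m2) ≤ CA * Real.exp (α * T) := by
      intro m1 _
      exact (sec_shift_sum (fun b => ν ^ b * F b) (fun b => mul_nonneg (by positivity) (hF0 b))
        (m1 + 2) KK).trans (hCA T _)
    refine (Finset.sum_le_card_nsmul _ _ _ h3).trans ?_
    rw [Finset.card_range, nsmul_eq_mul]
  have hs1' : 0 ≤ ∑ m ∈ Finset.range KK, ν ^ (m + 1) * F (m + 1) :=
    Finset.sum_nonneg fun m _ => mul_nonneg (by positivity) (hF0 _)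
  have hs2' : 0 ≤ ∑ m1 ∈ Finset.range KK, ∑ m2 ∈ Finset.range KK,
      ν ^ ((m1 + 2) + m2) * F ((m1 + 2) + m2) :=
    Finset.sum_nonneg fun m1 _ => Finset.sum_nonneg fun m2 _ =>
      mul_nonneg (by positivity) (hF0 _)
  calc Q * (∑ m ∈ Finset.range KK, ν ^ (m + 1) * F (m + 1)) *
        ∑ m1 ∈ Finset.range KK, ∑ m2 ∈ Finset.range KK, ν ^ ((m1 + 2) + m2) * F ((m1 + 2) + m2)
      ≤ Q * (CA * Real.exp (α * T)) * (KK * (CA * Real.exp (α * T))) := by
        refine mul_le_mul (mul_le_mul_of_nonneg_left hs1 hQ0) hs2 hs2' ?_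
        exact mul_nonneg hQ0 (hs1'.trans hs1)
    _ = 4 * k / ν ^ 3 * CA ^ 2 * P * U ^ 4 * KK * (Real.exp (α * T) / ℓ) ^ 2 / ℓ := by
        rw [hQ]
        field_simp

/-! ### The second moment -/

theorem sec_cLen_append (w : Weights d) (c : Bool) (B B' : List (HE d × HE d)) :
    cLen w c (B ++ B') = cLen w c B + cLen w c B' := by
  simp [cLen]

theorem sec_cLen_sublist (w : Weights d) (hw : ∀ e, 0 ≤ w e) (c : Bool)
    {B B' : List (HE d × HE d)} (h : B.Sublist B') : cLen w c B ≤ cLen w c B' := by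
  unfold cLen
  refine (h.map _).sum_le_sum ?_
  intro a ha
  rw [List.mem_map] at ha
  obtain ⟨p, _, rfl⟩ := ha
  exact hw _

theorem sec_ends_perm {H : Type} {B B' : List (H × H)} (h : B.Perm B') :
    (ends B).Perm (ends B') := h.flatMap_right _

/-- The overlap integral. -/
noncomputable def sec_J (I : Bool → Measure ℝ) (c : Bool) (T : ℝ) (j l i m : ℕ) : ℝ :=
  ∫ x, cdfPow (I c) i (T - x) * cdfPow (I c) m (T - x) ∂(convPow (I c) (j + l))

theorem sec_J_nonneg (I : Bool → Measure ℝ) (c : Bool) (T : ℝ) (j l i m : ℕ) :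
    0 ≤ sec_J I c T j l i m :=
  integral_nonneg fun x => mul_nonneg (sec_cdf_nonneg _ _ _) (sec_cdf_nonneg _ _ _)

/-- The half-edges where a detour can start. -/
def sec_start (X : Finset (HE d)) (B : List (HE d × HE d)) (j : ℕ) : Finset (HE d) :=
  if j = 0 then X else atS B j

/-- The half-edges where a detour can end. -/
def sec_end (Tg : Finset (Fin n)) (B : List (HE d × HE d)) (l : ℕ) : Finset (HE d) :=
  if l = 0 then hesS d Tg else atS B (B.length - l)

theorem sec_pair (I : Bool → Measure ℝ) [∀ c, IsProbabilityMeasure (I c)]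
    {ν b0 β ε : ℝ} {KK : ℕ} (c : Bool) (T : ℝ)
    (hε : 0 ≤ ε) (hε1 : ε ≤ 1) (hs : Scene d A W X Tg o)
    (hN : Nums ν d A.length (3 * KK) ε)
    {B B' : List (HE d × HE d)} (hB : B ∈ goodB d W X Tg o b0 β KK)
    (hB' : B' ∈ goodB d W X Tg o b0 β KK) (hne : B ≠ B')
    (h0 : (PA d I A).real (sEv A X Tg KK c T B ∩ sEv A X Tg KK c T B') ≠ 0) :
    ((PA d I A).real (sEv A X Tg KK c T B ∩ sEv A X Tg KK c T B') ≤
      (1 + ε) * ((PA d I A).real (okEv c T B) * (PA d I A).real (okEv c T B'))) ∨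
    ∃ j l i m : ℕ, j ≤ KK ∧ l ≤ KK ∧ i ≤ KK ∧ m ≤ KK ∧ 1 ≤ j + l ∧ 1 ≤ i ∧ 1 ≤ m ∧
      B.length = j + i + l ∧ ∃ R ∈ chains (sec_start X B j) (sec_end Tg B l) (m - 1),
        B' = B.take j ++ R ++ B.drop (j + i) ∧
        (PA d I A).real (sEv A X Tg KK c T B ∩ sEv A X Tg KK c T B') ≤
          2 * (1 / (Fintype.card (HE d) : ℝ)) ^ (j + l + i + m) * sec_J I c T j l i m := by
  have hprob := PA_prob I hN.even A hs.nodup
  obtain ⟨ω, hω⟩ : (sEv A X Tg KK c T B ∩ sEv A X Tg KK c T B').Nonempty := by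
    rw [Set.nonempty_iff_ne_empty]
    intro h
    apply h0
    rw [h]
    simp
  obtain ⟨⟨hok, hdbl, hA, hw⟩, ⟨hok', hdbl', _, _⟩⟩ := hω
  rcases pair_structure hs hA hB hB' hok.1 hok'.1 hne with
    ⟨c', mid, e, R, h1, h2, hmid, hR, hnd, hch⟩ | ⟨q, hq, hsub⟩
  · have hlB := sec_length hB
    have hlB' := sec_length hB'
    have hl1 : B.length = c'.length + mid.length + e.length := by
      rw [h1, List.length_append, List.length_append]
    have hl2 : B'.length = c'.length + R.length + e.length := by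
      rw [h2, List.length_append, List.length_append]
    have hmid1 : 1 ≤ mid.length := List.length_pos_iff.2 hmid
    have hR1 : 1 ≤ R.length := List.length_pos_iff.2 hR
    have hincl : sEv A X Tg KK c T B ∩ sEv A X Tg KK c T B' ⊆
        {ω : Pairing (HE d) × Weights d | Contains ω.1 (B ++ R) ∧
          ω.2 ∈ {w : Weights d | cLen w c (c' ++ e) + cLen w c mid ≤ T ∧
            cLen w c (c' ++ e) + cLen w c R ≤ T}} := by
      rintro ω ⟨⟨hok, _, _, _⟩, ⟨hok', _, _, _⟩⟩
      have h3 := hok.1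
      have h3' := hok'.1
      have h4 : cLen ω.2 c B ≤ T := hok.2
      have h4' : cLen ω.2 c B' ≤ T := hok'.2
      have h5 : Contains ω.1 R := by
        rw [h2, contains_append, contains_append] at h3'
        exact h3'.1.2
      refine ⟨(contains_append _ _ _).2 ⟨h3, h5⟩, ?_, ?_⟩
      · rw [h1] at h4
        rw [sec_cLen_append, sec_cLen_append] at h4
        rw [sec_cLen_append]
        linarith
      · rw [h2] at h4'
        rw [sec_cLen_append, sec_cLen_append] at h4'
        rw [sec_cLen_append]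
        linarith
    have hnd1 : (ends (A ++ (B ++ R))).Nodup := by rwa [← List.append_assoc]
    have hnd2 : (ends ((c' ++ e) ++ mid ++ R)).Nodup := by
      rw [ends_append, List.nodup_append'] at hnd1
      refine (sec_ends_perm ?_).nodup_iff.1 hnd1.2.1
      rw [h1]
      refine List.Perm.append_right R ?_
      rw [List.append_assoc, List.append_assoc]
      exact List.Perm.append_left c' List.perm_append_comm
    have hval : (PA d I A).real (sEv A X Tg KK c T B ∩ sEv A X Tg KK c T B') ≤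
        kap (Fintype.card (HE d)) A.length (B.length + R.length) *
          sec_J I c T c'.length e.length mid.length R.length := by
      refine (measureReal_mono hincl (measure_ne_top _ _)).trans (le_of_eq ?_)
      rw [PA_rect I hN.even A _ hnd1, wLaw_tight I c _ _ _ hnd2, List.length_append,
        List.length_append]
      rfl
    by_cases hjl : c'.length + e.length = 0
    · left
      refine hval.trans ?_
      have hc0 : c' = [] := List.length_eq_zero_iff.1 (by omega)
      have he0 : e = [] := List.length_eq_zero_iff.1 (by omega)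
      subst hc0 he0
      simp only [List.nil_append, List.append_nil] at h1 h2
      subst h1 h2
      rw [sec_okEv_real I hN.even c T B (sec_nodup hs hB),
        sec_okEv_real I hN.even c T B' (sec_nodup hs hB')]
      have hJ : sec_J I c T ([] : List (HE d × HE d)).length ([] : List (HE d × HE d)).length
          B.length B'.length = cdfPow (I c) B.length T * cdfPow (I c) B'.length T := by
        unfold sec_J
        simp only [List.length_nil, add_zero]
        rw [show convPow (I c) 0 = Measure.dirac 0 from rfl, integral_dirac, sub_zero]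
      rw [hJ]
      have h5 := hN.kap_up (B.length + B'.length) (by omega)
      have h6 := hN.kap_low B.length (by omega)
      have h7 := hN.kap_low B'.length (by omega)
      have h8 : (0 : ℝ) ≤ (1 / (Fintype.card (HE d) : ℝ)) ^ B.length := by positivity
      have h9 : (0 : ℝ) ≤ (1 / (Fintype.card (HE d) : ℝ)) ^ B'.length := by positivity
      have h10 : kap (Fintype.card (HE d)) A.length (B.length + B'.length) ≤
          (1 + ε) * (kap (Fintype.card (HE d)) A.length B.length *
            kap (Fintype.card (HE d)) A.length B'.length) := by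
        refine h5.trans (mul_le_mul_of_nonneg_left ?_ (by linarith))
        rw [pow_add]
        exact mul_le_mul h6 h7 h9 (h8.trans h6)
      have h11 : 0 ≤ cdfPow (I c) B.length T * cdfPow (I c) B'.length T :=
        mul_nonneg (sec_cdf_nonneg _ _ _) (sec_cdf_nonneg _ _ _)
      refine (mul_le_mul_of_nonneg_right h10 h11).trans (le_of_eq ?_)
      ring
    · right
      refine ⟨c'.length, e.length, mid.length, R.length, by omega, by omega, by omega, by omega,
        by omega, hmid1, hR1, by omega, R, hch, ?_, ?_⟩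
      · rw [h2]
        congr 1
        · congr 1
          rw [h1, List.append_assoc, List.take_left']
          rfl
        · rw [h1, List.drop_left']
          rw [List.length_append]
      · refine hval.trans ?_
        refine mul_le_mul_of_nonneg_right ?_ (sec_J_nonneg _ _ _ _ _ _ _)
        refine (hN.kap_up _ (by omega)).trans ?_
        rw [show B.length + R.length = c'.length + e.length + mid.length + R.length by omega]
        exact mul_le_mul_of_nonneg_right (by linarith) (by positivity)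
  · exfalso
    apply hdbl
    refine ⟨q, hq, ?_, ?_⟩
    · intro p hp
      exact hok'.1 p (hsub.subset hp)
    · exact (sec_cLen_sublist _ hw c hsub).trans hok'.2

theorem sec_card_start {b0 β : ℝ} (hβ : 1 ≤ β) (hb0 : 1 ≤ b0) {KK : ℕ} {k : ℕ} (hk : 1 ≤ k)
    (hdeg : ∀ v ∈ Tg, d v = k) {B : List (HE d × HE d)}
    (hB : B ∈ goodB d W X Tg o b0 β KK) {j l i : ℕ} (hjl : 1 ≤ j + l) (hi : 1 ≤ i)
    (hlen : B.length = j + i + l) :
    ((sec_start X B j).card : ℝ) * ((sec_end Tg B l).card : ℝ) ≤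
      k * (X.card + Tg.card + 1) * (b0 ^ 2 * β ^ (j + l)) := by
  have hk' : (1 : ℝ) ≤ k := by exact_mod_cast hk
  have hX : (0 : ℝ) ≤ X.card := Nat.cast_nonneg _
  have hT : (0 : ℝ) ≤ Tg.card := Nat.cast_nonneg _
  have hb2 : b0 ≤ b0 ^ 2 := by nlinarith
  have hb1 : (1 : ℝ) ≤ b0 ^ 2 := by nlinarith
  have hbase : (1 : ℝ) ≤ k * (X.card + Tg.card + 1) := by nlinarith
  by_cases hj : j = 0
  · subst hj
    have hl : l ≠ 0 := by omega
    have h1 : sec_start X B 0 = X := if_pos rfl
    have h2 : sec_end Tg B l = atS B (B.length - l) := if_neg hl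
    rw [h1, h2]
    have h3 := (card_atS hB (j := B.length - l) (by omega) (by omega)).2
    rw [show B.length - (B.length - l) = l by omega] at h3
    rw [zero_add]
    calc (X.card : ℝ) * ((atS B (B.length - l)).card : ℝ) ≤ X.card * (b0 * β ^ l) :=
          mul_le_mul_of_nonneg_left h3 hX
      _ ≤ (k * (X.card + Tg.card + 1)) * (b0 ^ 2 * β ^ l) := by
          refine mul_le_mul ?_ ?_ (by positivity) (by positivity)
          · nlinarith
          · exact mul_le_mul_of_nonneg_right hb2 (by positivity)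
  · have h1 : sec_start X B j = atS B j := if_neg hj
    have h3 := (card_atS hB (j := j) (by omega) (by omega)).1
    by_cases hl : l = 0
    · subst hl
      have h2 : sec_end Tg B 0 = hesS d Tg := if_pos rfl
      rw [h1, h2, sec_card_hesS hdeg, add_zero]
      calc ((atS B j).card : ℝ) * (Tg.card * k) ≤ (b0 * β ^ j) * (Tg.card * k) :=
            mul_le_mul_of_nonneg_right h3 (by positivity)
        _ = (k * Tg.card) * (b0 * β ^ j) := by ring
        _ ≤ (k * (X.card + Tg.card + 1)) * (b0 ^ 2 * β ^ j) := by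
            refine mul_le_mul ?_ ?_ (by positivity) (by positivity)
            · nlinarith
            · exact mul_le_mul_of_nonneg_right hb2 (by positivity)
    · have h2 : sec_end Tg B l = atS B (B.length - l) := if_neg hl
      have h4 := (card_atS hB (j := B.length - l) (by omega) (by omega)).2
      rw [show B.length - (B.length - l) = l by omega] at h4
      rw [h1, h2]
      calc ((atS B j).card : ℝ) * ((atS B (B.length - l)).card : ℝ) ≤
            (b0 * β ^ j) * (b0 * β ^ l) :=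
            mul_le_mul h3 h4 (Nat.cast_nonneg _) (by positivity)
        _ = 1 * (b0 ^ 2 * β ^ (j + l)) := by rw [pow_add]; ring
        _ ≤ (k * (X.card + Tg.card + 1)) * (b0 ^ 2 * β ^ (j + l)) :=
            mul_le_mul_of_nonneg_right hbase (by positivity)

theorem sec_single4 (f : ℕ → ℕ → ℕ → ℕ → ℝ) (hf : ∀ a b c e, 0 ≤ f a b c e) {N a b c e : ℕ}
    (ha : a < N) (hb : b < N) (hc : c < N) (he : e < N) :
    f a b c e ≤ ∑ j ∈ Finset.range N, ∑ l ∈ Finset.range N, ∑ i ∈ Finset.range N,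
      ∑ m ∈ Finset.range N, f j l i m := by
  have h1 : f a b c e ≤ ∑ m ∈ Finset.range N, f a b c m :=
    Finset.single_le_sum (f := fun m => f a b c m) (fun m _ => hf _ _ _ _)
      (Finset.mem_range.2 he)
  have h2 : ∑ m ∈ Finset.range N, f a b c m ≤
      ∑ i ∈ Finset.range N, ∑ m ∈ Finset.range N, f a b i m :=
    Finset.single_le_sum (f := fun i => ∑ m ∈ Finset.range N, f a b i m)
      (fun i _ => Finset.sum_nonneg fun m _ => hf _ _ _ _) (Finset.mem_range.2 hc)
  have h3 : ∑ i ∈ Finset.range N, ∑ m ∈ Finset.range N, f a b i m ≤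
      ∑ l ∈ Finset.range N, ∑ i ∈ Finset.range N, ∑ m ∈ Finset.range N, f a l i m :=
    Finset.single_le_sum (f := fun l => ∑ i ∈ Finset.range N, ∑ m ∈ Finset.range N, f a l i m)
      (fun l _ => Finset.sum_nonneg fun i _ => Finset.sum_nonneg fun m _ => hf _ _ _ _)
      (Finset.mem_range.2 hb)
  have h4 : ∑ l ∈ Finset.range N, ∑ i ∈ Finset.range N, ∑ m ∈ Finset.range N, f a l i m ≤
      ∑ j ∈ Finset.range N, ∑ l ∈ Finset.range N, ∑ i ∈ Finset.range N,
        ∑ m ∈ Finset.range N, f j l i m :=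
    Finset.single_le_sum (f := fun j => ∑ l ∈ Finset.range N, ∑ i ∈ Finset.range N,
        ∑ m ∈ Finset.range N, f j l i m)
      (fun j _ => Finset.sum_nonneg fun l _ => Finset.sum_nonneg fun i _ =>
        Finset.sum_nonneg fun m _ => hf _ _ _ _)
      (Finset.mem_range.2 ha)
  exact h1.trans (h2.trans (h3.trans h4))

theorem sec_alg {ν ℓ : ℝ} (hν : 0 < ν) (hℓ : 0 < ℓ) (M : ℕ) :
    (ν * ℓ) ^ M * (1 / ℓ) ^ (M + 2) = ν ^ (M + 2) / (ν ^ 2 * ℓ ^ 2) := by
  rw [mul_pow, one_div, inv_pow, pow_add ℓ, pow_add ν]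
  field_simp

theorem sec_alg2 (P x k b0 b ν ℓ J s : ℝ) :
    4 * P * k * (k * x) * b0 ^ 2 * b * J * (s / (ν ^ 2 * ℓ ^ 2)) =
      4 * k ^ 2 * b0 ^ 2 / ν ^ 2 * (P * x) / ℓ ^ 2 * (s * b * J) := by
  ring

open Classical in
/-- The second moment. -/
theorem second_bound (I : Bool → Measure ℝ) [∀ c, IsProbabilityMeasure (I c)]
    (ν α β b0 ε Ct : ℝ) (k KK : ℕ) (c : Bool) (T : ℝ) (hν : 1 < ν) (hβ : 1 ≤ β) (hb0 : 1 ≤ b0)
    (hε : 0 ≤ ε) (hε1 : ε ≤ 1) (hk : 1 ≤ k)
    (hs : Scene d A W X Tg o) (hdeg : ∀ v ∈ Tg, d v = k) (hN : Nums ν d A.length (3 * KK) ε)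
    (hCt : ∀ (T : ℝ) (N : ℕ),
      ∑ j ∈ Finset.range N, ∑ l ∈ Finset.range N, ∑ i ∈ Finset.range N, ∑ m ∈ Finset.range N,
        ν ^ (j + l + i + m) * β ^ (j + l) *
          ∫ x, cdfPow (I c) i (T - x) * cdfPow (I c) m (T - x) ∂(convPow (I c) (j + l)) ≤
      Ct * Real.exp (2 * α * T)) (M1 : ℝ)
    (hM1 : ∑ B ∈ goodB d W X Tg o b0 β KK, (PA d I A).real (okEv c T B) = M1) :
    ∑ B ∈ goodB d W X Tg o b0 β KK, ∑ B' ∈ goodB d W X Tg o b0 β KK,
        (PA d I A).real (sEv A X Tg KK c T B ∩ sEv A X Tg KK c T B') ≤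
      (1 + ε) * M1 ^ 2 + M1 + 4 * k ^ 2 * b0 ^ 2 / ν ^ 2 * Ct *
        (X.card * Tg.card * (X.card + Tg.card + 1)) *
        (Real.exp (α * T) / Fintype.card (HE d)) ^ 2 := by
  have hprob := PA_prob I hN.even A hs.nodup
  set ℓ : ℝ := (Fintype.card (HE d) : ℝ) with hℓ
  have hℓ1 : (1 : ℝ) ≤ ℓ := by
    rw [hℓ]; exact_mod_cast hN.pos
  have hℓ0 : (0 : ℝ) < ℓ := lt_of_lt_of_le one_pos hℓ1
  have hν0 : (0 : ℝ) < ν := lt_trans one_pos hν
  set D2 : ℝ := ((trs d).card : ℝ) with hD2
  have hD20 : 0 ≤ D2 := Nat.cast_nonneg _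
  set G := goodB d W X Tg o b0 β KK with hG
  set p : List (HE d × HE d) → ℝ := fun B => (PA d I A).real (okEv c T B) with hp
  have hp0 : ∀ B, 0 ≤ p B := fun B => measureReal_nonneg
  have hJ0 : ∀ j l i m, 0 ≤ sec_J I c T j l i m := fun j l i m => sec_J_nonneg _ _ _ _ _ _ _
  set w : ℕ → ℕ → ℕ → ℕ → ℝ := fun j l i m =>
    2 * (1 / ℓ) ^ (j + l + i + m) * sec_J I c T j l i m with hw
  have hw0 : ∀ j l i m, 0 ≤ w j l i m := fun j l i m => mul_nonneg (by positivity) (hJ0 _ _ _ _)
  set cond : ℕ → ℕ → ℕ → ℕ → ℕ → Prop := fun j l i m b =>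
    1 ≤ j + l ∧ 1 ≤ i ∧ 1 ≤ m ∧ b = j + i + l with hcond
  set E : ℕ → ℕ → ℕ → ℕ → List (HE d × HE d) → List (HE d × HE d) → ℝ := fun j l i m B B' =>
    if cond j l i m B.length then
      ∑ R ∈ chains (sec_start X B j) (sec_end Tg B l) (m - 1),
        (if B' = B.take j ++ R ++ B.drop (j + i) then w j l i m else 0) else 0 with hE
  have hE0 : ∀ j l i m B B', 0 ≤ E j l i m B B' := by
    intro j l i m B B'
    by_cases hc : cond j l i m B.length
    · have h3 : E j l i m B B' = ∑ R ∈ chains (sec_start X B j) (sec_end Tg B l) (m - 1),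
          (if B' = B.take j ++ R ++ B.drop (j + i) then w j l i m else 0) := if_pos hc
      rw [h3]
      refine Finset.sum_nonneg fun R _ => ?_
      split_ifs
      · exact hw0 _ _ _ _
      · exact le_refl _
    · have h3 : E j l i m B B' = 0 := if_neg hc
      rw [h3]
  -- pairs
  have step1 : ∀ B ∈ G, ∀ B' ∈ G,
      (PA d I A).real (sEv A X Tg KK c T B ∩ sEv A X Tg KK c T B') ≤
        (1 + ε) * (p B * p B') + (if B' = B then p B else 0) +
          ∑ j ∈ Finset.range (KK + 1), ∑ l ∈ Finset.range (KK + 1),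
            ∑ i ∈ Finset.range (KK + 1), ∑ m ∈ Finset.range (KK + 1), E j l i m B B' := by
    intro B hB B' hB'
    have hnn : 0 ≤ ∑ j ∈ Finset.range (KK + 1), ∑ l ∈ Finset.range (KK + 1),
        ∑ i ∈ Finset.range (KK + 1), ∑ m ∈ Finset.range (KK + 1), E j l i m B B' :=
      Finset.sum_nonneg fun j _ => Finset.sum_nonneg fun l _ => Finset.sum_nonneg fun i _ =>
        Finset.sum_nonneg fun m _ => hE0 _ _ _ _ _ _
    have hnn1 : 0 ≤ (1 + ε) * (p B * p B') := mul_nonneg (by linarith) (mul_nonneg (hp0 _) (hp0 _))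
    have hnn2 : 0 ≤ (if B' = B then p B else 0) := by
      split_ifs
      · exact hp0 _
      · exact le_refl _
    by_cases hBB : B' = B
    · rw [if_pos hBB]
      have h1 : (PA d I A).real (sEv A X Tg KK c T B ∩ sEv A X Tg KK c T B') ≤ p B := by
        refine measureReal_mono ?_ (measure_ne_top _ _)
        rintro ω ⟨h1, _⟩
        exact h1.1
      linarith
    · by_cases h0 : (PA d I A).real (sEv A X Tg KK c T B ∩ sEv A X Tg KK c T B') = 0
      · rw [h0]; linarith
      · rcases sec_pair I c T hε hε1 hs hN hB hB' (fun h => hBB h.symm) h0 with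
          h1 | ⟨j, l, i, m, hj, hl, hi, hm, hjl, hi1, hm1, hlen, R, hR, hBR, h1⟩
        · have h2 : (PA d I A).real (sEv A X Tg KK c T B ∩ sEv A X Tg KK c T B') ≤
              (1 + ε) * (p B * p B') := h1
          linarith
        · have h2 : w j l i m ≤ E j l i m B B' := by
            have hc : cond j l i m B.length := ⟨hjl, hi1, hm1, hlen⟩
            have h3 : E j l i m B B' = ∑ R ∈ chains (sec_start X B j) (sec_end Tg B l) (m - 1),
                (if B' = B.take j ++ R ++ B.drop (j + i) then w j l i m else 0) := if_pos hc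
            rw [h3]
            have h4 := Finset.single_le_sum (f := fun R =>
              (if B' = B.take j ++ R ++ B.drop (j + i) then w j l i m else 0))
              (fun R _ => by
                split_ifs
                · exact hw0 _ _ _ _
                · exact le_refl _) hR
            rw [if_pos hBR] at h4
            exact h4
          have h3 := sec_single4 (fun j l i m => E j l i m B B')
            (fun j l i m => hE0 _ _ _ _ _ _) (N := KK + 1) (a := j) (b := l) (c := i) (e := m)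
            (by omega) (by omega) (by omega) (by omega)
          have h4 : (PA d I A).real (sEv A X Tg KK c T B ∩ sEv A X Tg KK c T B') ≤
              w j l i m := h1
          linarith
  set P : ℝ := (X.card : ℝ) * Tg.card with hP
  have hP0 : 0 ≤ P := by positivity
  set Y : ℝ := k * ((X.card : ℝ) + Tg.card + 1) with hY
  have hY0 : 0 ≤ Y := by positivity
  set V : ℕ → ℕ → ℕ → ℕ → ℝ := fun j l i m =>
    Y * (b0 ^ 2 * β ^ (j + l)) * D2 ^ (m - 1) * w j l i m with hV
  have hV0 : ∀ j l i m, 0 ≤ V j l i m := fun j l i m => mul_nonneg (by positivity) (hw0 _ _ _ _)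
  have step2 : ∀ B ∈ G, ∀ j l i m, ∑ B' ∈ G, E j l i m B B' ≤
      if cond j l i m B.length then V j l i m else 0 := by
    intro B hB j l i m
    by_cases hc : cond j l i m B.length
    · rw [if_pos hc]
      have h3 : ∀ B', E j l i m B B' =
          ∑ R ∈ chains (sec_start X B j) (sec_end Tg B l) (m - 1),
            (if B' = B.take j ++ R ++ B.drop (j + i) then w j l i m else 0) :=
        fun B' => if_pos hc
      rw [Finset.sum_congr rfl fun B' _ => h3 B', Finset.sum_comm]
      have h4 : ∀ R ∈ chains (sec_start X B j) (sec_end Tg B l) (m - 1),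
          ∑ B' ∈ G, (if B' = B.take j ++ R ++ B.drop (j + i) then w j l i m else 0) ≤
            w j l i m := by
        intro R _
        rw [Finset.sum_ite_eq']
        split_ifs
        · exact le_refl _
        · exact hw0 _ _ _ _
      refine (Finset.sum_le_sum h4).trans ?_
      rw [Finset.sum_const, nsmul_eq_mul, hV]
      refine mul_le_mul_of_nonneg_right ?_ (hw0 _ _ _ _)
      have h5 : ((chains (sec_start X B j) (sec_end Tg B l) (m - 1)).card : ℝ) ≤
          (sec_start X B j).card * D2 ^ (m - 1) * (sec_end Tg B l).card := by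
        have h7 := card_chains_le (sec_start X B j) (sec_end Tg B l) (m - 1)
        rw [hD2]
        exact_mod_cast h7
      refine h5.trans ?_
      have h6 := sec_card_start hβ hb0 hk hdeg hB hc.1 hc.2.1 hc.2.2.2
      calc ((sec_start X B j).card : ℝ) * D2 ^ (m - 1) * (sec_end Tg B l).card =
            ((sec_start X B j).card * (sec_end Tg B l).card) * D2 ^ (m - 1) := by ring
        _ ≤ Y * (b0 ^ 2 * β ^ (j + l)) * D2 ^ (m - 1) :=
            mul_le_mul_of_nonneg_right h6 (by positivity)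
    · rw [if_neg hc]
      refine le_of_eq (Finset.sum_eq_zero fun B' _ => if_neg hc)
  set Z : ℝ := 4 * k ^ 2 * b0 ^ 2 / ν ^ 2 * (P * ((X.card : ℝ) + Tg.card + 1)) / ℓ ^ 2 with hZ
  have hZ0 : 0 ≤ Z := by positivity
  set Bd : ℕ → ℕ → ℕ → ℕ → ℝ := fun j l i m =>
    Z * (ν ^ (j + l + i + m) * β ^ (j + l) * sec_J I c T j l i m) with hBd
  have hBd0 : ∀ j l i m, 0 ≤ Bd j l i m := fun j l i m =>
    mul_nonneg hZ0 (mul_nonneg (by positivity) (hJ0 _ _ _ _))
  have step3 : ∀ j l i m, m ≤ KK →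
      ∑ B ∈ G, (if cond j l i m B.length then V j l i m else 0) ≤ Bd j l i m := by
    intro j l i m hm
    refine (sec_sum_good KK (fun b => if cond j l i m b then V j l i m else 0)
      (fun b => by
        split_ifs
        · exact hV0 _ _ _ _
        · exact le_refl _) hdeg).trans ?_
    have h1 : ∀ m' ∈ Finset.range KK, (X.card : ℝ) * D2 ^ m' * (Tg.card * k) *
        (if cond j l i m (m' + 1) then V j l i m else 0) ≤
          if m' = j + i + l - 1 then Bd j l i m else 0 := by
      intro m' hm'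
      have hm'' := Finset.mem_range.1 hm'
      by_cases hc : cond j l i m (m' + 1)
      · have hc' := hc
        obtain ⟨h2, h3, h4, h5⟩ := hc'
        rw [if_pos hc, if_pos (by omega)]
        have hD : D2 ^ m' * D2 ^ (m - 1) ≤ 2 * (ν * ℓ) ^ (m' + (m - 1)) := by
          rw [← pow_add]
          exact hN.tr_up _ (by omega)
        have e1 : j + l + i + m = m' + (m - 1) + 2 := by omega
        calc (X.card : ℝ) * D2 ^ m' * (Tg.card * k) * V j l i m =
              (D2 ^ m' * D2 ^ (m - 1)) * (2 * P * k * Y * b0 ^ 2 * β ^ (j + l) *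
                (1 / ℓ) ^ (j + l + i + m) * sec_J I c T j l i m) := by
              rw [hV, hw, hP]; ring
          _ ≤ (2 * (ν * ℓ) ^ (m' + (m - 1))) * (2 * P * k * Y * b0 ^ 2 * β ^ (j + l) *
                (1 / ℓ) ^ (j + l + i + m) * sec_J I c T j l i m) :=
              mul_le_mul_of_nonneg_right hD (mul_nonneg (by positivity) (hJ0 _ _ _ _))
          _ = 4 * P * k * (k * ((X.card : ℝ) + Tg.card + 1)) * b0 ^ 2 * β ^ (j + l) *
                sec_J I c T j l i m * ((ν * ℓ) ^ (m' + (m - 1)) *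
                  (1 / ℓ) ^ (m' + (m - 1) + 2)) := by
              rw [hY, e1]; ring
          _ = Bd j l i m := by
              rw [sec_alg hν0 hℓ0, sec_alg2, ← e1]
      · rw [if_neg hc, mul_zero]
        split_ifs
        · exact hBd0 _ _ _ _
        · exact le_refl _
    refine (Finset.sum_le_sum h1).trans ?_
    rw [Finset.sum_ite_eq']
    split_ifs
    · exact le_refl _
    · exact hBd0 _ _ _ _
  -- conclusion
  have hfinal : ∑ j ∈ Finset.range (KK + 1), ∑ l ∈ Finset.range (KK + 1),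
      ∑ i ∈ Finset.range (KK + 1), ∑ m ∈ Finset.range (KK + 1), Bd j l i m ≤
        Z * (Ct * Real.exp (2 * α * T)) := by
    have h1 := hCt T (KK + 1)
    refine le_trans (le_of_eq ?_) (mul_le_mul_of_nonneg_left h1 hZ0)
    simp only [Finset.mul_sum]
    rfl
  calc ∑ B ∈ G, ∑ B' ∈ G, (PA d I A).real (sEv A X Tg KK c T B ∩ sEv A X Tg KK c T B')
      ≤ ∑ B ∈ G, ∑ B' ∈ G, ((1 + ε) * (p B * p B') + (if B' = B then p B else 0) +
          ∑ j ∈ Finset.range (KK + 1), ∑ l ∈ Finset.range (KK + 1),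
            ∑ i ∈ Finset.range (KK + 1), ∑ m ∈ Finset.range (KK + 1), E j l i m B B') :=
        Finset.sum_le_sum fun B hB => Finset.sum_le_sum fun B' hB' => step1 B hB B' hB'
    _ = (1 + ε) * M1 ^ 2 + M1 + ∑ j ∈ Finset.range (KK + 1), ∑ l ∈ Finset.range (KK + 1),
            ∑ i ∈ Finset.range (KK + 1), ∑ m ∈ Finset.range (KK + 1),
              ∑ B ∈ G, ∑ B' ∈ G, E j l i m B B' := by
        simp only [Finset.sum_add_distrib]
        congr 1
        · congr 1
          · simp only [← Finset.mul_sum]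
            rw [← Finset.sum_mul, hM1, sq]
          · rw [← hM1]
            refine Finset.sum_congr rfl fun B hB => ?_
            rw [Finset.sum_ite_eq', if_pos hB]
        · have h1 : ∀ B ∈ G, ∑ B' ∈ G, ∑ j ∈ Finset.range (KK + 1), ∑ l ∈ Finset.range (KK + 1),
              ∑ i ∈ Finset.range (KK + 1), ∑ m ∈ Finset.range (KK + 1), E j l i m B B' =
              ∑ j ∈ Finset.range (KK + 1), ∑ l ∈ Finset.range (KK + 1),
              ∑ i ∈ Finset.range (KK + 1), ∑ m ∈ Finset.range (KK + 1),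
                ∑ B' ∈ G, E j l i m B B' := by
            intro B _
            rw [Finset.sum_comm]
            refine Finset.sum_congr rfl fun j _ => ?_
            rw [Finset.sum_comm]
            refine Finset.sum_congr rfl fun l _ => ?_
            rw [Finset.sum_comm]
            refine Finset.sum_congr rfl fun i _ => ?_
            rw [Finset.sum_comm]
          rw [Finset.sum_congr rfl h1, Finset.sum_comm]
          refine Finset.sum_congr rfl fun j _ => ?_
          rw [Finset.sum_comm]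
          refine Finset.sum_congr rfl fun l _ => ?_
          rw [Finset.sum_comm]
          refine Finset.sum_congr rfl fun i _ => ?_
          rw [Finset.sum_comm]
    _ ≤ (1 + ε) * M1 ^ 2 + M1 + ∑ j ∈ Finset.range (KK + 1), ∑ l ∈ Finset.range (KK + 1),
            ∑ i ∈ Finset.range (KK + 1), ∑ m ∈ Finset.range (KK + 1), Bd j l i m := by
        refine add_le_add le_rfl ?_
        refine Finset.sum_le_sum fun j _ => Finset.sum_le_sum fun l _ =>
          Finset.sum_le_sum fun i _ => Finset.sum_le_sum fun m hm => ?_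
        refine (Finset.sum_le_sum fun B hB => step2 B hB j l i m).trans ?_
        exact step3 j l i m (Nat.lt_succ_iff.1 (Finset.mem_range.1 hm))
    _ ≤ (1 + ε) * M1 ^ 2 + M1 + Z * (Ct * Real.exp (2 * α * T)) := by
        exact add_le_add le_rfl hfinal
    _ = _ := by
        have h1 : Real.exp (2 * α * T) = Real.exp (α * T) ^ 2 := by
          rw [← Real.exp_nat_mul]; congr 1; push_cast; ring
        rw [h1, hZ]
        field_simp

end Pool.Agent.H86.CM
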