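import Pool.Agent.H86.CM.MatchDefs

/-!
# Decomposition of pairs of walks
-/

namespace Pool.Agent.H86.CM

section Lists

variable {α : Type}

/-- Two lists split after their longest common prefix. -/
theorem common_prefix (a a' : List α) :
    ∃ c p p', a = c ++ p ∧ a' = c ++ p' ∧
      ∀ x e x' e', p = x :: e → p' = x' :: e' → x ≠ x' := by
  induction a generalizing a' with
  | nil => exact ⟨[], [], a', rfl, rfl, fun x e x' e' h => by simp at h⟩
  | cons y a ih =>
    cases a' with
    | nil => exact ⟨[], y :: a, [], rfl, rfl, fun x e x' e' _ h => by simp at h⟩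
    | cons y' a' =>
      by_cases hy : y = y'
      · subst hy
        obtain ⟨c, p, p', h1, h2, h3⟩ := ih a'
        exact ⟨y :: c, p, p', by rw [h1]; rfl, by rw [h2]; rfl, h3⟩
      · refine ⟨[], y :: a, y' :: a', rfl, rfl, ?_⟩
        intro x e x' e' h h'
        simp only [List.cons.injEq] at h h'
        rw [← h.1, ← h'.1]
        exact hy

/-- Two lists split before their longest common suffix. -/
theorem common_suffix (a a' : List α) :
    ∃ p p' e, a = p ++ e ∧ a' = p' ++ e ∧
      ∀ c x c' x', p = c ++ [x] → p' = c' ++ [x'] → x ≠ x' := by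
  obtain ⟨c, p, p', h1, h2, h3⟩ := common_prefix a.reverse a'.reverse
  refine ⟨p.reverse, p'.reverse, c.reverse, ?_, ?_, ?_⟩
  · rw [← List.reverse_append, ← h1, List.reverse_reverse]
  · rw [← List.reverse_append, ← h2, List.reverse_reverse]
  · intro d x d' x' h h'
    refine h3 x d.reverse x' d'.reverse ?_ ?_
    · have := congrArg List.reverse h
      simpa using this
    · have := congrArg List.reverse h'
      simpa using this

/-- A list whose first element satisfies `P` and that has an element violating `P` splits. -/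
theorem first_bad (P : α → Prop) (l : List α) (hbad : ∃ x ∈ l, ¬ P x) :
    ∃ r x z, l = r ++ x :: z ∧ (∀ y ∈ r, P y) ∧ ¬ P x := by
  induction l with
  | nil => simp at hbad
  | cons y l ih =>
    by_cases hy : P y
    · have : ∃ x ∈ l, ¬ P x := by
        obtain ⟨x, hx, hP⟩ := hbad
        rcases List.mem_cons.1 hx with rfl | hx
        · exact absurd hy hP
        · exact ⟨x, hx, hP⟩
      obtain ⟨r, x, z, h1, h2, h3⟩ := ih this
      refine ⟨y :: r, x, z, by rw [h1]; rfl, ?_, h3⟩
      intro w hw
      rcases List.mem_cons.1 hw with rfl | hw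
      · exact hy
      · exact h2 w hw
    · exact ⟨[], y, l, rfl, by simp, hy⟩

/-- The same from the other end. -/
theorem last_bad (P : α → Prop) (l : List α) (hbad : ∃ x ∈ l, ¬ P x) :
    ∃ z x r, l = z ++ x :: r ∧ (∀ y ∈ r, P y) ∧ ¬ P x := by
  obtain ⟨r, x, z, h1, h2, h3⟩ := first_bad P l.reverse (by simpa using hbad)
  refine ⟨z.reverse, x, r.reverse, ?_, ?_, h3⟩
  · have := congrArg List.reverse h1
    simpa using this
  · intro y hy
    exact h2 y (by simpa using hy)

/-- The splitting of a list at the first occurrence of an element is unique. -/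
theorem split_unique {c c' t t' : List α} {p : α} (h : p ∉ c) (h' : p ∉ c')
    (he : c ++ p :: t = c' ++ p :: t') : c = c' ∧ t = t' := by
  induction c generalizing c' with
  | nil =>
    cases c' with
    | nil => simpa using he
    | cons y c' =>
      simp only [List.nil_append, List.cons_append, List.cons.injEq] at he
      exact absurd (by rw [he.1]; simp) h'
  | cons x c ih =>
    cases c' with
    | nil =>
      simp only [List.nil_append, List.cons_append, List.cons.injEq] at he
      exact absurd (by rw [he.1]; simp) h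
    | cons y c' =>
      simp only [List.cons_append, List.cons.injEq] at he
      obtain ⟨h1, h2⟩ := ih (fun hh => h (List.mem_cons_of_mem _ hh))
        (fun hh => h' (List.mem_cons_of_mem _ hh)) he.2
      exact ⟨by rw [he.1, h1], h2⟩

end Lists

variable {n : ℕ} {d : Fin n → ℕ}

/-- A walk of `σ` that starts in `W`, then visits distinct vertices outside `W`, and reaches a
target for the first time with its last step. -/
structure SW (σ : Pairing (HE d)) (W Tg : Finset (Fin n)) (a : List (HE d)) : Prop where
  ne : a ≠ []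
  head : ∀ x e, a = x :: e → x.1 ∈ W
  walk : ∀ c x y e, a = c ++ x :: y :: e → (σ.1 x).1 = y.1
  nodup : (a.map fun h => (σ.1 h).1).Nodup
  notW : ∀ h ∈ a, (σ.1 h).1 ∉ W
  last : ∀ c x, a = c ++ [x] → (σ.1 x).1 ∈ Tg
  inter : ∀ c x y e, a = c ++ x :: y :: e → (σ.1 x).1 ∉ Tg

/-- `x` and its partner do not occur in `a`. -/
def Fresh (σ : Pairing (HE d)) (a : List (HE d)) (x : HE d) : Prop := x ∉ a ∧ σ.1 x ∉ a

theorem mem_split_pred {α : Type} {a : List α} {h : α} (hh : h ∈ a) :
    (∃ e, a = h :: e) ∨ ∃ c p e, a = c ++ p :: h :: e := by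
  obtain ⟨s, t, rfl⟩ := List.append_of_mem hh
  rcases List.eq_nil_or_concat s with rfl | ⟨c, p, rfl⟩
  · left; exact ⟨t, rfl⟩
  · right; exact ⟨c, p, t, by simp⟩

theorem mem_split_succ {α : Type} {a : List α} {h : α} (hh : h ∈ a) :
    (∃ c, a = c ++ [h]) ∨ ∃ c p e, a = c ++ h :: p :: e := by
  obtain ⟨s, t, rfl⟩ := List.append_of_mem hh
  cases t with
  | nil => left; exact ⟨s, rfl⟩
  | cons p e => right; exact ⟨s, p, e, rfl⟩

namespace SW

variable {σ : Pairing (HE d)} {W Tg : Finset (Fin n)} {a a' : List (HE d)}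

theorem list_nodup (h : SW σ W Tg a) : a.Nodup := List.Nodup.of_map _ h.nodup

/-- The end vertices of the steps determine the steps. -/
theorem inj_end (h : SW σ W Tg a) {x y : HE d} (hx : x ∈ a) (hy : y ∈ a)
    (hxy : (σ.1 x).1 = (σ.1 y).1) : x = y :=
  List.inj_on_of_nodup_map h.nodup hx hy hxy

theorem mem_W (h : SW σ W Tg a) {x : HE d} (hx : x ∈ a) (hW : x.1 ∈ W) : ∃ e, a = x :: e := by
  rcases mem_split_pred hx with he | ⟨c, p, e, he⟩
  · exact he
  · exfalso
    have h1 := h.walk c p x e he
    have h2 : p ∈ a := by rw [he]; simp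
    exact h.notW p h2 (h1 ▸ hW)

/-- The start vertices of the steps determine the steps. -/
theorem inj_start (h : SW σ W Tg a) {x y : HE d} (hx : x ∈ a) (hy : y ∈ a)
    (hxy : x.1 = y.1) : x = y := by
  rcases mem_split_pred hx with ⟨e, he⟩ | ⟨c, p, e, he⟩
  · obtain ⟨e', he'⟩ := h.mem_W hy (hxy ▸ h.head x e he)
    rw [he] at he'
    simp only [List.cons.injEq] at he'
    exact he'.1
  · have h1 := h.walk c p x e he
    rcases mem_split_pred hy with ⟨e', he'⟩ | ⟨c', p', e', he'⟩
    · exfalso
      have h2 : p ∈ a := by rw [he]; simp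
      exact h.notW p h2 (by rw [h1, hxy]; exact h.head y e' he')
    · have h2 := h.walk c' p' y e' he'
      have hp : p ∈ a := by rw [he]; simp
      have hp' : p' ∈ a := by rw [he']; simp
      have h3 : p = p' := h.inj_end hp hp' (by rw [h1, h2, hxy])
      subst h3
      have h4 : c ++ p :: (x :: e) = c' ++ p :: (y :: e') := by rw [← he, ← he']
      have hnd : (c ++ p :: (x :: e)).Nodup := he ▸ h.list_nodup
      have hnd' : (c' ++ p :: (y :: e')).Nodup := he' ▸ h.list_nodup
      have hpc : p ∉ c := by
        intro hpc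
        rw [List.nodup_append] at hnd
        exact hnd.2.2 p hpc p (by simp) rfl
      have hpc' : p ∉ c' := by
        intro hpc
        rw [List.nodup_append] at hnd'
        exact hnd'.2.2 p hpc p (by simp) rfl
      have h5 := split_unique hpc hpc' h4
      simp only [List.cons.injEq] at h5
      exact h5.2.1

/-- A walk does not return along an edge. -/
theorem no_back (h : SW σ W Tg a) {x : HE d} (hx : x ∈ a) : σ.1 x ∉ a := by
  intro hy
  set y := σ.1 x with hyd
  have hxy : σ.1 y = x := σ.2.1 x
  have key : ∀ {x y : HE d}, x ∈ a → y ∈ a → y = σ.1 x → ∃ c e, a = c ++ x :: y :: e := by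
    intro x y hx hy hxy
    rcases mem_split_pred hy with ⟨e, he⟩ | ⟨c, p, e, he⟩
    · exfalso
      exact h.notW x hx (hxy ▸ h.head y e he)
    · have h1 := h.walk c p y e he
      have hp : p ∈ a := by rw [he]; simp
      have h2 : p = x := h.inj_end hp hx (by rw [h1, hxy])
      exact ⟨c, e, by rw [← h2]; exact he⟩
  obtain ⟨c, e, h1⟩ := key hx hy hyd
  obtain ⟨c', e', h2⟩ := key hy hx hxy.symm
  -- `x` comes immediately before `y` and `y` immediately before `x`
  have hnd := h.list_nodup
  rw [h1] at h2
  have hnd1 : (c ++ x :: y :: e).Nodup := h1 ▸ hnd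
  have hnd2 : (c' ++ y :: x :: e').Nodup := h2 ▸ hnd1
  have hxc : y ∉ c' := by
    intro hxc
    rw [List.nodup_append] at hnd2
    exact hnd2.2.2 y hxc y (by simp) rfl
  have hyc : y ∉ c ++ [x] := by
    intro hyc
    have : (c ++ [x] ++ y :: e).Nodup := by simpa using hnd1
    rw [List.nodup_append] at this
    exact this.2.2 y hyc y (by simp) rfl
  have h3 : (c ++ [x]) ++ y :: e = c' ++ y :: (x :: e') := by simpa using h2
  have h4 := split_unique hyc hxc h3
  have : x ∈ c' := by rw [← h4.1]; simp
  rw [List.nodup_append] at hnd2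
  exact hnd2.2.2 x this x (by simp) rfl

theorem mem_Tg (h : SW σ W Tg a) {x : HE d} (hx : x ∈ a) (hT : (σ.1 x).1 ∈ Tg) :
    ∃ c, a = c ++ [x] := by
  rcases mem_split_succ hx with he | ⟨c, p, e, he⟩
  · exact he
  · exact absurd hT (h.inter c x p e he)

theorem start_not_Tg (h : SW σ W Tg a) (hd : Disjoint W Tg) {x : HE d} (hx : x ∈ a) :
    x.1 ∉ Tg := by
  rcases mem_split_pred hx with ⟨e, he⟩ | ⟨c, p, e, he⟩
  · exact Finset.disjoint_left.1 hd (h.head x e he)
  · rw [← h.walk c p x e he]
    exact h.inter c p x e he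

/-- Structure of two distinct walks: after the common prefix and before the common suffix, the
first and the last step of the second walk are fresh. -/
theorem structural (h : SW σ W Tg a) (h' : SW σ W Tg a') (hd : Disjoint W Tg) (hne : a ≠ a') :
    ∃ c mid e R, a = c ++ mid ++ e ∧ a' = c ++ R ++ e ∧ mid ≠ [] ∧ R ≠ [] ∧
      (∀ x z, R = x :: z → Fresh σ a x) ∧ (∀ z x, R = z ++ [x] → Fresh σ a x) := by
  obtain ⟨c, p, p', hp, hp', hpp⟩ := common_prefix a a'
  obtain ⟨mid, R, e, hm, hR, hmR⟩ := common_suffix p p'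
  have ha : a = c ++ mid ++ e := by rw [hp, hm, List.append_assoc]
  have ha' : a' = c ++ R ++ e := by rw [hp', hR, List.append_assoc]
  -- neither middle part is empty
  have aux : ∀ {a a' : List (HE d)} (_ : SW σ W Tg a) (_ : SW σ W Tg a')
      (c mid e R : List (HE d)), a = c ++ mid ++ e → a' = c ++ R ++ e → a ≠ a' → mid ≠ [] := by
    intro a a' h h' c mid e R ha ha' hne hmid
    subst hmid
    have hRne : R ≠ [] := by
      rintro rfl
      exact hne (by rw [ha, ha'])
    rw [List.append_nil] at ha
    obtain ⟨r1, R', rfl⟩ := List.exists_cons_of_ne_nil hRne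
    cases e with
    | nil =>
      rw [List.append_nil] at ha
      rcases List.eq_nil_or_concat c with rfl | ⟨c0, g, rfl⟩
      · exact h.ne ha
      · have h1 := h.last c0 g (by rw [ha]; simp)
        exact h'.inter c0 g r1 R' (by rw [ha']; simp) h1
    | cons x e0 =>
      obtain ⟨R0, r, hRr⟩ : ∃ R0 r, r1 :: R' = R0 ++ [r] := by
        rcases List.eq_nil_or_concat (r1 :: R') with h0 | ⟨R0, r, h0⟩
        · simp at h0
        · exact ⟨R0, r, by rw [h0]; simp⟩
      rw [hRr] at ha'
      have hr : (σ.1 r).1 = x.1 := h'.walk (c ++ R0) r x e0 (by rw [ha']; simp)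
      have hra : r ∈ a' := by rw [ha']; simp
      have hxa : x ∈ a' := by rw [ha']; simp
      rcases List.eq_nil_or_concat c with rfl | ⟨c0, g, rfl⟩
      · exact h'.notW r hra (by rw [hr]; exact h.head x e0 (by rw [ha]; simp))
      · have hg : (σ.1 g).1 = x.1 := h.walk c0 g x e0 (by rw [ha]; simp)
        have hga : g ∈ a' := by rw [ha']; simp
        have hrg : g = r := h'.inj_end hga hra (by rw [hr, hg])
        have hnd := h'.list_nodup
        rw [ha'] at hnd
        have h2 : (c0.concat g ++ (R0 ++ [r]) ++ x :: e0) =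
            (c0 ++ [g]) ++ ((R0 ++ [r]) ++ (x :: e0)) := by simp
        rw [h2, List.nodup_append] at hnd
        exact hnd.2.2 g (by simp) g (by rw [hrg]; simp) rfl
  have hmid : mid ≠ [] := aux h h' c mid e R ha ha' hne
  have hRne : R ≠ [] := aux h' h c R e mid ha' ha (Ne.symm hne)
  refine ⟨c, mid, e, R, ha, ha', hmid, hRne, ?_, ?_⟩
  · -- the first step
    intro r z hRz
    obtain ⟨q, mid', hq⟩ := List.exists_cons_of_ne_nil hmid
    have hqr : q ≠ r := hpp q (mid' ++ e) r (z ++ e) (by rw [hm, hq]; simp)
      (by rw [hR, hRz]; simp)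
    have hra : r ∈ a' := by rw [ha', hRz]; simp
    have hqa : q ∈ a := by rw [ha, hq]; simp
    rcases List.eq_nil_or_concat c with rfl | ⟨c0, g, rfl⟩
    · have hrW : r.1 ∈ W := h'.head r (z ++ e) (by rw [ha', hRz]; simp)
      have hqW : q.1 ∈ W := h.head q (mid' ++ e) (by rw [ha, hq]; simp)
      constructor
      · intro hr
        obtain ⟨e1, he1⟩ := h.mem_W hr hrW
        obtain ⟨e2, he2⟩ := h.mem_W hqa hqW
        rw [he1] at he2
        simp only [List.cons.injEq] at he2
        exact hqr he2.1.symm
      · intro hr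
        have := h.notW _ hr
        rw [σ.2.1] at this
        exact this hrW
    · have hg1 : (σ.1 g).1 = r.1 := h'.walk c0 g r (z ++ e) (by rw [ha', hRz]; simp)
      have hg2 : (σ.1 g).1 = q.1 := h.walk c0 g q (mid' ++ e) (by rw [ha, hq]; simp)
      have hga : g ∈ a := by rw [ha]; simp
      have hga' : g ∈ a' := by rw [ha']; simp
      constructor
      · intro hr
        exact hqr (h.inj_start hqa hr (by rw [← hg1, ← hg2]))
      · intro hr
        have h1 : σ.1 r = g := h.inj_end hr hga (by rw [σ.2.1, hg1])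
        have h2 := h'.no_back hra
        rw [h1] at h2
        exact h2 hga'
  · -- the last step
    intro z r hRz
    obtain ⟨mid', q, hq⟩ : ∃ mid' q, mid = mid' ++ [q] := by
      rcases List.eq_nil_or_concat mid with h0 | ⟨R0, r, h0⟩
      · exact absurd h0 hmid
      · exact ⟨R0, r, by rw [h0]; simp⟩
    have hqr : q ≠ r := hmR mid' q z r hq hRz
    have hra : r ∈ a' := by rw [ha', hRz]; simp
    have hqa : q ∈ a := by rw [ha, hq]; simp
    cases e with
    | nil =>
      have hrT : (σ.1 r).1 ∈ Tg := h'.last (c ++ z) r (by rw [ha', hRz]; simp)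
      have hqT : (σ.1 q).1 ∈ Tg := h.last (c ++ mid') q (by rw [ha, hq]; simp)
      constructor
      · intro hr
        obtain ⟨c1, hc1⟩ := h.mem_Tg hr hrT
        obtain ⟨c2, hc2⟩ := h.mem_Tg hqa hqT
        rw [hc1] at hc2
        have := List.append_inj_right' hc2 rfl
        simp only [List.cons.injEq, and_true] at this
        exact hqr this.symm
      · intro hr
        exact h.start_not_Tg hd hr hrT
    | cons x e0 =>
      have hr1 : (σ.1 r).1 = x.1 := h'.walk (c ++ z) r x e0 (by rw [ha', hRz]; simp)
      have hq1 : (σ.1 q).1 = x.1 := h.walk (c ++ mid') q x e0 (by rw [ha, hq]; simp)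
      have hxa : x ∈ a := by rw [ha]; simp
      have hxa' : x ∈ a' := by rw [ha']; simp
      constructor
      · intro hr
        exact hqr (h.inj_end hqa hr (by rw [hq1, hr1]))
      · intro hr
        have h1 : σ.1 r = x := h.inj_start hr hxa hr1
        have h2 := h'.no_back hra
        rw [h1] at h2
        exact h2 hxa'

end SW

end Pool.Agent.H86.CM
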